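import Pool.Agent.Lib_helper2.QG.Defs

/-!
# Liberman's inequality at a corner of a quasigeodesic
-/

open scoped RealInnerProductSpace

namespace QG

open InnerProductGeometry Filter Topology

theorem chain_angle (K : Set E3) (p : E3) : ∀ (l : List E3) (u v : E3), l.head? = some u →
    l.getLast? = some v → l.IsChain (Sector K p) → u ≠ 0 → angle u v ≤ angleSum l
  | [], u, v, h, _, _, _ => by simp at h
  | [a], u, v, h, h', _, hu => by
    simp only [List.head?_cons, Option.some.injEq] at h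
    simp only [List.getLast?_singleton, Option.some.injEq] at h'
    subst h; subst h'
    rw [angle_self hu]
    exact le_refl _
  | a :: b :: l, u, v, h, h', hc, hu => by
    simp only [List.head?_cons, Option.some.injEq] at h
    subst h
    rw [List.isChain_cons_cons] at hc
    have ih := chain_angle K p (b :: l) b v (by simp) (by simpa using h') hc.2 hc.1.2.1
    have := angle_le_angle_add_angle a b v
    show _ ≤ angle a b + angleSum (b :: l)
    linarith

theorem fan_angle (K : Set E3) (p w : E3) (hw : w ≠ 0) : ∀ (l : List E3) (u v : E3),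
    l.head? = some u → l.getLast? = some v → l.IsChain (Sector K p) → Sweeps l w →
    angle u w + angle w v ≤ angleSum l
  | [], u, v, h, _, _, _ => by simp at h
  | [a], u, v, h, h', _, hs => by simp [Sweeps] at hs
  | a :: b :: l, u, v, h, h', hc, hs => by
    simp only [List.head?_cons, Option.some.injEq] at h
    subst h
    rw [List.isChain_cons_cons] at hc
    show _ ≤ angle a b + angleSum (b :: l)
    rcases hs with ⟨s, t, hs0, ht0, hst⟩ | hs
    · have h1 : angle a b = angle a w + angle w b := by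
        refine angle_eq_angle_add_add_angle_add_of_mem_span hw ?_
        rw [Submodule.mem_span_pair]
        exact ⟨⟨s, hs0⟩, ⟨t, ht0⟩, hst.symm⟩
      have h2 := chain_angle K p (b :: l) b v (by simp) (by simpa using h') hc.2 hc.1.2.1
      have h3 := angle_le_angle_add_angle w b v
      linarith
    · have ih := fan_angle K p w hw (b :: l) b v (by simp) (by simpa using h') hc.2 hs
      have := angle_le_angle_add_angle a b w
      linarith

/-- the inequality for directions whose angles with `u` and `v` have sum at most `π` -/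
theorem inner_nonneg_of_angle (u v w : E3) (hu : u ≠ 0) (hv : v ≠ 0)
    (h : angle u w + angle w v ≤ Real.pi) : 0 ≤ ⟪‖u‖⁻¹ • u + ‖v‖⁻¹ • v, w⟫ := by
  have hu' : ‖u‖ ≠ 0 := norm_ne_zero_iff.mpr hu
  have hv' : ‖v‖ ≠ 0 := norm_ne_zero_iff.mpr hv
  have h1 : Real.cos (Real.pi - angle u w) ≤ Real.cos (angle w v) :=
    Real.cos_le_cos_of_nonneg_of_le_pi (angle_nonneg w v) (by linarith [angle_nonneg u w])
      (by linarith)
  rw [Real.cos_pi_sub] at h1
  have h2 := cos_angle_mul_norm_mul_norm u w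
  have h3 := cos_angle_mul_norm_mul_norm w v
  rw [inner_add_left, real_inner_smul_left, real_inner_smul_left, ← h2, real_inner_comm w v, ← h3]
  have e : ‖u‖⁻¹ * (Real.cos (angle u w) * (‖u‖ * ‖w‖)) +
      ‖v‖⁻¹ * (Real.cos (angle w v) * (‖w‖ * ‖v‖)) =
      (Real.cos (angle u w) + Real.cos (angle w v)) * ‖w‖ := by
    field_simp
  rw [e]
  exact mul_nonneg (by linarith) (norm_nonneg _)

/-- the quasigeodesic inequality for surface directions -/
theorem inner_nonneg_of_surface (K : Set E3) (p u v w : E3) (hu : u ≠ 0) (hv : v ≠ 0)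
    (h : QuasigeodesicAt K p u v)
    (hw : w ≠ 0 → ∃ ε > 0, ∀ t : ℝ, 0 ≤ t → t ≤ ε → p + t • w ∈ frontier K) :
    0 ≤ ⟪‖u‖⁻¹ • u + ‖v‖⁻¹ • v, w⟫ := by
  by_cases hw0 : w = 0
  · subst hw0; simp
  obtain ⟨l, r, hl, hr, hls, hrs, hsw⟩ := h
  rcases hsw w hw0 (hw hw0) with hs | hs
  · exact inner_nonneg_of_angle u v w hu hv
      ((fan_angle K p w hw0 l u v hl.1 hl.2.1 hl.2.2 hs).trans hls)
  · exact inner_nonneg_of_angle u v w hu hv
      ((fan_angle K p w hw0 r u v hr.1 hr.2.1 hr.2.2 hs).trans hrs)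

/-- boundary directions of the tangent cone are surface directions -/
theorem surface_dir {m : ℕ} (a : Fin m → E3) (b : Fin m → ℝ) (K : Set E3)
    (hK : K = {x : E3 | ∀ i, ⟪a i, x⟫ ≤ b i}) (p w : E3) (hp : p ∈ K)
    (hw : ∀ k, ⟪a k, p⟫ = b k → ⟪a k, w⟫ ≤ 0)
    (hbd : ∃ k, ⟪a k, p⟫ = b k ∧ ⟪a k, w⟫ = 0 ∧ a k ≠ 0) :
    ∃ ε > 0, ∀ t : ℝ, 0 ≤ t → t ≤ ε → p + t • w ∈ frontier K := by
  have hp' : ∀ i, ⟪a i, p⟫ ≤ b i := by rw [hK] at hp; exact hp
  have hev : ∀ᶠ t : ℝ in 𝓝 0, ∀ k, ⟪a k, p⟫ < b k → ⟪a k, p + t • w⟫ < b k := by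
    rw [eventually_all]
    intro k
    by_cases hk : ⟪a k, p⟫ < b k
    · have hc : Continuous (fun t : ℝ => ⟪a k, p + t • w⟫) := by fun_prop
      have : ∀ᶠ t : ℝ in 𝓝 0, ⟪a k, p + t • w⟫ < b k := by
        refine hc.continuousAt.eventually (gt_mem_nhds ?_)
        simpa using hk
      filter_upwards [this] with t ht _
      exact ht
    · exact Eventually.of_forall fun t h => absurd h hk
  obtain ⟨ε, hε, hball⟩ := Metric.eventually_nhds_iff.mp hev
  refine ⟨ε / 2, by positivity, fun t ht0 htε => ?_⟩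
  have hmem : p + t • w ∈ K := by
    rw [hK]
    intro k
    rcases (hp' k).lt_or_eq with hk | hk
    · refine (hball ?_ k hk).le
      rw [Real.dist_eq, sub_zero, abs_of_nonneg ht0]; linarith
    · rw [inner_add_right, real_inner_smul_right, hk]
      have := mul_nonpos_of_nonneg_of_nonpos ht0 (hw k hk)
      linarith
  refine ⟨subset_closure hmem, fun hint => ?_⟩
  obtain ⟨k, hk1, hk2, hk3⟩ := hbd
  rw [mem_interior_iff_mem_nhds] at hint
  have hc : Continuous (fun δ : ℝ => (p + t • w) + δ • a k) := by fun_prop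
  have hev2 : ∀ᶠ δ : ℝ in 𝓝 0, (p + t • w) + δ • a k ∈ K := by
    refine hc.continuousAt.preimage_mem_nhds ?_
    simpa using hint
  obtain ⟨ε', hε', hball'⟩ := Metric.eventually_nhds_iff.mp hev2
  have h1 := hball' (y := ε' / 2) (by
    rw [Real.dist_eq, sub_zero, abs_of_pos (by positivity)]; linarith)
  rw [hK] at h1
  have h2 : ⟪a k, (p + t • w) + (ε' / 2) • a k⟫ ≤ b k := h1 k
  rw [inner_add_right, inner_add_right, real_inner_smul_right, real_inner_smul_right, hk1, hk2,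
    real_inner_self_eq_norm_sq] at h2
  have h3 : 0 < ‖a k‖ ^ 2 := by
    have := norm_pos_iff.mpr hk3
    positivity
  nlinarith

/-- the exit point of the tangent cone in direction `d` -/
theorem exit_dir {m : ℕ} (a : Fin m → E3) (b : Fin m → ℝ) (p y d : E3)
    (hy : ∀ k, ⟪a k, p⟫ = b k → ⟪a k, y⟫ ≤ 0) (i : Fin m) (hi : ⟪a i, p⟫ = b i)
    (hid : 0 < ⟪a i, d⟫) :
    ∃ T : ℝ, 0 ≤ T ∧ (∀ k, ⟪a k, p⟫ = b k → ⟪a k, y + T • d⟫ ≤ 0) ∧
      ∃ k, ⟪a k, p⟫ = b k ∧ ⟪a k, y + T • d⟫ = 0 ∧ a k ≠ 0 := by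
  classical
  set S : Finset (Fin m) := Finset.univ.filter (fun k => ⟪a k, p⟫ = b k ∧ 0 < ⟪a k, d⟫) with hS
  have hne : S.Nonempty := ⟨i, by rw [hS, Finset.mem_filter]; exact ⟨Finset.mem_univ _, hi, hid⟩⟩
  obtain ⟨k, hkS, hk⟩ := S.exists_min_image (fun k => -⟪a k, y⟫ / ⟪a k, d⟫) hne
  rw [hS, Finset.mem_filter] at hkS
  obtain ⟨-, hk1, hk2⟩ := hkS
  refine ⟨-⟪a k, y⟫ / ⟪a k, d⟫, ?_, ?_, k, hk1, ?_, ?_⟩
  · exact div_nonneg (by linarith [hy k hk1]) hk2.le
  · intro j hj
    rw [inner_add_right, real_inner_smul_right]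
    have hT0 : 0 ≤ -⟪a k, y⟫ / ⟪a k, d⟫ := div_nonneg (by linarith [hy k hk1]) hk2.le
    rcases le_or_gt ⟪a j, d⟫ 0 with hjd | hjd
    · have := mul_nonpos_of_nonneg_of_nonpos hT0 hjd
      linarith [hy j hj]
    · have hjS : j ∈ S := by rw [hS, Finset.mem_filter]; exact ⟨Finset.mem_univ _, hj, hjd⟩
      have := hk j hjS
      rw [le_div_iff₀ hjd] at this
      linarith
  · rw [inner_add_right, real_inner_smul_right, div_mul_cancel₀ _ hk2.ne']
    ring
  · rintro h0
    rw [h0, inner_zero_left] at hk2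
    exact lt_irrefl _ hk2

/-- **L** (Liberman's inequality). -/
theorem liberman {m : ℕ} (a : Fin m → E3) (b : Fin m → ℝ) (K : Set E3)
    (hK : K = {x : E3 | ∀ i, ⟪a i, x⟫ ≤ b i}) (p u v : E3) (hp : p ∈ K) (i j : Fin m)
    (hi : ⟪a i, p⟫ = b i) (hj : ⟪a j, p⟫ = b j) (hij : LinearIndependent ℝ ![a i, a j])
    (hu : u ≠ 0) (hv : v ≠ 0) (h : QuasigeodesicAt K p u v) :
    ∀ x ∈ K, 0 ≤ ⟪‖u‖⁻¹ • u + ‖v‖⁻¹ • v, x - p⟫ := by
  intro x hx
  have hx' : ∀ i, ⟪a i, x⟫ ≤ b i := by rw [hK] at hx; exact hx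
  have hy : ∀ k, ⟪a k, p⟫ = b k → ⟪a k, x - p⟫ ≤ 0 := by
    intro k hk
    rw [inner_sub_right, hk]
    linarith [hx' k]
  have hpair := LinearIndependent.pair_iff.mp hij
  have hai : a i ≠ 0 := by
    intro h0
    have := hpair 1 0 (by rw [h0]; simp)
    exact one_ne_zero this.1
  have haj : a j ≠ 0 := by
    intro h0
    have := hpair 0 1 (by rw [h0]; simp)
    exact one_ne_zero this.2
  have hni : 0 < ‖a i‖ := norm_pos_iff.mpr hai
  have hnj : 0 < ‖a j‖ := norm_pos_iff.mpr haj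
  have hlt : ⟪a i, a j⟫ < ‖a i‖ * ‖a j‖ := by
    rw [inner_lt_norm_mul_iff_real]
    intro h0
    have := hpair ‖a j‖ (-‖a i‖) (by rw [h0, neg_smul, add_neg_cancel])
    exact hnj.ne' this.1
  set d : E3 := ‖a j‖ • a i - ‖a i‖ • a j with hd
  have hid : 0 < ⟪a i, d⟫ := by
    rw [hd, inner_sub_right, real_inner_smul_right, real_inner_smul_right,
      real_inner_self_eq_norm_sq]
    nlinarith
  have hjd : 0 < ⟪a j, -d⟫ := by
    rw [hd, inner_neg_right, inner_sub_right, real_inner_smul_right, real_inner_smul_right,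
      real_inner_self_eq_norm_sq, real_inner_comm]
    nlinarith
  obtain ⟨T, hT0, hT1, hT2⟩ := exit_dir a b p (x - p) d hy i hi hid
  obtain ⟨T', hT0', hT1', hT2'⟩ := exit_dir a b p (x - p) (-d) hy j hj hjd
  have g1 := inner_nonneg_of_surface K p u v (x - p + T • d) hu hv h
    (fun _ => surface_dir a b K hK p _ hp hT1 hT2)
  have g2 := inner_nonneg_of_surface K p u v (x - p + T' • (-d)) hu hv h
    (fun _ => surface_dir a b K hK p _ hp hT1' hT2')
  set n : E3 := ‖u‖⁻¹ • u + ‖v‖⁻¹ • v with hn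
  rw [inner_add_right, real_inner_smul_right] at g1 g2
  rw [inner_neg_right] at g2
  rcases eq_or_lt_of_le hT0 with hT | hT
  · rw [← hT, zero_mul, add_zero] at g1
    exact g1
  · have h3 := mul_nonneg hT0' g1
    have h4 := mul_nonneg hT.le g2
    have h5 : 0 ≤ (T + T') * ⟪n, x - p⟫ := by nlinarith
    exact nonneg_of_mul_nonneg_right h5 (by linarith)

end QG
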