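import Pool.Agent.Lib_helper52.CubeDefs

open Topology Bundle

namespace Pool.Agent.Lib_helper52.Cube

variable {n : ℕ} {S : Finset (Square n)}

/-- the point of the cube corresponding to a vertex -/
def pt (v : Fin n → Bool) : Fin n → ℝ := fun i => if v i then 1 else 0

/-- `(I, v)` is a cell of the complex -/
def IsCell (S : Finset (Square n)) (I : Finset (Fin n)) (v : Fin n → Bool) : Prop :=
  I.card ≤ 1 ∨ ∃ s ∈ S, s.1 = (I, v)

lemma mem_complex_iff {x : Fin n → ℝ} :
    x ∈ complex S ↔ ∃ I v, IsCell S I v ∧ x ∈ face I v := by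
  constructor
  · rintro (⟨I, v, h, hx⟩ | ⟨s, hs, hx⟩)
    · exact ⟨I, v, Or.inl h, hx⟩
    · exact ⟨s.1.1, s.1.2, Or.inr ⟨s, hs, rfl⟩, hx⟩
  · rintro ⟨I, v, h | ⟨s, hs, h⟩, hx⟩
    · exact Or.inl ⟨I, v, h, hx⟩
    · refine Or.inr ⟨s, hs, ?_⟩
      rw [h]; exact hx

/-- `u` is a vertex of the face `(I, v)` -/
def Vx (I : Finset (Fin n)) (v u : Fin n → Bool) : Prop := ∀ i ∉ I, u i = v i

lemma pt_mem_face {I : Finset (Fin n)} {v u : Fin n → Bool} (h : Vx I v u) : pt u ∈ face I v := by
  refine ⟨fun i _ => ?_, fun i hi => ?_⟩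
  · unfold pt; split_ifs <;> simp
  · unfold pt; rw [h i hi]

lemma face_subset_complex {I : Finset (Fin n)} {v : Fin n → Bool} (h : IsCell S I v) :
    face I v ⊆ complex S := fun _ hx => mem_complex_iff.2 ⟨I, v, h, hx⟩

lemma pt_mem (v : Fin n → Bool) : pt v ∈ complex S :=
  face_subset_complex (I := ∅) (v := v) (Or.inl (by simp)) (pt_mem_face fun _ _ => rfl)

/-- the vertex `v`, as a point of the complex -/
def vtx (S : Finset (Square n)) (v : Fin n → Bool) : complex S := ⟨pt v, pt_mem v⟩

lemma mem_Icc_of_mem_complex {x : Fin n → ℝ} (hx : x ∈ complex S) (i : Fin n) :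
    x i ∈ Set.Icc (0 : ℝ) 1 := by
  obtain ⟨I, v, _, h⟩ := mem_complex_iff.1 hx
  by_cases hi : i ∈ I
  · exact h.1 i hi
  · rw [h.2 i hi]; split_ifs <;> simp

/-- a cocycle with values in the group with two elements -/
def IsCocycle (S : Finset (Square n)) (c : (Fin n → Bool) → (Fin n → Bool) → Bool) : Prop :=
  ∀ I v, IsCell S I v → ∀ x y z, Vx I v x → Vx I v y → Vx I v z → ((c x y) ^^ (c y z)) = c x z

/-- the open star of a vertex -/
def near (x : Fin n → ℝ) (v : Fin n → Bool) : Prop := ∀ i, |x i - pt v i| < 1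

lemma Vx_of_near {I : Finset (Fin n)} {v u : Fin n → Bool} {x : Fin n → ℝ} (hx : x ∈ face I v)
    (h : near x u) : Vx I v u := by
  intro i hi
  have h1 := hx.2 i hi
  have h2 := h i
  rw [h1] at h2
  unfold pt at h2
  cases hu : u i <;> cases hv : v i <;> simp [hu, hv] at h2 ⊢

/-- nearest vertex -/
noncomputable def idx (x : Fin n → ℝ) : Fin n → Bool := fun i => decide (1 / 2 < x i)

lemma near_idx {x : Fin n → ℝ} (hx : ∀ i, x i ∈ Set.Icc (0 : ℝ) 1) : near x (idx x) := by
  intro i
  obtain ⟨h0, h1⟩ := hx i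
  unfold pt idx
  by_cases h : 1 / 2 < x i
  · simp only [h, decide_true, if_true]
    rw [abs_lt]; constructor <;> linarith
  · simp only [h, decide_false]
    rw [abs_lt]; push Not at h; constructor <;> simp <;> linarith

lemma IsCocycle.near {c : (Fin n → Bool) → (Fin n → Bool) → Bool} (hc : IsCocycle S c)
    {x : Fin n → ℝ} (hx : x ∈ complex S) {u v w : Fin n → Bool} (hu : near x u) (hv : near x v)
    (hw : near x w) : ((c u v) ^^ (c v w)) = c u w := by
  obtain ⟨I, v₀, hI, h⟩ := mem_complex_iff.1 hx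
  exact hc I v₀ hI u v w (Vx_of_near h hu) (Vx_of_near h hv) (Vx_of_near h hw)

lemma IsCocycle.self {c : (Fin n → Bool) → (Fin n → Bool) → Bool} (hc : IsCocycle S c)
    (u : Fin n → Bool) : c u u = false := by
  have := hc ∅ u (Or.inl (by simp)) u u u (fun _ _ => rfl) (fun _ _ => rfl) (fun _ _ => rfl)
  cases h : c u u <;> simp_all

/-- the double cover defined by a cocycle -/
noncomputable def core {c : (Fin n → Bool) → (Fin n → Bool) → Bool} (hc : IsCocycle S c) :
    FiberBundleCore (Fin n → Bool) (complex S) Bool where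
  baseSet v := {x | near x.1 v}
  isOpen_baseSet v := by
    have : {x : complex S | near x.1 v} = ⋂ i, {x | |x.1 i - pt v i| < 1} := by
      ext; simp [near]
    rw [this]
    exact isOpen_iInter_of_finite fun i => isOpen_lt
      (((continuous_apply i).comp continuous_subtype_val).sub continuous_const).abs continuous_const
  indexAt x := idx x.1
  mem_baseSet_at x := near_idx (mem_Icc_of_mem_complex x.2)
  coordChange u v _ a := a ^^ (c u v)
  coordChange_self u x _ a := by rw [hc.self]; simp
  continuousOn_coordChange u v := by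
    apply Continuous.continuousOn
    exact (continuous_of_discreteTopology (f := fun a : Bool => a ^^ (c u v))).comp continuous_snd
  coordChange_comp u v w x hx a := by
    have := hc.near x.2 hx.1.1 hx.1.2 hx.2
    rw [← this]; cases a <;> cases c u v <;> cases c v w <;> rfl

lemma isCoveringMap {c : (Fin n → Bool) → (Fin n → Bool) → Bool} (hc : IsCocycle S c) :
    IsCoveringMap (TotalSpace.proj : (core hc).TotalSpace → complex S) :=
  FiberBundle.isCoveringMap

end Pool.Agent.Lib_helper52.Cube
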