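import Mathlib

/-!
# Random two-dimensional cubical complexes

The definitions follow problem MP_422525_pr.
-/

namespace Pool.Agent.Lib_helper52.Cube

/-- The closed face of the cube `[0,1]^n` in which the coordinates with index in `I` range over
`[0,1]` and the other coordinates are those of the vertex `v` (`true` stands for `1`, `false` for
`0`). It is a vertex, an edge or a square if `I` has `0`, `1` or `2` elements. -/
def face {n : ℕ} (I : Finset (Fin n)) (v : Fin n → Bool) : Set (Fin n → ℝ) :=
  {x | (∀ i ∈ I, x i ∈ Set.Icc (0 : ℝ) 1) ∧ ∀ i ∉ I, x i = if v i then 1 else 0}

/-- The squares of the cube `[0,1]^n`: a set `I` of two free directions, and the vertex `v` of the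
square in which these two coordinates vanish. -/
abbrev Square (n : ℕ) : Type :=
  {s : Finset (Fin n) × (Fin n → Bool) // s.1.card = 2 ∧ ∀ i ∈ s.1, s.2 i = false}

/-- The complex with all vertices and edges of the cube `[0,1]^n` and with the set `S` of squares:
the union of these closed faces, with the topology induced by `ℝ^n`. -/
def complex {n : ℕ} (S : Finset (Square n)) : Set (Fin n → ℝ) :=
  {x | (∃ (I : Finset (Fin n)) (v : Fin n → Bool), I.card ≤ 1 ∧ x ∈ face I v) ∨
    ∃ s ∈ S, x ∈ face s.1.1 s.1.2}

/-- The origin, as a point of the complex. -/
def origin {n : ℕ} (S : Finset (Square n)) : complex S :=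
  ⟨0, Or.inl ⟨∅, fun _ => false, by simp, by simp [face]⟩⟩

/-- A group is torsion free if its only element of finite order is the identity. -/
def TorsionFree (G : Type*) [Group G] : Prop := ∀ g : G, IsOfFinOrder g → g = 1

open Classical in
/-- The probability of the event `E` for the random complex `Q_2(n,p)`: each square of the cube is
included independently with probability `p`, so a set `S` of squares has probability
`p ^ |S| * (1 - p) ^ (N - |S|)`, with `N` the number of squares. -/
noncomputable def prob (n : ℕ) (p : ℝ) (E : Set (Finset (Square n))) : ℝ :=
  ∑ S : Finset (Square n),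
    if S ∈ E then p ^ S.card * (1 - p) ^ (Fintype.card (Square n) - S.card) else 0

/-- The event that the fundamental group of the complex, based at the origin, is torsion free. -/
def torsionFreeEvent (n : ℕ) : Set (Finset (Square n)) :=
  {S | TorsionFree (FundamentalGroup (complex S) (origin S))}

end Pool.Agent.Lib_helper52.Cube
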