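import Pool.Agent.Lib_helper52.CubeSeg

open Topology Bundle

namespace Pool.Agent.Lib_helper52.Cube

variable {n : ℕ} {S : Finset (Square n)}

lemma joined_origin (S : Finset (Square n)) (u : Fin n → Bool) :
    Joined (origin S) (vtx S u) := by
  classical
  have h : ∀ F : Finset (Fin n), Joined (vtx S fun _ => false)
      (vtx S fun i => if i ∈ F then u i else false) := by
    intro F
    induction F using Finset.induction_on with
    | empty => simpa using Joined.refl _
    | insert a F ha ih =>
      refine ih.trans ⟨segPath ⟨{a}, fun i => if i ∈ F then u i else false, Or.inl (by simp),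
        fun _ _ => rfl, ?_⟩⟩
      intro i hi
      simp only [Finset.mem_singleton] at hi
      simp [hi]
  have h1 := h Finset.univ
  have h2 : (vtx S fun _ => false) = origin S := by
    apply Subtype.ext
    funext i
    simp [vtx, pt, origin]
  rw [h2] at h1
  simpa using h1

/-- a chosen path class from the origin to a vertex -/
noncomputable def tau (S : Finset (Square n)) (u : Fin n → Bool) :
    Path.Homotopic.Quotient (origin S) (vtx S u) := .mk (joined_origin S u).somePath

/-- the class of a path between vertices, closed up to a loop at the origin -/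
noncomputable def H {z u : Fin n → Bool} (γ : Path.Homotopic.Quotient (vtx S z) (vtx S u)) :
    FundamentalGroup (complex S) (origin S) :=
  ((tau S z).trans (γ.trans (tau S u).symm) : Path.Homotopic.Quotient (origin S) (origin S))

lemma H_mul {z w u : Fin n → Bool} (γ₁ : Path.Homotopic.Quotient (vtx S w) (vtx S u))
    (γ₂ : Path.Homotopic.Quotient (vtx S z) (vtx S w)) : H γ₁ * H γ₂ = H (γ₂.trans γ₁) := by
  change ((tau S z).trans (γ₂.trans (tau S w).symm)).trans
    ((tau S w).trans (γ₁.trans (tau S u).symm)) =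
      (tau S z).trans ((γ₂.trans γ₁).trans (tau S u).symm)
  simp only [Path.Homotopic.Quotient.trans_assoc]
  rw [← Path.Homotopic.Quotient.trans_assoc (tau S w).symm, Path.Homotopic.Quotient.symm_trans,
    Path.Homotopic.Quotient.refl_trans]

lemma H_refl (u : Fin n → Bool) : H (.refl (vtx S u)) = 1 := by
  unfold H
  rw [Path.Homotopic.Quotient.refl_trans, Path.Homotopic.Quotient.trans_symm]
  rfl

lemma eq_refl_of_H {u : Fin n → Bool} {γ : Path.Homotopic.Quotient (vtx S u) (vtx S u)}
    (h : H γ = 1) : γ = .refl _ := by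
  unfold H at h
  have h1 : (tau S u).trans (γ.trans (tau S u).symm) = .refl _ := h
  have h2 : (tau S u).symm.trans (((tau S u).trans (γ.trans (tau S u).symm)).trans (tau S u)) =
      .refl _ := by
    rw [h1, Path.Homotopic.Quotient.refl_trans, Path.Homotopic.Quotient.symm_trans]
  simp only [Path.Homotopic.Quotient.trans_assoc, Path.Homotopic.Quotient.symm_trans,
    Path.Homotopic.Quotient.trans_refl] at h2
  rw [← Path.Homotopic.Quotient.trans_assoc, Path.Homotopic.Quotient.symm_trans,
    Path.Homotopic.Quotient.refl_trans] at h2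
  exact h2

lemma Con.symm {u w : Fin n → Bool} (h : Con S u w) : Con S w u := by
  obtain ⟨I, v, hI, hu, hw⟩ := h
  exact ⟨I, v, hI, hw, hu⟩

open Classical in
/-- the universal cocycle -/
noncomputable def gg (S : Finset (Square n)) (u w : Fin n → Bool) :
    FundamentalGroup (complex S) (origin S) :=
  if h : Con S w u then H (seg h) else 1

lemma gg_mul {I : Finset (Fin n)} {v u w z : Fin n → Bool} (hI : IsCell S I v) (hu : Vx I v u)
    (hw : Vx I v w) (hz : Vx I v z) : gg S u w * gg S w z = gg S u z := by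
  have h1 : Con S w u := ⟨I, v, hI, hw, hu⟩
  have h2 : Con S z w := ⟨I, v, hI, hz, hw⟩
  have h3 : Con S z u := ⟨I, v, hI, hz, hu⟩
  unfold gg
  rw [dif_pos h1, dif_pos h2, dif_pos h3, H_mul]
  congr 1
  exact seg_trans hI hz hw hu

variable {c : (Fin n → Bool) → (Fin n → Bool) → Bool} (hc : IsCocycle S c)

/-- `g` is the class of a path from the vertex `z` to the vertex `u` whose monodromy is `b` -/
def Par (z u : Fin n → Bool) (b : Bool) (g : FundamentalGroup (complex S) (origin S)) : Prop :=
  ∃ γ : Path.Homotopic.Quotient (vtx S z) (vtx S u), g = H γ ∧ ∀ a : Bool,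
    (isCoveringMap hc).monodromy γ ⟨⟨vtx S z, a⟩, rfl⟩ = ⟨⟨vtx S u, a ^^ b⟩, rfl⟩

lemma par_gg {u w : Fin n → Bool} (h : Con S w u) : Par hc w u (c w u) (gg S u w) :=
  ⟨seg h, by unfold gg; rw [dif_pos h], fun a => monodromy_seg hc h a⟩

lemma Par.mul {z w u : Fin n → Bool} {b₁ b₂ : Bool}
    {g₁ g₂ : FundamentalGroup (complex S) (origin S)}
    (h₁ : Par hc w u b₁ g₁) (h₂ : Par hc z w b₂ g₂) : Par hc z u (b₂ ^^ b₁) (g₁ * g₂) := by
  obtain ⟨γ₁, rfl, h1⟩ := h₁
  obtain ⟨γ₂, rfl, h2⟩ := h₂
  refine ⟨γ₂.trans γ₁, H_mul _ _, fun a => ?_⟩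
  rw [(isCoveringMap hc).monodromy_trans_apply, h2, h1]
  have : ((a ^^ b₂) ^^ b₁) = (a ^^ (b₂ ^^ b₁)) := Bool.xor_assoc _ _ _
  exact congrArg (fun x : Bool => (⟨⟨vtx S u, x⟩, rfl⟩ :
    (TotalSpace.proj : (core hc).TotalSpace → complex S) ⁻¹' {vtx S u})) this

lemma Par.ne_one {u : Fin n → Bool} {g : FundamentalGroup (complex S) (origin S)}
    (h : Par hc u u true g) : g ≠ 1 := by
  obtain ⟨γ, rfl, h1⟩ := h
  intro h2
  have h3 := eq_refl_of_H h2
  have h4 := h1 false
  rw [h3, (isCoveringMap hc).monodromy_refl] at h4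
  have h5 := congrArg (fun e => (e.1.2 : Bool)) h4
  simp at h5

end Pool.Agent.Lib_helper52.Cube
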