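import Pool.Agent.Lib_helper52.CubeProb

open Finset Filter Topology

namespace Pool.Agent.Lib_helper52.Cube

variable {m : ℕ}

lemma needed_disjoint_bad (y : Fin m → Bool) : Disjoint (needed y) (bad y) := by
  rw [Finset.disjoint_left]
  intro s hs hb
  simp only [bad, mem_filter, mem_univ, true_and] at hb
  exact hb.2 hs

lemma Bl_diff : ∀ e ∈ Bl, ∃ i : Fin 5, e.1.testBit i ≠ e.2.testBit i := by decide

lemma mem_of_vx {y : Fin m → Bool} {I : Finset (Fin (6 + m))} {v : Fin (6 + m) → Bool}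
    {a b : ℕ} (ha : Vx I v (vx y a)) (hb : Vx I v (vx y b)) {i : Fin 5}
    (hi : a.testBit i ≠ b.testBit i) : io i ∈ I := by
  by_contra h
  apply hi
  rw [← vx_io y a i, ← vx_io y b i, ha _ h, hb _ h]

/-- a square used at the position `y` determines `y` away from at most one coordinate -/
lemma key_of_mem {y : Fin m → Bool} {s : Square (6 + m)} (hs : s ∈ needed y ∪ bad y) :
    (∀ k ∈ s.1.1, ∀ k' ∈ s.1.1, 5 ≤ k.val → 5 ≤ k'.val → k = k') ∧
      ∀ k ∉ s.1.1, 5 ≤ k.val → s.1.2 k = vx y 0 k := by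
  rcases Finset.mem_union.1 hs with hs | hs
  · simp only [needed, mem_filter, mem_univ, true_and] at hs
    obtain ⟨t, ht, h⟩ := hs
    rw [h]
    refine ⟨?_, fun k _ hk => vx_ge y _ _ hk⟩
    intro k hk k' _ hk5 _
    simp only [sqI, Finset.mem_insert, Finset.mem_singleton] at hk
    exfalso
    rcases hk with rfl | rfl
    · rw [io_val] at hk5; have := t.1.2; omega
    · rw [io_val] at hk5; have := t.2.1.2; omega
  · simp only [bad, mem_filter, mem_univ, true_and] at hs
    obtain ⟨⟨e, he, h1, h2⟩, -⟩ := hs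
    obtain ⟨i, hi⟩ := Bl_diff e he
    have hmem : io i ∈ s.1.1 := mem_of_vx h1 h2 hi
    refine ⟨?_, fun k hk hk5 => by rw [← h1 k hk]; exact vx_ge y _ _ hk5⟩
    intro k hk k' hk' hk5 hk5'
    by_contra hne
    have hki : k ≠ io i := by
      rintro rfl; rw [io_val] at hk5; have := i.2; omega
    have hki' : k' ≠ io i := by
      rintro rfl; rw [io_val] at hk5'; have := i.2; omega
    have h3 : ({io i, k, k'} : Finset (Fin (6 + m))) ⊆ s.1.1 := by
      intro x hx
      simp only [Finset.mem_insert, Finset.mem_singleton] at hx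
      rcases hx with rfl | rfl | rfl <;> assumption
    have h4 := Finset.card_le_card h3
    rw [Finset.card_eq_three.2 ⟨io i, k, k', hki.symm, hki'.symm, hne, rfl⟩, s.2.1] at h4
    omega

lemma vx_natAdd (y : Fin m → Bool) (b : ℕ) (i : Fin m) : vx y b (Fin.natAdd 6 i) = y i := by
  unfold vx; rw [Fin.append_right]

lemma vx_five (y : Fin m → Bool) (b : ℕ) : vx y b (Fin.castAdd m (5 : Fin 6)) = par y := by
  unfold vx; rw [Fin.append_left]; rfl

lemma par_inj {y y' : Fin m → Bool} (hp : par y = par y') (i : Fin m)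
    (h : ∀ j ≠ i, y j = y' j) : y = y' := by
  have h1 : ∀ z : Fin m → Bool, (∑ j, (if z j then 1 else 0 : ZMod 2)) =
      (if z i then 1 else 0 : ZMod 2) + ∑ j ∈ univ.erase i, (if z j then 1 else 0 : ZMod 2) :=
    fun z => (Finset.add_sum_erase _ _ (Finset.mem_univ i)).symm
  have h2 : ∑ j ∈ univ.erase i, (if y j then 1 else 0 : ZMod 2) =
      ∑ j ∈ univ.erase i, (if y' j then 1 else 0 : ZMod 2) :=
    Finset.sum_congr rfl fun j hj => by rw [h j (Finset.ne_of_mem_erase hj)]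
  unfold par at hp
  rw [decide_eq_decide, h1 y, h1 y', h2] at hp
  generalize ∑ j ∈ univ.erase i, (if y' j then 1 else 0 : ZMod 2) = r at hp
  have h3 : y i = y' i := by
    have key : ∀ (r : ZMod 2) (a b : Bool), (((if a then 1 else 0 : ZMod 2) + r = 1) ↔
        ((if b then 1 else 0 : ZMod 2) + r = 1)) → a = b := by decide
    exact key r _ _ hp
  funext j
  by_cases hj : j = i
  · rw [hj]; exact h3
  · exact h j hj

lemma disjoint_of_ne {y y' : Fin m → Bool} (hne : y ≠ y') :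
    Disjoint (needed y ∪ bad y) (needed y' ∪ bad y') := by
  rw [Finset.disjoint_left]
  intro s hs hs'
  apply hne
  obtain ⟨h1, h2⟩ := key_of_mem hs
  obtain ⟨-, h2'⟩ := key_of_mem hs'
  have hag : ∀ k ∉ s.1.1, 5 ≤ k.val → vx y 0 k = vx y' 0 k := fun k hk hk5 => by
    rw [← h2 k hk hk5, h2' k hk hk5]
  by_cases h6 : ∃ i : Fin m, Fin.natAdd 6 i ∈ s.1.1
  · obtain ⟨i, hi⟩ := h6
    have h5 : Fin.castAdd m (5 : Fin 6) ∉ s.1.1 := by
      intro h5
      have := h1 _ hi _ h5 (by simp; omega) (by simp)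
      have := congrArg Fin.val this
      simp at this
      omega
    have hp : par y = par y' := by
      have := hag _ h5 (by simp)
      rwa [vx_five, vx_five] at this
    refine par_inj hp i fun j hj => ?_
    have hj' : Fin.natAdd 6 j ∉ s.1.1 := by
      intro h
      have := h1 _ hi _ h (by simp; omega) (by simp; omega)
      exact hj ((Fin.natAdd_inj 6 ..).1 this).symm
    have := hag _ hj' (by simp; omega)
    rwa [vx_natAdd, vx_natAdd] at this
  · push Not at h6
    funext j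
    have := hag _ (h6 j) (by simp; omega)
    rwa [vx_natAdd, vx_natAdd] at this

lemma card_bad (y : Fin m → Bool) : (bad y).card ≤ 6 * (6 + m) := by
  classical
  have h1 : bad y ⊆ Bl.toFinset.biUnion fun e => univ.filter fun s : Square (6 + m) =>
      Vx s.1.1 s.1.2 (vx y e.1) ∧ Vx s.1.1 s.1.2 (vx y e.2) := by
    intro s hs
    simp only [bad, mem_filter, mem_univ, true_and] at hs
    obtain ⟨⟨e, he, h1, h2⟩, -⟩ := hs
    simp only [mem_biUnion, mem_filter, mem_univ, true_and, List.mem_toFinset]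
    exact ⟨e, he, h1, h2⟩
  have h2 : ∀ e ∈ Bl.toFinset, (univ.filter fun s : Square (6 + m) =>
      Vx s.1.1 s.1.2 (vx y e.1) ∧ Vx s.1.1 s.1.2 (vx y e.2)).card ≤ 6 + m := by
    intro e he
    rw [List.mem_toFinset] at he
    obtain ⟨i, hi⟩ := Bl_diff e he
    have h3 : (powersetCard 1 (univ : Finset (Fin (6 + m)))).card = 6 + m := by
      rw [Finset.card_powersetCard]; simp
    refine le_of_le_of_eq (Finset.card_le_card_of_injOn (t := powersetCard 1 univ)
      (fun s => s.1.1.erase (io i)) ?_ ?_) h3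
    · intro s hs
      simp only [coe_filter, mem_univ, true_and, Set.mem_ofPred_eq] at hs
      have hmem := mem_of_vx hs.1 hs.2 hi
      rw [Finset.mem_coe, Finset.mem_powersetCard]
      exact ⟨Finset.subset_univ _, by rw [Finset.card_erase_of_mem hmem, s.2.1]⟩
    · intro s hs s' hs' heq
      simp only [coe_filter, mem_univ, true_and, Set.mem_ofPred_eq] at hs hs'
      have hmem := mem_of_vx hs.1 hs.2 hi
      have hmem' := mem_of_vx hs'.1 hs'.2 hi
      have hI : s.1.1 = s'.1.1 := by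
        rw [← Finset.insert_erase hmem, ← Finset.insert_erase hmem']
        simp only at heq
        rw [heq]
      apply Subtype.ext
      apply Prod.ext hI
      funext k
      by_cases hk : k ∈ s.1.1
      · rw [s.2.2 k hk, s'.2.2 k (hI ▸ hk)]
      · rw [← hs.1 k hk, ← hs'.1 k (hI ▸ hk)]
  calc (bad y).card ≤ _ := Finset.card_le_card h1
    _ ≤ ∑ e ∈ Bl.toFinset, _ := Finset.card_biUnion_le
    _ ≤ ∑ e ∈ Bl.toFinset, (6 + m) := Finset.sum_le_sum h2
    _ = 6 * (6 + m) := by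
      rw [Finset.sum_const, smul_eq_mul]
      rfl

open Classical in
lemma prob_eq (n : ℕ) (p : ℝ) (E : Set (Finset (Square n))) :
    prob n p E = ∑ S : Finset (Square n), wt p S * (if S ∈ E then 1 else 0) := by
  unfold prob wt
  refine Finset.sum_congr rfl fun S _ => ?_
  split_ifs <;> simp

lemma wt_nonneg {σ : Type*} [Fintype σ] {p : ℝ} (h0 : 0 ≤ p) (h1 : p ≤ 1) (S : Finset σ) :
    0 ≤ wt p S := mul_nonneg (pow_nonneg h0 _) (pow_nonneg (by linarith) _)

/-- the probability that the group is torsion free is small -/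
lemma prob_le {p : ℝ} (h0 : 0 < p) (h1 : p < 1) (m : ℕ) :
    prob (6 + m) p (torsionFreeEvent (6 + m)) ≤
      (1 - p ^ 24 * (1 - p) ^ (6 * (6 + m))) ^ (2 ^ m) := by
  classical
  rw [prob_eq]
  calc ∑ S : Finset (Square (6 + m)), wt p S * (if S ∈ torsionFreeEvent (6 + m) then 1 else 0)
      ≤ ∑ S : Finset (Square (6 + m)), wt p S * ∏ y : Fin m → Bool,
        (1 - if needed y ⊆ S ∧ Disjoint (bad y) S then (1 : ℝ) else 0) := by
        refine Finset.sum_le_sum fun S _ => ?_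
        refine mul_le_mul_of_nonneg_left ?_ (wt_nonneg h0.le h1.le S)
        by_cases hS : S ∈ torsionFreeEvent (6 + m)
        · rw [if_pos hS, Finset.prod_eq_one]
          intro y _
          rw [if_neg, sub_zero]
          intro hg
          exact not_torsionFree_of_good (y := y) hg hS
        · rw [if_neg hS]
          refine Finset.prod_nonneg fun y _ => ?_
          split_ifs <;> norm_num
    _ = ∏ y : Fin m → Bool, (1 - p ^ (needed y).card * (1 - p) ^ (bad y).card) :=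
        sum_wt_none p _ _ needed_disjoint_bad fun y y' h => disjoint_of_ne h
    _ ≤ ∏ y : Fin m → Bool, (1 - p ^ 24 * (1 - p) ^ (6 * (6 + m))) := by
        refine Finset.prod_le_prod (fun y _ => ?_) fun y _ => ?_
        · have h2 : p ^ (needed y).card ≤ 1 := pow_le_one₀ h0.le h1.le
          have h3 : (1 - p) ^ (bad y).card ≤ 1 := pow_le_one₀ (by linarith) (by linarith)
          have h4 : 0 ≤ p ^ (needed y).card := pow_nonneg h0.le _
          have h5 : 0 ≤ (1 - p) ^ (bad y).card := pow_nonneg (by linarith) _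
          nlinarith
        · have h2 : p ^ 24 ≤ p ^ (needed y).card :=
            pow_le_pow_of_le_one h0.le h1.le (card_needed y)
          have h3 : (1 - p) ^ (6 * (6 + m)) ≤ (1 - p) ^ (bad y).card :=
            pow_le_pow_of_le_one (by linarith) (by linarith) (card_bad y)
          have h4 : 0 ≤ p ^ 24 := pow_nonneg h0.le _
          have h5 : 0 ≤ (1 - p) ^ (6 * (6 + m)) := pow_nonneg (by linarith) _
          have := mul_le_mul h2 h3 h5 (h4.trans h2)
          linarith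
    _ = _ := by
        rw [Finset.prod_const, Finset.card_univ]
        simp

lemma two_mul_pow_gt {p : ℝ} (h1 : p < 1 - (1 / 2 : ℝ) ^ (1 / 6 : ℝ)) :
    1 < 2 * (1 - p) ^ 6 := by
  have h2 : (1 / 2 : ℝ) ^ (1 / 6 : ℝ) < 1 - p := by linarith
  have h3 : 0 ≤ (1 / 2 : ℝ) ^ (1 / 6 : ℝ) := Real.rpow_nonneg (by norm_num) _
  have h4 : ((1 / 2 : ℝ) ^ (1 / 6 : ℝ)) ^ 6 < (1 - p) ^ 6 :=
    pow_lt_pow_left₀ h2 h3 (by norm_num)
  have h5 : ((1 / 2 : ℝ) ^ (1 / 6 : ℝ)) ^ 6 = 1 / 2 := by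
    rw [← Real.rpow_natCast, ← Real.rpow_mul (by norm_num)]
    norm_num
  rw [h5] at h4
  linarith

lemma lt_one_of {p : ℝ} (h1 : p < 1 - (1 / 2 : ℝ) ^ (1 / 6 : ℝ)) : p < 1 := by
  have h3 : 0 ≤ (1 / 2 : ℝ) ^ (1 / 6 : ℝ) := Real.rpow_nonneg (by norm_num) _
  linarith

lemma prob_nonneg {p : ℝ} (h0 : 0 ≤ p) (h1 : p ≤ 1) (n : ℕ) (E : Set (Finset (Square n))) :
    0 ≤ prob n p E := by
  classical
  rw [prob_eq]
  refine Finset.sum_nonneg fun S _ => mul_nonneg (wt_nonneg h0 h1 S) ?_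
  split_ifs <;> norm_num

/-- with high probability the fundamental group is not torsion free -/
theorem tendsto_torsionFree {p : ℝ} (h0 : 0 < p) (h1 : p < 1 - (1 / 2 : ℝ) ^ (1 / 6 : ℝ)) :
    Tendsto (fun n => prob n p (torsionFreeEvent n)) atTop (𝓝 0) := by
  have hp1 := lt_one_of h1
  rw [← tendsto_add_atTop_iff_nat 6]
  have hb := two_mul_pow_gt h1
  have hlim : Tendsto (fun m : ℕ => Real.exp (-(p ^ 24 * (1 - p) ^ 36 * (2 * (1 - p) ^ 6) ^ m)))
      atTop (𝓝 0) := by
    apply Real.tendsto_exp_neg_atTop_nhds_zero.comp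
    apply Tendsto.const_mul_atTop
    · have : 0 < 1 - p := by linarith
      positivity
    · exact tendsto_pow_atTop_atTop_of_one_lt hb
  refine squeeze_zero (fun m => prob_nonneg h0.le hp1.le _ _) (fun m => ?_) hlim
  have h2 := prob_le h0 hp1 m
  rw [Nat.add_comm m 6]
  refine h2.trans ?_
  have h3 : 1 - p ^ 24 * (1 - p) ^ (6 * (6 + m)) ≤ Real.exp (-(p ^ 24 * (1 - p) ^ (6 * (6 + m)))) := by
    have := Real.add_one_le_exp (-(p ^ 24 * (1 - p) ^ (6 * (6 + m))))
    linarith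
  have h4 : 0 ≤ 1 - p ^ 24 * (1 - p) ^ (6 * (6 + m)) := by
    have h2 : p ^ 24 ≤ 1 := pow_le_one₀ h0.le hp1.le
    have h3 : (1 - p) ^ (6 * (6 + m)) ≤ 1 := pow_le_one₀ (by linarith) (by linarith)
    have h4 : 0 ≤ p ^ 24 := pow_nonneg h0.le _
    have h5 : 0 ≤ (1 - p) ^ (6 * (6 + m)) := pow_nonneg (by linarith) _
    nlinarith
  calc (1 - p ^ 24 * (1 - p) ^ (6 * (6 + m))) ^ (2 ^ m)
      ≤ (Real.exp (-(p ^ 24 * (1 - p) ^ (6 * (6 + m))))) ^ (2 ^ m) := pow_le_pow_left₀ h4 h3 _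
    _ = Real.exp (-(p ^ 24 * (1 - p) ^ 36 * (2 * (1 - p) ^ 6) ^ m)) := by
      rw [← Real.exp_nat_mul]
      congr 1
      push_cast
      rw [mul_pow, ← pow_mul, mul_add, pow_add]
      ring

lemma prob_compl {n : ℕ} (p : ℝ) (E : Set (Finset (Square n))) :
    prob n p Eᶜ = 1 - prob n p E := by
  classical
  have h := sum_wt_cyl (σ := Square n) p (A := ∅) (B := ∅) (by simp)
  simp only [Finset.empty_subset, Finset.disjoint_empty_left, and_self, if_true, mul_one,
    Finset.card_empty, pow_zero] at h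
  rw [prob_eq, prob_eq, eq_sub_iff_add_eq, ← Finset.sum_add_distrib]
  refine Eq.trans (Finset.sum_congr rfl fun S _ => ?_) h
  by_cases hS : S ∈ E <;> simp [hS]

theorem tendsto_torsion {p : ℝ} (h0 : 0 < p) (h1 : p < 1 - (1 / 2 : ℝ) ^ (1 / 6 : ℝ)) :
    Tendsto (fun n => prob n p (torsionFreeEvent n)ᶜ) atTop (𝓝 1) := by
  have h := (tendsto_torsionFree h0 h1).const_sub 1
  simp only [sub_zero] at h
  refine h.congr fun n => (prob_compl p _).symm

theorem main : (∀ p : ℝ, 0 < p → p < 1 - (1 / 2 : ℝ) ^ (1 / 6 : ℝ) →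
      Tendsto (fun n => prob n p (torsionFreeEvent n)ᶜ) atTop (𝓝 1)) ∧
    ¬ ∀ p : ℝ, 1 - (1 / 2 : ℝ) ^ (1 / 40 : ℝ) < p → p ≤ 1 →
      Tendsto (fun n => prob n p (torsionFreeEvent n)) atTop (𝓝 1) := by
  refine ⟨fun p h0 h1 => tendsto_torsion h0 h1, fun h => ?_⟩
  have h1 : (1 / 20 : ℝ) < 1 - (1 / 2 : ℝ) ^ (1 / 6 : ℝ) := by
    have : (1 / 2 : ℝ) ^ (1 / 6 : ℝ) < 19 / 20 := by
      by_contra hc
      push Not at hc
      have h4 : (19 / 20 : ℝ) ^ 6 ≤ ((1 / 2 : ℝ) ^ (1 / 6 : ℝ)) ^ 6 :=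
        pow_le_pow_left₀ (by norm_num) hc 6
      have h5 : ((1 / 2 : ℝ) ^ (1 / 6 : ℝ)) ^ 6 = 1 / 2 := by
        rw [← Real.rpow_natCast, ← Real.rpow_mul (by norm_num)]
        norm_num
      rw [h5] at h4
      norm_num at h4
    linarith
  have h2 : 1 - (1 / 2 : ℝ) ^ (1 / 40 : ℝ) < 1 / 20 := by
    have : (19 / 20 : ℝ) < (1 / 2 : ℝ) ^ (1 / 40 : ℝ) := by
      by_contra hc
      push Not at hc
      have h4 : ((1 / 2 : ℝ) ^ (1 / 40 : ℝ)) ^ 40 ≤ (19 / 20 : ℝ) ^ 40 :=
        pow_le_pow_left₀ (Real.rpow_nonneg (by norm_num) _) hc 40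
      have h5 : ((1 / 2 : ℝ) ^ (1 / 40 : ℝ)) ^ 40 = 1 / 2 := by
        rw [← Real.rpow_natCast, ← Real.rpow_mul (by norm_num)]
        norm_num
      rw [h5] at h4
      norm_num at h4
    linarith
  have h3 := h (1 / 20) h2 (by norm_num)
  have h4 := tendsto_torsionFree (p := 1 / 20) (by norm_num) h1
  exact absurd (tendsto_nhds_unique h3 h4) one_ne_zero

end Pool.Agent.Lib_helper52.Cube
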