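import Mathlib

namespace Pool.Agent.Lib_helper52.Cube

/-- the six squares of the band -/
def bandSq : List (List ℕ) :=
  [[0, 1, 2, 3], [2, 3, 6, 7], [4, 5, 6, 7], [4, 6, 12, 14], [0, 4, 8, 12], [0, 1, 8, 9]]

/-- the eighteen squares used to contract the boundary of the band -/
def otherSq : List (List ℕ) :=
  [[0, 2, 16, 18], [2, 6, 18, 22], [6, 14, 22, 30], [12, 14, 28, 30], [8, 12, 24, 28],
   [8, 9, 24, 25], [1, 9, 17, 25], [0, 4, 16, 20], [4, 5, 20, 21], [5, 7, 21, 23],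
   [3, 7, 19, 23], [1, 3, 17, 19],
   [20, 22, 28, 30], [16, 18, 20, 22], [16, 20, 24, 28], [16, 17, 24, 25], [17, 19, 21, 23],
   [16, 17, 20, 21]]

/-- the word of the core of the band -/
def coreWord {G : Type*} [Group G] (g : ℕ → ℕ → G) : G :=
  g 0 1 * g 1 3 * g 3 7 * g 7 5 * g 5 4 * g 4 0

theorem coreWord_sq {G : Type*} [Group G] (g : ℕ → ℕ → G)
    (h : ∀ Q ∈ bandSq ++ otherSq, ∀ a ∈ Q, ∀ b ∈ Q, ∀ c ∈ Q, g a b * g b c = g a c) :
    coreWord g * coreWord g = 1 := by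
  have one : ∀ Q ∈ bandSq ++ otherSq, ∀ a ∈ Q, g a a = 1 := fun Q hQ a ha => by
    have := h Q hQ a ha a ha a ha
    exact mul_eq_left.1 this
  have inv : ∀ Q ∈ bandSq ++ otherSq, ∀ a ∈ Q, ∀ b ∈ Q, g a b * g b a = 1 := fun Q hQ a ha b hb => by
    rw [h Q hQ a ha b hb a ha, one Q hQ a ha]
  have inv2 : ∀ Q ∈ bandSq ++ otherSq, ∀ a ∈ Q, ∀ b ∈ Q, ∀ x : G, g a b * (g b a * x) = x :=
    fun Q hQ a ha b hb x => by rw [← mul_assoc, inv Q hQ a ha b hb, one_mul]
  have tri : ∀ Q ∈ bandSq ++ otherSq, ∀ a ∈ Q, ∀ b ∈ Q, ∀ c ∈ Q, ∀ x : G,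
      g a b * (g b c * x) = g a c * x :=
    fun Q hQ a ha b hb c hc x => by rw [← mul_assoc, h Q hQ a ha b hb c hc]
  have sq : ∀ Q ∈ bandSq ++ otherSq, ∀ a ∈ Q, ∀ b ∈ Q, ∀ c ∈ Q, ∀ d ∈ Q,
      g a b = g a c * (g c d * g d b) := fun Q hQ a ha b hb c hc d hd => by
    rw [h Q hQ c hc d hd b hb, h Q hQ a ha c hc b hb]
  -- the band
  have m1 := sq [0, 1, 2, 3] (by decide) 0 (by decide) 1 (by decide) 2 (by decide) 3 (by decide)
  have m2 := sq [2, 3, 6, 7] (by decide) 2 (by decide) 3 (by decide) 6 (by decide) 7 (by decide)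
  have m3 := sq [4, 5, 6, 7] (by decide) 6 (by decide) 7 (by decide) 4 (by decide) 5 (by decide)
  have m4 := sq [4, 6, 12, 14] (by decide) 6 (by decide) 4 (by decide) 14 (by decide)
    12 (by decide)
  have m5 := sq [0, 4, 8, 12] (by decide) 12 (by decide) 4 (by decide) 8 (by decide) 0 (by decide)
  have m6 := sq [0, 1, 8, 9] (by decide) 8 (by decide) 0 (by decide) 9 (by decide) 1 (by decide)
  -- the sides
  have s1 := sq [0, 2, 16, 18] (by decide) 0 (by decide) 2 (by decide) 16 (by decide) 18 (by decide)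
  have s2 := sq [2, 6, 18, 22] (by decide) 2 (by decide) 6 (by decide) 18 (by decide) 22 (by decide)
  have s3 := sq [6, 14, 22, 30] (by decide) 6 (by decide) 14 (by decide) 22 (by decide)
    30 (by decide)
  have s4 := sq [12, 14, 28, 30] (by decide) 14 (by decide) 12 (by decide) 30 (by decide)
    28 (by decide)
  have s5 := sq [8, 12, 24, 28] (by decide) 12 (by decide) 8 (by decide) 28 (by decide)
    24 (by decide)
  have s6 := sq [8, 9, 24, 25] (by decide) 8 (by decide) 9 (by decide) 24 (by decide) 25 (by decide)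
  have s7 := sq [1, 9, 17, 25] (by decide) 9 (by decide) 1 (by decide) 25 (by decide) 17 (by decide)
  have s8 := sq [0, 4, 16, 20] (by decide) 0 (by decide) 4 (by decide) 16 (by decide) 20 (by decide)
  have s9 := sq [4, 5, 20, 21] (by decide) 4 (by decide) 5 (by decide) 20 (by decide) 21 (by decide)
  have s10 := sq [5, 7, 21, 23] (by decide) 5 (by decide) 7 (by decide) 21 (by decide)
    23 (by decide)
  have s11 := sq [3, 7, 19, 23] (by decide) 7 (by decide) 3 (by decide) 23 (by decide)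
    19 (by decide)
  have s12 := sq [1, 3, 17, 19] (by decide) 3 (by decide) 1 (by decide) 19 (by decide)
    17 (by decide)
  -- cancellations of vertical edges
  have v2 := inv2 [0, 2, 16, 18] (by decide) 18 (by decide) 2 (by decide)
  have v6 := inv2 [2, 6, 18, 22] (by decide) 22 (by decide) 6 (by decide)
  have v14 := inv2 [6, 14, 22, 30] (by decide) 30 (by decide) 14 (by decide)
  have v12 := inv2 [12, 14, 28, 30] (by decide) 28 (by decide) 12 (by decide)
  have v8 := inv2 [8, 12, 24, 28] (by decide) 24 (by decide) 8 (by decide)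
  have v9 := inv2 [8, 9, 24, 25] (by decide) 25 (by decide) 9 (by decide)
  have v4 := inv2 [0, 4, 16, 20] (by decide) 20 (by decide) 4 (by decide)
  have v5 := inv2 [4, 5, 20, 21] (by decide) 21 (by decide) 5 (by decide)
  have v7 := inv2 [5, 7, 21, 23] (by decide) 23 (by decide) 7 (by decide)
  have v3 := inv2 [3, 7, 19, 23] (by decide) 19 (by decide) 3 (by decide)
  have hα : g 0 2 * (g 2 6 * (g 6 14 * (g 14 12 * (g 12 8 * (g 8 9 * g 9 1))))) =
      g 0 16 * (g 16 17 * g 17 1) := by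
    rw [s1, s2, s3, s4, s5, s6, s7]
    simp only [mul_assoc]
    rw [v2, v6, v14, v12, v8, v9]
    rw [tri [20, 22, 28, 30] (by decide) 22 (by decide) 30 (by decide) 28 (by decide),
      ← tri [20, 22, 28, 30] (by decide) 22 (by decide) 20 (by decide) 28 (by decide),
      tri [16, 18, 20, 22] (by decide) 18 (by decide) 22 (by decide) 20 (by decide),
      tri [16, 18, 20, 22] (by decide) 16 (by decide) 18 (by decide) 20 (by decide),
      tri [16, 20, 24, 28] (by decide) 16 (by decide) 20 (by decide) 28 (by decide),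
      tri [16, 20, 24, 28] (by decide) 16 (by decide) 28 (by decide) 24 (by decide),
      tri [16, 17, 24, 25] (by decide) 16 (by decide) 24 (by decide) 25 (by decide),
      tri [16, 17, 24, 25] (by decide) 16 (by decide) 25 (by decide) 17 (by decide)]
  have hβ : g 0 4 * (g 4 5 * (g 5 7 * (g 7 3 * g 3 1))) = g 0 16 * (g 16 17 * g 17 1) := by
    rw [s8, s9, s10, s11, s12]
    simp only [mul_assoc]
    rw [v4, v5, v7, v3]
    rw [tri [16, 17, 20, 21] (by decide) 16 (by decide) 20 (by decide) 21 (by decide),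
      tri [17, 19, 21, 23] (by decide) 21 (by decide) 23 (by decide) 19 (by decide),
      tri [17, 19, 21, 23] (by decide) 21 (by decide) 19 (by decide) 17 (by decide),
      tri [16, 17, 20, 21] (by decide) 16 (by decide) 21 (by decide) 17 (by decide)]
  have key : g 0 1 = g 0 2 * (g 2 6 * (g 6 14 * (g 14 12 * (g 12 8 * (g 8 9 * g 9 1))))) *
      (g 1 0 * (g 0 4 * (g 4 5 * (g 5 7 * (g 7 3 * g 3 1))))) := by
    rw [m1, m2, m3, m4, m5, m6]
    simp only [mul_assoc]
  have i10 : g 1 0 = (g 0 1)⁻¹ :=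
    (inv_eq_of_mul_eq_one_right (inv [0, 1, 2, 3] (by decide) 0 (by decide) 1 (by decide))).symm
  have i13 : g 1 3 = (g 3 1)⁻¹ :=
    (inv_eq_of_mul_eq_one_right (inv [0, 1, 2, 3] (by decide) 3 (by decide) 1 (by decide))).symm
  have i37 : g 3 7 = (g 7 3)⁻¹ :=
    (inv_eq_of_mul_eq_one_right (inv [2, 3, 6, 7] (by decide) 7 (by decide) 3 (by decide))).symm
  have i75 : g 7 5 = (g 5 7)⁻¹ :=
    (inv_eq_of_mul_eq_one_right (inv [4, 5, 6, 7] (by decide) 5 (by decide) 7 (by decide))).symm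
  have i54 : g 5 4 = (g 4 5)⁻¹ :=
    (inv_eq_of_mul_eq_one_right (inv [4, 5, 6, 7] (by decide) 4 (by decide) 5 (by decide))).symm
  have i40 : g 4 0 = (g 0 4)⁻¹ :=
    (inv_eq_of_mul_eq_one_right (inv [0, 4, 8, 12] (by decide) 0 (by decide) 4 (by decide))).symm
  rw [hα, ← hβ, i10] at key
  have hC : coreWord g = g 0 1 * (g 0 4 * (g 4 5 * (g 5 7 * (g 7 3 * g 3 1))))⁻¹ := by
    unfold coreWord
    rw [i13, i37, i75, i54, i40]
    group
  generalize g 0 4 * (g 4 5 * (g 5 7 * (g 7 3 * g 3 1))) = β at key hC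
  have h2 : g 0 1 * β⁻¹ = β * (g 0 1)⁻¹ := by
    calc g 0 1 * β⁻¹ = (β * ((g 0 1)⁻¹ * β)) * β⁻¹ := by rw [← key]
      _ = β * (g 0 1)⁻¹ := by group
  rw [hC]
  calc g 0 1 * β⁻¹ * (g 0 1 * β⁻¹) = g 0 1 * β⁻¹ * (β * (g 0 1)⁻¹) := by rw [h2]
    _ = 1 := by group

end Pool.Agent.Lib_helper52.Cube
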