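import Pool.Agent.Lib_helper52.CubeGroup
import Pool.Agent.Lib_helper52.CubeWord

open Finset

namespace Pool.Agent.Lib_helper52.Cube

variable {m : ℕ}

/-- parity of a position -/
def par (y : Fin m → Bool) : Bool := decide ((∑ i, (if y i then 1 else 0 : ZMod 2)) = 1)

/-- the vertices of the five-dimensional subcube at position `y` -/
def vx (y : Fin m → Bool) (b : ℕ) : Fin (6 + m) → Bool :=
  Fin.append (fun i : Fin 6 => if i.val < 5 then b.testBit i.val else par y) y

/-- the first five directions -/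
def io (i : Fin 5) : Fin (6 + m) := Fin.castAdd m i.castSucc

lemma io_val (i : Fin 5) : (io i : Fin (6 + m)).val = i.val := rfl

lemma vx_io (y : Fin m → Bool) (b : ℕ) (i : Fin 5) : vx y b (io i) = b.testBit i := by
  unfold vx io
  rw [Fin.append_left]
  simp [i.2]

lemma vx_ge (y : Fin m → Bool) (b b' : ℕ) {k : Fin (6 + m)} (hk : 5 ≤ k.val) :
    vx y b k = vx y b' k := by
  unfold vx
  revert hk
  refine Fin.addCases (fun i hk => ?_) (fun i _ => ?_) k
  · rw [Fin.append_left, Fin.append_left]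
    have h : ¬ i.val < 5 := by
      have : 5 ≤ i.val := hk
      omega
    simp [h]
  · rw [Fin.append_right, Fin.append_right]

lemma io_or_ge (k : Fin (6 + m)) : (∃ i : Fin 5, k = io i) ∨ 5 ≤ k.val := by
  by_cases h : k.val < 5
  · exact Or.inl ⟨⟨k.val, h⟩, Fin.ext rfl⟩
  · exact Or.inr (by omega)

/-- triples: two directions and a base vertex -/
abbrev T3 : Type := Fin 5 × Fin 5 × ℕ

/-- the squares of the band -/
def bandT : List T3 := [(0, 1, 0), (0, 2, 2), (0, 1, 4), (1, 3, 4), (2, 3, 0), (0, 3, 0)]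

/-- the other squares -/
def otherT : List T3 :=
  [(1, 4, 0), (2, 4, 2), (3, 4, 6), (1, 4, 12), (2, 4, 8), (0, 4, 8), (3, 4, 1), (2, 4, 0),
   (0, 4, 4), (1, 4, 5), (2, 4, 3), (1, 4, 1),
   (1, 3, 20), (1, 2, 16), (2, 3, 16), (0, 3, 16), (1, 2, 17), (0, 2, 16)]

/-- the vertices -/
def quad (t : T3) : List ℕ :=
  [t.2.2, t.2.2 + 2 ^ t.1.val, t.2.2 + 2 ^ t.2.1.val, t.2.2 + 2 ^ t.1.val + 2 ^ t.2.1.val]

lemma map_quad : (bandT ++ otherT).map quad = bandSq ++ otherSq := by decide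

/-- the free directions of a triple -/
def sqI (t : T3) : Finset (Fin (6 + m)) := {io t.1, io t.2.1}

lemma valid_all : ∀ t ∈ bandT ++ otherT, t.1 ≠ t.2.1 ∧ t.2.2.testBit t.1 = false ∧
    t.2.2.testBit t.2.1 = false := by decide

lemma io_inj {i j : Fin 5} (h : (io i : Fin (6 + m)) = io j) : i = j := by
  have := congrArg Fin.val h
  exact Fin.ext this

/-- the square of a triple -/
def mkSq (y : Fin m → Bool) (t : T3) (ht : t ∈ bandT ++ otherT) : Square (6 + m) :=
  ⟨(sqI t, vx y t.2.2), by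
    obtain ⟨h1, h2, h3⟩ := valid_all t ht
    refine ⟨?_, ?_⟩
    · unfold sqI
      rw [Finset.card_pair]
      intro h
      exact h1 (io_inj h)
    · intro i hi
      simp only [sqI, Finset.mem_insert, Finset.mem_singleton] at hi
      rcases hi with rfl | rfl
      · exact (vx_io y _ _).trans h2
      · exact (vx_io y _ _).trans h3⟩

open Classical in
/-- the squares which have to be present -/
noncomputable def needed (y : Fin m → Bool) : Finset (Square (6 + m)) :=
  univ.filter fun s => ∃ t ∈ bandT ++ otherT, s.1 = (sqI t, vx y t.2.2)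

lemma mkSq_mem (y : Fin m → Bool) (t : T3) (ht : t ∈ bandT ++ otherT) : mkSq y t ht ∈ needed y := by
  simp only [needed, mem_filter, mem_univ, true_and]
  exact ⟨t, ht, rfl⟩

lemma card_needed (y : Fin m → Bool) : (needed y).card ≤ 24 := by
  classical
  have h1 : (needed y).card = ((needed y).image Subtype.val).card :=
    (Finset.card_image_of_injective _ Subtype.val_injective).symm
  have h2 : (needed y).image Subtype.val ⊆
      ((bandT ++ otherT).map fun t => ((sqI t : Finset (Fin (6 + m))), vx y t.2.2)).toFinset := by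
    intro x hx
    simp only [needed, mem_image, mem_filter, mem_univ, true_and] at hx
    obtain ⟨s, ⟨t, ht, h⟩, rfl⟩ := hx
    rw [List.mem_toFinset, List.mem_map]
    exact ⟨t, ht, h.symm⟩
  rw [h1]
  refine (Finset.card_le_card h2).trans ((List.toFinset_card_le _).trans ?_)
  rw [List.length_map]
  decide

lemma quad_bits : ∀ t ∈ bandT ++ otherT, ∀ a ∈ quad t, ∀ k : Fin 5, k ≠ t.1 → k ≠ t.2.1 →
    a.testBit k = t.2.2.testBit k := by decide

lemma Vx_quad (y : Fin m → Bool) {t : T3} (ht : t ∈ bandT ++ otherT) {a : ℕ} (ha : a ∈ quad t) :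
    Vx (sqI t) (vx y t.2.2) (vx y a) := by
  intro k hk
  rcases io_or_ge k with ⟨i, rfl⟩ | h
  · simp only [sqI, Finset.mem_insert, Finset.mem_singleton, not_or] at hk
    rw [vx_io, vx_io]
    exact quad_bits t ht a ha i (fun h => hk.1 (by rw [h])) (fun h => hk.2 (by rw [h]))
  · exact vx_ge y _ _ h

lemma quad_surj : ∀ t ∈ bandT ++ otherT, ∀ p q : Bool, ∃ a ∈ quad t, a.testBit t.1 = p ∧
    a.testBit t.2.1 = q := by decide

lemma exists_quad (y : Fin m → Bool) {t : T3} (ht : t ∈ bandT ++ otherT) {u : Fin (6 + m) → Bool}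
    (hu : Vx (sqI t) (vx y t.2.2) u) : ∃ a ∈ quad t, u = vx y a := by
  obtain ⟨a, ha, h1, h2⟩ := quad_surj t ht (u (io t.1)) (u (io t.2.1))
  refine ⟨a, ha, ?_⟩
  funext k
  by_cases hk : k ∈ (sqI t : Finset (Fin (6 + m)))
  · simp only [sqI, Finset.mem_insert, Finset.mem_singleton] at hk
    rcases hk with rfl | rfl
    · rw [vx_io, h1]
    · rw [vx_io, h2]
  · rw [hu k hk, Vx_quad y ht ha k hk]

/-- the six bad edges -/
def Bl : List (ℕ × ℕ) := [(0, 1), (2, 3), (6, 7), (4, 6), (4, 12), (0, 8)]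

open Classical in
/-- the indicator of the bad edges at position `y` -/
noncomputable def phi (y : Fin m → Bool) (u w : Fin (6 + m) → Bool) : Bool :=
  decide (∃ e ∈ Bl, (u = vx y e.1 ∧ w = vx y e.2) ∨ (u = vx y e.2 ∧ w = vx y e.1))

/-- flip the lowest coordinate in which `u` and `w` differ -/
def mid {N : ℕ} (u w : Fin N → Bool) : Fin N → Bool := fun k =>
  if ∀ l < k, u l = w l then w k else u k

/-- the cocycle -/
noncomputable def cc (y : Fin m → Bool) (u w : Fin (6 + m) → Bool) : Bool :=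
  (phi y u (mid u w)) ^^ (phi y (mid u w) w)

lemma phi_symm (y : Fin m → Bool) (u w : Fin (6 + m) → Bool) : phi y u w = phi y w u := by
  unfold phi
  congr 1
  apply propext
  constructor
  · rintro ⟨e, he, h⟩; exact ⟨e, he, h.symm.imp (fun h => ⟨h.2, h.1⟩) (fun h => ⟨h.2, h.1⟩)⟩
  · rintro ⟨e, he, h⟩; exact ⟨e, he, h.symm.imp (fun h => ⟨h.2, h.1⟩) (fun h => ⟨h.2, h.1⟩)⟩

lemma vx_inj (y : Fin m → Bool) {a b : ℕ} (ha : a < 32) (hb : b < 32) (h : vx y a = vx y b) :
    a = b := by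
  have h1 : ∀ i : Fin 5, a.testBit i = b.testBit i := fun i => by
    rw [← vx_io y a i, ← vx_io y b i, h]
  have h2 : ∀ a < 32, ∀ b < 32, (∀ i : Fin 5, a.testBit i = b.testBit i) → a = b := by decide
  exact h2 a ha b hb h1

lemma Bl_lt : ∀ e ∈ Bl, e.1 < 16 ∧ e.2 < 16 ∧ e.1 ≠ e.2 := by decide

lemma phi_self (y : Fin m → Bool) (u : Fin (6 + m) → Bool) : phi y u u = false := by
  unfold phi
  rw [decide_eq_false_iff_not]
  rintro ⟨e, he, h⟩
  obtain ⟨h1, h2, h3⟩ := Bl_lt e he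
  rcases h with ⟨ha, hb⟩ | ⟨ha, hb⟩
  · exact h3 (vx_inj y (by omega) (by omega) (ha.symm.trans hb))
  · exact h3 (vx_inj y (by omega) (by omega) (hb.symm.trans ha))

lemma phi_vx (y : Fin m → Bool) {a b : ℕ} (ha : a < 32) (hb : b < 32) :
    phi y (vx y a) (vx y b) = decide (∃ e ∈ Bl, (a = e.1 ∧ b = e.2) ∨ (a = e.2 ∧ b = e.1)) := by
  unfold phi
  rw [decide_eq_decide]
  constructor
  · rintro ⟨e, he, h⟩
    obtain ⟨h1, h2, h3⟩ := Bl_lt e he
    refine ⟨e, he, h.imp (fun h => ⟨?_, ?_⟩) (fun h => ⟨?_, ?_⟩)⟩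
    · exact vx_inj y ha (by omega) h.1
    · exact vx_inj y hb (by omega) h.2
    · exact vx_inj y ha (by omega) h.1
    · exact vx_inj y hb (by omega) h.2
  · rintro ⟨e, he, h⟩
    refine ⟨e, he, h.imp (fun h => ⟨?_, ?_⟩) (fun h => ⟨?_, ?_⟩)⟩ <;> simp [h.1, h.2]

lemma mid_self {N : ℕ} (u : Fin N → Bool) : mid u u = u := by
  funext k; simp [mid]

lemma Vx_mid {N : ℕ} {I : Finset (Fin N)} {v u w : Fin N → Bool} (hu : Vx I v u) (hw : Vx I v w) :
    Vx I v (mid u w) := by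
  intro k hk
  unfold mid
  split_ifs
  · exact hw k hk
  · exact hu k hk

/-- the squares containing a bad edge -/
def Adj (y : Fin m → Bool) (I : Finset (Fin (6 + m))) (v : Fin (6 + m) → Bool) : Prop :=
  ∃ e ∈ Bl, Vx I v (vx y e.1) ∧ Vx I v (vx y e.2)

lemma phi_eq_false {y : Fin m → Bool} {I : Finset (Fin (6 + m))} {v u w : Fin (6 + m) → Bool}
    (h : ¬ Adj y I v) (hu : Vx I v u) (hw : Vx I v w) : phi y u w = false := by
  unfold phi
  rw [decide_eq_false_iff_not]
  rintro ⟨e, he, ⟨rfl, rfl⟩ | ⟨rfl, rfl⟩⟩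
  · exact h ⟨e, he, hu, hw⟩
  · exact h ⟨e, he, hw, hu⟩

lemma cc_eq_false {y : Fin m → Bool} {I : Finset (Fin (6 + m))} {v u w : Fin (6 + m) → Bool}
    (h : ¬ Adj y I v) (hu : Vx I v u) (hw : Vx I v w) : cc y u w = false := by
  unfold cc
  rw [phi_eq_false h hu (Vx_mid hu hw), phi_eq_false h (Vx_mid hu hw) hw]
  rfl

/-- `mid` on numbers -/
def mid0 (a b : ℕ) : ℕ := a ^^^ ((a ^^^ b) &&& (32 - (a ^^^ b)))

lemma mid0_spec : ∀ t ∈ bandT, ∀ a ∈ quad t, ∀ b ∈ quad t, ∀ k : Fin 5,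
    (mid0 a b).testBit k =
      if ∀ l : Fin 5, l < k → a.testBit l = b.testBit l then b.testBit k else a.testBit k := by
  decide

lemma mid_vx (y : Fin m → Bool) {t : T3} (ht : t ∈ bandT) {a b : ℕ} (ha : a ∈ quad t)
    (hb : b ∈ quad t) : mid (vx y a) (vx y b) = vx y (mid0 a b) := by
  funext k
  rcases io_or_ge k with ⟨i, rfl⟩ | h
  · rw [vx_io, mid0_spec t ht a ha b hb i]
    unfold mid
    have : (∀ l < (io i : Fin (6 + m)), vx y a l = vx y b l) ↔
        ∀ l : Fin 5, l < i → a.testBit l = b.testBit l := by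
      constructor
      · intro h l hl
        have := h (io l) (by rw [Fin.lt_def]; exact hl)
        rwa [vx_io, vx_io] at this
      · intro h l hl
        rcases io_or_ge l with ⟨j, rfl⟩ | h'
        · rw [vx_io, vx_io]; exact h j hl
        · exact vx_ge y _ _ h'
    simp only [this, vx_io]
  · rw [vx_ge y (mid0 a b) a h]
    unfold mid
    split_ifs
    · exact vx_ge y _ _ h
    · rfl

/-- the cocycle on numbers -/
def cc0 (a b : ℕ) : Bool :=
  (decide (∃ e ∈ Bl, (a = e.1 ∧ mid0 a b = e.2) ∨ (a = e.2 ∧ mid0 a b = e.1))) ^^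
    (decide (∃ e ∈ Bl, (mid0 a b = e.1 ∧ b = e.2) ∨ (mid0 a b = e.2 ∧ b = e.1)))

lemma quad_lt : ∀ t ∈ bandT, ∀ a ∈ quad t, ∀ b ∈ quad t, a < 32 ∧ mid0 a b < 32 := by decide

lemma cc_vx (y : Fin m → Bool) {t : T3} (ht : t ∈ bandT) {a b : ℕ} (ha : a ∈ quad t)
    (hb : b ∈ quad t) : cc y (vx y a) (vx y b) = cc0 a b := by
  unfold cc cc0
  rw [mid_vx y ht ha hb, phi_vx y (quad_lt t ht a ha b hb).1 (quad_lt t ht a ha b hb).2,
    phi_vx y (quad_lt t ht a ha b hb).2 (quad_lt t ht b hb a ha).1]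

lemma cc0_cocycle : ∀ t ∈ bandT, ∀ a ∈ quad t, ∀ b ∈ quad t, ∀ c ∈ quad t,
    ((cc0 a b) ^^ (cc0 b c)) = cc0 a c := by decide

end Pool.Agent.Lib_helper52.Cube
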