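import Pool.Agent.Lib_helper52.CubeTors

open Finset

namespace Pool.Agent.Lib_helper52.Cube

/-! ### Expectations over random subsets of a finite set -/

section Prob

variable {σ : Type*} [Fintype σ] [DecidableEq σ]

/-- the weight of a subset -/
noncomputable def wt (p : ℝ) (S : Finset σ) : ℝ :=
  p ^ S.card * (1 - p) ^ (Fintype.card σ - S.card)

lemma sum_wt_cyl (p : ℝ) {A B : Finset σ} (hAB : Disjoint A B) :
    ∑ S : Finset σ, wt p S * (if A ⊆ S ∧ Disjoint B S then 1 else 0) =
      p ^ A.card * (1 - p) ^ B.card := by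
  have h := Finset.prod_add (fun i : σ => if i ∈ B then 0 else p)
    (fun i : σ => if i ∈ A then 0 else 1 - p) univ
  have hL : ∏ i : σ, ((if i ∈ B then 0 else p) + (if i ∈ A then 0 else 1 - p)) =
      p ^ A.card * (1 - p) ^ B.card := by
    have : ∀ i : σ, ((if i ∈ B then 0 else p) + (if i ∈ A then 0 else 1 - p)) =
        (if i ∈ A then p else 1) * (if i ∈ B then 1 - p else 1) := by
      intro i
      by_cases hA : i ∈ A
      · have hB : i ∉ B := Finset.disjoint_left.1 hAB hA
        simp [hA, hB]
      · by_cases hB : i ∈ B <;> simp [hA, hB]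
    rw [Finset.prod_congr rfl fun i _ => this i, Finset.prod_mul_distrib, Finset.prod_ite_mem,
      Finset.prod_ite_mem]
    simp
  rw [hL] at h
  rw [h, Finset.powerset_univ]
  refine Finset.sum_congr rfl fun S _ => ?_
  have h1 : ∏ i ∈ S, (if i ∈ B then 0 else p) = if Disjoint B S then p ^ S.card else 0 := by
    split_ifs with hd
    · rw [Finset.prod_congr rfl (g := fun _ => p), Finset.prod_const]
      intro i hi
      rw [if_neg (Finset.disjoint_right.1 hd hi)]
    · rw [Finset.not_disjoint_iff] at hd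
      obtain ⟨i, hiB, hiS⟩ := hd
      exact Finset.prod_eq_zero hiS (by simp [hiB])
  have h2 : ∏ i ∈ univ \ S, (if i ∈ A then 0 else 1 - p) =
      if A ⊆ S then (1 - p) ^ (Fintype.card σ - S.card) else 0 := by
    split_ifs with hd
    · rw [Finset.prod_congr rfl (g := fun _ => 1 - p), Finset.prod_const]
      · congr 1
        rw [← Finset.compl_eq_univ_sdiff, Finset.card_compl]
      intro i hi
      rw [if_neg fun hiA => (Finset.mem_sdiff.1 hi).2 (hd hiA)]
    · rw [Finset.not_subset] at hd
      obtain ⟨i, hiA, hiS⟩ := hd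
      exact Finset.prod_eq_zero (Finset.mem_sdiff.2 ⟨Finset.mem_univ i, hiS⟩) (by simp [hiA])
  rw [h1, h2]
  unfold wt
  by_cases hA : A ⊆ S <;> by_cases hB : Disjoint B S <;> simp [hA, hB]

/-- independence of cylinder events on disjoint sets -/
lemma sum_wt_none (p : ℝ) {ι : Type*} [Fintype ι] [DecidableEq ι] (A B : ι → Finset σ)
    (hAB : ∀ y, Disjoint (A y) (B y))
    (hd : ∀ y y', y ≠ y' → Disjoint (A y ∪ B y) (A y' ∪ B y')) :
    ∑ S : Finset σ, wt p S * ∏ y : ι, (1 - if A y ⊆ S ∧ Disjoint (B y) S then (1 : ℝ) else 0) =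
      ∏ y : ι, (1 - p ^ (A y).card * (1 - p) ^ (B y).card) := by
  have expand : ∀ x : ι → ℝ, ∏ y : ι, (1 - x y) = ∑ T : Finset ι, (-1) ^ T.card * ∏ y ∈ T, x y := by
    intro x
    have h := Finset.prod_add (fun y => - x y) (fun _ => (1 : ℝ)) univ
    rw [Finset.powerset_univ] at h
    simp only [Finset.prod_const_one, mul_one] at h
    have h2 : ∏ y : ι, (1 - x y) = ∏ y : ι, (-x y + 1) :=
      Finset.prod_congr rfl fun y _ => by ring
    rw [h2, h]
    refine Finset.sum_congr rfl fun T _ => ?_
    rw [Finset.prod_neg]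
  rw [expand]
  have h1 : ∀ S : Finset σ, wt p S * ∏ y : ι, (1 - if A y ⊆ S ∧ Disjoint (B y) S then (1 : ℝ) else 0)
      = ∑ T : Finset ι, (-1) ^ T.card * (wt p S *
        (if (T.biUnion A) ⊆ S ∧ Disjoint (T.biUnion B) S then (1 : ℝ) else 0)) := by
    intro S
    rw [expand, Finset.mul_sum]
    refine Finset.sum_congr rfl fun T _ => ?_
    have : ∏ y ∈ T, (if A y ⊆ S ∧ Disjoint (B y) S then (1 : ℝ) else 0) =
        if (T.biUnion A) ⊆ S ∧ Disjoint (T.biUnion B) S then (1 : ℝ) else 0 := by
      rw [Finset.prod_ite_zero]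
      simp only [Finset.prod_const_one]
      congr 1
      rw [Finset.biUnion_subset, Finset.disjoint_biUnion_left]
      apply propext
      exact ⟨fun h => ⟨fun y hy => (h y hy).1, fun y hy => (h y hy).2⟩,
        fun h y hy => ⟨h.1 y hy, h.2 y hy⟩⟩
    rw [this]; ring
  rw [Finset.sum_congr rfl fun S _ => h1 S, Finset.sum_comm]
  refine Finset.sum_congr rfl fun T _ => ?_
  rw [← Finset.mul_sum, sum_wt_cyl]
  · congr 1
    rw [Finset.prod_mul_distrib, Finset.prod_pow_eq_pow_sum, Finset.prod_pow_eq_pow_sum,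
      Finset.card_biUnion, Finset.card_biUnion]
    · intro y _ y' _ hne
      exact (hd y y' hne).mono Finset.subset_union_right Finset.subset_union_right
    · intro y _ y' _ hne
      exact (hd y y' hne).mono Finset.subset_union_left Finset.subset_union_left
  · rw [Finset.disjoint_biUnion_left]
    intro y _
    rw [Finset.disjoint_biUnion_right]
    intro y' _
    by_cases h : y = y'
    · subst h; exact hAB y
    · exact (hd y y' h).mono Finset.subset_union_left Finset.subset_union_right

end Prob

end Pool.Agent.Lib_helper52.Cube
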