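import Pool.Agent.Lib_helper52.CubeCover

open Topology Bundle

namespace Pool.Agent.Lib_helper52.Cube

variable {n : ℕ} {S : Finset (Square n)}

lemma convex_face (I : Finset (Fin n)) (v : Fin n → Bool) : Convex ℝ (face I v) := by
  intro x hx y hy a b ha hb hab
  refine ⟨fun i hi => ?_, fun i hi => ?_⟩
  · have h1 := hx.1 i hi
    have h2 := hy.1 i hi
    have := (convex_Icc (0 : ℝ) 1) h1 h2 ha hb hab
    simpa using this
  · simp only [Pi.add_apply, Pi.smul_apply, hx.2 i hi, hy.2 i hi]
    rw [← add_smul, hab, one_smul]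

/-- `u` and `w` are vertices of a common cell -/
def Con (S : Finset (Square n)) (u w : Fin n → Bool) : Prop :=
  ∃ I v, IsCell S I v ∧ Vx I v u ∧ Vx I v w

lemma lineMap_mem_face {I : Finset (Fin n)} {v u w : Fin n → Bool} (hu : Vx I v u)
    (hw : Vx I v w) (t : unitInterval) : AffineMap.lineMap (pt u) (pt w) (t : ℝ) ∈ face I v :=
  (convex_face I v).lineMap_mem (pt_mem_face hu) (pt_mem_face hw) t.2

/-- the straight path between two vertices of a common cell -/
noncomputable def segPath {u w : Fin n → Bool} (h : Con S u w) : Path (vtx S u) (vtx S w) where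
  toFun t := ⟨AffineMap.lineMap (pt u) (pt w) (t : ℝ), by
    obtain ⟨I, v, hI, hu, hw⟩ := h
    exact face_subset_complex hI (lineMap_mem_face hu hw t)⟩
  continuous_toFun := by
    apply Continuous.subtype_mk
    exact (AffineMap.lineMap_continuous).comp continuous_subtype_val
  source' := by simp [vtx]
  target' := by simp [vtx]

/-- its class -/
noncomputable def seg {u w : Fin n → Bool} (h : Con S u w) :
    Path.Homotopic.Quotient (vtx S u) (vtx S w) := .mk (segPath h)

lemma seg_trans {I : Finset (Fin n)} {v u w z : Fin n → Bool} (hI : IsCell S I v) (hu : Vx I v u)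
    (hw : Vx I v w) (hz : Vx I v z) :
    (seg (S := S) ⟨I, v, hI, hu, hw⟩).trans (seg ⟨I, v, hI, hw, hz⟩) =
      seg ⟨I, v, hI, hu, hz⟩ := by
  have hne : (face I v).Nonempty := ⟨_, pt_mem_face hu⟩
  have := (convex_face I v).contractibleSpace hne
  let j : C(face I v, complex S) := ⟨fun x => ⟨x.1, face_subset_complex hI x.2⟩,
    by fun_prop⟩
  let q : ∀ {a b : Fin n → Bool} (ha : Vx I v a) (hb : Vx I v b),
      Path (⟨pt a, pt_mem_face ha⟩ : face I v) ⟨pt b, pt_mem_face hb⟩ := fun {a b} ha hb =>
    { toFun := fun t => ⟨AffineMap.lineMap (pt a) (pt b) (t : ℝ), lineMap_mem_face ha hb t⟩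
      continuous_toFun := by
        apply Continuous.subtype_mk
        exact (AffineMap.lineMap_continuous).comp continuous_subtype_val
      source' := by simp
      target' := by simp }
  have h3 : (q hu hw).trans (q hw hz) |>.Homotopic (q hu hz) :=
    SimplyConnectedSpace.paths_homotopic _ _
  have h4 := h3.map j
  rw [Path.map_trans] at h4
  have h5 : ((segPath (S := S) ⟨I, v, hI, hu, hw⟩).trans (segPath ⟨I, v, hI, hw, hz⟩)).Homotopic
      (segPath ⟨I, v, hI, hu, hz⟩) := h4
  exact (Path.Homotopic.Quotient.eq).2 h5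

variable {c : (Fin n → Bool) → (Fin n → Bool) → Bool} (hc : IsCocycle S c)

lemma idx_pt (u : Fin n → Bool) : idx (pt u) = u := by
  funext i
  unfold idx pt
  cases u i <;> norm_num

lemma near_left {u w : Fin n → Bool} {t : ℝ} (h0 : 0 ≤ t) (h1 : t < 1) :
    near (AffineMap.lineMap (pt u) (pt w) t) u := by
  intro i
  simp only [AffineMap.lineMap_apply_module, Pi.add_apply, Pi.smul_apply, smul_eq_mul]
  unfold pt
  rw [abs_lt]
  cases u i <;> cases w i <;> simp <;> constructor <;> linarith

lemma near_right {u w : Fin n → Bool} {t : ℝ} (h0 : 0 < t) (h1 : t ≤ 1) :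
    near (AffineMap.lineMap (pt u) (pt w) t) w := by
  intro i
  simp only [AffineMap.lineMap_apply_module, Pi.add_apply, Pi.smul_apply, smul_eq_mul]
  unfold pt
  rw [abs_lt]
  cases u i <;> cases w i <;> simp <;> constructor <;> linarith

/-- the lift of a point in the chart `u` -/
noncomputable def lft (u : Fin n → Bool) (a : Bool) (x : complex S) : (core hc).TotalSpace :=
  ⟨x, a ^^ c u (idx x.1)⟩

lemma continuousOn_lft (u : Fin n → Bool) (a : Bool) :
    ContinuousOn (lft hc u a) {x | near x.1 u} := by
  have h := ((core hc).localTriv u).toOpenPartialHomeomorph.continuousOn_symm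
  have h2 : lft hc u a = ((core hc).localTriv u).toOpenPartialHomeomorph.symm ∘
      (fun x => (x, a)) := rfl
  rw [h2]
  refine h.comp (Continuous.continuousOn (by fun_prop)) ?_
  intro x hx
  exact ⟨hx, trivial⟩

lemma lft_eq {u w : Fin n → Bool} (h : Con S u w) (a : Bool) (t : unitInterval) :
    lft hc u a (segPath h t) = lft hc w (a ^^ c u w) (segPath h t) := by
  obtain ⟨I, v, hI, hu, hw⟩ := h
  have hx : (segPath (S := S) ⟨I, v, hI, hu, hw⟩ t).1 ∈ face I v := lineMap_mem_face hu hw t
  have h1 := near_idx (mem_Icc_of_mem_complex (segPath (S := S) ⟨I, v, hI, hu, hw⟩ t).2)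
  have h2 := hc I v hI u w _ hu hw (Vx_of_near hx h1)
  unfold lft
  congr 1
  rw [← h2]
  exact (Bool.xor_assoc _ _ _).symm

/-- the lifted path -/
noncomputable def liftSeg {u w : Fin n → Bool} (h : Con S u w) (a : Bool) :
    Path (⟨vtx S u, a⟩ : (core hc).TotalSpace) ⟨vtx S w, a ^^ c u w⟩ where
  toFun t := lft hc u a (segPath h t)
  continuous_toFun := by
    rw [continuous_iff_continuousAt]
    intro t
    by_cases ht : (t : ℝ) < 1
    · have h1 : near (segPath h t).1 u := near_left t.2.1 ht
      have h2 : {x : complex S | near x.1 u} ∈ 𝓝 (segPath h t) :=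
        ((core hc).isOpen_baseSet u).mem_nhds h1
      exact ((continuousOn_lft hc u a).continuousAt h2).comp (segPath h).continuous.continuousAt
    · have ht0 : (0 : ℝ) < t := by push Not at ht; linarith
      have h1 : near (segPath h t).1 w := near_right ht0 t.2.2
      have h2 : {x : complex S | near x.1 w} ∈ 𝓝 (segPath h t) :=
        ((core hc).isOpen_baseSet w).mem_nhds h1
      have h3 : (fun t => lft hc u a (segPath h t)) =
          fun t => lft hc w (a ^^ c u w) (segPath h t) := funext fun t => lft_eq hc h a t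
      rw [h3]
      exact ((continuousOn_lft hc w _).continuousAt h2).comp (segPath h).continuous.continuousAt
  source' := by
    rw [(segPath h).source]
    unfold lft vtx
    simp only [idx_pt, hc.self, Bool.xor_false]
  target' := by
    rw [(segPath h).target]
    unfold lft vtx
    simp only [idx_pt]

/-- the monodromy along a straight path between vertices of a cell -/
lemma monodromy_seg {u w : Fin n → Bool} (h : Con S u w) (a : Bool) :
    (isCoveringMap hc).monodromy (seg h) ⟨⟨vtx S u, a⟩, rfl⟩ = ⟨⟨vtx S w, a ^^ c u w⟩, rfl⟩ :=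
  (isCoveringMap hc).monodromy_map (.mk (liftSeg hc h a))

end Pool.Agent.Lib_helper52.Cube
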