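import Pool.Agent.Lib_helper52.CubePos

open Finset

namespace Pool.Agent.Lib_helper52.Cube

variable {m : ℕ}

open Classical in
/-- the squares which have to be absent -/
noncomputable def bad (y : Fin m → Bool) : Finset (Square (6 + m)) :=
  univ.filter fun s => Adj y s.1.1 s.1.2 ∧ s ∉ needed y

/-- the good event at the position `y` -/
def Good (y : Fin m → Bool) (S : Finset (Square (6 + m))) : Prop :=
  needed y ⊆ S ∧ Disjoint (bad y) S

lemma other_not_adj : ∀ t ∈ otherT, ∀ e ∈ Bl,
    ¬ ((∀ k : Fin 5, k ≠ t.1 → k ≠ t.2.1 → e.1.testBit k = t.2.2.testBit k) ∧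
      (∀ k : Fin 5, k ≠ t.1 → k ≠ t.2.1 → e.2.testBit k = t.2.2.testBit k)) := by decide

lemma not_adj_other (y : Fin m → Bool) {t : T3} (ht : t ∈ otherT) :
    ¬ Adj y (sqI t) (vx y t.2.2) := by
  rintro ⟨e, he, h1, h2⟩
  refine other_not_adj t ht e he ⟨fun k hk hk' => ?_, fun k hk hk' => ?_⟩
  · have := h1 (io k) (by
      simp only [sqI, Finset.mem_insert, Finset.mem_singleton, not_or]
      exact ⟨fun h => hk (io_inj h), fun h => hk' (io_inj h)⟩)
    rwa [vx_io, vx_io] at this
  · have := h2 (io k) (by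
      simp only [sqI, Finset.mem_insert, Finset.mem_singleton, not_or]
      exact ⟨fun h => hk (io_inj h), fun h => hk' (io_inj h)⟩)
    rwa [vx_io, vx_io] at this

lemma eq_or_eq_of_card_le_one {N : ℕ} {I : Finset (Fin N)} (hI : I.card ≤ 1)
    {v x y z : Fin N → Bool} (hx : Vx I v x) (hy : Vx I v y) (hz : Vx I v z) :
    x = y ∨ y = z ∨ x = z := by
  have hone := Finset.card_le_one.1 hI
  rcases I.eq_empty_or_nonempty with rfl | ⟨i, hiI⟩
  · left
    funext k
    rw [hx k (by simp), hy k (by simp)]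
  · have hi : ∀ k ∈ I, k = i := fun k hk => hone k hk i hiI
    have h : ∀ {a b : Fin N → Bool}, Vx I v a → Vx I v b → a i = b i → a = b := by
      intro a b ha hb hab
      funext k
      by_cases hk : k ∈ I
      · rw [hi k hk]; exact hab
      · rw [ha k hk, hb k hk]
    by_cases h1 : x i = y i
    · exact Or.inl (h hx hy h1)
    · by_cases h2 : y i = z i
      · exact Or.inr (Or.inl (h hy hz h2))
      · refine Or.inr (Or.inr (h hx hz ?_))
        cases hx' : x i <;> cases hy' : y i <;> cases hz' : z i <;> simp_all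

lemma cc_self (y : Fin m → Bool) (u : Fin (6 + m) → Bool) : cc y u u = false := by
  unfold cc; rw [mid_self, phi_self]; rfl

lemma mid_of_card_le_one {N : ℕ} {I : Finset (Fin N)} (hI : I.card ≤ 1)
    {v u w : Fin N → Bool} (hu : Vx I v u) (hw : Vx I v w) : mid u w = w := by
  have hone := Finset.card_le_one.1 hI
  funext k
  unfold mid
  split_ifs with h
  · rfl
  · push Not at h
    obtain ⟨l, hl, hne⟩ := h
    have hlI : l ∈ I := by
      by_contra hl'
      exact hne ((hu l hl').trans (hw l hl').symm)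
    have hkI : k ∉ I := fun hk => hl.ne (hone l hlI k hk)
    rw [hu k hkI, hw k hkI]

lemma cc_symm_of_card_le_one (y : Fin m → Bool) {I : Finset (Fin (6 + m))} (hI : I.card ≤ 1)
    {v u w : Fin (6 + m) → Bool} (hu : Vx I v u) (hw : Vx I v w) : cc y u w = cc y w u := by
  unfold cc
  rw [mid_of_card_le_one hI hu hw, mid_of_card_le_one hI hw hu, phi_self, phi_self,
    phi_symm y u w]

lemma isCocycle {y : Fin m → Bool} {S : Finset (Square (6 + m))} (h : Good y S) :
    IsCocycle S (cc y) := by
  intro I v hI a b c ha hb hc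
  rcases hI with hI | ⟨s, hs, hsI⟩
  · rcases eq_or_eq_of_card_le_one hI ha hb hc with rfl | rfl | rfl
    · rw [cc_self]; simp
    · rw [cc_self]; simp
    · rw [cc_self, cc_symm_of_card_le_one y hI hb ha]; simp
  · by_cases hadj : Adj y I v
    · have hn : s ∈ needed y := by
        by_contra hn
        have : s ∈ bad y := by
          simp only [bad, mem_filter, mem_univ, true_and]
          refine ⟨?_, hn⟩
          rw [hsI]; exact hadj
        exact (Finset.disjoint_left.1 h.2 this) hs
      simp only [needed, mem_filter, mem_univ, true_and] at hn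
      obtain ⟨t, ht, hst⟩ := hn
      rw [hsI] at hst
      obtain ⟨rfl, rfl⟩ := Prod.mk.inj hst
      rcases List.mem_append.1 ht with ht' | ht'
      · obtain ⟨a', ha', rfl⟩ := exists_quad y ht ha
        obtain ⟨b', hb', rfl⟩ := exists_quad y ht hb
        obtain ⟨c', hc', rfl⟩ := exists_quad y ht hc
        rw [cc_vx y ht' ha' hb', cc_vx y ht' hb' hc', cc_vx y ht' ha' hc']
        exact cc0_cocycle t ht' a' ha' b' hb' c' hc'
      · exact absurd hadj (not_adj_other y ht')
    · rw [cc_eq_false hadj ha hb, cc_eq_false hadj hb hc, cc_eq_false hadj ha hc]; rfl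

lemma isCell_of_good {y : Fin m → Bool} {S : Finset (Square (6 + m))} (h : Good y S) {t : T3}
    (ht : t ∈ bandT ++ otherT) : IsCell S (sqI t) (vx y t.2.2) :=
  Or.inr ⟨mkSq y t ht, h.1 (mkSq_mem y t ht), rfl⟩

lemma con_of_quad {y : Fin m → Bool} {S : Finset (Square (6 + m))} (h : Good y S) {t : T3}
    (ht : t ∈ bandT ++ otherT) {a b : ℕ} (ha : a ∈ quad t) (hb : b ∈ quad t) :
    Con S (vx y a) (vx y b) :=
  ⟨sqI t, vx y t.2.2, isCell_of_good h ht, Vx_quad y ht ha, Vx_quad y ht hb⟩

/-- on the good event the fundamental group is not torsion free -/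
theorem not_torsionFree_of_good {y : Fin m → Bool} {S : Finset (Square (6 + m))}
    (h : Good y S) : S ∉ torsionFreeEvent (6 + m) := by
  intro htf
  let g : ℕ → ℕ → FundamentalGroup (complex S) (origin S) := fun a b => gg S (vx y a) (vx y b)
  have hsq : coreWord g * coreWord g = 1 := by
    apply coreWord_sq
    intro Q hQ a ha b hb c hc
    rw [← map_quad, List.mem_map] at hQ
    obtain ⟨t, ht, rfl⟩ := hQ
    exact gg_mul (isCell_of_good h ht) (Vx_quad y ht ha) (Vx_quad y ht hb) (Vx_quad y ht hc)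
  have hc := isCocycle h
  have step : ∀ t ∈ bandT, ∀ a ∈ quad t, ∀ b ∈ quad t, Par hc (vx y b) (vx y a) (cc0 b a) (g a b) :=
    fun t ht a ha b hb => by
      have h1 := par_gg hc (con_of_quad h (List.mem_append_left _ ht) hb ha)
      rw [cc_vx y ht hb ha] at h1
      exact h1
  have p1 := step (0, 1, 0) (by decide) 0 (by decide) 1 (by decide)
  have p2 := step (0, 1, 0) (by decide) 1 (by decide) 3 (by decide)
  have p3 := step (0, 2, 2) (by decide) 3 (by decide) 7 (by decide)
  have p4 := step (0, 1, 4) (by decide) 7 (by decide) 5 (by decide)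
  have p5 := step (0, 1, 4) (by decide) 5 (by decide) 4 (by decide)
  have p6 := step (2, 3, 0) (by decide) 4 (by decide) 0 (by decide)
  have hp := ((((p1.mul hc p2).mul hc p3).mul hc p4).mul hc p5).mul hc p6
  have hb : ((cc0 0 4) ^^ ((cc0 4 5) ^^ ((cc0 5 7) ^^ ((cc0 7 3) ^^ ((cc0 3 1) ^^ (cc0 1 0)))))) =
      true := by decide
  rw [hb] at hp
  have hne : coreWord g ≠ 1 := hp.ne_one hc
  refine hne (htf _ ?_)
  rw [isOfFinOrder_iff_pow_eq_one]
  exact ⟨2, by norm_num, by rw [pow_two]; exact hsq⟩

end Pool.Agent.Lib_helper52.Cube
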