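import Pool.Agent.Lib_helper52.DimerTiling

open MeasureTheory Filter Topology
open scoped ENNReal ContDiff

namespace Pool.Agent.Lib_helper52.Dimer

lemma volume_hyperplane (ℓ : R3 →L[ℝ] ℝ) (hℓ : ℓ ≠ 0) (c : ℝ) : volume {x | ℓ x = c} = 0 := by
  have h0 : volume (LinearMap.ker (ℓ : R3 →ₗ[ℝ] ℝ) : Set R3) = 0 := by
    refine Measure.addHaar_submodule _ _ ?_
    intro h
    apply hℓ
    ext x
    have : x ∈ LinearMap.ker (ℓ : R3 →ₗ[ℝ] ℝ) := by rw [h]; trivial
    simpa using this
  by_cases hne : ∃ y, ℓ y = c
  · obtain ⟨y, hy⟩ := hne
    have : {x | ℓ x = c} = (fun x => -y + x) ⁻¹' (LinearMap.ker (ℓ : R3 →ₗ[ℝ] ℝ) : Set R3) := by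
      ext x
      simp only [Set.mem_ofPred_eq, Set.mem_preimage, SetLike.mem_coe, LinearMap.mem_ker,
        ContinuousLinearMap.coe_coe, map_add, map_neg, hy]
      constructor <;> intro h <;> linarith
    rw [this, measure_preimage_add]
    exact h0
  · have : {x | ℓ x = c} = ∅ := by
      ext x
      simp only [Set.mem_ofPred_eq, Set.mem_empty_iff_false, iff_false]
      exact fun h => hne ⟨x, h⟩
    rw [this]; simp

/-- coordinate functional -/
noncomputable def co (i : Fin 3) : R3 →L[ℝ] ℝ := EuclideanSpace.proj i

lemma co_apply (i : Fin 3) (x : R3) : co i x = x i := rfl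

lemma ae_generic : ∀ᵐ x : R3, x 0 + x 1 ≠ 0 ∧ x 0 - x 1 ≠ 0 ∧ ∀ i, |x i| ≠ 1 := by
  have h1 : ∀ᵐ x : R3, x 0 + x 1 ≠ 0 := by
    have : (co 0 + co 1) ≠ 0 := by
      intro h
      have := DFunLike.congr_fun h (EuclideanSpace.single 0 1)
      simp [co_apply] at this
    have h := volume_hyperplane _ this 0
    rw [ae_iff]
    convert h using 2
    ext x
    simp [co_apply]
  have h2 : ∀ᵐ x : R3, x 0 - x 1 ≠ 0 := by
    have : (co 0 - co 1) ≠ 0 := by
      intro h
      have := DFunLike.congr_fun h (EuclideanSpace.single 0 1)
      simp [co_apply] at this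
    have h := volume_hyperplane _ this 0
    rw [ae_iff]
    convert h using 2
    ext x
    simp [co_apply]
  have h3 : ∀ i : Fin 3, ∀ c : ℝ, ∀ᵐ x : R3, x i ≠ c := by
    intro i c
    have : co i ≠ 0 := by
      intro h
      have := DFunLike.congr_fun h (EuclideanSpace.single i 1)
      simp [co_apply] at this
    have h := volume_hyperplane _ this c
    rw [ae_iff]
    convert h using 2
    ext x
    simp [co_apply]
  have h4 : ∀ᵐ x : R3, ∀ i, x i ≠ 1 := ae_all_iff.2 fun i => h3 i 1
  have h5 : ∀ᵐ x : R3, ∀ i, x i ≠ -1 := ae_all_iff.2 fun i => h3 i (-1)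
  filter_upwards [h1, h2, h4, h5] with x a b c d
  refine ⟨a, b, fun i hi => ?_⟩
  rcases (abs_eq (by norm_num : (0:ℝ) ≤ 1)).1 hi with h | h
  · exact c i h
  · exact d i h

/-- partner map of the explicit tilings -/
noncomputable def par (u : Z3) : Z3 := u + stp u

lemma par_spec (n : ℕ) : ∀ e ∈ til n, par e.1 = e.2 := by
  intro e he
  rw [mem_til] at he
  rw [par, he.2.1]

lemma dirfun_til_tendsto {x : R3} (h1 : x 0 + x 1 ≠ 0) (h2 : x 0 - x 1 ≠ 0) (h3 : ∀ i, |x i| ≠ 1)
    (i : Fin 3) :
    Tendsto (fun n => dirfun n (til n) par i x) atTop (𝓝 (cube.indicator (fun x => g0 x i) x)) := by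
  by_cases hx : x ∈ cube
  · rw [Set.indicator_of_mem hx]
    have hlt : ∀ i, 0 < 1 - |x i| := fun i => sub_pos.2 (lt_of_le_of_ne (hx i) (h3 i))
    have h4 : ∀ᶠ n : ℕ in atTop, ∀ i, (2 : ℝ) < n * (1 - |x i|) :=
      eventually_all.2 fun i => eventually_large (hlt i) 2
    refine tendsto_const_nhds.congr' ?_
    filter_upwards [stp_tendsto h1 h2, h4] with n hn1 hn2
    have hmem : ev (fl n x) ∈ (til n).image Prod.fst := by
      rw [mem_image_til]
      refine ⟨isEven_ev _, Or.inl ?_⟩
      rw [mem_bx]
      intro j
      have h5 := fl_near n x j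
      have h6 := hn2 j
      have h7 : |(ev (fl n x) j : ℝ)| ≤ n := by
        rw [abs_le]
        have h8 := neg_abs_le (x j)
        have h9 := le_abs_self (x j)
        have h10 : (0:ℝ) ≤ n := Nat.cast_nonneg n
        constructor <;> nlinarith
      exact_mod_cast h7
    simp only [dirfun, hmem, if_true, par]
    rw [← hn1 i]
    simp
  · rw [Set.indicator_of_notMem hx]
    have : ∃ j, 1 < |x j| := by
      by_contra hcon
      push Not at hcon
      exact hx hcon
    obtain ⟨j, hj⟩ := this
    have h4 : ∀ᶠ n : ℕ in atTop, (5 : ℝ) < n * (|x j| - 1) := eventually_large (sub_pos.2 hj) 5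
    refine tendsto_const_nhds.congr' ?_
    filter_upwards [h4, eventually_ge_atTop 1] with n hn hn1
    have hmem : ev (fl n x) ∉ (til n).image Prod.fst := by
      intro hcon
      have h5 := dirfun_support hn1 (isTiling_til hn1) hcon j
      have hn' : (0 : ℝ) < n := by exact_mod_cast hn1
      have h6 : n * |x j| ≤ n + 5 := by
        calc n * |x j| ≤ n * (1 + 5 / n) := by gcongr
          _ = n + 5 := by field_simp
      nlinarith
    simp only [dirfun, hmem, if_false]

/-- the frozen field is an asymptotic flow on the cube -/
theorem isAsymptoticFlow_g0 : IsAsymptoticFlow cube g0 := by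
  have hfin : IsFiniteMeasure (volume.restrict cube) := ⟨by
    rw [Measure.restrict_apply_univ]; exact volume_cubeR_lt_top 1⟩
  refine ⟨?_, til, fun n hn => isTiling_til hn, ?_⟩
  · refine Integrable.of_bound (C := 1) measurable_g0.aestronglyMeasurable ?_
    exact Eventually.of_forall fun x => (norm_g0 x).le
  · -- uniform convergence
    set D : ℕ → Fin 3 → ℝ := fun n i =>
      ∫ x, |dirfun n (til n) par i x - cube.indicator (fun x => g0 x i) x| with hD
    have hgi : ∀ i, Measurable (fun x => g0 x i) := fun i =>
      (PiLp.continuous_apply 2 _ i).measurable.comp measurable_g0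
    have hgint : ∀ i, Integrable (cube.indicator (fun x => g0 x i)) := fun i => by
      rw [integrable_indicator_iff measurableSet_cube]
      exact Integrable.of_bound (C := 1) (hgi i).aestronglyMeasurable
        (Eventually.of_forall fun x => abs_g0_le x i)
    have hDlim : ∀ i, Tendsto (fun n => D n i) atTop (𝓝 0) := by
      intro i
      have : (0 : ℝ) = ∫ x : R3, (0 : ℝ) := by simp
      rw [this]
      refine tendsto_integral_filter_of_dominated_convergence
        ((cubeR 6).indicator (fun _ => (2:ℝ))) ?_ ?_ ?_ ?_
      · filter_upwards [eventually_ge_atTop 1] with n hn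
        exact ((integrable_dirfun hn (isTiling_til hn) par i).sub (hgint i)).abs.1
      · filter_upwards [eventually_ge_atTop 1] with n hn
        refine Eventually.of_forall fun x => ?_
        have hn' : (1 : ℝ) ≤ n := by exact_mod_cast hn
        rw [Real.norm_eq_abs, abs_abs]
        by_cases hx : x ∈ cubeR 6
        · rw [Set.indicator_of_mem hx]
          have a1 := abs_dirfun_le (isTiling_til hn) (par_spec n) i x
          have a2 : |cube.indicator (fun x => g0 x i) x| ≤ 1 := by
            by_cases hxc : x ∈ cube
            · rw [Set.indicator_of_mem hxc]; exact abs_g0_le x i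
            · rw [Set.indicator_of_notMem hxc]; simp
          calc _ ≤ |dirfun n (til n) par i x| + |cube.indicator (fun x => g0 x i) x| :=
                norm_sub_le (dirfun n (til n) par i x) (cube.indicator (fun x => g0 x i) x)
            _ ≤ 2 := by linarith
        · rw [Set.indicator_of_notMem hx]
          have b1 : ev (fl n x) ∉ (til n).image Prod.fst := by
            intro hcon
            apply hx
            have := dirfun_support hn (isTiling_til hn) hcon
            intro j
            refine (this j).trans ?_
            have : (5:ℝ) / n ≤ 5 := div_le_self (by norm_num) hn'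
            linarith
          have b2 : x ∉ cube := fun hcon => hx fun j => (hcon j).trans (by norm_num)
          rw [Set.indicator_of_notMem b2]
          simp [dirfun, b1]
      · exact (integrable_indicator_iff (isClosed_cubeR _).measurableSet).2
          (integrableOn_const (volume_cubeR_lt_top 6).ne)
      · filter_upwards [ae_generic] with x hx
        have h := dirfun_til_tendsto hx.1 hx.2.1 hx.2.2 i
        have h2 := (h.sub_const (cube.indicator (fun x => g0 x i) x)).abs
        simpa using h2
    have hbound : ∀ n ≥ 1, flowDist cube n (til n) g0 ≤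
        ∑ i, ENNReal.ofReal ((5000 : ℝ) / n + D n i) := by
      intro n hn
      unfold flowDist
      refine Finset.sum_le_sum fun i _ => ?_
      refine iSup₂_le fun χ hχ => ?_
      refine ENNReal.ofReal_le_ofReal ?_
      have hmeas : Measurable χ := hχ.2.continuous.measurable
      have h1 := flow_approx hn (isTiling_til hn) (par_spec n) i hχ
      have hint1 : Integrable (fun x => dirfun n (til n) par i x * χ x) := by
        refine (integrable_dirfun hn (isTiling_til hn) par i).mul_bdd (c := 1) hmeas.aestronglyMeasurable ?_
        exact Eventually.of_forall fun x => hχ.1 x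
      have hint2 : Integrable (fun x => cube.indicator (fun x => g0 x i) x * χ x) := by
        refine (hgint i).mul_bdd (c := 1) hmeas.aestronglyMeasurable ?_
        exact Eventually.of_forall fun x => hχ.1 x
      have h3 : ∫ x in cube, g0 x i * χ x = ∫ x, cube.indicator (fun x => g0 x i) x * χ x := by
        rw [← integral_indicator measurableSet_cube]
        congr 1
        ext x
        by_cases hx : x ∈ cube <;> simp [hx]
      have h2 : |(∫ x, dirfun n (til n) par i x * χ x) - ∫ x in cube, g0 x i * χ x| ≤ D n i := by
        rw [h3, ← integral_sub hint1 hint2]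
        refine abs_integral_le_integral_abs.trans ?_
        refine integral_mono (hint1.sub hint2).abs
          ((integrable_dirfun hn (isTiling_til hn) par i).sub (hgint i)).abs ?_
        intro x
        simp only
        rw [← sub_mul, abs_mul]
        calc _ ≤ |dirfun n (til n) par i x - cube.indicator (fun x => g0 x i) x| * 1 := by
              gcongr
              exact hχ.1 x
          _ = _ := mul_one _
      calc |flowIntegral n (til n) i χ - ∫ x in cube, g0 x i * χ x|
          = |(flowIntegral n (til n) i χ - ∫ x, dirfun n (til n) par i x * χ x) +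
            ((∫ x, dirfun n (til n) par i x * χ x) - ∫ x in cube, g0 x i * χ x)| := by
            congr 1; ring
        _ ≤ _ := abs_add_le _ _
        _ ≤ (5000 : ℝ) / n + D n i := add_le_add h1 h2
    have hlim : Tendsto (fun n : ℕ => ∑ i, ENNReal.ofReal ((5000 : ℝ) / n + D n i)) atTop (𝓝 0) := by
      have : (0 : ℝ≥0∞) = ∑ i : Fin 3, ENNReal.ofReal (0 + 0) := by simp
      rw [this]
      refine tendsto_finsetSum _ fun i _ => ?_
      refine (ENNReal.continuous_ofReal.tendsto _).comp ?_
      exact (tendsto_const_div_atTop_nhds_zero_nat 5000).add (hDlim i)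
    refine tendsto_of_tendsto_of_tendsto_of_le_of_le' tendsto_const_nhds hlim
      (Eventually.of_forall fun _ => bot_le) ?_
    filter_upwards [eventually_ge_atTop 1] with n hn
    exact hbound n hn

end Pool.Agent.Lib_helper52.Dimer
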