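import Pool.Agent.Lib_helper52.DimerRef

open MeasureTheory Filter Topology
open scoped ENNReal ContDiff

namespace Pool.Agent.Lib_helper52.Dimer

variable {n : ℕ} {τ : Finset (Z3 × Z3)}

lemma flowIntegral_eq (hn : 1 ≤ n) (h : IsTiling cube n τ) (i : Fin 3) (χ : R3 → ℝ) :
    flowIntegral n τ i χ = ∑ e ∈ τ, 2 / (n : ℝ) ^ 3 * G n i χ e -
      1 / 6 * (2 / (n : ℝ) ^ 3 * ∑ e ∈ Efin n τ, G n i χ e) := by
  classical
  have h1 : flowIntegral n τ i χ = ∑ e ∈ Efin n τ,
      2 / (n : ℝ) ^ 3 * flow τ e * ((e.2 i : ℝ) - e.1 i) *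
        χ (midpoint ℝ (pt n e.1) (pt n e.2)) := by
    unfold flowIntegral
    rw [← coe_Efin hn h]
    exact finsum_mem_coe_finset _ _
  rw [h1]
  have h2 : ∀ e ∈ Efin n τ, 2 / (n : ℝ) ^ 3 * flow τ e * ((e.2 i : ℝ) - e.1 i) *
        χ (midpoint ℝ (pt n e.1) (pt n e.2)) =
        (if e ∈ τ then 2 / (n : ℝ) ^ 3 * G n i χ e else 0) -
          1 / 6 * (2 / (n : ℝ) ^ 3 * G n i χ e) := by
    intro e _
    unfold flow G mid
    split_ifs <;> ring
  rw [Finset.sum_congr rfl h2, Finset.sum_sub_distrib, ← Finset.sum_filter]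
  have h3 : (Efin n τ).filter (· ∈ τ) = τ := by
    ext e
    simp only [Finset.mem_filter]
    refine ⟨fun h => h.2, fun he => ⟨?_, he⟩⟩
    have : e ∈ (Efin n τ : Set (Z3 × Z3)) := by
      rw [coe_Efin hn h]
      exact ⟨(h.dimer e he).1, (h.dimer e he).2, e, he, Or.inl rfl⟩
    exact this
  rw [h3, ← Finset.mul_sum, ← Finset.mul_sum]
  congr 2
  rw [Finset.mul_sum]

lemma exists_partner (h : IsTiling cube n τ) : ∃ p : Z3 → Z3, ∀ e ∈ τ, p e.1 = e.2 := by
  classical
  refine ⟨fun u => if hu : ∃ e ∈ τ, e.1 = u then (Classical.choose hu).2 else 0, ?_⟩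
  intro e he
  have hu : ∃ e' ∈ τ, e'.1 = e.1 := ⟨e, he, rfl⟩
  simp only [hu, dite_true]
  have h1 := Classical.choose_spec hu
  rw [h.even_once _ h1.1 e he h1.2]


/-- direction (i-th component) of the dimer at the even vertex near `x` -/
noncomputable def dirfun (n : ℕ) (τ : Finset (Z3 × Z3)) (p : Z3 → Z3) (i : Fin 3) (x : R3) : ℝ :=
  if ev (fl n x) ∈ τ.image Prod.fst then ((p (ev (fl n x)) i : ℝ) - ev (fl n x) i) else 0

lemma image_even (h : IsTiling cube n τ) : ∀ u ∈ τ.image Prod.fst, IsEven u := by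
  intro u hu
  rw [Finset.mem_image] at hu
  obtain ⟨e, he, rfl⟩ := hu
  exact (h.dimer e he).1

lemma adj_of_mem (h : IsTiling cube n τ) {p : Z3 → Z3} (hp : ∀ e ∈ τ, p e.1 = e.2)
    {u : Z3} (hu : u ∈ τ.image Prod.fst) : Adj u (p u) := by
  rw [Finset.mem_image] at hu
  obtain ⟨e, he, rfl⟩ := hu
  rw [hp e he]
  exact (h.dimer e he).2

lemma abs_dirfun_le (h : IsTiling cube n τ) {p : Z3 → Z3} (hp : ∀ e ∈ τ, p e.1 = e.2) (i : Fin 3)
    (x : R3) : |dirfun n τ p i x| ≤ 1 := by
  unfold dirfun
  split_ifs with hx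
  · have := (adj_of_mem h hp hx).coord i
    rw [abs_sub_comm] at this
    exact_mod_cast this
  · simp

/-- indicator of the cells of the covered even vertices -/
lemma integral_cover_le (hn : 1 ≤ n) (h : IsTiling cube n τ) :
    ∫ x : R3, (if ev (fl n x) ∈ τ.image Prod.fst then (1 : ℝ) else 0) ≤ 250 := by
  have hn' : (1 : ℝ) ≤ n := by exact_mod_cast hn
  have h1 := sum_eq_integral' n hn (τ.image Prod.fst) (image_even h) (fun _ => 1)
  simp only [mul_one, Finset.sum_const, nsmul_eq_mul] at h1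
  have h2 : (∫ x : R3, (if ev (fl n x) ∈ τ.image Prod.fst then (1 : ℝ) else 0)) =
      ((τ.image Prod.fst).card : ℝ) * (2 / (n : ℝ) ^ 3) := by
    rw [h1]
  rw [h2]
  have h3 : (τ.image Prod.fst).card ≤ (bx (n + 1)).card := by
    refine Finset.card_le_card fun u hu => ?_
    rw [Finset.mem_image] at hu
    obtain ⟨e, he, rfl⟩ := hu
    exact h.fst_mem hn he
  rw [card_bx] at h3
  have h4 : ((τ.image Prod.fst).card : ℝ) ≤ (2 * (n + 1) + 1) ^ 3 := by exact_mod_cast h3
  calc ((τ.image Prod.fst).card : ℝ) * (2 / (n : ℝ) ^ 3) ≤ (2 * (n + 1) + 1) ^ 3 * (2 / (n : ℝ) ^ 3) := by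
        gcongr
    _ ≤ (5 * n) ^ 3 * (2 / (n : ℝ) ^ 3) := by
        gcongr; linarith
    _ = 250 := by field_simp; norm_num

lemma integrable_dirfun (hn : 1 ≤ n) (h : IsTiling cube n τ) (p : Z3 → Z3) (i : Fin 3) :
    Integrable (dirfun n τ p i) := by
  have := integrable_step n hn (τ.image Prod.fst) (image_even h) (fun u => ((p u i : ℝ) - u i))
  unfold dirfun
  convert this

lemma flow_approx (hn : 1 ≤ n) (h : IsTiling cube n τ) {p : Z3 → Z3} (hp : ∀ e ∈ τ, p e.1 = e.2)
    (i : Fin 3) {χ : R3 → ℝ} (hχ : χ ∈ BL) :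
    |flowIntegral n τ i χ - ∫ x, dirfun n τ p i x * χ x| ≤ (5000 : ℝ) / n := by
  have hn' : (1 : ℝ) ≤ n := by exact_mod_cast hn
  have hmeas : Measurable χ := hχ.2.continuous.measurable
  rw [flowIntegral_eq hn h]
  have h1 : ∑ e ∈ τ, 2 / (n : ℝ) ^ 3 * G n i χ e =
      ∑ u ∈ τ.image Prod.fst, 2 / (n : ℝ) ^ 3 * G n i χ (u, p u) := by
    rw [Finset.sum_image]
    · refine Finset.sum_congr rfl fun e he => ?_
      rw [hp e he]
    · intro e he e' he' hee
      exact h.even_once e he e' he' hee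
  rw [h1, sum_eq_integral' n hn _ (image_even h)]
  have hint1 := integrable_step n hn (τ.image Prod.fst) (image_even h) (fun u => G n i χ (u, p u))
  have hint2 : Integrable (fun x => dirfun n τ p i x * χ x) := by
    refine (integrable_dirfun hn h p i).mul_bdd (c := 1) hmeas.aestronglyMeasurable ?_
    exact Eventually.of_forall fun x => hχ.1 x
  have h2 : |(∫ x : R3, if ev (fl n x) ∈ τ.image Prod.fst then G n i χ (ev (fl n x), p (ev (fl n x))) else 0)
      - ∫ x, dirfun n τ p i x * χ x| ≤ 5 / n * 250 := by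
    rw [← integral_sub hint1 hint2]
    calc |∫ x : R3, ((if ev (fl n x) ∈ τ.image Prod.fst then G n i χ (ev (fl n x), p (ev (fl n x))) else 0)
          - dirfun n τ p i x * χ x)|
        ≤ ∫ x : R3, |(if ev (fl n x) ∈ τ.image Prod.fst then G n i χ (ev (fl n x), p (ev (fl n x))) else 0)
          - dirfun n τ p i x * χ x| := abs_integral_le_integral_abs
      _ ≤ ∫ x : R3, 5 / n * (if ev (fl n x) ∈ τ.image Prod.fst then (1 : ℝ) else 0) := by
          refine integral_mono (hint1.sub hint2).abs ?_ ?_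
          · exact (integrable_step n hn (τ.image Prod.fst) (image_even h) (fun _ => 1)).const_mul _
          · intro x
            simp only [dirfun]
            split_ifs with hx
            · have ha := adj_of_mem h hp hx
              have e1 : G n i χ (ev (fl n x), p (ev (fl n x))) -
                  ((p (ev (fl n x)) i : ℝ) - ev (fl n x) i) * χ x =
                  ((p (ev (fl n x)) i : ℝ) - ev (fl n x) i) *
                    (χ (mid n (ev (fl n x)) (p (ev (fl n x)))) - χ x) := by
                unfold G; ring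
              rw [e1, abs_mul, mul_one]
              have h3 : |(p (ev (fl n x)) i : ℝ) - ev (fl n x) i| ≤ 1 := by
                rw [abs_sub_comm]; exact_mod_cast ha.coord i
              have h4 : |χ (mid n (ev (fl n x)) (p (ev (fl n x)))) - χ x| ≤ 5 / n := by
                have h5 := hχ.2.dist_le_mul (mid n (ev (fl n x)) (p (ev (fl n x)))) x
                rw [Real.dist_eq] at h5
                refine h5.trans ?_
                have h6 := ha.dist_mid n hn
                have h7 := dist_pt_ev n hn x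
                have h8 := dist_triangle (mid n (ev (fl n x)) (p (ev (fl n x)))) (pt n (ev (fl n x))) x
                rw [dist_comm] at h7
                simp only [NNReal.coe_one, one_mul]
                calc _ ≤ _ := h8
                  _ ≤ 1 / n + 4 / n := add_le_add h6 h7
                  _ = 5 / n := by ring
              calc _ ≤ 1 * (5 / (n:ℝ)) := by gcongr
                _ = _ := by ring
            · simp
      _ = 5 / n * ∫ x : R3, (if ev (fl n x) ∈ τ.image Prod.fst then (1 : ℝ) else 0) :=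
          integral_const_mul _ _
      _ ≤ 5 / n * 250 := by
          gcongr
          exact integral_cover_le hn h
  have h3 := ref_small hn h i hχ
  rw [abs_le] at *
  constructor
  · have : (5000 : ℝ) / n = 3 * (5 / n * 250) + 1250 / n := by ring
    have h4 : (0:ℝ) ≤ 1 / n := by positivity
    have h5 : (10000 : ℝ) / n = 10000 * (1 / n) := by ring
    have h6 : (5000 : ℝ) / n = 5000 * (1 / n) := by ring
    have h7 : 5 / (n:ℝ) * 250 = 1250 * (1 / n) := by ring
    rw [h5] at h3
    rw [h7] at h2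
    rw [h6]
    linarith [h2.1, h3.2]
  · have h4 : (0:ℝ) ≤ 1 / n := by positivity
    have h5 : (10000 : ℝ) / n = 10000 * (1 / n) := by ring
    have h6 : (5000 : ℝ) / n = 5000 * (1 / n) := by ring
    have h7 : 5 / (n:ℝ) * 250 = 1250 * (1 / n) := by ring
    rw [h5] at h3
    rw [h7] at h2
    rw [h6]
    linarith [h2.2, h3.1]

end Pool.Agent.Lib_helper52.Dimer
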