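import Pool.Agent.Lib_helper52.DimerApprox

open MeasureTheory Filter Topology
open scoped ENNReal ContDiff

namespace Pool.Agent.Lib_helper52.Dimer

lemma isClosed_cube : IsClosed cube := by
  have : cube = ⋂ i : Fin 3, {x : R3 | |x i| ≤ 1} := by
    ext x; simp [cube]
  rw [this]
  refine isClosed_iInter fun i => isClosed_le ?_ continuous_const
  exact continuous_abs.comp (PiLp.continuous_apply 2 _ i)

lemma measurableSet_cube : MeasurableSet cube := isClosed_cube.measurableSet

/-- bigger cube -/
def cubeR (r : ℝ) : Set R3 := {x | ∀ i, |x i| ≤ r}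

lemma isClosed_cubeR (r : ℝ) : IsClosed (cubeR r) := by
  have : cubeR r = ⋂ i : Fin 3, {x : R3 | |x i| ≤ r} := by
    ext x; simp [cubeR]
  rw [this]
  refine isClosed_iInter fun i => isClosed_le ?_ continuous_const
  exact continuous_abs.comp (PiLp.continuous_apply 2 _ i)

lemma isCompact_cubeR (r : ℝ) : IsCompact (cubeR r) := by
  refine Metric.isCompact_of_isClosed_isBounded (isClosed_cubeR r) ?_
  rw [Metric.isBounded_iff_subset_closedBall 0]
  by_cases hr : 0 ≤ r
  · refine ⟨2 * r, fun x hx => ?_⟩
    rw [Metric.mem_closedBall]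
    exact dist_le_of_coord x 0 r hr (fun i => by simpa using hx i)
  · refine ⟨0, fun x hx => ?_⟩
    exact absurd ((abs_nonneg _).trans (hx 0)) hr

lemma volume_cubeR_lt_top (r : ℝ) : volume (cubeR r) < ⊤ := (isCompact_cubeR r).measure_lt_top

lemma cube_eq : cube = cubeR 1 := rfl

/-- test functions shrinking to a compact set -/
noncomputable def tst (K : Set R3) (k : ℕ) (x : R3) : ℝ := max 0 (1 / (k + 1) - Metric.infDist x K)

lemma tst_mem (K : Set R3) (k : ℕ) : tst K k ∈ BL := by
  constructor
  · intro x
    unfold tst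
    have h1 := Metric.infDist_nonneg (x := x) (s := K)
    have h2 : (1:ℝ) / (k + 1) ≤ 1 := by
      rw [div_le_one (by positivity)]
      linarith [(Nat.cast_nonneg k : (0:ℝ) ≤ k)]
    rw [abs_of_nonneg (le_max_left _ _)]
    exact max_le zero_le_one (by linarith)
  · apply LipschitzWith.of_dist_le_mul
    intro x y
    simp only [NNReal.coe_one, one_mul]
    have h1 := (Metric.lipschitz_infDist_pt K).dist_le_mul x y
    simp only [NNReal.coe_one, one_mul] at h1
    refine le_trans ?_ h1
    unfold tst
    rw [Real.dist_eq, Real.dist_eq]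
    calc |max 0 (1 / ((k:ℝ) + 1) - Metric.infDist x K) - max 0 (1 / ((k:ℝ) + 1) - Metric.infDist y K)|
        ≤ |(1 / ((k:ℝ) + 1) - Metric.infDist x K) - (1 / ((k:ℝ) + 1) - Metric.infDist y K)| := by
          have := abs_max_sub_max_le_abs (1 / ((k:ℝ) + 1) - Metric.infDist x K) (1 / ((k:ℝ) + 1) - Metric.infDist y K) 0
          rwa [max_comm _ 0, max_comm _ 0] at this
      _ = |Metric.infDist x K - Metric.infDist y K| := by
          rw [← abs_neg]; congr 1; ring

lemma tst_nonneg (K : Set R3) (k : ℕ) (x : R3) : 0 ≤ tst K k x := le_max_left _ _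

lemma tst_tendsto (K : Set R3) (hK : IsClosed K) (hne : K.Nonempty) (x : R3) :
    Tendsto (fun k : ℕ => ((k : ℝ) + 1) * tst K k x) atTop (𝓝 (K.indicator (fun _ => 1) x)) := by
  by_cases hx : x ∈ K
  · have h0 : Metric.infDist x K = 0 := (hK.mem_iff_infDist_zero hne).1 hx
    rw [Set.indicator_of_mem hx]
    refine tendsto_const_nhds.congr fun k => ?_
    unfold tst
    rw [h0, sub_zero, max_eq_right (by positivity)]
    field_simp
  · have h0 : 0 < Metric.infDist x K := (hK.notMem_iff_infDist_pos hne).1 hx
    rw [Set.indicator_of_notMem hx]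
    have h1 : Tendsto (fun k : ℕ => 1 / ((k : ℝ) + 1)) atTop (𝓝 0) := tendsto_one_div_add_atTop_nhds_zero_nat
    have h2 : ∀ᶠ k : ℕ in atTop, 1 / ((k : ℝ) + 1) < Metric.infDist x K := h1.eventually_lt_const h0
    refine tendsto_const_nhds.congr' ?_
    filter_upwards [h2] with k hk
    unfold tst
    rw [max_eq_left (by linarith), mul_zero]

lemma tst_bound (K : Set R3) (k : ℕ) (x : R3) : ((k : ℝ) + 1) * tst K k x ≤ 1 := by
  have h1 := Metric.infDist_nonneg (x := x) (s := K)
  unfold tst
  have h3 : (0:ℝ) < k + 1 := by positivity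
  calc ((k : ℝ) + 1) * max 0 (1 / (k + 1) - Metric.infDist x K) ≤ (k + 1) * (1 / (k + 1)) := by
        gcongr
        exact max_le (by positivity) (by linarith)
    _ = 1 := by field_simp

lemma nonneg_of_test {f : R3 → ℝ} (hf : IntegrableOn f cube)
    (h : ∀ χ ∈ BL, (∀ x, 0 ≤ χ x) → 0 ≤ ∫ x in cube, f x * χ x) :
    ∀ᵐ x ∂(volume.restrict cube), 0 ≤ f x := by
  set f' := hf.1.mk f with hf'
  have hff : f =ᵐ[volume.restrict cube] f' := hf.1.ae_eq_mk
  have hfm : StronglyMeasurable f' := hf.1.stronglyMeasurable_mk
  have hfi : IntegrableOn f' cube := hf.congr hff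
  set S : Set R3 := {x | f' x < 0} ∩ cube with hS
  have hSm : MeasurableSet S := (measurableSet_lt hfm.measurable measurable_const).inter measurableSet_cube
  have key : volume S = 0 := by
    by_contra hne
    obtain ⟨K, hKS, hK, hKpos⟩ := hSm.exists_lt_isCompact (pos_iff_ne_zero.2 hne)
    have hKne : K.Nonempty := by
      rw [Set.nonempty_iff_ne_empty]
      rintro rfl
      simp at hKpos
    have hKc : K ⊆ cube := fun x hx => (hKS hx).2
    have hlim : Tendsto (fun k : ℕ => ∫ x in cube, (((k:ℝ) + 1) * tst K k x) * f x) atTop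
        (𝓝 (∫ x in cube, (K.indicator (fun _ => (1:ℝ)) x) * f x)) := by
      refine tendsto_integral_of_dominated_convergence (fun x => ‖f x‖) ?_ hf.norm ?_ ?_
      · intro k
        refine AEStronglyMeasurable.mul ?_ hf.1
        exact ((tst_mem K k).2.continuous.const_smul ((k:ℝ) + 1)).aestronglyMeasurable
      · intro k
        refine Eventually.of_forall fun x => ?_
        rw [norm_mul]
        have h1 : ‖((k:ℝ) + 1) * tst K k x‖ ≤ 1 := by
          rw [Real.norm_eq_abs, abs_of_nonneg (mul_nonneg (by positivity) (tst_nonneg _ _ _))]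
          exact tst_bound K k x
        calc _ ≤ 1 * ‖f x‖ := by gcongr
          _ = ‖f x‖ := one_mul _
      · refine Eventually.of_forall fun x => ?_
        exact (tst_tendsto K hK.isClosed hKne x).mul_const _
    have h0 : 0 ≤ ∫ x in cube, (K.indicator (fun _ => (1:ℝ)) x) * f x := by
      refine ge_of_tendsto' hlim fun k => ?_
      have h1 := h (tst K k) (tst_mem K k) (tst_nonneg K k)
      have h2 : ∫ x in cube, (((k:ℝ) + 1) * tst K k x) * f x = ((k:ℝ) + 1) * ∫ x in cube, f x * tst K k x := by
        rw [← integral_const_mul]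
        congr 1
        ext x; ring
      rw [h2]
      positivity
    have h1 : ∫ x in cube, (K.indicator (fun _ => (1:ℝ)) x) * f x = ∫ x in K, f' x := by
      have e1 : ∫ x in cube, (K.indicator (fun _ => (1:ℝ)) x) * f x =
          ∫ x in cube, K.indicator f' x := by
        refine integral_congr_ae ?_
        filter_upwards [hff] with x hx
        by_cases hxK : x ∈ K
        · simp [hxK, hx]
        · simp [hxK]
      rw [e1, setIntegral_indicator hK.measurableSet, Set.inter_eq_self_of_subset_right hKc]
    rw [h1] at h0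
    have h2 : 0 < ∫ x in K, -f' x := by
      rw [setIntegral_pos_iff_support_of_nonneg_ae]
      · have : Function.support (fun x => -f' x) ∩ K = K := by
          refine Set.inter_eq_self_of_subset_right fun x hx => ?_
          have : f' x < 0 := (hKS hx).1
          simp only [Function.mem_support, ne_eq, neg_eq_zero]
          exact this.ne
        rw [this]
        exact hKpos
      · refine (ae_restrict_iff' hK.measurableSet).2 (Eventually.of_forall fun x hx => ?_)
        have : f' x < 0 := (hKS hx).1
        simp only [Pi.zero_apply]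
        linarith
      · exact (hfi.mono_set hKc).neg
    rw [integral_neg] at h2
    linarith
  have : ∀ᵐ x ∂(volume.restrict cube), x ∉ {x | f' x < 0} := by
    rw [ae_restrict_iff' measurableSet_cube]
    rw [ae_iff]
    convert key using 2
    ext x
    simp [hS]
    tauto
  filter_upwards [this, hff] with x h1 h2
  rw [h2]
  simpa using h1

end Pool.Agent.Lib_helper52.Dimer
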