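import Pool.Agent.Lib_helper52.DimerDefs

open MeasureTheory Filter Topology
open scoped ENNReal ContDiff

namespace Pool.Agent.Lib_helper52.Dimer

/-- integer part of `n x` -/
noncomputable def fl (n : ℕ) (x : R3) : Z3 := fun i => ⌊(n : ℝ) * x i⌋

/-- unit cell of the scale-`n` lattice -/
def Q (n : ℕ) (v : Z3) : Set R3 := {x | fl n x = v}

lemma Q_eq (n : ℕ) (hn : 1 ≤ n) (v : Z3) :
    Q n v = (MeasurableEquiv.toLp 2 (Fin 3 → ℝ)).symm ⁻¹'
      (Set.univ.pi fun i => Set.Ico ((v i : ℝ) / n) ((v i + 1 : ℝ) / n)) := by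
  have hn' : (0 : ℝ) < n := by exact_mod_cast hn
  ext x
  have e : ∀ i, (MeasurableEquiv.toLp 2 (Fin 3 → ℝ)).symm x i = x i := fun i => rfl
  simp only [Q, fl, Set.mem_ofPred_eq, Set.mem_preimage, Set.mem_pi, Set.mem_univ, true_implies,
    Set.mem_Ico, funext_iff, Int.floor_eq_iff, e]
  refine forall_congr' fun i => ?_
  rw [div_le_iff₀ hn', lt_div_iff₀ hn', mul_comm]

lemma measurableSet_Q (n : ℕ) (hn : 1 ≤ n) (v : Z3) : MeasurableSet (Q n v) := by
  rw [Q_eq n hn]
  apply MeasurableEquiv.measurable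
  exact MeasurableSet.univ_pi fun i => measurableSet_Ico

lemma volume_Q (n : ℕ) (hn : 1 ≤ n) (v : Z3) :
    volume (Q n v) = ENNReal.ofReal (1 / (n : ℝ) ^ 3) := by
  have hn' : (0 : ℝ) < n := by exact_mod_cast hn
  rw [Q_eq n hn, (EuclideanSpace.volume_preserving_symm_measurableEquiv_toLp (Fin 3)).measure_preimage
    (MeasurableSet.univ_pi fun i => measurableSet_Ico).nullMeasurableSet]
  rw [Real.volume_pi_Ico]
  have : ∀ i : Fin 3, ((v i + 1 : ℝ) / n) - ((v i : ℝ) / n) = 1 / n := fun i => by ring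
  simp only [this, Finset.prod_const, Finset.card_univ, Fintype.card_fin]
  rw [← ENNReal.ofReal_pow (by positivity)]
  congr 1
  ring

lemma isEven_iff (v : Z3) : IsEven v ↔ (v 0 + v 1 + v 2) % 2 = 0 := by
  simp [IsEven, Fin.sum_univ_three, Int.even_iff]

/-- first basis vector of the lattice -/
def z0 : Z3 := Pi.single 0 1

@[simp] lemma z0_0 : z0 0 = 1 := rfl
@[simp] lemma z0_1 : z0 1 = 0 := rfl
@[simp] lemma z0_2 : z0 2 = 0 := rfl

open Classical in
/-- the even vertex attached to a vertex -/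
noncomputable def ev (v : Z3) : Z3 := if IsEven v then v else v - z0

/-- cell of an even vertex: two unit cells -/
def cell (n : ℕ) (u : Z3) : Set R3 := {x | ev (fl n x) = u}

lemma isEven_add_z0 (v : Z3) : IsEven (v + z0) ↔ ¬ IsEven v := by
  simp only [isEven_iff, Pi.add_apply, z0_0, z0_1, z0_2]
  omega

lemma isEven_sub_z0 (v : Z3) : IsEven (v - z0) ↔ ¬ IsEven v := by
  simp only [isEven_iff, Pi.sub_apply, z0_0, z0_1, z0_2]
  omega

lemma isEven_ev (v : Z3) : IsEven (ev v) := by
  unfold ev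
  split_ifs with h
  · exact h
  · rw [isEven_sub_z0]; exact h

lemma cell_eq (n : ℕ) (u : Z3) (hu : IsEven u) : cell n u = Q n u ∪ Q n (u + z0) := by
  ext x
  simp only [cell, Q, Set.mem_ofPred_eq, Set.mem_union]
  unfold ev
  split_ifs with h
  · constructor
    · intro h2; exact Or.inl h2
    · rintro (h2 | h2)
      · exact h2
      · exfalso
        rw [h2, isEven_add_z0] at h
        exact h hu
  · constructor
    · intro h2
      right
      rw [← h2]; abel
    · rintro (h2 | h2)
      · exfalso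
        rw [h2] at h
        exact h hu
      · rw [h2]; abel

lemma measurableSet_cell (n : ℕ) (hn : 1 ≤ n) (u : Z3) (hu : IsEven u) :
    MeasurableSet (cell n u) := by
  rw [cell_eq n u hu]
  exact (measurableSet_Q n hn _).union (measurableSet_Q n hn _)

lemma volume_cell (n : ℕ) (hn : 1 ≤ n) (u : Z3) (hu : IsEven u) :
    volume (cell n u) = ENNReal.ofReal (2 / (n : ℝ) ^ 3) := by
  rw [cell_eq n u hu, measure_union _ (measurableSet_Q n hn _), volume_Q n hn, volume_Q n hn,
    ← ENNReal.ofReal_add (by positivity) (by positivity)]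
  · congr 1
    ring
  · rw [Set.disjoint_left]
    intro x hx hx2
    have h1 : fl n x = u := hx
    have h2 : fl n x = u + z0 := hx2
    have h3 : u 0 = (u + z0) 0 := congrFun (h1.symm.trans h2) 0
    simp at h3

/-- sums over even vertices are integrals of step functions -/
lemma sum_eq_integral (n : ℕ) (hn : 1 ≤ n) (S : Finset Z3) (hS : ∀ u ∈ S, IsEven u) (F : Z3 → ℝ) :
    ∑ u ∈ S, 2 / (n : ℝ) ^ 3 * F u = ∫ x : R3, ∑ u ∈ S, (cell n u).indicator (fun _ => F u) x := by
  have hfin : ∀ u ∈ S, volume (cell n u) ≠ (⊤ : ℝ≥0∞) := fun u hu => by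
    rw [volume_cell n hn u (hS u hu)]; exact ENNReal.ofReal_ne_top
  rw [integral_finsetSum]
  · refine Finset.sum_congr rfl fun u hu => ?_
    rw [integral_indicator_const _ (measurableSet_cell n hn u (hS u hu)), Measure.real,
      volume_cell n hn u (hS u hu), ENNReal.toReal_ofReal (by positivity), smul_eq_mul]
  · intro u hu
    exact (integrable_indicator_iff (measurableSet_cell n hn u (hS u hu))).2
      (integrableOn_const (hfin u hu))

lemma sum_indicator_cell (n : ℕ) (S : Finset Z3) (F : Z3 → ℝ) (x : R3) :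
    ∑ u ∈ S, (cell n u).indicator (fun _ => F u) x =
      if ev (fl n x) ∈ S then F (ev (fl n x)) else 0 := by
  classical
  have : ∀ u ∈ S, (cell n u).indicator (fun _ => F u) x = if ev (fl n x) = u then F u else 0 := by
    intro u hu
    simp only [Set.indicator_apply, cell, Set.mem_ofPred_eq]
  rw [Finset.sum_congr rfl this, Finset.sum_ite_eq]

lemma sum_eq_integral' (n : ℕ) (hn : 1 ≤ n) (S : Finset Z3) (hS : ∀ u ∈ S, IsEven u) (F : Z3 → ℝ) :
    ∑ u ∈ S, 2 / (n : ℝ) ^ 3 * F u =
      ∫ x : R3, if ev (fl n x) ∈ S then F (ev (fl n x)) else 0 := by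
  rw [sum_eq_integral n hn S hS F]
  exact integral_congr_ae (Eventually.of_forall fun x => sum_indicator_cell n S F x)

lemma integrable_step (n : ℕ) (hn : 1 ≤ n) (S : Finset Z3) (hS : ∀ u ∈ S, IsEven u) (F : Z3 → ℝ) :
    Integrable (fun x : R3 => if ev (fl n x) ∈ S then F (ev (fl n x)) else 0) := by
  have : (fun x : R3 => if ev (fl n x) ∈ S then F (ev (fl n x)) else 0) =
      fun x => ∑ u ∈ S, (cell n u).indicator (fun _ => F u) x := by
    ext x; rw [sum_indicator_cell]
  rw [this]
  refine integrable_finsetSum _ fun u hu => ?_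
  refine (integrable_indicator_iff (measurableSet_cell n hn u (hS u hu))).2
      (integrableOn_const ?_)
  rw [volume_cell n hn u (hS u hu)]; exact ENNReal.ofReal_ne_top

end Pool.Agent.Lib_helper52.Dimer
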