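import Mathlib

/-!
# Three-dimensional dimer tilings: asymptotic flows, boundary traces, entropy maximizers

The definitions follow the setting of problem MP_f32666_pr
(large deviations for the 3D dimer model).
-/

open MeasureTheory Filter Topology
open scoped ENNReal ContDiff

namespace Pool.Agent.Lib_helper52.Dimer

/-- Euclidean three-space. -/
abbrev R3 := EuclideanSpace ℝ (Fin 3)

/-- The vertex set of the cubic lattice. -/
abbrev Z3 := Fin 3 → ℤ

/-- A vertex is even if the sum of its coordinates is even. -/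
def IsEven (v : Z3) : Prop := Even (∑ i, v i)

/-- Nearest neighbours in the cubic lattice. -/
def Adj (u v : Z3) : Prop := ∑ i, |u i - v i| = 1

/-- The point `v / n` of the scale-`n` lattice. -/
noncomputable def pt (n : ℕ) (v : Z3) : R3 := WithLp.toLp 2 (fun i => (v i : ℝ) / n)

/-! ### Tilings at scale `n` and their flows -/

/-- `τ` is a finite set of dimers of the scale-`n` lattice (a dimer is written as the pair
(even endpoint, odd endpoint)) which is a dimer tiling of the finite set of its endpoints; it covers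
every lattice point of `R`, and each of its dimers has an endpoint in `R`. -/
structure IsTiling (R : Set R3) (n : ℕ) (τ : Finset (Z3 × Z3)) : Prop where
  dimer : ∀ e ∈ τ, IsEven e.1 ∧ Adj e.1 e.2
  even_once : ∀ e ∈ τ, ∀ e' ∈ τ, e.1 = e'.1 → e = e'
  odd_once : ∀ e ∈ τ, ∀ e' ∈ τ, e.2 = e'.2 → e = e'
  covers : ∀ v, pt n v ∈ R → ∃ e ∈ τ, e.1 = v ∨ e.2 = v
  meets : ∀ e ∈ τ, pt n e.1 ∈ R ∨ pt n e.2 ∈ R

/-- The set of all lattice edges, written (even endpoint, odd endpoint), with at least one
endpoint covered by the tiling `τ`. -/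
def edges (τ : Finset (Z3 × Z3)) : Set (Z3 × Z3) :=
  {e | IsEven e.1 ∧ Adj e.1 e.2 ∧ ∃ d ∈ τ, d.1 = e.1 ∨ d.2 = e.2}

open Classical in
/-- The flow `f_τ` on an edge oriented from its even to its odd endpoint: current `1` on the dimers
of the tiling, minus the reference flow `1/6`. -/
noncomputable def flow (τ : Finset (Z3 × Z3)) (e : Z3 × Z3) : ℝ :=
  (if e ∈ τ then 1 else 0) - 1 / 6

/-- The `i`-th component of the vector-valued measure on space carried by the scale-`n` flow `f_τ`,
integrated against a function `χ`: each edge carries, at its midpoint, the mass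
`(2 / n ^ 3) * f_τ(e)` times its unit direction (there are `n ^ 3 / 2` even vertices per
unit volume, so with this normalisation limits take values in the octahedron). -/
noncomputable def flowIntegral (n : ℕ) (τ : Finset (Z3 × Z3)) (i : Fin 3) (χ : R3 → ℝ) : ℝ :=
  ∑ᶠ e ∈ edges τ,
    2 / (n : ℝ) ^ 3 * flow τ e * ((e.2 i : ℝ) - e.1 i) * χ (midpoint ℝ (pt n e.1) (pt n e.2))

/-- Bounded Lipschitz test functions. -/
def BL : Set (R3 → ℝ) := {χ | (∀ x, |χ x| ≤ 1) ∧ LipschitzWith 1 χ}

/-- The (generalised, dual form) Wasserstein distance between the scale-`n` flow of `τ` and the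
vector field `g` on `R`: the sum over the three components of the bounded Lipschitz distance of
the corresponding signed measures. -/
noncomputable def flowDist (R : Set R3) (n : ℕ) (τ : Finset (Z3 × Z3)) (g : R3 → R3) : ℝ≥0∞ :=
  ∑ i, ⨆ χ ∈ BL, ENNReal.ofReal |flowIntegral n τ i χ - ∫ x in R, g x i * χ x|

/-- `AF(R)`: the fine-mesh limits of flows of scale-`n` tilings covering `R`. -/
def IsAsymptoticFlow (R : Set R3) (g : R3 → R3) : Prop :=
  IntegrableOn g R ∧
    ∃ τ : ℕ → Finset (Z3 × Z3), (∀ n ≥ 1, IsTiling R n (τ n)) ∧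
      Tendsto (fun n => flowDist R n (τ n) g) atTop (𝓝 0)

/-! ### Regions and boundary traces -/

/-- The closed unit square. -/
def square : Set (EuclideanSpace ℝ (Fin 2)) := {y | ∀ i, y i ∈ Set.Icc (0 : ℝ) 1}

/-- A piecewise smooth closed surface: a finite union of embedded smooth closed squares with
pairwise disjoint interiors. -/
def PiecewiseSmooth (S : Set R3) : Prop :=
  ∃ (ι : Type) (_ : Finite ι) (ψ : ι → EuclideanSpace ℝ (Fin 2) → R3),
    (∀ j, ContDiff ℝ ∞ (ψ j)) ∧ (∀ j, Set.InjOn (ψ j) square) ∧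
    (∀ j, ∀ y ∈ square, Function.Injective (fderiv ℝ (ψ j) y)) ∧
    (∀ j k, j ≠ k → Disjoint (ψ j '' interior square) (ψ k '' interior square)) ∧
    S = ⋃ j, ψ j '' square

/-- A region: compact, the closure of a connected open set, with piecewise smooth boundary. -/
def IsRegion (R : Set R3) : Prop :=
  IsCompact R ∧ (∃ U : Set R3, IsOpen U ∧ IsConnected U ∧ R = closure U) ∧
    PiecewiseSmooth (frontier R)

/-- Boundary data: a signed measure `pos - neg` carried by the boundary of `R`. -/
structure BoundaryData (R : Set R3) where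
  pos : Measure R3
  neg : Measure R3
  finite_pos : IsFiniteMeasure pos
  finite_neg : IsFiniteMeasure neg
  pos_carried : pos (frontier R)ᶜ = 0
  neg_carried : neg (frontier R)ᶜ = 0

/-- `b` is the (outward normal) trace on the boundary of `R` of the field `g`:
`∫_R g · ∇φ = ∫_{∂R} φ db` for all smooth `φ`. -/
def HasTrace (R : Set R3) (g : R3 → R3) (b : BoundaryData R) : Prop :=
  ∀ φ : R3 → ℝ, ContDiff ℝ ∞ φ →
    ∫ x in R, fderiv ℝ φ x (g x) = ∫ x, φ x ∂b.pos - ∫ x, φ x ∂b.neg

/-- `AF(R, b)`: the asymptotic flows on `R` with trace `b`. -/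
def AF (R : Set R3) (b : BoundaryData R) : Set (R3 → R3) :=
  {g | IsAsymptoticFlow R g ∧ HasTrace R g b}

/-! ### Tilings of the whole lattice, Gibbs measures and entropy -/

/-- Dimer tilings of the cubic lattice, as the involution exchanging the ends of each dimer. -/
def Config : Type := {m : Z3 → Z3 // (∀ v, Adj v (m v)) ∧ ∀ v, m (m v) = v}

instance : MeasurableSpace Config :=
  inferInstanceAs (MeasurableSpace {m : Z3 → Z3 // (∀ v, Adj v (m v)) ∧ ∀ v, m (m v) = v})

/-- Translation of a tiling by a lattice vector. -/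
def shift (a : Z3) (m : Config) : Config :=
  ⟨fun v => m.1 (v - a) + a, fun v => by
    have h : ∀ i, |v i - (m.1 (v - a) + a) i| = |(v - a) i - m.1 (v - a) i| := fun i => by
      simp only [Pi.sub_apply, Pi.add_apply]
      congr 1
      ring
    have h2 := m.2.1 (v - a)
    simp only [Adj] at h2 ⊢
    simpa only [h] using h2, fun v => by
    simp [m.2.2 (v - a)]⟩

/-- `p` is a perfect matching of the finite vertex set `Λ`. -/
def MatchingOn (Λ : Finset Z3) (p : Z3 → Z3) : Prop :=
  ∀ v ∈ Λ, p v ∈ Λ ∧ Adj v (p v) ∧ p (p v) = v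

/-- Ergodic Gibbs measures on tilings of the lattice: probability measures invariant and ergodic
under the translations by even vectors, for which any two perfect matchings of a finite set have
the same probability together with any event depending on the tiling outside this set. -/
structure IsErgodicGibbs (μ : Measure Config) : Prop where
  prob : IsProbabilityMeasure μ
  invariant : ∀ a, IsEven a → μ.map (shift a) = μ
  ergodic : ∀ A, MeasurableSet A → (∀ a, IsEven a → shift a ⁻¹' A = A) → μ A = 0 ∨ μ A = 1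
  gibbs : ∀ (Λ : Finset Z3) (p q : Z3 → Z3), MatchingOn Λ p → MatchingOn Λ q →
    ∀ B : Set ({v : Z3 // v ∉ Λ} → Z3), MeasurableSet B →
      μ {m | (∀ v ∈ Λ, m.1 v = p v) ∧ (fun v : {v : Z3 // v ∉ Λ} => m.1 v) ∈ B} =
      μ {m | (∀ v ∈ Λ, m.1 v = q v) ∧ (fun v : {v : Z3 // v ∉ Λ} => m.1 v) ∈ B}

/-- The mean current: the expected direction of the dimer at the (even) origin. -/
noncomputable def meanCurrent (μ : Measure Config) : R3 :=
  ∫ m, WithLp.toLp 2 (fun i => ((m.1 0 i : ℤ) : ℝ)) ∂μ

/-- The box `[-k, k]³`. -/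
noncomputable def box (k : ℕ) : Finset Z3 := Finset.Icc (fun _ => -(k : ℤ)) (fun _ => (k : ℤ))

/-- Specific entropy (per vertex) of a measure on tilings. -/
noncomputable def specificEntropy (μ : Measure Config) : ℝ :=
  limsup (fun k : ℕ =>
    (∑' p : {v // v ∈ box k} → Z3, Real.negMulLog (μ.real {m | ∀ v, m.1 v.1 = p v})) /
      (box k).card) atTop

/-- `ent s`: the maximal specific entropy of an ergodic Gibbs measure with mean current `s`. -/
noncomputable def ent (s : R3) : ℝ :=
  sSup {h | ∃ μ : Measure Config, IsErgodicGibbs μ ∧ meanCurrent μ = s ∧ specificEntropy μ = h}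

/-- `Ent g = (1 / Vol R) ∫_R ent (g x) dx`. -/
noncomputable def Ent (R : Set R3) (g : R3 → R3) : ℝ :=
  (volume.real R)⁻¹ * ∫ x in R, ent (g x)

/-- `g` is an Ent-maximizing flow for `(R, b)`. -/
def IsEntMaximizing (R : Set R3) (b : BoundaryData R) (g : R3 → R3) : Prop :=
  g ∈ AF R b ∧ ∀ g' ∈ AF R b, Ent R g' ≤ Ent R g

/-- The closed face of the octahedron `|s₁| + |s₂| + |s₃| ≤ 1` with signs `σ`. -/
def face (σ : Fin 3 → ℤˣ) : Set R3 := {s | ∑ i, |s i| ≤ 1 ∧ ∑ i, ((σ i : ℤ) : ℝ) * s i = 1}

/-- The face-valued part `A_F(g)` of the field `g` on `R`. -/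
def faceValued (R : Set R3) (g : R3 → R3) (F : Set R3) : Set R3 := {x | x ∈ R ∧ g x ∈ F}

end Pool.Agent.Lib_helper52.Dimer
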