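import Pool.Agent.Lib_helper52.DimerLay

/-!
# Independent layers: invariance and ergodicity
-/

open MeasureTheory Filter Topology ProbabilityTheory
open scoped ENNReal symmDiff

namespace Pool.Agent.Lib_helper52.Dimer

/-- translation of sequences of configurations -/
def tw (a : Z3) (l : ℤ) (M : ℤ → Config) : ℤ → Config := fun k => shift a (M (k - l))

lemma measurable_tw (a : Z3) (l : ℤ) : Measurable (tw a l) :=
  measurable_pi_iff.2 fun k => (measurable_shift a).comp (measurable_pi_apply (k - l))

variable {μ : Measure Config}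

lemma map_tw [IsProbabilityMeasure μ] {a : Z3} (h : μ.map (shift a) = μ) (l : ℤ) :
    (seqM μ).map (tw a l) = seqM μ := by
  have h1 : tw a l = (fun (x : ℤ → Config) (i : ℤ) => shift a (x i)) ∘
      (fun (ω : ℤ → Config) (i : ℤ) => ω (i - l)) := rfl
  have hm1 : Measurable (fun (x : ℤ → Config) (i : ℤ) => shift a (x i)) :=
    measurable_pi_iff.2 fun k => (measurable_shift a).comp (measurable_pi_apply k)
  have hm2 : Measurable (fun (ω : ℤ → Config) (i : ℤ) => ω (i - l)) :=
    measurable_pi_iff.2 fun k => measurable_pi_apply (k - l)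
  rw [h1, ← Measure.map_map hm1 hm2]
  unfold seqM
  have h2 := Measure.map_infinitePi_infinitePi_of_inj (P := fun _ : ℤ => μ) (f := fun i : ℤ => i - l)
    (fun x y h => by simpa using h)
  rw [h2]
  have h3 := Measure.infinitePi_map_pi (fun _ : ℤ => μ) (f := fun _ : ℤ => shift a)
    (fun _ => measurable_shift a)
  rw [h3]
  simp only [h]

lemma shift_apply (a : Z3) (m : Config) (v : Z3) : (shift a m).1 v = m.1 (v - a) + a := rfl

lemma FType.shift {m : Config} (h : FType m) {a : Z3} (ha : IsEven a) : FType (shift a m) := by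
  intro v hv
  rw [shift_apply, lev_add, h (v - a) ?_, lev_sub]
  · ring
  · rw [isEven_lev] at *
    rw [lev_sub]
    omega

lemma shift_glue {M : ℤ → Config} (hM : ∀ k, FType (M k)) {a : Z3} {l : ℤ} (ha : lev a = 2 * l) :
    shift a (glue M) = glue (tw a l M) := by
  have hev : IsEven a := by rw [isEven_lev]; omega
  have hM' : ∀ k, FType (tw a l M k) := fun k => (hM (k - l)).shift hev
  apply Subtype.ext
  funext v
  rw [shift_apply, glue_apply hM, glue_apply hM', tw, shift_apply]
  have : lay (v - a) = lay v - l := by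
    unfold lay
    rw [lev_sub, ha]
    omega
  rw [this]

lemma IsNice.map_shift_lyr (h : IsNice μ) {a : Z3} (ha : IsEven a) :
    (lyr μ).map (shift a) = lyr μ := by
  have := h.prob
  rw [isEven_lev] at ha
  obtain ⟨l, hl⟩ : ∃ l, lev a = 2 * l := ⟨lev a / 2, by omega⟩
  unfold lyr
  rw [Measure.map_map (measurable_shift a) measurable_glue]
  have h1 : (seqM μ).map (shift a ∘ glue) = (seqM μ).map (glue ∘ tw a l) := by
    refine Measure.map_congr ?_
    filter_upwards [ae_seq_ftype h.ftype] with M hM
    exact shift_glue hM hl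
  rw [h1, ← Measure.map_map measurable_glue (measurable_tw a l), map_tw]
  exact h.invariant a (by rw [isEven_lev]; omega)

instance [IsProbabilityMeasure μ] : IsProbabilityMeasure (seqM μ) := by
  unfold seqM; infer_instance

lemma real_sub_le {Ω : Type*} [MeasurableSpace Ω] (P : Measure Ω) [IsProbabilityMeasure P]
    (s t : Set Ω) : |P.real s - P.real t| ≤ P.real (s ∆ t) := by
  rw [abs_le]
  constructor
  · have h1 : t ⊆ s ∪ s ∆ t := fun x hx => by
      by_cases h : x ∈ s
      · exact Or.inl h
      · exact Or.inr (Or.inr ⟨hx, h⟩)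
    have h2 := (measureReal_mono h1 (measure_ne_top P _)).trans (measureReal_union_le s (s ∆ t))
    linarith
  · have h1 : s ⊆ t ∪ s ∆ t := fun x hx => by
      by_cases h : x ∈ t
      · exact Or.inl h
      · exact Or.inr (Or.inl ⟨hx, h⟩)
    have h2 := (measureReal_mono h1 (measure_ne_top P _)).trans (measureReal_union_le t (s ∆ t))
    linarith

lemma isSetAlgebra_cyl : IsSetAlgebra (measurableCylinders fun _ : ℤ => Config) where
  empty_mem := empty_mem_measurableCylinders _
  compl_mem := fun _ h => compl_mem_measurableCylinders h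
  union_mem := fun _ _ h h' => union_mem_measurableCylinders h h'

/-- far translates of cylinder sets are independent -/
lemma indep_cyl [IsProbabilityMeasure μ] (I : Finset ℤ) (S : Set (∀ _ : I, Config))
    (hS : MeasurableSet S) (a : Z3) (N : ℤ) (hN : ∀ i ∈ I, i - N ∉ I) :
    (seqM μ) (cylinder I S ∩ tw a N ⁻¹' cylinder I S) =
      (seqM μ) (cylinder I S) * (seqM μ) (tw a N ⁻¹' cylinder I S) := by
  classical
  have hind : iIndepFun (fun (i : ℤ) (ω : ℤ → Config) => ω i) (seqM μ) := by
    unfold seqM
    exact iIndepFun_infinitePi (P := fun _ : ℤ => μ) (X := fun _ ω => ω) (fun _ => measurable_id)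
  set I' : Finset ℤ := I.image fun i => i - N with hI'
  have hdis : Disjoint I I' := by
    rw [Finset.disjoint_left]
    intro x hx hx'
    rw [hI', Finset.mem_image] at hx'
    obtain ⟨i, hi, rfl⟩ := hx'
    exact hN i hi hx
  have h2 := hind.indepFun_finset I I' hdis (fun i => measurable_pi_apply i)
  have hmem : ∀ i : I, (i : ℤ) - N ∈ I' := fun i => Finset.mem_image.2 ⟨i, i.2, rfl⟩
  set F : (∀ _ : I', Config) → (∀ _ : I, Config) := fun f i => shift a (f ⟨i - N, hmem i⟩) with hF
  have hFm : Measurable F := measurable_pi_iff.2 fun i =>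
    (measurable_shift a).comp (measurable_pi_apply _)
  have h3 := h2.measure_inter_preimage_eq_mul S (F ⁻¹' S) hS (hFm hS)
  exact h3

theorem IsNice.ergodic_lyr (h : IsNice μ) (A : Set Config) (hA : MeasurableSet A)
    (hinv : ∀ a, IsEven a → shift a ⁻¹' A = A) : lyr μ A = 0 ∨ lyr μ A = 1 := by
  have := h.prob
  set P := seqM μ with hP
  set A' : Set (ℤ → Config) := glue ⁻¹' A with hA'
  have hA'm : MeasurableSet A' := measurable_glue hA
  have e1 : lyr μ A = P A' := Measure.map_apply measurable_glue hA
  have key : P.real A' = P.real A' ^ 2 := by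
    refine eq_of_forall_dist_le fun ε hε => ?_
    obtain ⟨B, hB, hBA⟩ := (Measure.MeasureDense.of_generateFrom_isSetAlgebra_finite P
      isSetAlgebra_cyl generateFrom_measurableCylinders.symm).approx A' hA'm (measure_ne_top P _)
      (ε / 4) (by positivity)
    rw [mem_measurableCylinders] at hB
    obtain ⟨I, S, hS, rfl⟩ := hB
    have hsm : P.real (A' ∆ cylinder I S) ≤ ε / 4 :=
      ENNReal.toReal_le_of_le_ofReal (by positivity) hBA.le
    -- choose a large translation
    obtain ⟨N, hN⟩ : ∃ N : ℤ, ∀ i ∈ I, i - N ∉ I := by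
      obtain ⟨C, hC⟩ := I.bddAbove
      obtain ⟨c, hc⟩ := I.bddBelow
      refine ⟨C - c + 1, fun i hi hi' => ?_⟩
      have h1 := hC hi
      have h2 := hc hi'
      linarith
    set a : Z3 := fun i => if i = 0 then 2 * N else 0 with ha
    have hla : lev a = 2 * N := by simp [lev, ha]
    have hea : IsEven a := by rw [isEven_lev]; omega
    have htw : P.map (tw a N) = P := map_tw (h.invariant a hea) N
    have hmp : MeasurePreserving (tw a N) P P := ⟨measurable_tw a N, htw⟩
    have hAinv : (tw a N ⁻¹' A' : Set (ℤ → Config)) =ᵐ[P] A' := by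
      filter_upwards [ae_seq_ftype h.ftype] with M hM
      refine propext ?_
      show glue (tw a N M) ∈ A ↔ glue M ∈ A
      rw [← shift_glue hM hla]
      exact Set.ext_iff.1 (hinv a hea) (glue M)
    have hind := indep_cyl (μ := μ) I S hS a N hN
    have hBm : MeasurableSet (cylinder I S : Set (ℤ → Config)) := MeasurableSet.cylinder I hS
    have h5 : P.real (cylinder I S ∩ tw a N ⁻¹' cylinder I S) = P.real (cylinder I S) ^ 2 := by
      have h6 : P (tw a N ⁻¹' cylinder I S) = P (cylinder I S) :=
        hmp.measure_preimage hBm.nullMeasurableSet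
      rw [measureReal_def, hind, ← hP, h6, ENNReal.toReal_mul, sq]
      rfl
    have h7 : P.real A' = P.real (A' ∩ tw a N ⁻¹' A') := by
      refine measureReal_congr ?_
      filter_upwards [hAinv] with M hM
      refine propext ?_
      have hM' : (M ∈ tw a N ⁻¹' A') ↔ M ∈ A' := iff_of_eq hM
      show M ∈ A' ↔ M ∈ A' ∧ M ∈ tw a N ⁻¹' A'
      rw [hM']
      tauto
    have h8 : |P.real (A' ∩ tw a N ⁻¹' A') - P.real (cylinder I S ∩ tw a N ⁻¹' cylinder I S)| ≤
        ε / 4 + ε / 4 := by
      refine (real_sub_le P _ _).trans ?_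
      have hsub : (A' ∩ tw a N ⁻¹' A') ∆ (cylinder I S ∩ tw a N ⁻¹' cylinder I S) ⊆
          (A' ∆ cylinder I S) ∪ tw a N ⁻¹' (A' ∆ cylinder I S) := by
        intro M hM
        simp only [Set.mem_union, Set.mem_preimage, Set.mem_symmDiff, Set.mem_inter_iff] at hM ⊢
        tauto
      refine (measureReal_mono hsub (measure_ne_top P _)).trans ((measureReal_union_le _ _).trans ?_)
      have h9 : P.real (tw a N ⁻¹' (A' ∆ cylinder I S)) = P.real (A' ∆ cylinder I S) := by
        rw [measureReal_def, measureReal_def,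
          hmp.measure_preimage (hA'm.symmDiff hBm).nullMeasurableSet]
      rw [h9]
      linarith
    have h10 : |P.real A' - P.real (cylinder I S)| ≤ ε / 4 := (real_sub_le P _ _).trans hsm
    have b1 : P.real A' ≤ 1 := measureReal_le_one
    have b2 : P.real (cylinder I S) ≤ 1 := measureReal_le_one
    have b3 : 0 ≤ P.real A' := measureReal_nonneg
    have b4 : 0 ≤ P.real (cylinder I S) := measureReal_nonneg
    rw [← h7, h5] at h8
    rw [Real.dist_eq]
    rw [abs_le] at h8 h10 ⊢
    constructor <;> nlinarith
  have h0 : P.real A' = 0 ∨ P.real A' = 1 := by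
    have : P.real A' * (P.real A' - 1) = 0 := by rw [mul_sub, ← sq, ← key]; ring
    rcases mul_eq_zero.1 this with h | h
    · exact Or.inl h
    · exact Or.inr (by linarith)
  rw [e1]
  rcases h0 with h0 | h0
  · left
    exact (measureReal_eq_zero_iff (measure_ne_top P _)).1 h0
  · right
    rw [measureReal_def, ENNReal.toReal_eq_one_iff] at h0
    exact h0

end Pool.Agent.Lib_helper52.Dimer
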