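import Pool.Agent.Lib_helper52.DimerCell

open MeasureTheory Filter Topology
open scoped ENNReal ContDiff

namespace Pool.Agent.Lib_helper52.Dimer

lemma dist_le_of_coord (x y : R3) (c : ℝ) (hc : 0 ≤ c) (h : ∀ i, |x i - y i| ≤ c) :
    dist x y ≤ 2 * c := by
  rw [EuclideanSpace.dist_eq]
  apply Real.sqrt_le_iff.2
  refine ⟨by positivity, ?_⟩
  simp only [Real.dist_eq, Fin.sum_univ_three, sq_abs]
  have h0 := sq_le_sq' (abs_le.1 (h 0)).1 (abs_le.1 (h 0)).2
  have h1 := sq_le_sq' (abs_le.1 (h 1)).1 (abs_le.1 (h 1)).2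
  have h2 := sq_le_sq' (abs_le.1 (h 2)).1 (abs_le.1 (h 2)).2
  nlinarith [sq_nonneg c]

lemma pt_apply (n : ℕ) (v : Z3) (i : Fin 3) : pt n v i = (v i : ℝ) / n := rfl

lemma ev_coord (v : Z3) (i : Fin 3) : v i - 1 ≤ ev v i ∧ ev v i ≤ v i := by
  unfold ev
  split_ifs
  · omega
  · fin_cases i <;> simp [z0]

lemma dist_pt_ev (n : ℕ) (hn : 1 ≤ n) (x : R3) : dist x (pt n (ev (fl n x))) ≤ 4 / n := by
  have hn' : (0 : ℝ) < n := by exact_mod_cast hn
  have : (4 : ℝ) / n = 2 * (2 / n) := by ring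
  rw [this]
  apply dist_le_of_coord _ _ _ (by positivity)
  intro i
  rw [pt_apply]
  have h1 := ev_coord (fl n x) i
  have h2 := Int.floor_le ((n : ℝ) * x i)
  have h3 := Int.lt_floor_add_one ((n : ℝ) * x i)
  have h4 : (fl n x i : ℝ) - 1 ≤ (ev (fl n x) i : ℝ) := by exact_mod_cast h1.1
  have h5 : (ev (fl n x) i : ℝ) ≤ (fl n x i : ℝ) := by exact_mod_cast h1.2
  have h6 : (fl n x i : ℝ) = (⌊(n : ℝ) * x i⌋ : ℝ) := rfl
  rw [abs_le]
  constructor
  · rw [neg_le_sub_iff_le_add, div_le_iff₀ hn', add_mul, div_mul_cancel₀ _ hn'.ne']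
    nlinarith
  · rw [sub_le_iff_le_add, ← add_div, le_div_iff₀ hn']
    nlinarith

lemma adj_iff (u w : Z3) : Adj u w ↔ ∃ j : Fin 3, w = u + Pi.single j 1 ∨ w = u - Pi.single j 1 := by
  constructor
  · intro h
    simp only [Adj, Fin.sum_univ_three] at h
    have e0 := abs_nonneg (u 0 - w 0)
    have e1 := abs_nonneg (u 1 - w 1)
    have e2 := abs_nonneg (u 2 - w 2)
    have key : (|u 0 - w 0| = 1 ∧ |u 1 - w 1| = 0 ∧ |u 2 - w 2| = 0) ∨
        (|u 0 - w 0| = 0 ∧ |u 1 - w 1| = 1 ∧ |u 2 - w 2| = 0) ∨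
        (|u 0 - w 0| = 0 ∧ |u 1 - w 1| = 0 ∧ |u 2 - w 2| = 1) := by omega
    simp only [abs_eq (show (0:ℤ) ≤ 1 by norm_num), abs_eq_zero] at key
    rcases key with ⟨h0 | h0, h1, h2⟩ | ⟨h0, h1 | h1, h2⟩ | ⟨h0, h1, h2 | h2⟩
    · exact ⟨0, Or.inr (by ext i; fin_cases i <;> simp <;> omega)⟩
    · exact ⟨0, Or.inl (by ext i; fin_cases i <;> simp <;> omega)⟩
    · exact ⟨1, Or.inr (by ext i; fin_cases i <;> simp <;> omega)⟩
    · exact ⟨1, Or.inl (by ext i; fin_cases i <;> simp <;> omega)⟩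
    · exact ⟨2, Or.inr (by ext i; fin_cases i <;> simp <;> omega)⟩
    · exact ⟨2, Or.inl (by ext i; fin_cases i <;> simp <;> omega)⟩
  · rintro ⟨j, h | h⟩ <;> subst h <;> fin_cases j <;> simp [Adj, Fin.sum_univ_three]

lemma Adj.coord {u w : Z3} (h : Adj u w) (i : Fin 3) : |u i - w i| ≤ 1 := by
  unfold Adj at h
  rw [← h]
  exact Finset.single_le_sum (f := fun i => |u i - w i|) (fun i _ => abs_nonneg _) (Finset.mem_univ i)

lemma Adj.parity {u w : Z3} (h : Adj u w) : IsEven w ↔ ¬ IsEven u := by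
  rw [adj_iff] at h
  rcases h with ⟨j, h | h⟩ <;> subst h <;> fin_cases j <;> simp [isEven_iff] <;> omega

lemma Adj.dist_pt {u w : Z3} (h : Adj u w) (n : ℕ) (hn : 1 ≤ n) : dist (pt n u) (pt n w) ≤ 2 / n := by
  have hn' : (0 : ℝ) < n := by exact_mod_cast hn
  have : (2 : ℝ) / n = 2 * (1 / n) := by ring
  rw [this]
  apply dist_le_of_coord _ _ _ (by positivity)
  intro i
  rw [pt_apply, pt_apply, ← sub_div, abs_div, abs_of_pos hn']
  have := h.coord i
  have h2 : |(u i : ℝ) - w i| ≤ 1 := by exact_mod_cast this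
  gcongr

/-- midpoint of an edge -/
noncomputable def mid (n : ℕ) (u w : Z3) : R3 := midpoint ℝ (pt n u) (pt n w)

lemma Adj.dist_mid {u w : Z3} (h : Adj u w) (n : ℕ) (hn : 1 ≤ n) : dist (mid n u w) (pt n u) ≤ 1 / n := by
  have := h.dist_pt n hn
  unfold mid
  rw [dist_midpoint_left, Real.norm_eq_abs, abs_of_pos (by norm_num : (0:ℝ) < 2)]
  calc (2:ℝ)⁻¹ * dist (pt n u) (pt n w) ≤ 2⁻¹ * (2 / n) := by gcongr
    _ = 1 / n := by ring

/-- The cube `[-1, 1]³`. -/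
def cube : Set R3 := {x | ∀ i, |x i| ≤ 1}

lemma pt_mem_cube (n : ℕ) (hn : 1 ≤ n) (v : Z3) : pt n v ∈ cube ↔ ∀ i, |v i| ≤ n := by
  have hn' : (0 : ℝ) < n := by exact_mod_cast hn
  simp only [cube, Set.mem_ofPred_eq, pt_apply]
  refine forall_congr' fun i => ?_
  rw [abs_div, abs_of_pos hn', div_le_one hn']
  constructor
  · intro h; exact_mod_cast h
  · intro h; exact_mod_cast h

/-- the six unit vectors -/
def dirs : Finset Z3 := (Finset.univ.image fun j : Fin 3 => Pi.single j (1 : ℤ)) ∪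
  (Finset.univ.image fun j : Fin 3 => -Pi.single j (1 : ℤ))

lemma adj_iff_dirs (u w : Z3) : Adj u w ↔ w - u ∈ dirs := by
  rw [adj_iff]
  simp only [dirs, Finset.mem_union, Finset.mem_image, Finset.mem_univ, true_and]
  constructor
  · rintro ⟨j, h | h⟩
    · left; exact ⟨j, by rw [h]; abel⟩
    · right; exact ⟨j, by rw [h]; abel⟩
  · rintro (⟨j, h⟩ | ⟨j, h⟩)
    · exact ⟨j, Or.inl (by rw [h]; abel)⟩
    · refine ⟨j, Or.inr ?_⟩
      have : w - u = -Pi.single j 1 := h.symm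
      rw [sub_eq_iff_eq_add] at this
      rw [this]; abel

lemma card_dirs : dirs.card = 6 := by decide

lemma sum_dirs (f : Z3 → ℝ) : ∑ s ∈ dirs, f s =
    ∑ j : Fin 3, (f (Pi.single j 1) + f (-Pi.single j 1)) := by
  rw [dirs, Finset.sum_union, Finset.sum_image, Finset.sum_image, Finset.sum_add_distrib]
  · intro a _ b _ h
    have := congrFun h a
    by_contra hab
    simp [hab] at this
  · intro a _ b _ h
    have := congrFun h a
    by_contra hab
    simp [hab] at this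
  · decide

end Pool.Agent.Lib_helper52.Dimer
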