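import Pool.Agent.Lib_helper52.DimerErg

/-!
# Independent layers: the Gibbs property
-/

open MeasureTheory Filter Topology ProbabilityTheory
open scoped ENNReal symmDiff

namespace Pool.Agent.Lib_helper52.Dimer

variable {Λ : Finset Z3} {p q : Z3 → Z3}

/-- face type matchings of a finite set -/
def FT (Λ : Finset Z3) (p : Z3 → Z3) : Prop := ∀ v ∈ Λ, IsEven v → lev (p v) = lev v + 1

open Classical in
lemma flux (hp : MatchingOn Λ p) :
    ∑ v ∈ Λ.filter IsEven, lev (p v) = ∑ v ∈ Λ.filter (fun v => ¬ IsEven v), lev v := by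
  refine Finset.sum_nbij' p p ?_ ?_ ?_ ?_ ?_
  · intro v hv
    rw [Finset.mem_filter] at *
    obtain ⟨h1, h2, _⟩ := hp v hv.1
    refine ⟨h1, ?_⟩
    rw [h2.parity]
    simpa using hv.2
  · intro v hv
    rw [Finset.mem_filter] at *
    obtain ⟨h1, h2, _⟩ := hp v hv.1
    refine ⟨h1, ?_⟩
    rw [h2.parity]
    exact hv.2
  · intro v hv
    rw [Finset.mem_filter] at hv
    exact (hp v hv.1).2.2
  · intro v hv
    rw [Finset.mem_filter] at hv
    exact (hp v hv.1).2.2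
  · intro v _
    rfl

open Classical in
lemma FT.of_matching (hp : MatchingOn Λ p) (hq : MatchingOn Λ q) (h : FT Λ p) : FT Λ q := by
  have h1 : ∑ v ∈ Λ.filter IsEven, lev (q v) = ∑ v ∈ Λ.filter IsEven, (lev v + 1) := by
    rw [flux hq, ← flux hp]
    refine Finset.sum_congr rfl fun v hv => ?_
    rw [Finset.mem_filter] at hv
    exact h v hv.1 hv.2
  have h2 : ∀ v ∈ Λ.filter IsEven, lev (q v) ≤ lev v + 1 := by
    intro v hv
    rw [Finset.mem_filter] at hv
    rcases (hq v hv.1).2.1.lev with h | h <;> omega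
  have h3 := (Finset.sum_eq_sum_iff_of_le h2).1 h1
  intro v hv hev
  exact h3 v (Finset.mem_filter.2 ⟨hv, hev⟩)

lemma FT.lay_eq (hp : MatchingOn Λ p) (h : FT Λ p) {v : Z3} (hv : v ∈ Λ) : lay (p v) = lay v := by
  obtain ⟨h1, h2, h3⟩ := hp v hv
  by_cases hev : IsEven v
  · have h4 := h v hv hev
    rw [isEven_lev] at hev
    unfold lay
    omega
  · have h0 : IsEven (p v) := (h2.parity).2 hev
    have h4 := h (p v) h1 h0
    rw [h3] at h4
    rw [isEven_lev] at hev h0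
    unfold lay
    omega

lemma MatchingOn.layer (hp : MatchingOn Λ p) (h : FT Λ p) (k : ℤ) :
    MatchingOn (Λ.filter fun v => lay v = k) p := by
  intro v hv
  rw [Finset.mem_filter] at *
  obtain ⟨h1, h2, h3⟩ := hp v hv.1
  refine ⟨⟨h1, ?_⟩, h2, h3⟩
  rw [h.lay_eq hp hv.1]
  exact hv.2

variable {μ : Measure Config}

lemma gibbs_layer (hμ : IsNice μ) (hp : MatchingOn Λ p) (hq : MatchingOn Λ q) (h : FT Λ p)
    (h' : FT Λ q) (s : Finset {v // v ∉ Λ}) (t : {v // v ∉ Λ} → Set Z3) (k : ℤ) :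
    μ {m | (∀ v ∈ Λ, lay v = k → m.1 v = p v) ∧ ∀ v ∈ s, lay v.1 = k → m.1 v.1 ∈ t v} =
    μ {m | (∀ v ∈ Λ, lay v = k → m.1 v = q v) ∧ ∀ v ∈ s, lay v.1 = k → m.1 v.1 ∈ t v} := by
  set Λ' := Λ.filter fun v => lay v = k with hΛ'
  have hsub : ∀ v : {v // v ∉ Λ}, v.1 ∉ Λ' := fun v hv => v.2 (Finset.mem_filter.1 hv).1
  set B : Set ({v : Z3 // v ∉ Λ'} → Z3) :=
    {f | ∀ v ∈ s, lay v.1 = k → f ⟨v.1, hsub v⟩ ∈ t v} with hB
  have hBm : MeasurableSet B := by
    have : B = ⋂ v ∈ s, ⋂ (_ : lay v.1 = k), {f | f ⟨v.1, hsub v⟩ ∈ t v} := by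
      ext f; simp [hB]
    rw [this]
    refine Finset.measurableSet_biInter _ fun v _ => MeasurableSet.iInter fun _ => ?_
    exact (measurable_pi_apply (⟨v.1, hsub v⟩ : {v : Z3 // v ∉ Λ'})) (measurableSet_Z3 (t v))
  have key := hμ.gibbs Λ' p q (hp.layer h k) (hq.layer h' k) B hBm
  convert key using 2
  · ext m
    simp only [Set.mem_ofPred_eq, hΛ', Finset.mem_filter, hB, and_imp]
  · ext m
    simp only [Set.mem_ofPred_eq, hΛ', Finset.mem_filter, hB, and_imp]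

open Classical in
/-- the events for the product formula -/
noncomputable def tset (Λ : Finset Z3) (p : Z3 → Z3) (t : {v // v ∉ Λ} → Set Z3) (v : Z3) : Set Z3 :=
  if h : v ∈ Λ then {p v} else t ⟨v, h⟩

lemma lyr_event (Λ : Finset Z3) (p : Z3 → Z3) (s : Finset {v // v ∉ Λ}) (t : {v // v ∉ Λ} → Set Z3) :
    {m : Config | (∀ v ∈ Λ, m.1 v = p v) ∧ ∀ v ∈ s, m.1 v.1 ∈ t v} =
      {m | ∀ v ∈ Λ ∪ s.map (Function.Embedding.subtype _), m.1 v ∈ tset Λ p t v} := by
  ext m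
  simp only [Set.mem_ofPred_eq, Finset.mem_union, Finset.mem_map, Function.Embedding.coe_subtype]
  constructor
  · rintro ⟨h1, h2⟩ v (hv | ⟨w, hw, rfl⟩)
    · unfold tset
      rw [dif_pos hv]
      exact h1 v hv
    · unfold tset
      rw [dif_neg w.2]
      exact h2 w hw
  · intro h
    constructor
    · intro v hv
      have := h v (Or.inl hv)
      unfold tset at this
      rw [dif_pos hv] at this
      exact this
    · intro v hv
      have := h v.1 (Or.inr ⟨v, hv, rfl⟩)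
      unfold tset at this
      rw [dif_neg v.2] at this
      exact this

lemma layer_event (Λ : Finset Z3) (p : Z3 → Z3) (s : Finset {v // v ∉ Λ}) (t : {v // v ∉ Λ} → Set Z3)
    (k : ℤ) :
    {m : Config | ∀ v ∈ Λ ∪ s.map (Function.Embedding.subtype _), lay v = k → m.1 v ∈ tset Λ p t v} =
    {m | (∀ v ∈ Λ, lay v = k → m.1 v = p v) ∧ ∀ v ∈ s, lay v.1 = k → m.1 v.1 ∈ t v} := by
  ext m
  simp only [Set.mem_ofPred_eq, Finset.mem_union, Finset.mem_map, Function.Embedding.coe_subtype]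
  constructor
  · intro h
    constructor
    · intro v hv hk
      have := h v (Or.inl hv) hk
      unfold tset at this
      rw [dif_pos hv] at this
      exact this
    · intro v hv hk
      have := h v.1 (Or.inr ⟨v, hv, rfl⟩) hk
      unfold tset at this
      rw [dif_neg v.2] at this
      exact this
  · rintro ⟨h1, h2⟩ v (hv | ⟨w, hw, rfl⟩) hk
    · unfold tset
      rw [dif_pos hv]
      exact h1 v hv hk
    · unfold tset
      rw [dif_neg w.2]
      exact h2 w hw hk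

lemma lyr_gibbs_cyl (hμ : IsNice μ) (hp : MatchingOn Λ p) (hq : MatchingOn Λ q) (h : FT Λ p)
    (h' : FT Λ q) (s : Finset {v // v ∉ Λ}) (t : {v // v ∉ Λ} → Set Z3) :
    lyr μ {m | (∀ v ∈ Λ, m.1 v = p v) ∧ ∀ v ∈ s, m.1 v.1 ∈ t v} =
    lyr μ {m | (∀ v ∈ Λ, m.1 v = q v) ∧ ∀ v ∈ s, m.1 v.1 ∈ t v} := by
  have := hμ.prob
  rw [lyr_event, lyr_event, lyr_cyl hμ.ftype, lyr_cyl hμ.ftype]
  refine Finset.prod_congr rfl fun k _ => ?_
  rw [layer_event, layer_event]
  exact gibbs_layer hμ hp hq h h' s t k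

lemma measurableSet_match (Λ : Finset Z3) (p : Z3 → Z3) :
    MeasurableSet {m : Config | ∀ v ∈ Λ, m.1 v = p v} :=
  measurableSet_cyl' Λ fun v => {p v}

lemma measurable_out (Λ : Finset Z3) :
    Measurable fun (m : Config) (v : {v : Z3 // v ∉ Λ}) => m.1 v :=
  measurable_pi_iff.2 fun v => measurable_eval v.1

/-- the Gibbs property follows from cylinder events -/
lemma gibbs_of_cyl {ν : Measure Config} [IsFiniteMeasure ν] (Λ : Finset Z3) (p q : Z3 → Z3)
    (h : ∀ (s : Finset {v // v ∉ Λ}) (t : {v // v ∉ Λ} → Set Z3),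
      ν {m | (∀ v ∈ Λ, m.1 v = p v) ∧ ∀ v ∈ s, m.1 v.1 ∈ t v} =
      ν {m | (∀ v ∈ Λ, m.1 v = q v) ∧ ∀ v ∈ s, m.1 v.1 ∈ t v})
    (B : Set ({v : Z3 // v ∉ Λ} → Z3)) (hB : MeasurableSet B) :
    ν {m | (∀ v ∈ Λ, m.1 v = p v) ∧ (fun v : {v : Z3 // v ∉ Λ} => m.1 v) ∈ B} =
      ν {m | (∀ v ∈ Λ, m.1 v = q v) ∧ (fun v : {v : Z3 // v ∉ Λ} => m.1 v) ∈ B} := by
  set X : Config → ({v : Z3 // v ∉ Λ} → Z3) := fun m v => m.1 v with hX
  have hXm : Measurable X := measurable_out Λ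
  have e : ∀ (p : Z3 → Z3) (B : Set ({v : Z3 // v ∉ Λ} → Z3)), MeasurableSet B →
      ν {m | (∀ v ∈ Λ, m.1 v = p v) ∧ X m ∈ B} =
        ((ν.restrict {m | ∀ v ∈ Λ, m.1 v = p v}).map X) B := by
    intro p B hB
    rw [Measure.map_apply hXm hB, Measure.restrict_apply (hXm hB)]
    congr 1
    ext m
    simp only [Set.mem_ofPred_eq, Set.mem_inter_iff, Set.mem_preimage]
    tauto
  rw [e p B hB, e q B hB]
  have huniv : (Set.univ : Set ({v : Z3 // v ∉ Λ} → Z3)) = Set.pi (∅ : Finset {v : Z3 // v ∉ Λ})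
    (fun _ => Set.univ) := by simp
  have hcyl : ∀ (s : Finset {v : Z3 // v ∉ Λ}) (t : {v : Z3 // v ∉ Λ} → Set Z3),
      ((ν.restrict {m | ∀ v ∈ Λ, m.1 v = p v}).map X) (Set.pi s t) =
      ((ν.restrict {m | ∀ v ∈ Λ, m.1 v = q v}).map X) (Set.pi s t) := by
    intro s t
    have hm : MeasurableSet (Set.pi (s : Set {v : Z3 // v ∉ Λ}) t) :=
      MeasurableSet.pi s.countable_toSet fun v _ => measurableSet_Z3 (t v)
    rw [← e p _ hm, ← e q _ hm]
    convert h s t using 2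
    · ext m
      simp [hX, Set.mem_pi]
    · ext m
      simp [hX, Set.mem_pi]
  congr 1
  refine ext_of_generate_finite _ (generateFrom_squareCylinders (α := fun _ : {v : Z3 // v ∉ Λ} => Z3)).symm
    (isPiSystem_squareCylinders (fun _ => MeasurableSpace.isPiSystem_measurableSet)
      (fun _ => by simp)) ?_ ?_
  · rintro S ⟨s, t, _, rfl⟩
    exact hcyl s t
  · rw [huniv]
    exact hcyl _ _

theorem IsNice.gibbs_lyr (hμ : IsNice μ) (Λ : Finset Z3) (p q : Z3 → Z3) (hp : MatchingOn Λ p)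
    (hq : MatchingOn Λ q) (B : Set ({v : Z3 // v ∉ Λ} → Z3)) (hB : MeasurableSet B) :
    lyr μ {m | (∀ v ∈ Λ, m.1 v = p v) ∧ (fun v : {v : Z3 // v ∉ Λ} => m.1 v) ∈ B} =
      lyr μ {m | (∀ v ∈ Λ, m.1 v = q v) ∧ (fun v : {v : Z3 // v ∉ Λ} => m.1 v) ∈ B} := by
  have := hμ.prob
  have hprob := isProbabilityMeasure_lyr (μ := μ)
  by_cases h : FT Λ p
  · exact gibbs_of_cyl Λ p q (fun s t => lyr_gibbs_cyl hμ hp hq h (h.of_matching hp hq) s t) B hB
  · have h' : ¬ FT Λ q := fun h2 => h (h2.of_matching hq hp)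
    have key : ∀ r : Z3 → Z3, ¬ FT Λ r →
        lyr μ {m | (∀ v ∈ Λ, m.1 v = r v) ∧ (fun v : {v : Z3 // v ∉ Λ} => m.1 v) ∈ B} = 0 := by
      intro r hr
      have h3 : ∀ᵐ m ∂(lyr μ), m ∉ {m : Config | (∀ v ∈ Λ, m.1 v = r v) ∧
          (fun v : {v : Z3 // v ∉ Λ} => m.1 v) ∈ B} := by
        filter_upwards [lyr_ftype hμ.ftype] with m hm hcon
        apply hr
        intro v hv hev
        rw [← hcon.1 v hv]
        exact hm v hev
      exact measure_eq_zero_iff_ae_notMem.2 h3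
    rw [key p h, key q h']

/-- independent layers turn nice measures into ergodic Gibbs measures -/
theorem IsNice.isErgodicGibbs_lyr (hμ : IsNice μ) : IsErgodicGibbs (lyr μ) where
  prob := by
    have := hμ.prob
    exact isProbabilityMeasure_lyr
  invariant := fun _ ha => hμ.map_shift_lyr ha
  ergodic := fun A hA hinv => hμ.ergodic_lyr A hA hinv
  gibbs := fun Λ p q hp hq B hB => hμ.gibbs_lyr Λ p q hp hq B hB

end Pool.Agent.Lib_helper52.Dimer
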