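import Pool.Agent.Lib_helper52.DimerRot

/-!
# Entropy of restrictions to boxes
-/

open MeasureTheory Filter Topology ProbabilityTheory
open scoped ENNReal symmDiff

namespace Pool.Agent.Lib_helper52.Dimer

/-- patterns on the box -/
abbrev Pat (k : ℕ) : Type := {v // v ∈ box k} → Z3

/-- event that the tiling has a given pattern in the box -/
def evt (k : ℕ) (p : Pat k) : Set Config := {m | ∀ v, m.1 v.1 = p v}

/-- entropy of the restriction to the box -/
noncomputable def HB (k : ℕ) (μ : Measure Config) : ℝ :=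
  ∑' p : Pat k, Real.negMulLog (μ.real {m | ∀ v, m.1 v.1 = p v})

lemma specificEntropy_eq (μ : Measure Config) :
    specificEntropy μ = limsup (fun k : ℕ => HB k μ / (box k).card) atTop := rfl

open Classical in
/-- the possible patterns -/
noncomputable def pats (k : ℕ) : Finset (Pat k) :=
  Fintype.piFinset fun v => dirs.image fun s => v.1 + s

lemma card_pats (k : ℕ) : (pats k).card = 6 ^ (box k).card := by
  classical
  unfold pats
  rw [Fintype.card_piFinset]
  have : ∀ v : {v // v ∈ box k}, (dirs.image fun s => v.1 + s).card = 6 := by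
    intro v
    rw [Finset.card_image_of_injective _ (add_right_injective v.1), card_dirs]
  simp only [this, Finset.prod_const, Finset.card_univ, Fintype.card_coe]

/-- restriction of a tiling to the box -/
def restr (k : ℕ) (m : Config) : Pat k := fun v => m.1 v.1

lemma restr_mem (k : ℕ) (m : Config) : restr k m ∈ pats k := by
  classical
  unfold pats
  rw [Fintype.mem_piFinset]
  intro v
  rw [Finset.mem_image]
  exact ⟨m.1 v.1 - v.1, (adj_iff_dirs _ _).1 (m.2.1 v.1), by simp [restr]⟩

lemma mem_evt (k : ℕ) (p : Pat k) (m : Config) : m ∈ evt k p ↔ restr k m = p := by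
  unfold evt restr
  rw [Set.mem_ofPred_eq, funext_iff]

lemma measurableSet_evt (k : ℕ) (p : Pat k) : MeasurableSet (evt k p) := by
  have : evt k p = ⋂ v, {m | m.1 v.1 ∈ ({p v} : Set Z3)} := by
    ext m; simp [evt]
  rw [this]
  exact MeasurableSet.iInter fun v => measurableSet_eval v.1 _

variable {μ : Measure Config} {k : ℕ}

lemma real_evt_zero (k : ℕ) (μ : Measure Config) {p : Pat k} (hp : p ∉ pats k) :
    μ.real (evt k p) = 0 := by
  have : evt k p = ∅ := by
    ext m
    simp only [Set.mem_empty_iff_false, iff_false, mem_evt]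
    intro h
    rw [← h] at hp
    exact hp (restr_mem k m)
  rw [this]
  simp

lemma HB_eq_sum (k : ℕ) (μ : Measure Config) :
    HB k μ = ∑ p ∈ pats k, Real.negMulLog (μ.real (evt k p)) := by
  unfold HB
  refine tsum_eq_sum fun p hp => ?_
  have := real_evt_zero k μ hp
  unfold evt at this
  rw [this, Real.negMulLog_zero]

/-- integrals of functions of the pattern -/
lemma integral_pattern [IsFiniteMeasure μ] (F : Pat k → ℝ) :
    ∫ m, F (restr k m) ∂μ = ∑ p ∈ pats k, μ.real (evt k p) * F p := by
  classical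
  have h1 : ∀ m, F (restr k m) = ∑ p ∈ pats k, (evt k p).indicator (fun _ => F p) m := by
    intro m
    have h2 : ∀ p ∈ pats k, (evt k p).indicator (fun _ => F p) m =
        if restr k m = p then F p else 0 := by
      intro p _
      rw [Set.indicator_apply]
      simp only [mem_evt]
    rw [Finset.sum_congr rfl h2, Finset.sum_ite_eq, if_pos (restr_mem k m)]
  simp only [h1]
  rw [integral_finsetSum]
  · refine Finset.sum_congr rfl fun p _ => ?_
    rw [integral_indicator_const _ (measurableSet_evt k p), smul_eq_mul]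
  · intro p _
    exact (integrable_const (F p)).indicator (measurableSet_evt k p)

lemma sum_real_evt [IsProbabilityMeasure μ] : ∑ p ∈ pats k, μ.real (evt k p) = 1 := by
  have := integral_pattern (μ := μ) (k := k) (fun _ => (1 : ℝ))
  simp at this
  exact this.symm

/-- Gibbs' inequality -/
lemma gibbs_ineq {α : Type*} (s : Finset α) (a b : α → ℝ) (ha : ∀ x ∈ s, 0 ≤ a x)
    (hb : ∀ x ∈ s, 0 ≤ b x) (hab : ∀ x ∈ s, b x = 0 → a x = 0) (hs : ∑ x ∈ s, b x ≤ ∑ x ∈ s, a x) :
    ∑ x ∈ s, Real.negMulLog (a x) ≤ ∑ x ∈ s, -(a x * Real.log (b x)) := by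
  have h1 : ∀ x ∈ s, Real.negMulLog (a x) ≤ -(a x * Real.log (b x)) + (b x - a x) := by
    intro x hx
    rcases (ha x hx).eq_or_lt with h | h
    · rw [← h, Real.negMulLog_zero]
      have := hb x hx
      simp [this]
    · have hbx : 0 < b x := lt_of_le_of_ne (hb x hx) fun h2 => by
        rw [hab x hx h2.symm] at h
        exact lt_irrefl _ h
      have h2 := Real.log_le_sub_one_of_pos (div_pos hbx h)
      rw [Real.log_div hbx.ne' h.ne'] at h2
      have h3 : a x * (Real.log (b x) - Real.log (a x)) ≤ a x * (b x / a x - 1) := by gcongr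
      have h4 : a x * (b x / a x - 1) = b x - a x := by field_simp
      rw [h4] at h3
      unfold Real.negMulLog
      nlinarith
  calc ∑ x ∈ s, Real.negMulLog (a x) ≤ ∑ x ∈ s, (-(a x * Real.log (b x)) + (b x - a x)) :=
        Finset.sum_le_sum h1
    _ = ∑ x ∈ s, -(a x * Real.log (b x)) + (∑ x ∈ s, b x - ∑ x ∈ s, a x) := by
        rw [Finset.sum_add_distrib, Finset.sum_sub_distrib]
    _ ≤ _ := by linarith

lemma HB_nonneg [IsProbabilityMeasure μ] : 0 ≤ HB k μ := by
  rw [HB_eq_sum]
  exact Finset.sum_nonneg fun p _ => Real.negMulLog_nonneg measureReal_nonneg measureReal_le_one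

lemma HB_le [IsProbabilityMeasure μ] : HB k μ ≤ (box k).card * Real.log 6 := by
  rw [HB_eq_sum]
  have hc : (0 : ℝ) < (pats k).card := by
    rw [card_pats]; positivity
  have h1 := gibbs_ineq (pats k) (fun p => μ.real (evt k p)) (fun _ => ((pats k).card : ℝ)⁻¹)
    (fun _ _ => measureReal_nonneg) (fun _ _ => by positivity) (fun _ _ h => by
      exfalso
      exact (inv_pos.2 hc).ne' h) (by
      rw [sum_real_evt, Finset.sum_const, nsmul_eq_mul, mul_inv_cancel₀ hc.ne'])
  refine h1.trans (le_of_eq ?_)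
  rw [Finset.sum_neg_distrib, ← Finset.sum_mul, sum_real_evt, one_mul, Real.log_inv, neg_neg,
    card_pats]
  push_cast
  rw [Real.log_pow]

lemma card_box_pos : (0 : ℝ) < (box k).card := by
  have : (0 : Z3) ∈ box k := by
    rw [box, Finset.mem_Icc]
    constructor <;> intro i <;> simp
  exact_mod_cast Finset.card_pos.2 ⟨0, this⟩

lemma ratio_nonneg [IsProbabilityMeasure μ] : 0 ≤ HB k μ / (box k).card :=
  div_nonneg HB_nonneg (Nat.cast_nonneg _)

lemma ratio_le [IsProbabilityMeasure μ] : HB k μ / (box k).card ≤ Real.log 6 := by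
  rw [div_le_iff₀ card_box_pos, mul_comm]
  exact HB_le

lemma isBoundedUnder_ratio [IsProbabilityMeasure μ] :
    IsBoundedUnder (· ≤ ·) atTop (fun k : ℕ => HB k μ / (box k).card) :=
  isBoundedUnder_of ⟨Real.log 6, fun _ => ratio_le⟩

lemma isCoboundedUnder_ratio [IsProbabilityMeasure μ] :
    IsCoboundedUnder (· ≤ ·) atTop (fun k : ℕ => HB k μ / (box k).card) :=
  IsBoundedUnder.isCoboundedUnder_le (isBoundedUnder_of ⟨0, fun _ => ratio_nonneg⟩)

lemma specificEntropy_le [IsProbabilityMeasure μ] : specificEntropy μ ≤ Real.log 6 := by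
  rw [specificEntropy_eq]
  exact limsup_le_of_le isCoboundedUnder_ratio (Eventually.of_forall fun _ => ratio_le)

lemma specificEntropy_nonneg [IsProbabilityMeasure μ] : 0 ≤ specificEntropy μ := by
  rw [specificEntropy_eq]
  exact le_limsup_of_frequently_le (Eventually.of_forall fun _ => ratio_nonneg).frequently
    isBoundedUnder_ratio

lemma specificEntropy_mono {ν : Measure Config} [IsProbabilityMeasure μ] [IsProbabilityMeasure ν]
    (h : ∀ k, HB k μ ≤ HB k ν) : specificEntropy μ ≤ specificEntropy ν := by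
  rw [specificEntropy_eq, specificEntropy_eq]
  refine limsup_le_limsup (Eventually.of_forall fun k => ?_) isCoboundedUnder_ratio
    isBoundedUnder_ratio
  exact div_le_div_of_nonneg_right (h k) (Nat.cast_nonneg _)

/-! ### Averages -/

lemma avg3_real (μ₁ μ₂ μ₃ : Measure Config) [IsFiniteMeasure μ₁] [IsFiniteMeasure μ₂]
    [IsFiniteMeasure μ₃] (A : Set Config) :
    (avg3 μ₁ μ₂ μ₃).real A = (μ₁.real A + μ₂.real A + μ₃.real A) / 3 := by
  rw [avg3, measureReal_def, Measure.smul_apply, Measure.add_apply, Measure.add_apply, smul_eq_mul,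
    ENNReal.toReal_mul, ENNReal.toReal_add (by finiteness) (by finiteness),
    ENNReal.toReal_add (by finiteness) (by finiteness)]
  simp only [ENNReal.toReal_inv, ENNReal.toReal_ofNat, measureReal_def]
  ring

lemma negMulLog_avg (a b c : ℝ) (ha : 0 ≤ a) (hb : 0 ≤ b) (hc : 0 ≤ c) :
    (Real.negMulLog a + Real.negMulLog b + Real.negMulLog c) / 3 ≤ Real.negMulLog ((a + b + c) / 3) := by
  have h := Real.concaveOn_negMulLog.le_map_sum (t := Finset.univ) (w := fun _ : Fin 3 => (1 / 3 : ℝ))
    (p := ![a, b, c]) (fun _ _ => by norm_num) (by simp) (fun i _ => by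
      fin_cases i <;> simp [ha, hb, hc])
  simp only [Fin.sum_univ_three, smul_eq_mul] at h
  simp only [Matrix.cons_val_zero, Matrix.cons_val_one, Matrix.cons_val_two, Matrix.head_cons,
    Matrix.tail_cons] at h
  have e1 : (1 / 3 * a + 1 / 3 * b + 1 / 3 * c : ℝ) = (a + b + c) / 3 := by ring
  have e2 : (1 / 3 * Real.negMulLog a + 1 / 3 * Real.negMulLog b + 1 / 3 * Real.negMulLog c : ℝ) =
      (Real.negMulLog a + Real.negMulLog b + Real.negMulLog c) / 3 := by ring
  rw [← e1, ← e2]
  exact h

lemma HB_avg3 (μ₁ μ₂ μ₃ : Measure Config) [IsFiniteMeasure μ₁] [IsFiniteMeasure μ₂]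
    [IsFiniteMeasure μ₃] : (HB k μ₁ + HB k μ₂ + HB k μ₃) / 3 ≤ HB k (avg3 μ₁ μ₂ μ₃) := by
  simp only [HB_eq_sum, avg3_real]
  rw [← Finset.sum_add_distrib, ← Finset.sum_add_distrib, Finset.sum_div]
  exact Finset.sum_le_sum fun p _ => negMulLog_avg _ _ _ measureReal_nonneg measureReal_nonneg
    measureReal_nonneg

/-! ### Rotation -/

lemma mem_box (k : ℕ) (v : Z3) : v ∈ box k ↔ ∀ i, -(k : ℤ) ≤ v i ∧ v i ≤ k := by
  rw [box, Finset.mem_Icc, Pi.le_def, Pi.le_def]
  exact forall_and.symm

lemma rz_mem_box {v : Z3} (h : v ∈ box k) : rz v ∈ box k := by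
  rw [mem_box] at *
  exact fun i => h (i + 1)

lemma rz'_mem_box {v : Z3} (h : v ∈ box k) : rz' v ∈ box k := by
  rw [mem_box] at *
  exact fun i => h (i + 2)

/-- rotation of patterns -/
def rotPat (k : ℕ) : Pat k ≃ Pat k where
  toFun p := fun v => rz' (p ⟨rz v.1, rz_mem_box v.2⟩)
  invFun p := fun v => rz (p ⟨rz' v.1, rz'_mem_box v.2⟩)
  left_inv p := by
    funext v
    simp
  right_inv p := by
    funext v
    simp

lemma evt_rot (k : ℕ) (p : Pat k) : rot ⁻¹' evt k p = evt k (rotPat k p) := by
  ext m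
  simp only [evt, Set.mem_preimage, Set.mem_ofPred_eq, rotPat, Equiv.coe_fn_mk]
  constructor
  · intro h v
    have := h ⟨rz v.1, rz_mem_box v.2⟩
    rw [rot_apply, rz'_rz] at this
    rw [← this, rz'_rz]
  · intro h v
    have := h ⟨rz' v.1, rz'_mem_box v.2⟩
    rw [rot_apply, this]
    simp

lemma HB_rot (k : ℕ) (μ : Measure Config) : HB k (μ.map rot) = HB k μ := by
  have h1 : ∀ ν : Measure Config, HB k ν = ∑' p : Pat k, Real.negMulLog (ν.real (evt k p)) :=
    fun ν => rfl
  rw [h1, h1, ← (rotPat k).tsum_eq fun p => Real.negMulLog (μ.real (evt k p))]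
  refine tsum_congr fun p => ?_
  rw [measureReal_def, Measure.map_apply measurable_rot (measurableSet_evt k p), evt_rot,
    measureReal_def]

end Pool.Agent.Lib_helper52.Dimer
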