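import Pool.Agent.Lib_helper52.DimerH

/-!
# Independent layers increase the entropy; the barycenter of a face maximizes `ent` on the face
-/

open MeasureTheory Filter Topology ProbabilityTheory
open scoped ENNReal symmDiff

namespace Pool.Agent.Lib_helper52.Dimer

variable {μ : Measure Config} {k : ℕ}

/-- the layer part of the pattern event -/
def levt (k : ℕ) (j : ℤ) (p : Pat k) : Set Config :=
  {m | ∀ v : {v // v ∈ box k}, lay v.1 = j → m.1 v.1 = p v}

open Classical in
lemma lyr_evt [IsProbabilityMeasure μ] (h : ∀ᵐ m ∂μ, FType m) (p : Pat k) :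
    (lyr μ).real (evt k p) = ∏ j ∈ (box k).image lay, μ.real (levt k j p) := by
  set t : Z3 → Set Z3 := fun v => if h : v ∈ box k then {p ⟨v, h⟩} else Set.univ with ht
  have e1 : evt k p = {m | ∀ v ∈ box k, m.1 v ∈ t v} := by
    ext m
    simp only [evt, Set.mem_ofPred_eq, ht]
    constructor
    · intro h v hv
      rw [dif_pos hv]
      exact h ⟨v, hv⟩
    · intro h v
      have := h v.1 v.2
      rw [dif_pos v.2] at this
      exact this
  have e2 : ∀ j, levt k j p = {m | ∀ v ∈ box k, lay v = j → m.1 v ∈ t v} := by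
    intro j
    ext m
    simp only [levt, Set.mem_ofPred_eq, ht]
    constructor
    · intro h v hv hj
      rw [dif_pos hv]
      exact h ⟨v, hv⟩ hj
    · intro h v hj
      have := h v.1 v.2 hj
      rw [dif_pos v.2] at this
      exact this
  rw [measureReal_def, e1, lyr_cyl h, ENNReal.toReal_prod]
  refine Finset.prod_congr rfl fun j _ => ?_
  rw [e2 j, measureReal_def]

lemma integral_lyr_layer [IsProbabilityMeasure μ] (h : ∀ᵐ m ∂μ, FType m) (j : ℤ) {F : Config → ℝ}
    (hF : Measurable F) (hdep : ∀ m m' : Config, (∀ v, lay v = j → m.1 v = m'.1 v) → F m = F m') :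
    ∫ m, F m ∂(lyr μ) = ∫ m, F m ∂μ := by
  unfold lyr
  rw [integral_map measurable_glue.aemeasurable hF.aestronglyMeasurable]
  have h1 : ∫ M, F (glue M) ∂(seqM μ) = ∫ M, F (M j) ∂(seqM μ) := by
    refine integral_congr_ae ?_
    filter_upwards [ae_seq_ftype h] with M hM
    refine hdep _ _ fun v hv => ?_
    rw [glue_apply hM, hv]
  rw [h1]
  have h2 := (measurePreserving_eval_infinitePi (fun _ : ℤ => μ) j)
  have h3 : ∫ m, F m ∂μ = ∫ m, F m ∂((seqM μ).map (fun M : ℤ → Config => M j)) := by
    congr 1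
    exact h2.map_eq.symm
  rw [h3, integral_map (measurable_pi_apply j).aemeasurable hF.aestronglyMeasurable]

lemma measurable_restr (k : ℕ) : Measurable (restr k) :=
  measurable_pi_iff.2 fun v => measurable_eval v.1

lemma measurable_pattern (g : Pat k → ℝ) : Measurable fun m => g (restr k m) :=
  (measurable_of_countable g).comp (measurable_restr k)

lemma restr_layer {j : ℤ} {m m' : Config} (h : ∀ v, lay v = j → m.1 v = m'.1 v) :
    levt k j (restr k m) = levt k j (restr k m') := by
  ext x
  simp only [levt, restr, Set.mem_ofPred_eq]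
  constructor
  · intro h1 v hv
    rw [h1 v hv, h v.1 hv]
  · intro h1 v hv
    rw [h1 v hv, h v.1 hv]

lemma sum_layer_eq [IsProbabilityMeasure μ] (h : ∀ᵐ m ∂μ, FType m) (j : ℤ) :
    ∑ p ∈ pats k, (lyr μ).real (evt k p) * Real.log (μ.real (levt k j p)) =
      ∑ p ∈ pats k, μ.real (evt k p) * Real.log (μ.real (levt k j p)) := by
  have := isProbabilityMeasure_lyr (μ := μ)
  rw [← integral_pattern (μ := lyr μ) (fun p => Real.log (μ.real (levt k j p))),
    ← integral_pattern (μ := μ) (fun p => Real.log (μ.real (levt k j p)))]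
  refine integral_lyr_layer h j (measurable_pattern (fun p => Real.log (μ.real (levt k j p)))) ?_
  intro m m' hmm
  rw [restr_layer hmm]

lemma sum_log_prod (a : Pat k → ℝ) (J : Finset ℤ) (b : ℤ → Pat k → ℝ)
    (h : ∀ p ∈ pats k, ∀ j ∈ J, b j p = 0 → a p = 0) :
    ∑ p ∈ pats k, -(a p * Real.log (∏ j ∈ J, b j p)) =
      -∑ j ∈ J, ∑ p ∈ pats k, a p * Real.log (b j p) := by
  rw [Finset.sum_comm, Finset.sum_neg_distrib]
  congr 1
  refine Finset.sum_congr rfl fun p hp => ?_
  rw [← Finset.mul_sum]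
  by_cases hz : ∃ j ∈ J, b j p = 0
  · obtain ⟨j, hj, hj0⟩ := hz
    rw [h p hp j hj hj0, zero_mul, zero_mul]
  · push Not at hz
    rw [Real.log_prod hz]

lemma levt_mono (k : ℕ) (j : ℤ) (p : Pat k) : evt k p ⊆ levt k j p := fun _ hm v _ => hm v

theorem HB_lyr [IsProbabilityMeasure μ] (h : ∀ᵐ m ∂μ, FType m) : HB k μ ≤ HB k (lyr μ) := by
  classical
  have := isProbabilityMeasure_lyr (μ := μ)
  set J := (box k).image lay with hJ
  have hprod : ∀ p : Pat k, (lyr μ).real (evt k p) = ∏ j ∈ J, μ.real (levt k j p) := lyr_evt h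
  have h0 : ∀ p ∈ pats k, ∀ j ∈ J, μ.real (levt k j p) = 0 → μ.real (evt k p) = 0 := by
    intro p _ j _ hz
    have h1 : μ.real (evt k p) ≤ μ.real (levt k j p) := measureReal_mono (levt_mono k j p)
    exact le_antisymm (by rw [← hz]; exact h1) measureReal_nonneg
  have h0' : ∀ p ∈ pats k, ∀ j ∈ J, μ.real (levt k j p) = 0 → (lyr μ).real (evt k p) = 0 := by
    intro p _ j hj hz
    rw [hprod p]
    exact Finset.prod_eq_zero hj hz
  have e1 : HB k (lyr μ) = ∑ p ∈ pats k, -((lyr μ).real (evt k p) *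
      Real.log (∏ j ∈ J, μ.real (levt k j p))) := by
    rw [HB_eq_sum]
    refine Finset.sum_congr rfl fun p _ => ?_
    rw [← hprod p, Real.negMulLog, neg_mul]
  rw [e1, sum_log_prod _ J _ h0']
  rw [Finset.sum_congr rfl fun j _ => sum_layer_eq h j]
  rw [← sum_log_prod (fun p => μ.real (evt k p)) J _ h0, HB_eq_sum]
  refine gibbs_ineq _ _ _ (fun _ _ => measureReal_nonneg)
    (fun p _ => Finset.prod_nonneg fun j _ => measureReal_nonneg) ?_ ?_
  · intro p hp hz
    rw [Finset.prod_eq_zero_iff] at hz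
    obtain ⟨j, hj, hj0⟩ := hz
    exact h0 p hp j hj hj0
  · rw [sum_real_evt]
    have : ∑ p ∈ pats k, ∏ j ∈ J, μ.real (levt k j p) = ∑ p ∈ pats k, (lyr μ).real (evt k p) :=
      Finset.sum_congr rfl fun p _ => (hprod p).symm
    rw [this, sum_real_evt]

/-! ### Mean currents -/

lemma meanCurrent_lyr [IsProbabilityMeasure μ] (h : ∀ᵐ m ∂μ, FType m) :
    meanCurrent (lyr μ) = meanCurrent μ := by
  have := isProbabilityMeasure_lyr (μ := μ)
  ext i
  rw [meanCurrent_apply, meanCurrent_apply]
  refine integral_lyr_layer h 0 (measurable_cur i) ?_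
  intro m m' hmm
  have h0 : lay (0 : Z3) = 0 := by simp [lay, lev]
  rw [hmm 0 h0]

lemma meanCurrent_rot [IsFiniteMeasure μ] (i : Fin 3) :
    meanCurrent (μ.map rot) i = meanCurrent μ (i + 1) := by
  have : IsFiniteMeasure (μ.map rot) := Measure.isFiniteMeasure_map _ _
  rw [meanCurrent_apply, meanCurrent_apply,
    integral_map measurable_rot.aemeasurable (measurable_cur i).aestronglyMeasurable]
  rfl

lemma meanCurrent_avg3 (μ₁ μ₂ μ₃ : Measure Config) [IsFiniteMeasure μ₁] [IsFiniteMeasure μ₂]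
    [IsFiniteMeasure μ₃] (hf : IsFiniteMeasure (avg3 μ₁ μ₂ μ₃)) (i : Fin 3) :
    meanCurrent (avg3 μ₁ μ₂ μ₃) i =
      (meanCurrent μ₁ i + meanCurrent μ₂ i + meanCurrent μ₃ i) / 3 := by
  rw [meanCurrent_apply, meanCurrent_apply, meanCurrent_apply, meanCurrent_apply]
  unfold avg3
  rw [integral_smul_measure, integral_add_measure ((integrable_cur i).add_measure (integrable_cur i))
    (integrable_cur i), integral_add_measure (integrable_cur i) (integrable_cur i)]
  simp only [ENNReal.toReal_inv, ENNReal.toReal_ofNat, smul_eq_mul]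
  ring

/-! ### Measures with mean current in the face -/

lemma ergodicGibbs_ftype (h : IsErgodicGibbs μ) (hs : meanCurrent μ 0 + meanCurrent μ 1 + meanCurrent μ 2 = 1) :
    ∀ᵐ m ∂μ, FType m := by
  have := h.prob
  have e0 : (fun m : Config => (lev (m.1 0) : ℝ)) = fun m => ∑ i : Fin 3, ((m.1 0 i : ℤ) : ℝ) := by
    ext m; simp [lev, Fin.sum_univ_three]
  have h1 : ∫ m : Config, (lev (m.1 0) : ℝ) ∂μ = 1 := by
    rw [e0, integral_finsetSum _ (fun i _ => integrable_cur i), Fin.sum_univ_three, ← hs,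
      meanCurrent_apply, meanCurrent_apply, meanCurrent_apply]
  have hle : ∀ m : Config, lev (m.1 0) ≤ 1 := by
    intro m
    have h0 : lev (0 : Z3) = 0 := by simp [lev]
    rcases (m.2.1 0).lev with h | h <;> rw [h0] at h <;> omega
  have hint : Integrable (fun m : Config => (lev (m.1 0) : ℝ)) μ := by
    rw [e0]
    exact integrable_finsetSum _ fun i _ => integrable_cur i
  have h2 : ∀ᵐ m ∂μ, lev (m.1 0) = 1 := by
    have h3 : ∫ m : Config, (1 - (lev (m.1 0) : ℝ)) ∂μ = 0 := by
      rw [integral_sub (integrable_const 1) hint, h1]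
      simp
    have hnn : 0 ≤ fun m : Config => 1 - (lev (m.1 0) : ℝ) := fun m => by
      have := hle m
      have h4 : (lev (m.1 0) : ℝ) ≤ 1 := by exact_mod_cast this
      simp only [Pi.zero_apply]
      linarith
    have h3' := (integral_eq_zero_iff_of_nonneg hnn ((integrable_const 1).sub hint)).1 h3
    filter_upwards [h3'] with m hm
    simp only [Pi.zero_apply] at hm
    have : (lev (m.1 0) : ℝ) = 1 := by linarith
    exact_mod_cast this
  have h5 : ∀ v : Z3, ∀ᵐ m ∂μ, IsEven v → lev (m.1 v) = lev v + 1 := by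
    intro v
    by_cases hv : IsEven v
    · have hv' : IsEven (-v) := by
        rw [isEven_lev] at *
        have : lev (-v) = -lev v := by simp [lev]; ring
        rw [this]
        omega
      have h6 : MeasurePreserving (shift (-v)) μ μ := ⟨measurable_shift _, h.invariant _ hv'⟩
      have h7 := h6.quasiMeasurePreserving.ae h2
      filter_upwards [h7] with m hm _
      rw [shift_apply] at hm
      have e : lev (m.1 (0 - -v) + -v) = lev (m.1 v) - lev v := by
        rw [lev_add]
        have h8 : (0 : Z3) - -v = v := by simp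
        have h9 : lev (-v) = -lev v := by simp [lev]; ring
        rw [h8, h9]
        ring
      omega
    · exact Eventually.of_forall fun m hcon => absurd hcon hv
  filter_upwards [ae_all_iff.2 h5] with m hm
  exact hm

lemma IsErgodicGibbs.isNice (h : IsErgodicGibbs μ)
    (hs : meanCurrent μ 0 + meanCurrent μ 1 + meanCurrent μ 2 = 1) : IsNice μ :=
  ⟨h.prob, h.invariant, ergodicGibbs_ftype h hs, h.gibbs⟩

/-- the barycenter of the face with all signs positive -/
noncomputable def sF : R3 := WithLp.toLp 2 fun _ => 1 / 3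

lemma exists_better (h : IsErgodicGibbs μ)
    (hs : meanCurrent μ 0 + meanCurrent μ 1 + meanCurrent μ 2 = 1) :
    ∃ ν : Measure Config, IsErgodicGibbs ν ∧ meanCurrent ν = sF ∧
      specificEntropy μ ≤ specificEntropy ν := by
  have hn := h.isNice hs
  have hn1 := hn.rot
  have hn2 := hn1.rot
  have hn3 := hn.avg3 hn1 hn2
  have := hn.prob
  have := hn1.prob
  have := hn2.prob
  have := hn3.prob
  have := isProbabilityMeasure_lyr (μ := avg3 μ (μ.map rot) ((μ.map rot).map rot))
  refine ⟨lyr (avg3 μ (μ.map rot) ((μ.map rot).map rot)), hn3.isErgodicGibbs_lyr, ?_, ?_⟩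
  · rw [meanCurrent_lyr hn3.ftype]
    ext i
    rw [meanCurrent_avg3 _ _ _ inferInstance, meanCurrent_rot, meanCurrent_rot, meanCurrent_rot]
    show _ = (1 / 3 : ℝ)
    have : meanCurrent μ i + meanCurrent μ (i + 1) + meanCurrent μ (i + 1 + 1) = 1 := by
      rw [← hs]
      fin_cases i
      · show meanCurrent μ 0 + meanCurrent μ 1 + meanCurrent μ 2 = _
        rfl
      · show meanCurrent μ 1 + meanCurrent μ 2 + meanCurrent μ 0 = _
        ring
      · show meanCurrent μ 2 + meanCurrent μ 0 + meanCurrent μ 1 = _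
        ring
    rw [this]
  · refine specificEntropy_mono fun k => ?_
    refine le_trans ?_ (HB_lyr hn3.ftype)
    refine le_trans ?_ (HB_avg3 _ _ _)
    rw [HB_rot k (μ.map rot), HB_rot k μ]
    linarith

lemma bddAbove_ent (s : R3) : BddAbove {h | ∃ μ : Measure Config, IsErgodicGibbs μ ∧
    meanCurrent μ = s ∧ specificEntropy μ = h} := by
  refine ⟨Real.log 6, ?_⟩
  rintro h ⟨μ, hμ, _, rfl⟩
  have := hμ.prob
  exact specificEntropy_le

lemma ent_nonneg (s : R3) : 0 ≤ ent s := by
  unfold ent
  refine Real.sSup_nonneg ?_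
  rintro h ⟨μ, hμ, _, rfl⟩
  have := hμ.prob
  exact specificEntropy_nonneg

/-- `ent` restricted to the face is maximal at the barycenter -/
theorem ent_le_sF {s : R3} (hs : s 0 + s 1 + s 2 = 1) : ent s ≤ ent sF := by
  by_cases hne : {h | ∃ μ : Measure Config, IsErgodicGibbs μ ∧
    meanCurrent μ = s ∧ specificEntropy μ = h}.Nonempty
  · refine csSup_le hne ?_
    rintro h ⟨μ, hμ, hm, rfl⟩
    obtain ⟨ν, hν1, hν2, hν3⟩ := exists_better hμ (by rw [hm]; exact hs)
    exact hν3.trans (le_csSup (bddAbove_ent sF) ⟨ν, hν1, hν2, rfl⟩)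
  · rw [Set.not_nonempty_iff_eq_empty] at hne
    have : ent s = 0 := by
      unfold ent
      rw [hne, Real.sSup_empty]
    rw [this]
    exact ent_nonneg _

end Pool.Agent.Lib_helper52.Dimer
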