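import Pool.Agent.Lib_helper52.DimerFlow

/-!
# Layered tilings: face type configurations and independent layers
-/

open MeasureTheory Filter Topology
open scoped ENNReal ContDiff

namespace Pool.Agent.Lib_helper52.Dimer

/-- level of a vertex -/
def lev (v : Z3) : ℤ := v 0 + v 1 + v 2

/-- layer of a vertex (levels `2 k` and `2 k + 1` form the layer `k`) -/
def lay (v : Z3) : ℤ := lev v / 2

lemma lev_sub (v a : Z3) : lev (v - a) = lev v - lev a := by
  simp [lev]; ring

lemma lev_add (v a : Z3) : lev (v + a) = lev v + lev a := by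
  simp [lev]; ring

lemma isEven_lev (v : Z3) : IsEven v ↔ lev v % 2 = 0 := isEven_iff v

lemma Adj.symm {u w : Z3} (h : Adj u w) : Adj w u := by
  unfold Adj at *
  rw [← h]
  exact Finset.sum_congr rfl fun i _ => abs_sub_comm _ _

lemma Adj.lev {u w : Z3} (h : Adj u w) : Dimer.lev w = Dimer.lev u + 1 ∨ Dimer.lev w = Dimer.lev u - 1 := by
  rw [adj_iff] at h
  rcases h with ⟨j, h | h⟩ <;> subst h <;> fin_cases j <;> simp [Dimer.lev] <;> omega

/-- tilings of face type: every dimer goes up from its even endpoint -/
def FType (m : Config) : Prop := ∀ v, IsEven v → lev (m.1 v) = lev v + 1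

lemma FType.lay_eq {m : Config} (h : FType m) (v : Z3) : lay (m.1 v) = lay v := by
  by_cases hv : IsEven v
  · have h1 := h v hv
    rw [isEven_lev] at hv
    unfold lay
    omega
  · have h0 : IsEven (m.1 v) := ((m.2.1 v).parity).2 hv
    have h1 := h (m.1 v) h0
    rw [m.2.2] at h1
    rw [isEven_lev] at hv h0
    unfold lay
    omega

instance : MeasurableSingletonClass Z3 := inferInstance

lemma measurableSet_Z3 (s : Set Z3) : MeasurableSet s := s.to_countable.measurableSet

lemma measurable_eval (v : Z3) : Measurable fun m : Config => m.1 v :=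
  (measurable_pi_apply v).comp measurable_subtype_coe

lemma measurable_config {α : Type*} [MeasurableSpace α] {f : α → Config}
    (h : ∀ v, Measurable fun a => (f a).1 v) : Measurable f := by
  have h1 : Measurable fun a => (f a).1 := measurable_pi_iff.2 h
  exact Measurable.subtype_mk h1

lemma measurableSet_eval (v : Z3) (s : Set Z3) : MeasurableSet {m : Config | m.1 v ∈ s} :=
  measurable_eval v (measurableSet_Z3 s)

lemma measurableSet_ftype : MeasurableSet {m : Config | FType m} := by
  have : {m : Config | FType m} = ⋂ v : Z3, {m | IsEven v → lev (m.1 v) = lev v + 1} := by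
    ext m
    simp [FType]
  rw [this]
  refine MeasurableSet.iInter fun v => ?_
  by_cases hv : IsEven v
  · simp only [hv, true_implies]
    exact measurableSet_eval v {w | lev w = lev v + 1}
  · simp [hv]

lemma measurable_shift (a : Z3) : Measurable (shift a) := by
  refine measurable_config fun v => ?_
  have : (fun m : Config => (shift a m).1 v) = fun m => m.1 (v - a) + a := rfl
  rw [this]
  exact (measurable_eval (v - a)).add_const a

open Classical in
/-- the configuration whose layer `k` is the layer `k` of `M k` -/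
noncomputable def glue (M : ℤ → Config) : Config :=
  if h : ∀ k, FType (M k) then
    ⟨fun v => (M (lay v)).1 v, fun v => (M (lay v)).2.1 v, fun v => by
      show (M (lay ((M (lay v)).1 v))).1 ((M (lay v)).1 v) = v
      rw [(h (lay v)).lay_eq v]
      exact (M (lay v)).2.2 v⟩
  else M 0

lemma glue_apply {M : ℤ → Config} (h : ∀ k, FType (M k)) (v : Z3) :
    (glue M).1 v = (M (lay v)).1 v := by
  unfold glue
  rw [dif_pos h]

lemma glue_ftype {M : ℤ → Config} (h : ∀ k, FType (M k)) : FType (glue M) := by
  intro v hv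
  rw [glue_apply h]
  exact h _ v hv

lemma measurable_glue : Measurable glue := by
  classical
  refine measurable_config fun v => ?_
  have h1 : (fun M : ℤ → Config => (glue M).1 v) =
      fun M => if ∀ k, FType (M k) then (M (lay v)).1 v else (M 0).1 v := by
    ext1 M
    by_cases h : ∀ k, FType (M k)
    · rw [glue_apply h, if_pos h]
    · rw [if_neg h]
      unfold glue
      rw [dif_neg h]
  rw [h1]
  refine Measurable.ite ?_ ((measurable_eval v).comp (measurable_pi_apply _))
    ((measurable_eval v).comp (measurable_pi_apply _))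
  have h2 : {M : ℤ → Config | ∀ k, FType (M k)} = ⋂ k, (fun M : ℤ → Config => M k) ⁻¹' {m | FType m} := by
    ext M; simp
  rw [h2]
  exact MeasurableSet.iInter fun k => (measurable_pi_apply k) measurableSet_ftype

/-- Nice measures: everything in the definition of ergodic Gibbs measures except ergodicity,
and supported on face type tilings -/
structure IsNice (μ : Measure Config) : Prop where
  prob : IsProbabilityMeasure μ
  invariant : ∀ a, IsEven a → μ.map (shift a) = μ
  ftype : ∀ᵐ m ∂μ, FType m
  gibbs : ∀ (Λ : Finset Z3) (p q : Z3 → Z3), MatchingOn Λ p → MatchingOn Λ q →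
    ∀ B : Set ({v : Z3 // v ∉ Λ} → Z3), MeasurableSet B →
      μ {m | (∀ v ∈ Λ, m.1 v = p v) ∧ (fun v : {v : Z3 // v ∉ Λ} => m.1 v) ∈ B} =
      μ {m | (∀ v ∈ Λ, m.1 v = q v) ∧ (fun v : {v : Z3 // v ∉ Λ} => m.1 v) ∈ B}

/-- product measure on sequences of configurations -/
noncomputable def seqM (μ : Measure Config) : Measure (ℤ → Config) :=
  Measure.infinitePi fun _ : ℤ => μ

/-- law of independent layers -/
noncomputable def lyr (μ : Measure Config) : Measure Config := (seqM μ).map glue

variable {μ : Measure Config}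

lemma ae_seq_ftype [IsProbabilityMeasure μ] (h : ∀ᵐ m ∂μ, FType m) :
    ∀ᵐ M ∂(seqM μ), ∀ k, FType (M k) := by
  rw [ae_all_iff]
  intro k
  exact (measurePreserving_eval_infinitePi (fun _ : ℤ => μ) k).quasiMeasurePreserving.ae h

lemma isProbabilityMeasure_lyr [IsProbabilityMeasure μ] : IsProbabilityMeasure (lyr μ) := by
  unfold lyr seqM
  exact Measure.isProbabilityMeasure_map measurable_glue.aemeasurable

lemma lyr_ftype [IsProbabilityMeasure μ] (h : ∀ᵐ m ∂μ, FType m) : ∀ᵐ m ∂(lyr μ), FType m := by
  unfold lyr
  rw [ae_map_iff measurable_glue.aemeasurable measurableSet_ftype]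
  filter_upwards [ae_seq_ftype h] with M hM
  exact glue_ftype hM

lemma measurableSet_cyl (S : Finset Z3) (t : Z3 → Set Z3) (k : ℤ) :
    MeasurableSet {m : Config | ∀ v ∈ S, lay v = k → m.1 v ∈ t v} := by
  have : {m : Config | ∀ v ∈ S, lay v = k → m.1 v ∈ t v} =
      ⋂ v ∈ S, ⋂ (_ : lay v = k), {m | m.1 v ∈ t v} := by
    ext m; simp
  rw [this]
  exact Finset.measurableSet_biInter _ fun v _ => MeasurableSet.iInter fun _ => measurableSet_eval v _

lemma measurableSet_cyl' (S : Finset Z3) (t : Z3 → Set Z3) :
    MeasurableSet {m : Config | ∀ v ∈ S, m.1 v ∈ t v} := by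
  have : {m : Config | ∀ v ∈ S, m.1 v ∈ t v} =
      ⋂ v ∈ S, {m | m.1 v ∈ t v} := by
    ext m; simp
  rw [this]
  exact Finset.measurableSet_biInter _ fun v _ => measurableSet_eval v _

/-- the product formula for the measure with independent layers -/
lemma lyr_cyl [IsProbabilityMeasure μ] (h : ∀ᵐ m ∂μ, FType m) (S : Finset Z3) (t : Z3 → Set Z3) :
    lyr μ {m | ∀ v ∈ S, m.1 v ∈ t v} =
      ∏ k ∈ S.image lay, μ {m | ∀ v ∈ S, lay v = k → m.1 v ∈ t v} := by
  unfold lyr
  rw [Measure.map_apply measurable_glue (measurableSet_cyl' S t)]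
  have h2 := Measure.infinitePi_pi (fun _ : ℤ => μ) (s := S.image lay)
    (t := fun k => {m : Config | ∀ v ∈ S, lay v = k → m.1 v ∈ t v})
    (fun k _ => measurableSet_cyl S t k)
  rw [← h2]
  refine measure_congr ?_
  filter_upwards [ae_seq_ftype h] with M hM
  refine propext ?_
  show (∀ v ∈ S, (glue M).1 v ∈ t v) ↔ M ∈ Set.pi _ _
  simp only [glue_apply hM, Finset.coe_image, Set.mem_pi, Set.mem_image, SetLike.mem_coe,
    forall_exists_index, and_imp, Set.mem_ofPred_eq]
  constructor
  · rintro h3 k v hv rfl w hw hwk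
    rw [← hwk]
    exact h3 w hw
  · intro h3 v hv
    exact h3 _ v hv rfl v hv rfl

end Pool.Agent.Lib_helper52.Dimer
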