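import Pool.Agent.Lib_helper52.DimerRegion

open MeasureTheory Filter Topology
open scoped ENNReal ContDiff

namespace Pool.Agent.Lib_helper52.Dimer

/-- the certificate `x₁² - x₂²` -/
def cert (x : R3) : ℝ := x 0 ^ 2 - x 1 ^ 2

lemma contDiff_cert : ContDiff ℝ ∞ cert := by
  unfold cert
  have h : ∀ i : Fin 3, ContDiff ℝ ∞ (fun x : R3 => x i) := fun i => (co i).contDiff
  exact ((h 0).pow 2).sub ((h 1).pow 2)

lemma fderiv_cert (x v : R3) : fderiv ℝ cert x v = 2 * x 0 * v 0 - 2 * x 1 * v 1 := by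
  have h : ∀ i : Fin 3, HasFDerivAt (fun x : R3 => x i) (co i) x := fun i => (co i).hasFDerivAt
  have h2 := ((h 0).pow 2).sub ((h 1).pow 2)
  have h3 : HasFDerivAt cert _ x := h2
  rw [h3.fderiv]
  simp [co_apply]

lemma g0_max (x : R3) : x 0 * g0 x 0 - x 1 * g0 x 1 = max |x 0| |x 1| := by
  rw [g0_coord0, g0_coord1]
  rcases abs_cases (x 0) with ⟨h0, h0'⟩ | ⟨h0, h0'⟩ <;>
  rcases abs_cases (x 1) with ⟨h1, h1'⟩ | ⟨h1, h1'⟩ <;>
  rw [h0, h1] <;>
  rcases max_cases (|x 0|) (|x 1|) with ⟨h2, h2'⟩ | ⟨h2, h2'⟩ <;>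
  rw [h0, h1] at h2 h2' <;> rw [h2] <;> split_ifs <;> simp_all <;> linarith

lemma bilin_le (x s : R3) (hs : ∑ i, |s i| ≤ 1) : x 0 * s 0 - x 1 * s 1 ≤ max |x 0| |x 1| := by
  rw [Fin.sum_univ_three] at hs
  have h0 : x 0 * s 0 ≤ |x 0| * |s 0| := by rw [← abs_mul]; exact le_abs_self _
  have h1 : -(x 1 * s 1) ≤ |x 1| * |s 1| := by rw [← abs_mul]; exact neg_le_abs _
  have h2 : |x 0| * |s 0| ≤ max |x 0| |x 1| * |s 0| := by gcongr; exact le_max_left _ _
  have h3 : |x 1| * |s 1| ≤ max |x 0| |x 1| * |s 1| := by gcongr; exact le_max_right _ _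
  have h4 : 0 ≤ max |x 0| |x 1| := (abs_nonneg _).trans (le_max_left _ _)
  nlinarith [abs_nonneg (s 2)]

lemma eq_g0_of_eq (x s : R3) (hs : ∑ i, |s i| ≤ 1) (h1 : x 0 + x 1 ≠ 0) (h2 : x 0 - x 1 ≠ 0)
    (h : x 0 * s 0 - x 1 * s 1 = max |x 0| |x 1|) : s = g0 x := by
  rw [Fin.sum_univ_three] at hs
  have a0 := abs_nonneg (s 0)
  have a1 := abs_nonneg (s 1)
  have a2 := abs_nonneg (s 2)
  have e0 : x 0 * s 0 ≤ |x 0| * |s 0| := by rw [← abs_mul]; exact le_abs_self _
  have e1 : -(x 1 * s 1) ≤ |x 1| * |s 1| := by rw [← abs_mul]; exact neg_le_abs _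
  have hne : |x 0| ≠ |x 1| := by
    intro hh
    rcases abs_eq_abs.1 hh with h3 | h3
    · exact h2 (by rw [h3]; ring)
    · exact h1 (by rw [h3]; ring)
  rcases lt_or_gt_of_ne hne with hlt | hgt
  · -- |x 0| < |x 1|
    rw [max_eq_right hlt.le] at h
    have hx1 : 0 < |x 1| := (abs_nonneg _).trans_lt hlt
    have k1 : (|x 1| - |x 0|) * |s 0| + |x 1| * |s 2| ≤ 0 := by nlinarith
    have k2 : |s 0| = 0 := by
      have : 0 ≤ |x 1| * |s 2| := by positivity
      have h5 : (|x 1| - |x 0|) * |s 0| ≤ 0 := by linarith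
      have h6 : 0 < |x 1| - |x 0| := by linarith
      nlinarith
    have k3 : |s 2| = 0 := by
      rw [k2] at k1
      nlinarith
    have s0 : s 0 = 0 := abs_eq_zero.1 k2
    have s2 : s 2 = 0 := abs_eq_zero.1 k3
    rw [s0, mul_zero, zero_sub] at h
    have g2 := g0_coord2 x
    rcases lt_or_gt_of_ne (show x 1 ≠ 0 from fun h => by simp [h] at hx1) with hneg | hpos
    · have s1 : s 1 = 1 := by
        rw [abs_of_neg hneg] at h
        have : x 1 * (s 1 - 1) = 0 := by linarith
        rcases mul_eq_zero.1 this with h | h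
        · exact absurd h hneg.ne
        · linarith
      rw [abs_of_neg hneg, abs_lt] at hlt
      have g0' : g0 x 0 = 0 := by
        rw [g0_coord0, if_neg (by rintro ⟨h, _⟩; linarith), if_neg (by rintro ⟨_, h⟩; linarith)]
      have g1' : g0 x 1 = 1 := by
        rw [g0_coord1, if_neg (by rintro ⟨h, _⟩; linarith), if_pos ⟨by linarith, by linarith⟩]
      ext j; fin_cases j
      · exact s0.trans g0'.symm
      · exact s1.trans g1'.symm
      · exact s2.trans g2.symm
    · have s1 : s 1 = -1 := by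
        rw [abs_of_pos hpos] at h
        have : x 1 * (s 1 + 1) = 0 := by linarith
        rcases mul_eq_zero.1 this with h | h
        · exact absurd h hpos.ne'
        · linarith
      rw [abs_of_pos hpos, abs_lt] at hlt
      have g0' : g0 x 0 = 0 := by
        rw [g0_coord0, if_neg (by rintro ⟨_, h⟩; linarith), if_neg (by rintro ⟨h, _⟩; linarith)]
      have g1' : g0 x 1 = -1 := by
        rw [g0_coord1, if_pos ⟨by linarith, by linarith⟩]
      ext j; fin_cases j
      · exact s0.trans g0'.symm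
      · exact s1.trans g1'.symm
      · exact s2.trans g2.symm
  · -- |x 1| < |x 0|
    rw [max_eq_left hgt.le] at h
    have hx0 : 0 < |x 0| := (abs_nonneg _).trans_lt hgt
    have k1 : (|x 0| - |x 1|) * |s 1| + |x 0| * |s 2| ≤ 0 := by nlinarith
    have k2 : |s 1| = 0 := by
      have : 0 ≤ |x 0| * |s 2| := by positivity
      have h5 : (|x 0| - |x 1|) * |s 1| ≤ 0 := by linarith
      have h6 : 0 < |x 0| - |x 1| := by linarith
      nlinarith
    have k3 : |s 2| = 0 := by
      rw [k2] at k1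
      nlinarith
    have s1 : s 1 = 0 := abs_eq_zero.1 k2
    have s2 : s 2 = 0 := abs_eq_zero.1 k3
    rw [s1, mul_zero, sub_zero] at h
    have g2 := g0_coord2 x
    rcases lt_or_gt_of_ne (show x 0 ≠ 0 from fun h => by simp [h] at hx0) with hneg | hpos
    · have s0 : s 0 = -1 := by
        rw [abs_of_neg hneg] at h
        have : x 0 * (s 0 + 1) = 0 := by linarith
        rcases mul_eq_zero.1 this with h | h
        · exact absurd h hneg.ne
        · linarith
      rw [abs_of_neg hneg, abs_lt] at hgt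
      have g0' : g0 x 0 = -1 := by
        rw [g0_coord0, if_neg (by rintro ⟨h, _⟩; linarith), if_pos ⟨by linarith, by linarith⟩]
      have g1' : g0 x 1 = 0 := by
        rw [g0_coord1, if_neg (by rintro ⟨h, _⟩; linarith), if_neg (by rintro ⟨_, h⟩; linarith)]
      ext j; fin_cases j
      · exact s0.trans g0'.symm
      · exact s1.trans g1'.symm
      · exact s2.trans g2.symm
    · have s0 : s 0 = 1 := by
        rw [abs_of_pos hpos] at h
        have : x 0 * (s 0 - 1) = 0 := by linarith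
        rcases mul_eq_zero.1 this with h | h
        · exact absurd h hpos.ne'
        · linarith
      rw [abs_of_pos hpos, abs_lt] at hgt
      have g0' : g0 x 0 = 1 := by
        rw [g0_coord0, if_pos ⟨by linarith, by linarith⟩]
      have g1' : g0 x 1 = 0 := by
        rw [g0_coord1, if_neg (by rintro ⟨_, h⟩; linarith), if_neg (by rintro ⟨h, _⟩; linarith)]
      ext j; fin_cases j
      · exact s0.trans g0'.symm
      · exact s1.trans g1'.symm
      · exact s2.trans g2.symm

lemma isFiniteMeasure_cube : IsFiniteMeasure (volume.restrict cube) := ⟨by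
    rw [Measure.restrict_apply_univ]; exact volume_cubeR_lt_top 1⟩

/-- rigidity: every asymptotic flow with the same trace is equal to `g0` -/
theorem rigid {g : R3 → R3} (h1 : IsAsymptoticFlow cube g) (h2 : HasTrace cube g b0) :
    g =ᵐ[volume.restrict cube] g0 := by
  have := isFiniteMeasure_cube
  have hoct := octahedron_valued h1
  have e1 := h2 cert contDiff_cert
  have e2 := hasTrace_g0 cert contDiff_cert
  rw [← e2] at e1
  simp only [fderiv_cert] at e1
  have hm : ∀ i, AEStronglyMeasurable (fun x => g x i) (volume.restrict cube) := fun i =>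
    (h1.1.eval_piLp i).1
  have hgi : ∀ i, Measurable (fun x => g0 x i) := fun i =>
    (PiLp.continuous_apply 2 _ i).measurable.comp measurable_g0
  have hxi : ∀ i : Fin 3, Measurable (fun x : R3 => x i) := fun i => (continuous_co i).measurable
  have hb1 : Integrable (fun x => 2 * x 0 * g x 0 - 2 * x 1 * g x 1) (volume.restrict cube) := by
    refine Integrable.of_bound (C := 2) ?_ ?_
    · exact (((hxi 0).const_mul 2).aestronglyMeasurable.mul (hm 0)).sub
        (((hxi 1).const_mul 2).aestronglyMeasurable.mul (hm 1))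
    · filter_upwards [hoct, ae_restrict_mem measurableSet_cube] with x hx hc
      rw [Fin.sum_univ_three] at hx
      have c0 := hc 0
      have c1 := hc 1
      have a0 := abs_nonneg (g x 0)
      have a1 := abs_nonneg (g x 1)
      have a2 := abs_nonneg (g x 2)
      calc ‖2 * x 0 * g x 0 - 2 * x 1 * g x 1‖ ≤ ‖2 * x 0 * g x 0‖ + ‖2 * x 1 * g x 1‖ := norm_sub_le _ _
        _ = 2 * |x 0| * |g x 0| + 2 * |x 1| * |g x 1| := by
            simp
        _ ≤ 2 * 1 * |g x 0| + 2 * 1 * |g x 1| := by gcongr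
        _ ≤ 2 := by linarith
  have hb2 : Integrable (fun x => 2 * x 0 * g0 x 0 - 2 * x 1 * g0 x 1) (volume.restrict cube) := by
    refine Integrable.of_bound (C := 4) ?_ ?_
    · exact (((hxi 0).const_mul 2).aestronglyMeasurable.mul (hgi 0).aestronglyMeasurable).sub
        (((hxi 1).const_mul 2).aestronglyMeasurable.mul (hgi 1).aestronglyMeasurable)
    · filter_upwards [ae_restrict_mem measurableSet_cube] with x hc
      have c0 := hc 0
      have c1 := hc 1
      have a0 := abs_g0_le x 0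
      have a1 := abs_g0_le x 1
      calc ‖2 * x 0 * g0 x 0 - 2 * x 1 * g0 x 1‖ ≤ ‖2 * x 0 * g0 x 0‖ + ‖2 * x 1 * g0 x 1‖ :=
            norm_sub_le _ _
        _ = 2 * |x 0| * |g0 x 0| + 2 * |x 1| * |g0 x 1| := by
            simp
        _ ≤ 2 * 1 * 1 + 2 * 1 * 1 := by gcongr
        _ = 4 := by norm_num
  have hnn : 0 ≤ᵐ[volume.restrict cube] fun x =>
      (2 * x 0 * g0 x 0 - 2 * x 1 * g0 x 1) - (2 * x 0 * g x 0 - 2 * x 1 * g x 1) := by
    filter_upwards [hoct] with x hx
    have k1 := g0_max x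
    have k2 := bilin_le x (g x) hx
    simp only [Pi.zero_apply]
    linarith
  have hz : ∫ x in cube, ((2 * x 0 * g0 x 0 - 2 * x 1 * g0 x 1) -
      (2 * x 0 * g x 0 - 2 * x 1 * g x 1)) = 0 := by
    rw [integral_sub hb2 hb1, e1, sub_self]
  rw [integral_eq_zero_iff_of_nonneg_ae hnn (hb2.sub hb1)] at hz
  filter_upwards [hoct, hz, ae_restrict_of_ae ae_generic] with x hx1 hx2 hx3
  refine eq_g0_of_eq x (g x) hx1 hx3.1 hx3.2.1 ?_
  have k1 := g0_max x
  simp only [Pi.zero_apply] at hx2
  linarith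

/-- `g0` is the Ent-maximizing flow for the boundary data `b0` -/
theorem isEntMaximizing_g0 : IsEntMaximizing cube b0 g0 := by
  refine ⟨⟨isAsymptoticFlow_g0, hasTrace_g0⟩, ?_⟩
  intro g' hg'
  have h := rigid hg'.1 hg'.2
  unfold Ent
  have : ∫ x in cube, ent (g' x) = ∫ x in cube, ent (g0 x) := by
    refine integral_congr_ae ?_
    filter_upwards [h] with x hx
    rw [hx]
  rw [this]

/-- the open sector of the cube where `c x₁ > |x₂|` -/
def sector (c : ℝ) : Set R3 := interior cube ∩ {x | |x 1| < c * x 0}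

lemma isOpen_sector (c : ℝ) : IsOpen (sector c) :=
  isOpen_interior.inter (isOpen_lt (continuous_abs.comp (continuous_co 1))
    (continuous_const.mul (continuous_co 0)))

lemma volume_sector_pos {c : ℝ} (hc : c = 1 ∨ c = -1) : 0 < volume (sector c) := by
  refine (isOpen_sector c).measure_pos volume ⟨EuclideanSpace.single 0 (c / 2), ?_, ?_⟩
  · rw [interior_cube]
    intro i
    fin_cases i <;> rcases hc with rfl | rfl <;> norm_num [abs_div]
  · simp only [Set.mem_ofPred_eq]
    rcases hc with rfl | rfl <;> norm_num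

lemma g0_sector {c : ℝ} (hc : c = 1 ∨ c = -1) {x : R3} (hx : x ∈ sector c) :
    g0 x 0 = c ∧ g0 x 1 = 0 ∧ g0 x 2 = 0 := by
  have h := hx.2
  simp only [Set.mem_ofPred_eq] at h
  have h1 := neg_abs_le (x 1)
  have h2 := le_abs_self (x 1)
  refine ⟨?_, ?_, g0_coord2 x⟩
  · rcases hc with rfl | rfl
    · rw [g0_coord0, if_pos ⟨by linarith, by linarith⟩]
    · rw [g0_coord0, if_neg (by rintro ⟨h, _⟩; linarith), if_pos ⟨by linarith, by linarith⟩]
  · rcases hc with rfl | rfl
    · rw [g0_coord1, if_neg (by rintro ⟨_, h⟩; linarith), if_neg (by rintro ⟨h, _⟩; linarith)]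
    · rw [g0_coord1, if_neg (by rintro ⟨h, _⟩; linarith), if_neg (by rintro ⟨_, h⟩; linarith)]

lemma mem_face_iff {c : ℝ} (hc : c = 1 ∨ c = -1) {x : R3} (hx : x ∈ sector c) (σ : Fin 3 → ℤˣ) :
    g0 x ∈ face σ ↔ ((σ 0 : ℤ) : ℝ) * c = 1 := by
  obtain ⟨h0, h1, h2⟩ := g0_sector hc hx
  simp only [face, Set.mem_ofPred_eq, Fin.sum_univ_three, h0, h1, h2, abs_zero, mul_zero, add_zero,
    and_iff_right_iff_imp]
  intro _
  rcases hc with rfl | rfl <;> simp

theorem faces_nontrivial (σ : Fin 3 → ℤˣ) : 0 < volume (faceValued cube g0 (face σ)) ∧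
    0 < volume (cube \ faceValued cube g0 (face σ)) := by
  obtain ⟨c, hc, hcσ⟩ : ∃ c : ℝ, (c = 1 ∨ c = -1) ∧ ((σ 0 : ℤ) : ℝ) = c := by
    rcases Int.units_eq_one_or (σ 0) with h | h
    · exact ⟨1, Or.inl rfl, by simp [h]⟩
    · exact ⟨-1, Or.inr rfl, by simp [h]⟩
  have hc' : -c = 1 ∨ -c = -1 := by
    rcases hc with rfl | rfl <;> simp
  constructor
  · refine (volume_sector_pos hc).trans_le (measure_mono fun x hx => ?_)
    refine ⟨interior_subset hx.1, ?_⟩
    rw [mem_face_iff hc hx, hcσ]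
    rcases hc with rfl | rfl <;> norm_num
  · refine (volume_sector_pos hc').trans_le (measure_mono fun x hx => ?_)
    refine ⟨interior_subset hx.1, fun h => ?_⟩
    have h2 := h.2
    rw [mem_face_iff hc' hx, hcσ] at h2
    rcases hc with rfl | rfl <;> norm_num at h2

end Pool.Agent.Lib_helper52.Dimer
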