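import Pool.Agent.Lib_helper52.DimerNewTiling
import Pool.Agent.Lib_helper52.DimerHL

/-!
# The new field is an asymptotic flow
-/

open MeasureTheory Filter Topology
open scoped ENNReal

namespace Pool.Agent.Lib_helper52.Dimer

/-- The example: `(1/3, 1/3, 1/3)` on the corner `x₁ + x₂ + x₃ ≥ 5/2`, frozen elsewhere. -/
noncomputable def gT (x : R3) : R3 := if 5 / 2 ≤ ux x then sF else h0 x

lemma sF_apply (i : Fin 3) : sF i = 1 / 3 := rfl

lemma measurable_coord (i : Fin 3) : Measurable fun x : R3 => x i :=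
  (PiLp.continuous_apply 2 _ i).measurable

lemma continuous_ux : Continuous ux :=
  ((PiLp.continuous_apply 2 _ 0).add (PiLp.continuous_apply 2 _ 1)).add (PiLp.continuous_apply 2 _ 2)

lemma measurableSet_up : MeasurableSet {x : R3 | 5 / 2 ≤ ux x} :=
  measurableSet_le measurable_const continuous_ux.measurable

lemma measurable_h0 : Measurable h0 := by
  unfold h0
  refine Measurable.ite ?_ measurable_const measurable_const
  exact measurableSet_le (measurable_coord 1) ((measurable_coord 0).add_const 1)

lemma measurable_gT : Measurable gT := by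
  unfold gT
  exact Measurable.ite measurableSet_up measurable_const measurable_h0

lemma abs_h0_le (x : R3) (i : Fin 3) : |h0 x i| ≤ 1 := by
  unfold h0
  split_ifs <;> fin_cases i <;> simp

lemma norm_h0 (x : R3) : ‖h0 x‖ = 1 := by
  unfold h0
  split_ifs <;> simp

lemma norm_gT_le (x : R3) : ‖gT x‖ ≤ 1 := by
  unfold gT
  split_ifs
  · rw [EuclideanSpace.norm_eq]
    apply Real.sqrt_le_one.2
    simp only [sF_apply, Fin.sum_univ_three]
    norm_num
  · exact (norm_h0 x).le

lemma abs_gT_le (x : R3) (i : Fin 3) : |gT x i| ≤ 1 := by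
  have := PiLp.norm_apply_le (gT x) i
  rw [Real.norm_eq_abs] at this
  exact this.trans (norm_gT_le x)

lemma zdir_apply_cases (k : ℤ) (i : Fin 3) : zdir k i = 0 ∨ zdir k i = 1 := by
  rcases zdir_cases k with h | h | h <;> rw [h] <;> fin_cases i <;> simp

lemma zdir_sum (k : ℤ) (i : Fin 3) : zdir k i + zdir (k + 1) i + zdir (k + 2) i = 1 := by
  have h : k % 3 = 0 ∨ k % 3 = 1 ∨ k % 3 = 2 := by omega
  unfold zdir
  rcases h with h | h | h
  · rw [if_pos h, if_neg (show ¬ (k + 1) % 3 = 0 by omega), if_pos (show (k + 1) % 3 = 1 by omega),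
      if_neg (show ¬ (k + 2) % 3 = 0 by omega), if_neg (show ¬ (k + 2) % 3 = 1 by omega)]
    fin_cases i <;> simp
  · rw [if_neg (show ¬ k % 3 = 0 by omega), if_pos h, if_neg (show ¬ (k + 1) % 3 = 0 by omega),
      if_neg (show ¬ (k + 1) % 3 = 1 by omega), if_pos (show (k + 2) % 3 = 0 by omega)]
    fin_cases i <;> simp
  · rw [if_neg (show ¬ k % 3 = 0 by omega), if_neg (show ¬ k % 3 = 1 by omega),
      if_pos (show (k + 1) % 3 = 0 by omega), if_neg (show ¬ (k + 2) % 3 = 0 by omega),
      if_pos (show (k + 2) % 3 = 1 by omega)]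
    fin_cases i <;> simp

lemma osc_cases (n : ℕ) (i : Fin 3) (x : R3) : osc n i x = 0 ∨ osc n i x = 1 := by
  unfold osc
  rcases zdir_apply_cases (lay (ev (fl n x))) i with h | h <;> rw [h] <;> simp

lemma abs_osc_le (n : ℕ) (i : Fin 3) (x : R3) : |osc n i x| ≤ 1 := by
  rcases osc_cases n i x with h | h <;> rw [h] <;> simp

lemma measurable_fl (n : ℕ) : Measurable (fl n) := by
  refine measurable_pi_iff.2 fun i => ?_
  exact Int.measurable_floor.comp ((measurable_coord i).const_mul (n : ℝ))

lemma measurable_osc (n : ℕ) (i : Fin 3) : Measurable (osc n i) := by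
  have : osc n i = (fun v : Z3 => ((zdir (lay (ev v)) i : ℤ) : ℝ)) ∘ fl n := rfl
  rw [this]
  exact (measurable_of_countable _).comp (measurable_fl n)

lemma measurable_apx (n : ℕ) (i : Fin 3) : Measurable (apx n i) := by
  unfold apx
  refine Measurable.ite measurableSet_up (measurable_osc n i) ?_
  exact (measurable_coord i).comp measurable_h0

lemma abs_apx_le (n : ℕ) (i : Fin 3) (x : R3) : |apx n i x| ≤ 1 := by
  unfold apx
  split_ifs
  · exact abs_osc_le n i x
  · exact abs_h0_le x i

lemma ae_ux (c : ℝ) : ∀ᵐ x : R3, ux x ≠ c := by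
  have : (co 0 + co 1 + co 2) ≠ 0 := by
    intro h
    have := DFunLike.congr_fun h (EuclideanSpace.single 0 1)
    simp [co_apply] at this
  have h := volume_hyperplane _ this c
  rw [ae_iff]
  convert h using 2
  ext x
  simp [co_apply, ux]

lemma ae_int : ∀ᵐ x : R3, x 1 ≠ x 0 + 1 := by
  have : (co 1 - co 0) ≠ 0 := by
    intro h
    have := DFunLike.congr_fun h (EuclideanSpace.single 0 1)
    simp [co_apply] at this
  have h := volume_hyperplane _ this 1
  rw [ae_iff]
  convert h using 2
  ext x
  simp only [Set.mem_ofPred_eq, not_not]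
  have e : (co 1 - co 0) x = x 1 - x 0 := rfl
  rw [e, sub_eq_iff_eq_add, add_comm]

lemma dirfun_ntil {x : R3} (h1 : ux x ≠ 5 / 2) (h2 : x 1 ≠ x 0 + 1) (h3 : ∀ i, |x i| ≠ 1)
    (i : Fin 3) :
    ∀ᶠ n in atTop, dirfun n (ntil n) (npar n) i x = cube.indicator (apx n i) x := by
  by_cases hx : x ∈ cube
  · have hlt : ∀ i, 0 < 1 - |x i| := fun i => sub_pos.2 (lt_of_le_of_ne (hx i) (h3 i))
    have h4 : ∀ᶠ n : ℕ in atTop, ∀ i, (2 : ℝ) < n * (1 - |x i|) :=
      eventually_all.2 fun i => eventually_large (hlt i) 2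
    filter_upwards [nst_eventually h1 h2, h4] with n hn1 hn2
    rw [Set.indicator_of_mem hx]
    have hmem : ev (fl n x) ∈ (ntil n).image Prod.fst := by
      rw [mem_image_ntil]
      refine ⟨isEven_ev _, Or.inl ?_⟩
      rw [mem_bx]
      intro j
      have h5 := fl_near n x j
      have h6 := hn2 j
      have h7 : |(ev (fl n x) j : ℝ)| ≤ n := by
        rw [abs_le]
        have h8 := neg_abs_le (x j)
        have h9 := le_abs_self (x j)
        have h10 : (0:ℝ) ≤ n := Nat.cast_nonneg n
        constructor <;> nlinarith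
      exact_mod_cast h7
    simp only [dirfun, hmem, if_true, npar]
    rw [← hn1 i]
    simp
  · have : ∃ j, 1 < |x j| := by
      by_contra hcon
      push Not at hcon
      exact hx hcon
    obtain ⟨j, hj⟩ := this
    have h4 : ∀ᶠ n : ℕ in atTop, (5 : ℝ) < n * (|x j| - 1) := eventually_large (sub_pos.2 hj) 5
    filter_upwards [h4, eventually_ge_atTop 1] with n hn hn1
    rw [Set.indicator_of_notMem hx]
    have hmem : ev (fl n x) ∉ (ntil n).image Prod.fst := by
      intro hcon
      have h5 := dirfun_support hn1 (isTiling_ntil hn1) hcon j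
      have hn' : (0 : ℝ) < n := by exact_mod_cast hn1
      have h6 : n * |x j| ≤ n + 5 := by
        calc n * |x j| ≤ n * (1 + 5 / n) := by gcongr
          _ = n + 5 := by field_simp
      nlinarith
    simp only [dirfun, hmem, if_false]

/-- `L¹` distance of the direction function and the approximating field -/
noncomputable def DD (n : ℕ) (i : Fin 3) : ℝ :=
  ∫ x, |dirfun n (ntil n) (npar n) i x - cube.indicator (apx n i) x|

lemma integrable_apx (n : ℕ) (i : Fin 3) : Integrable (cube.indicator (apx n i)) := by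
  have hfin : IsFiniteMeasure (volume.restrict cube) := ⟨by
    rw [Measure.restrict_apply_univ]; exact volume_cubeR_lt_top 1⟩
  rw [integrable_indicator_iff measurableSet_cube]
  exact Integrable.of_bound (C := 1) (measurable_apx n i).aestronglyMeasurable
    (Eventually.of_forall fun x => abs_apx_le n i x)

lemma DD_tendsto (i : Fin 3) : Tendsto (fun n => DD n i) atTop (𝓝 0) := by
  have : (0 : ℝ) = ∫ x : R3, (0 : ℝ) := by simp
  rw [this]
  unfold DD
  refine tendsto_integral_filter_of_dominated_convergence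
    ((cubeR 6).indicator (fun _ => (2:ℝ))) ?_ ?_ ?_ ?_
  · filter_upwards [eventually_ge_atTop 1] with n hn
    exact ((integrable_dirfun hn (isTiling_ntil hn) (npar n) i).sub (integrable_apx n i)).abs.1
  · filter_upwards [eventually_ge_atTop 1] with n hn
    refine Eventually.of_forall fun x => ?_
    have hn' : (1 : ℝ) ≤ n := by exact_mod_cast hn
    rw [Real.norm_eq_abs, abs_abs]
    by_cases hx : x ∈ cubeR 6
    · rw [Set.indicator_of_mem hx]
      have a1 := abs_dirfun_le (isTiling_ntil hn) (npar_spec n) i x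
      have a2 : |cube.indicator (apx n i) x| ≤ 1 := by
        by_cases hxc : x ∈ cube
        · rw [Set.indicator_of_mem hxc]; exact abs_apx_le n i x
        · rw [Set.indicator_of_notMem hxc]; simp
      calc _ ≤ |dirfun n (ntil n) (npar n) i x| + |cube.indicator (apx n i) x| :=
            norm_sub_le (dirfun n (ntil n) (npar n) i x) (cube.indicator (apx n i) x)
        _ ≤ 2 := by linarith
    · rw [Set.indicator_of_notMem hx]
      have b1 : ev (fl n x) ∉ (ntil n).image Prod.fst := by
        intro hcon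
        apply hx
        have := dirfun_support hn (isTiling_ntil hn) hcon
        intro j
        refine (this j).trans ?_
        have : (5:ℝ) / n ≤ 5 := div_le_self (by norm_num) hn'
        linarith
      have b2 : x ∉ cube := fun hcon => hx fun j => (hcon j).trans (by norm_num)
      rw [Set.indicator_of_notMem b2]
      simp [dirfun, b1]
  · exact (integrable_indicator_iff (isClosed_cubeR _).measurableSet).2
      (integrableOn_const (volume_cubeR_lt_top 6).ne)
  · filter_upwards [ae_generic, ae_ux (5 / 2), ae_int] with x hx hx2 hx3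
    refine tendsto_const_nhds.congr' ?_
    filter_upwards [dirfun_ntil hx2 hx3 hx.2.2 i] with n hn
    rw [hn]
    simp

/-! ### Averaging over three consecutive layers -/

/-- the corner -/
def TT : Set R3 := cube ∩ {x | 5 / 2 ≤ ux x}

lemma isClosed_TT : IsClosed TT := isClosed_cube.inter (isClosed_le continuous_const continuous_ux)

lemma measurableSet_TT : MeasurableSet TT := isClosed_TT.measurableSet

/-- the translation vector -/
noncomputable def tv (n : ℕ) (j : ℤ) : R3 := pt n (fun i => if i = 2 then 0 else j)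

lemma tv_apply (n : ℕ) (j : ℤ) (i : Fin 3) : tv n j i = (((if i = 2 then 0 else j : ℤ)) : ℝ) / n := rfl

lemma norm_tv_le (n : ℕ) (j : ℤ) : ‖tv n j‖ ≤ 2 * |(j : ℝ)| / n := by
  have h := dist_le_of_coord (tv n j) 0 (|(j : ℝ)| / n) (by positivity) (fun i => by
    rw [tv_apply]
    simp only [PiLp.zero_apply, sub_zero]
    rw [abs_div, Nat.abs_cast]
    refine div_le_div_of_nonneg_right ?_ (Nat.cast_nonneg n)
    split_ifs <;> simp)
  rw [dist_zero_right] at h
  calc _ ≤ _ := h
    _ = _ := by ring

lemma fl_add_tv {n : ℕ} (hn : 1 ≤ n) (j : ℤ) (x : R3) :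
    fl n (x + tv n j) = fl n x + fun i => if i = 2 then 0 else j := by
  have hn' : (n : ℝ) ≠ 0 := by positivity
  funext i
  simp only [fl, PiLp.add_apply, Pi.add_apply, tv_apply]
  rw [mul_add, mul_div_cancel₀ _ hn', Int.floor_add_intCast]

lemma lay_ev_add (v : Z3) (j : ℤ) : lay (ev (v + fun i => if i = 2 then 0 else j)) = lay (ev v) + j := by
  have h1 : lev (v + fun i => if i = 2 then 0 else j) = lev v + 2 * j := by
    rw [lev_add]
    simp [lev]; ring
  unfold ev
  have h2 : IsEven (v + fun i => if i = 2 then 0 else j) ↔ IsEven v := by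
    rw [isEven_lev, isEven_lev, h1]; omega
  by_cases hv : IsEven v
  · rw [if_pos hv, if_pos (h2.2 hv)]
    unfold lay
    rw [h1]; omega
  · rw [if_neg hv, if_neg (fun h => hv (h2.1 h))]
    unfold lay
    rw [lev_sub, lev_sub, h1]; omega

lemma osc_add_tv {n : ℕ} (hn : 1 ≤ n) (i : Fin 3) (j : ℤ) (x : R3) :
    osc n i (x + tv n j) = ((zdir (lay (ev (fl n x)) + j) i : ℤ) : ℝ) := by
  unfold osc
  rw [fl_add_tv hn, lay_ev_add]

lemma osc_sum {n : ℕ} (hn : 1 ≤ n) (i : Fin 3) (x : R3) :
    osc n i (x + tv n 0) + osc n i (x + tv n 1) + osc n i (x + tv n 2) = 1 := by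
  rw [osc_add_tv hn, osc_add_tv hn, osc_add_tv hn, add_zero]
  exact_mod_cast zdir_sum _ i

/-- modulus of continuity of the indicator of the corner -/
noncomputable def dl (n : ℕ) (j : ℤ) : ℝ :=
  ∫ x, |TT.indicator (fun _ => (1:ℝ)) (x + tv n j) - TT.indicator (fun _ => (1:ℝ)) x|

lemma tv_tendsto (j : ℤ) : Tendsto (fun n => tv n j) atTop (𝓝 0) := by
  rw [tendsto_zero_iff_norm_tendsto_zero]
  refine squeeze_zero (fun n => norm_nonneg _) (fun n => norm_tv_le n j) ?_
  exact tendsto_const_div_atTop_nhds_zero_nat _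

lemma volume_TT_lt_top : volume TT < ⊤ :=
  (measure_mono Set.inter_subset_left).trans_lt (volume_cubeR_lt_top 1)

lemma integrable_TT : Integrable (TT.indicator (fun _ => (1:ℝ))) :=
  (integrable_indicator_iff measurableSet_TT).2 (integrableOn_const volume_TT_lt_top.ne)

lemma mem_frontier_TT {x : R3} (h1 : ∀ i, |x i| ≠ 1) (h2 : ux x ≠ 5 / 2) : x ∉ frontier TT := by
  intro hx
  rw [isClosed_TT.frontier_eq] at hx
  apply hx.2
  rw [mem_interior_iff_mem_nhds]
  obtain ⟨⟨hc, hu⟩, _⟩ := hx
  have a1 : ∀ i, |x i| < 1 := fun i => lt_of_le_of_ne (hc i) (h1 i)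
  have a2 : 5 / 2 < ux x := lt_of_le_of_ne hu (Ne.symm h2)
  have b1 : ∀ᶠ y in 𝓝 x, ∀ i, |y i| < 1 := by
    refine eventually_all.2 fun i => ?_
    exact (continuous_abs.comp (PiLp.continuous_apply 2 _ i)).tendsto x |>.eventually_lt_const (a1 i)
  have b2 : ∀ᶠ y in 𝓝 x, 5 / 2 < ux y := (continuous_ux.tendsto x).eventually_const_lt a2
  filter_upwards [b1, b2] with y hy1 hy2
  exact ⟨fun i => (hy1 i).le, hy2.le⟩

lemma dl_tendsto (j : ℤ) : Tendsto (fun n => dl n j) atTop (𝓝 0) := by
  have : (0 : ℝ) = ∫ x : R3, (0 : ℝ) := by simp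
  rw [this]
  unfold dl
  refine tendsto_integral_filter_of_dominated_convergence
    ((cubeR (1 + 2 * |(j:ℝ)|)).indicator (fun _ => (1:ℝ))) ?_ ?_ ?_ ?_
  · refine Eventually.of_forall fun n => ?_
    exact ((integrable_TT.comp_add_right (tv n j)).sub integrable_TT).abs.1
  · filter_upwards [eventually_ge_atTop 1] with n hn
    refine Eventually.of_forall fun x => ?_
    have hn' : (1 : ℝ) ≤ n := by exact_mod_cast hn
    rw [Real.norm_eq_abs, abs_abs]
    by_cases hx : x ∈ cubeR (1 + 2 * |(j:ℝ)|)
    · rw [Set.indicator_of_mem hx]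
      by_cases h1 : x + tv n j ∈ TT <;> by_cases h2 : x ∈ TT <;> simp [h1, h2]
    · rw [Set.indicator_of_notMem hx]
      have b1 : x + tv n j ∉ TT := by
        intro hcon
        apply hx
        intro i
        have h3 := hcon.1 i
        have h4 : |tv n j i| ≤ 2 * |(j:ℝ)| := by
          have h5 := PiLp.norm_apply_le (tv n j) i
          rw [Real.norm_eq_abs] at h5
          refine h5.trans ((norm_tv_le n j).trans ?_)
          exact div_le_self (by positivity) hn'
        calc |x i| = |(x + tv n j) i - tv n j i| := by simp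
          _ ≤ |(x + tv n j) i| + |tv n j i| := abs_sub _ _
          _ ≤ _ := add_le_add h3 h4
      have b2 : x ∉ TT := fun hcon => hx fun i => (hcon.1 i).trans (by
        have := abs_nonneg (j:ℝ)
        linarith)
      rw [Set.indicator_of_notMem b1, Set.indicator_of_notMem b2]
      simp
  · exact (integrable_indicator_iff (isClosed_cubeR _).measurableSet).2
      (integrableOn_const (volume_cubeR_lt_top _).ne)
  · filter_upwards [ae_generic, ae_ux (5 / 2)] with x hx hx2
    have h1 : ContinuousAt (TT.indicator (fun _ => (1:ℝ))) x :=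
      continuousOn_const.continuousAt_indicator (mem_frontier_TT hx.2.2 hx2)
    have h2 : Tendsto (fun n => x + tv n j) atTop (𝓝 x) := by
      have := (tendsto_const_nhds (x := x)).add (tv_tendsto j)
      simpa using this
    have h3 := (h1.tendsto.comp h2).sub_const (TT.indicator (fun _ => (1:ℝ)) x)
    simpa using h3.abs

end Pool.Agent.Lib_helper52.Dimer
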