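import Pool.Agent.Lib_helper52.DimerNewAF

/-!
# The new field is an asymptotic flow, continued
-/

open MeasureTheory Filter Topology
open scoped ENNReal

namespace Pool.Agent.Lib_helper52.Dimer

/-- the localized test function -/
noncomputable def FF (χ : R3 → ℝ) (x : R3) : ℝ := TT.indicator (fun _ => (1:ℝ)) x * χ x

lemma BL_aesm {χ : R3 → ℝ} (hχ : χ ∈ BL) : AEStronglyMeasurable χ volume :=
  hχ.2.continuous.measurable.aestronglyMeasurable

lemma integrable_FF {χ : R3 → ℝ} (hχ : χ ∈ BL) : Integrable (FF χ) :=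
  integrable_TT.mul_bdd (c := 1) (BL_aesm hχ) (Eventually.of_forall fun x => hχ.1 x)

lemma integrable_FF_shift {χ : R3 → ℝ} (hχ : χ ∈ BL) (t : R3) : Integrable (fun x => FF χ (x + t)) :=
  (integrable_FF hχ).comp_add_right t

lemma integrable_osc_mul {n : ℕ} (i : Fin 3) (t : R3) {f : R3 → ℝ} (hf : Integrable f) :
    Integrable (fun x => osc n i (x + t) * f x) := by
  refine hf.bdd_mul (c := 1) ?_ (Eventually.of_forall fun x => abs_osc_le n i _)
  exact ((measurable_osc n i).comp (measurable_id.add_const t)).aestronglyMeasurable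

lemma FF_diff {χ : R3 → ℝ} (hχ : χ ∈ BL) (t x : R3) : |FF χ (x + t) - FF χ x| ≤
    |TT.indicator (fun _ => (1:ℝ)) (x + t) - TT.indicator (fun _ => (1:ℝ)) x| +
      TT.indicator (fun _ => (1:ℝ)) x * ‖t‖ := by
  unfold FF
  set a := TT.indicator (fun _ => (1:ℝ)) (x + t)
  set b := TT.indicator (fun _ => (1:ℝ)) x with hb
  have hb0 : 0 ≤ b := Set.indicator_nonneg (fun _ _ => zero_le_one) _
  have h1 : a * χ (x + t) - b * χ x = (a - b) * χ (x + t) + b * (χ (x + t) - χ x) := by ring
  have h2 : |χ (x + t) - χ x| ≤ ‖t‖ := by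
    have := hχ.2.dist_le_mul (x + t) x
    rw [Real.dist_eq, NNReal.coe_one, one_mul, dist_eq_norm, add_sub_cancel_left] at this
    exact this
  rw [h1]
  refine (abs_add_le _ _).trans ?_
  rw [abs_mul, abs_mul, abs_of_nonneg hb0]
  have h3 : |a - b| * |χ (x + t)| ≤ |a - b| * 1 := by
    gcongr
    exact hχ.1 _
  have h4 : b * |χ (x + t) - χ x| ≤ b * ‖t‖ := by gcongr
  linarith

/-- error term -/
noncomputable def er (n : ℕ) (j : ℤ) : ℝ := dl n j + volume.real TT * ‖tv n j‖

lemma er_nonneg (n : ℕ) (j : ℤ) : 0 ≤ er n j := by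
  unfold er dl
  have : 0 ≤ ∫ x, |TT.indicator (fun _ => (1:ℝ)) (x + tv n j) - TT.indicator (fun _ => (1:ℝ)) x| :=
    integral_nonneg fun x => abs_nonneg _
  positivity

lemma er_tendsto (j : ℤ) : Tendsto (fun n => er n j) atTop (𝓝 0) := by
  have h1 := (tv_tendsto j).norm
  rw [norm_zero] at h1
  have h2 := (dl_tendsto j).add (h1.const_mul (volume.real TT))
  rw [mul_zero, add_zero] at h2
  exact h2

lemma shift_bound {n : ℕ} (i : Fin 3) (j : ℤ) {χ : R3 → ℝ} (hχ : χ ∈ BL) :
    |(∫ x, osc n i x * FF χ x) - ∫ x, osc n i (x + tv n j) * FF χ x| ≤ er n j := by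
  have h1 : ∫ x, osc n i x * FF χ x = ∫ x, osc n i (x + tv n j) * FF χ (x + tv n j) :=
    (integral_add_right_eq_self (fun x => osc n i x * FF χ x) (tv n j)).symm
  rw [h1, ← integral_sub (integrable_osc_mul i _ (integrable_FF_shift hχ _))
    (integrable_osc_mul i _ (integrable_FF hχ))]
  have hI1 : Integrable (fun x => |TT.indicator (fun _ => (1:ℝ)) (x + tv n j) -
      TT.indicator (fun _ => (1:ℝ)) x|) :=
    ((integrable_TT.comp_add_right (tv n j)).sub integrable_TT).abs
  have hI2 : Integrable (fun x => TT.indicator (fun _ => (1:ℝ)) x * ‖tv n j‖) :=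
    integrable_TT.mul_const _
  refine abs_integral_le_integral_abs.trans ?_
  have h2 : er n j = ∫ x, (|TT.indicator (fun _ => (1:ℝ)) (x + tv n j) -
      TT.indicator (fun _ => (1:ℝ)) x| + TT.indicator (fun _ => (1:ℝ)) x * ‖tv n j‖) := by
    rw [integral_add hI1 hI2, integral_mul_const, integral_indicator_const _ measurableSet_TT]
    simp [er, dl]
  rw [h2]
  refine integral_mono ?_ (hI1.add hI2) ?_
  · exact ((integrable_osc_mul i _ (integrable_FF_shift hχ _)).sub
      (integrable_osc_mul i _ (integrable_FF hχ))).abs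
  · intro x
    simp only
    rw [← mul_sub, abs_mul]
    calc |osc n i (x + tv n j)| * |FF χ (x + tv n j) - FF χ x|
        ≤ 1 * |FF χ (x + tv n j) - FF χ x| := by
          gcongr
          exact abs_osc_le n i _
      _ = |FF χ (x + tv n j) - FF χ x| := one_mul _
      _ ≤ _ := FF_diff hχ _ _

lemma avg_bound {n : ℕ} (hn : 1 ≤ n) (i : Fin 3) {χ : R3 → ℝ} (hχ : χ ∈ BL) :
    |(∫ x, osc n i x * FF χ x) - ∫ x, (1 / 3) * FF χ x| ≤ er n 0 + er n 1 + er n 2 := by
  have h0 := shift_bound (n := n) i 0 hχ
  have h1 := shift_bound (n := n) i 1 hχ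
  have h2 := shift_bound (n := n) i 2 hχ
  have e : ∫ x, FF χ x = (∫ x, osc n i (x + tv n 0) * FF χ x) +
      (∫ x, osc n i (x + tv n 1) * FF χ x) + ∫ x, osc n i (x + tv n 2) * FF χ x := by
    have i0 : Integrable (fun x => osc n i (x + tv n 0) * FF χ x) :=
      integrable_osc_mul i _ (integrable_FF hχ)
    have i1 : Integrable (fun x => osc n i (x + tv n 1) * FF χ x) :=
      integrable_osc_mul i _ (integrable_FF hχ)
    have i2 : Integrable (fun x => osc n i (x + tv n 2) * FF χ x) :=
      integrable_osc_mul i _ (integrable_FF hχ)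
    have i01 : Integrable (fun x => osc n i (x + tv n 0) * FF χ x +
      osc n i (x + tv n 1) * FF χ x) := i0.add i1
    rw [← integral_add i0 i1, ← integral_add i01 i2]
    refine integral_congr_ae (Eventually.of_forall fun x => ?_)
    simp only
    rw [← add_mul, ← add_mul, osc_sum hn, one_mul]
  rw [integral_const_mul, e]
  rw [abs_le] at *
  constructor <;> nlinarith [er_nonneg n 0, er_nonneg n 1, er_nonneg n 2]

lemma integrable_gT_ind (i : Fin 3) : Integrable (cube.indicator (fun x => gT x i)) := by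
  have hfin : IsFiniteMeasure (volume.restrict cube) := ⟨by
    rw [Measure.restrict_apply_univ]; exact volume_cubeR_lt_top 1⟩
  rw [integrable_indicator_iff measurableSet_cube]
  exact Integrable.of_bound (C := 1) ((measurable_coord i).comp measurable_gT).aestronglyMeasurable
    (Eventually.of_forall fun x => abs_gT_le x i)

lemma apx_sub (n : ℕ) (i : Fin 3) (χ : R3 → ℝ) (x : R3) :
    cube.indicator (apx n i) x * χ x - cube.indicator (fun x => gT x i) x * χ x =
      osc n i x * FF χ x - (1 / 3) * FF χ x := by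
  unfold FF TT
  by_cases hx : x ∈ cube
  · by_cases hu : 5 / 2 ≤ ux x
    · have hT : x ∈ cube ∩ {x | 5 / 2 ≤ ux x} := ⟨hx, hu⟩
      rw [Set.indicator_of_mem hx, Set.indicator_of_mem hx, Set.indicator_of_mem hT]
      unfold apx gT
      rw [if_pos hu, if_pos hu, sF_apply]
      ring
    · have hT : x ∉ cube ∩ {x | 5 / 2 ≤ ux x} := fun h => hu h.2
      rw [Set.indicator_of_mem hx, Set.indicator_of_mem hx, Set.indicator_of_notMem hT]
      unfold apx gT
      rw [if_neg hu, if_neg hu]
      ring
  · have hT : x ∉ cube ∩ {x | 5 / 2 ≤ ux x} := fun h => hx h.1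
    rw [Set.indicator_of_notMem hx, Set.indicator_of_notMem hx, Set.indicator_of_notMem hT]
    ring

lemma dirfun_bound {n : ℕ} (hn : 1 ≤ n) (i : Fin 3) {χ : R3 → ℝ} (hχ : χ ∈ BL) :
    |(∫ x, dirfun n (ntil n) (npar n) i x * χ x) - ∫ x in cube, gT x i * χ x| ≤
      DD n i + (er n 0 + er n 1 + er n 2) := by
  have hd := integrable_dirfun hn (isTiling_ntil hn) (npar n) i
  have hint1 : Integrable (fun x => dirfun n (ntil n) (npar n) i x * χ x) :=
    hd.mul_bdd (c := 1) (BL_aesm hχ) (Eventually.of_forall fun x => hχ.1 x)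
  have hint2 : Integrable (fun x => cube.indicator (apx n i) x * χ x) :=
    (integrable_apx n i).mul_bdd (c := 1) (BL_aesm hχ) (Eventually.of_forall fun x => hχ.1 x)
  have hint3 : Integrable (fun x => cube.indicator (fun x => gT x i) x * χ x) :=
    (integrable_gT_ind i).mul_bdd (c := 1) (BL_aesm hχ) (Eventually.of_forall fun x => hχ.1 x)
  have h3 : ∫ x in cube, gT x i * χ x = ∫ x, cube.indicator (fun x => gT x i) x * χ x := by
    rw [← integral_indicator measurableSet_cube]
    congr 1
    ext x
    by_cases hx : x ∈ cube <;> simp [hx]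
  have hA : |(∫ x, dirfun n (ntil n) (npar n) i x * χ x) -
      ∫ x, cube.indicator (apx n i) x * χ x| ≤ DD n i := by
    rw [← integral_sub hint1 hint2]
    refine abs_integral_le_integral_abs.trans ?_
    refine integral_mono (hint1.sub hint2).abs (hd.sub (integrable_apx n i)).abs ?_
    intro x
    simp only
    rw [← sub_mul, abs_mul]
    calc _ ≤ |dirfun n (ntil n) (npar n) i x - cube.indicator (apx n i) x| * 1 := by
          gcongr
          exact hχ.1 x
      _ = _ := mul_one _
  have hB : |(∫ x, cube.indicator (apx n i) x * χ x) -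
      ∫ x, cube.indicator (fun x => gT x i) x * χ x| ≤ er n 0 + er n 1 + er n 2 := by
    have e1 : (∫ x, cube.indicator (apx n i) x * χ x) -
        ∫ x, cube.indicator (fun x => gT x i) x * χ x =
        (∫ x, osc n i x * FF χ x) - ∫ x, (1 / 3) * FF χ x := by
      have hi1 : Integrable (fun x => osc n i x * FF χ x) := by
        have := integrable_osc_mul (n := n) i 0 (integrable_FF hχ)
        simpa using this
      rw [← integral_sub hint2 hint3, ← integral_sub hi1 ((integrable_FF hχ).const_mul _)]
      exact integral_congr_ae (Eventually.of_forall fun x => apx_sub n i χ x)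
    rw [e1]
    exact avg_bound hn i hχ
  rw [h3]
  calc _ = |((∫ x, dirfun n (ntil n) (npar n) i x * χ x) - ∫ x, cube.indicator (apx n i) x * χ x) +
        ((∫ x, cube.indicator (apx n i) x * χ x) -
      ∫ x, cube.indicator (fun x => gT x i) x * χ x)| := by congr 1; ring
    _ ≤ _ := abs_add_le _ _
    _ ≤ _ := add_le_add hA hB

/-- the new field is an asymptotic flow -/
theorem isAsymptoticFlow_gT : IsAsymptoticFlow cube gT := by
  have hfin : IsFiniteMeasure (volume.restrict cube) := ⟨by
    rw [Measure.restrict_apply_univ]; exact volume_cubeR_lt_top 1⟩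
  refine ⟨?_, ntil, fun n hn => isTiling_ntil hn, ?_⟩
  · refine Integrable.of_bound (C := 1) measurable_gT.aestronglyMeasurable ?_
    exact Eventually.of_forall fun x => norm_gT_le x
  · have hbound : ∀ n ≥ 1, flowDist cube n (ntil n) gT ≤
        ∑ i, ENNReal.ofReal ((5000 : ℝ) / n + (DD n i + (er n 0 + er n 1 + er n 2))) := by
      intro n hn
      unfold flowDist
      refine Finset.sum_le_sum fun i _ => ?_
      refine iSup₂_le fun χ hχ => ?_
      refine ENNReal.ofReal_le_ofReal ?_
      have h1 := flow_approx hn (isTiling_ntil hn) (npar_spec n) i hχ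
      have h2 := dirfun_bound hn i hχ
      calc |flowIntegral n (ntil n) i χ - ∫ x in cube, gT x i * χ x|
          = |(flowIntegral n (ntil n) i χ - ∫ x, dirfun n (ntil n) (npar n) i x * χ x) +
            ((∫ x, dirfun n (ntil n) (npar n) i x * χ x) - ∫ x in cube, gT x i * χ x)| := by
            congr 1; ring
        _ ≤ _ := abs_add_le _ _
        _ ≤ _ := add_le_add h1 h2
    have hlim : Tendsto (fun n : ℕ => ∑ i, ENNReal.ofReal ((5000 : ℝ) / n +
        (DD n i + (er n 0 + er n 1 + er n 2)))) atTop (𝓝 0) := by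
      have : (0 : ℝ≥0∞) = ∑ i : Fin 3, ENNReal.ofReal (0 + (0 + (0 + 0 + 0))) := by simp
      rw [this]
      refine tendsto_finsetSum _ fun i _ => ?_
      refine (ENNReal.continuous_ofReal.tendsto _).comp ?_
      exact (tendsto_const_div_atTop_nhds_zero_nat 5000).add
        ((DD_tendsto i).add (((er_tendsto 0).add (er_tendsto 1)).add (er_tendsto 2)))
    refine tendsto_of_tendsto_of_tendsto_of_le_of_le' tendsto_const_nhds hlim
      (Eventually.of_forall fun _ => bot_le) ?_
    filter_upwards [eventually_ge_atTop 1] with n hn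
    exact hbound n hn

end Pool.Agent.Lib_helper52.Dimer
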