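import Pool.Agent.Lib_helper52.DimerNewTrace2
import Pool.Agent.Lib_helper52.DimerNewAF2

/-!
# The new field is Ent-maximizing
-/

open MeasureTheory Filter Topology
open scoped ENNReal ContDiff

namespace Pool.Agent.Lib_helper52.Dimer

/-- level functional -/
noncomputable def uL : R3 →L[ℝ] ℝ := co 0 + co 1 + co 2

lemma uL_apply (x : R3) : uL x = ux x := rfl

lemma contDiff_ux : ContDiff ℝ ∞ ux := uL.contDiff

lemma hasFDerivAt_ux (x : R3) : HasFDerivAt ux uL x := uL.hasFDerivAt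

/-- derivative of the flat function -/
lemma hasDerivAt_glue (t : ℝ) :
    HasDerivAt expNegInvGlue ((t⁻¹) ^ 2 * expNegInvGlue t) t := by
  have h := expNegInvGlue.hasDerivAt_polynomial_eval_inv_mul (1 : Polynomial ℝ) t
  simpa using h

/-- first test function -/
noncomputable def phi1 (x : R3) : ℝ := expNegInvGlue (ux x - 2)

lemma contDiff_phi1 : ContDiff ℝ ∞ phi1 :=
  expNegInvGlue.contDiff.comp (contDiff_ux.sub contDiff_const)

lemma fderiv_phi1 (x v : R3) : fderiv ℝ phi1 x v =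
    (((ux x - 2)⁻¹) ^ 2 * expNegInvGlue (ux x - 2)) * ux v := by
  have h1 : HasFDerivAt (fun x => ux x - 2) uL x := (hasFDerivAt_ux x).sub_const 2
  have h2 : HasFDerivAt phi1 _ x := (hasDerivAt_glue (ux x - 2)).comp_hasFDerivAt x h1
  rw [h2.fderiv]
  simp [uL_apply]

/-- cutoff -/
noncomputable def rc (t : ℝ) : ℝ := 1 - Real.smoothTransition (2 * t - 4)

lemma contDiff_rc : ContDiff ℝ ∞ rc :=
  contDiff_const.sub (Real.smoothTransition.contDiff.comp ((contDiff_const.mul contDiff_id).sub contDiff_const))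

lemma rc_low {t : ℝ} (h : t ≤ 2) : rc t = 1 := by
  unfold rc
  rw [Real.smoothTransition.zero_of_nonpos (by linarith)]
  ring

lemma rc_high {t : ℝ} (h : 5 / 2 ≤ t) : rc t = 0 := by
  unfold rc
  rw [Real.smoothTransition.one_of_one_le (by linarith)]
  ring

lemma rc_pos {t : ℝ} (h : t < 5 / 2) : 0 < rc t := by
  unfold rc
  have := Real.smoothTransition.lt_one_of_lt_one (x := 2 * t - 4) (by linarith)
  linarith

lemma deriv_rc {t : ℝ} (h : t < 2) : deriv rc t = 0 := by
  have : rc =ᶠ[𝓝 t] fun _ => (1:ℝ) := by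
    filter_upwards [Iio_mem_nhds h] with s hs
    exact rc_low (le_of_lt hs)
  rw [this.deriv_eq]
  simp

/-- certificate of the frozen part -/
noncomputable def cert2 (x : R3) : ℝ := (x 0 + 3) ^ 2 / 2 - (x 1 + 2) ^ 2 / 2

lemma hasFDerivAt_cert2 (x : R3) : HasFDerivAt cert2 ((x 0 + 3) • co 0 - (x 1 + 2) • co 1) x := by
  have h : ∀ i : Fin 3, HasFDerivAt (fun x : R3 => x i) (co i) x := fun i => (co i).hasFDerivAt
  have h2 := ((((h 0).add_const 3).pow 2).mul_const (1 / 2)).sub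
    ((((h 1).add_const 2).pow 2).mul_const (1 / 2))
  have e : cert2 = (fun x : R3 => (x 0 + 3) ^ 2 * (1 / 2)) - (fun x : R3 => (x 1 + 2) ^ 2 * (1 / 2)) := by
    funext x
    simp only [cert2, Pi.sub_apply]
    ring
  rw [e]
  refine h2.congr_fderiv ?_
  ext v
  simp
  ring

lemma contDiff_cert2 : ContDiff ℝ ∞ cert2 := by
  unfold cert2
  have h : ∀ i : Fin 3, ContDiff ℝ ∞ (fun x : R3 => x i) := fun i => (co i).contDiff
  exact ((((h 0).add contDiff_const).pow 2).div_const 2).sub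
    ((((h 1).add contDiff_const).pow 2).div_const 2)

/-- second test function -/
noncomputable def phi2 (x : R3) : ℝ := rc (ux x) * cert2 x

lemma contDiff_phi2 : ContDiff ℝ ∞ phi2 := (contDiff_rc.comp contDiff_ux).mul contDiff_cert2

lemma fderiv_phi2 (x v : R3) : fderiv ℝ phi2 x v =
    rc (ux x) * ((x 0 + 3) * v 0 - (x 1 + 2) * v 1) + cert2 x * (deriv rc (ux x) * ux v) := by
  have h1 : HasDerivAt rc (deriv rc (ux x)) (ux x) :=
    (contDiff_rc.differentiable (by simp)).differentiableAt.hasDerivAt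
  have h2 : HasFDerivAt (fun x => rc (ux x)) _ x := h1.comp_hasFDerivAt x (hasFDerivAt_ux x)
  have h3 : HasFDerivAt phi2 _ x := h2.mul (hasFDerivAt_cert2 x)
  rw [h3.fderiv]
  simp [uL_apply, co_apply]

lemma ux_le_of_oct {s : R3} (hs : ∑ i, |s i| ≤ 1) : ux s ≤ 1 := by
  rw [Fin.sum_univ_three] at hs
  have h0 := le_abs_self (s 0)
  have h1 := le_abs_self (s 1)
  have h2 := le_abs_self (s 2)
  unfold ux
  linarith

lemma cube_upper {x : R3} (hx : x ∈ cube) (h : 2 < ux x) : x 1 ≤ x 0 + 1 := by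
  have b0 := abs_le.1 (hx 0)
  have b1 := abs_le.1 (hx 1)
  have b2 := abs_le.1 (hx 2)
  unfold ux at h
  linarith

lemma ux_gT {x : R3} (hx : x ∈ cube) (h : 2 < ux x) : ux (gT x) = 1 := by
  unfold gT
  split_ifs with h1
  · simp only [ux, sF_apply]; norm_num
  · simp only [ux, h0_coord0, h0_coord1, h0_coord2, if_pos (cube_upper hx h)]
    norm_num

/-- the certificate bounds the admissible values -/
lemma cert_le {x s : R3} (hx : x ∈ cube) (hs : ∑ i, |s i| ≤ 1) :
    (x 0 + 3) * s 0 - (x 1 + 2) * s 1 ≤ (x 0 + 3) * h0 x 0 - (x 1 + 2) * h0 x 1 := by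
  rw [Fin.sum_univ_three] at hs
  have b0 := abs_le.1 (hx 0)
  have b1 := abs_le.1 (hx 1)
  have c0 := le_abs_self (s 0)
  have c1 := neg_abs_le (s 1)
  have a0 := abs_nonneg (s 0)
  have a1 := abs_nonneg (s 1)
  have a2 := abs_nonneg (s 2)
  have k0 : (x 0 + 3) * s 0 ≤ (x 0 + 3) * |s 0| := by
    have : 0 ≤ x 0 + 3 := by linarith
    gcongr
  have k1 : -((x 1 + 2) * s 1) ≤ (x 1 + 2) * |s 1| := by
    have h : 0 ≤ x 1 + 2 := by linarith
    have : (x 1 + 2) * (-s 1) ≤ (x 1 + 2) * |s 1| := by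
      gcongr
      exact neg_le_abs _
    linarith
  rw [h0_coord0, h0_coord1]
  split_ifs with h
  · have : (x 1 + 2) * |s 1| ≤ (x 0 + 3) * |s 1| := mul_le_mul_of_nonneg_right (by linarith) a1
    nlinarith
  · push Not at h
    have : (x 0 + 3) * |s 0| ≤ (x 1 + 2) * |s 0| := mul_le_mul_of_nonneg_right (by linarith) a0
    nlinarith

/-- equality in the certificate bound -/
lemma eq_of_cert {x s : R3} (hx : x ∈ cube) (hs : ∑ i, |s i| ≤ 1) (hne : x 1 ≠ x 0 + 1)
    (h : (x 0 + 3) * s 0 - (x 1 + 2) * s 1 = (x 0 + 3) * h0 x 0 - (x 1 + 2) * h0 x 1) :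
    s = h0 x := by
  rw [Fin.sum_univ_three] at hs
  have b0 := abs_le.1 (hx 0)
  have b1 := abs_le.1 (hx 1)
  have a0 := abs_nonneg (s 0)
  have a1 := abs_nonneg (s 1)
  have a2 := abs_nonneg (s 2)
  have k0 : (x 0 + 3) * s 0 ≤ (x 0 + 3) * |s 0| := by
    have : 0 ≤ x 0 + 3 := by linarith
    gcongr
    exact le_abs_self _
  have k1 : -((x 1 + 2) * s 1) ≤ (x 1 + 2) * |s 1| := by
    have h : 0 ≤ x 1 + 2 := by linarith
    have : (x 1 + 2) * (-s 1) ≤ (x 1 + 2) * |s 1| := by
      gcongr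
      exact neg_le_abs _
    linarith
  rcases lt_or_gt_of_ne hne with hlt | hgt
  · rw [h0_coord0, h0_coord1, if_pos hlt.le, if_pos hlt.le] at h
    have e0 : (x 0 + 3) * (1 - |s 0| - |s 1|) + ((x 0 + 1) - x 1) * |s 1| ≤ 0 := by nlinarith
    have e1 : 0 ≤ (x 0 + 3) * (1 - |s 0| - |s 1|) := by
      apply mul_nonneg <;> linarith
    have e2 : ((x 0 + 1) - x 1) * |s 1| ≤ 0 := by linarith
    have s1 : |s 1| = 0 := by
      by_contra hne
      have : 0 < |s 1| := lt_of_le_of_ne a1 (Ne.symm hne)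
      have := mul_pos (sub_pos.2 hlt) this
      linarith
    have s1' : s 1 = 0 := abs_eq_zero.1 s1
    have s0 : s 0 = 1 := by
      rw [s1'] at h
      have h3 : (x 0 + 3) * (s 0 - 1) = 0 := by linarith
      rcases mul_eq_zero.1 h3 with h4 | h4 <;> linarith
    have s2 : s 2 = 0 := by
      rw [s0, s1] at hs
      have : |s 2| = 0 := by
        rw [abs_one] at hs
        linarith
      exact abs_eq_zero.1 this
    ext j
    fin_cases j
    · show s 0 = h0 x 0
      rw [h0_coord0, if_pos hlt.le, s0]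
    · show s 1 = h0 x 1
      rw [h0_coord1, if_pos hlt.le, s1']
    · show s 2 = h0 x 2
      rw [h0_coord2, s2]
  · have hng : ¬ x 1 ≤ x 0 + 1 := not_le.2 hgt
    rw [h0_coord0, h0_coord1, if_neg hng, if_neg hng] at h
    have e0 : (x 1 + 2) * (1 - |s 0| - |s 1|) + (x 1 - (x 0 + 1)) * |s 0| ≤ 0 := by nlinarith
    have e1 : 0 ≤ (x 1 + 2) * (1 - |s 0| - |s 1|) := by
      apply mul_nonneg <;> linarith
    have e2 : (x 1 - (x 0 + 1)) * |s 0| ≤ 0 := by linarith
    have s0 : |s 0| = 0 := by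
      by_contra hne
      have : 0 < |s 0| := lt_of_le_of_ne a0 (Ne.symm hne)
      have := mul_pos (sub_pos.2 hgt) this
      linarith
    have s0' : s 0 = 0 := abs_eq_zero.1 s0
    have s1 : s 1 = -1 := by
      rw [s0'] at h
      have h3 : (x 1 + 2) * (s 1 + 1) = 0 := by linarith
      rcases mul_eq_zero.1 h3 with h4 | h4 <;> linarith
    have s2 : s 2 = 0 := by
      rw [s0, s1] at hs
      have : |s 2| = 0 := by
        rw [abs_neg, abs_one] at hs
        linarith
      exact abs_eq_zero.1 this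
    ext j
    fin_cases j
    · show s 0 = h0 x 0
      rw [h0_coord0, if_neg hng, s0']
    · show s 1 = h0 x 1
      rw [h0_coord1, if_neg hng, s1]
    · show s 2 = h0 x 2
      rw [h0_coord2, s2]

end Pool.Agent.Lib_helper52.Dimer
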