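import Pool.Agent.Lib_helper52.DimerNewMain

/-!
# The new field is Ent-maximizing, continued
-/

open MeasureTheory Filter Topology
open scoped ENNReal ContDiff

namespace Pool.Agent.Lib_helper52.Dimer

lemma integrableOn_fderiv {g : R3 → R3} (hg : AEStronglyMeasurable g (volume.restrict cube))
    (hb : ∀ i, ∀ᵐ x ∂(volume.restrict cube), |g x i| ≤ 1) {φ : R3 → ℝ} (hφ : ContDiff ℝ ∞ φ) :
    IntegrableOn (fun x => fderiv ℝ φ x (g x)) cube := by
  have hpd : ∀ i, IntegrableOn (pd φ i) cube := fun i =>
    (continuous_pd hφ i).continuousOn.integrableOn_compact (isCompact_cubeR 1)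
  have hi : ∀ i, IntegrableOn (fun x => g x i * pd φ i x) cube := fun i =>
    (hpd i).bdd_mul (c := 1) ((PiLp.continuous_apply 2 _ i).comp_aestronglyMeasurable hg) (hb i)
  have e : (fun x => fderiv ℝ φ x (g x)) =
      fun x => g x 0 * pd φ 0 x + g x 1 * pd φ 1 x + g x 2 * pd φ 2 x := by
    ext x; rw [fderiv_apply_vec]
  rw [e]
  exact ((hi 0).add (hi 1)).add (hi 2)

lemma oct_coord {s : R3} (hs : ∑ i, |s i| ≤ 1) (i : Fin 3) : |s i| ≤ 1 :=
  (Finset.single_le_sum (f := fun i => |s i|) (fun i _ => abs_nonneg _) (Finset.mem_univ i)).trans hs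

/-- comparison of two fields with the same trace through a test function -/
lemma zero_of_test {g : R3 → R3} (h1 : IsAsymptoticFlow cube g) (h2 : HasTrace cube g bT)
    {φ : R3 → ℝ} (hφ : ContDiff ℝ ∞ φ)
    (hnn : ∀ᵐ x ∂(volume.restrict cube), 0 ≤ fderiv ℝ φ x (gT x) - fderiv ℝ φ x (g x)) :
    ∀ᵐ x ∂(volume.restrict cube), fderiv ℝ φ x (gT x) - fderiv ℝ φ x (g x) = 0 := by
  have hoct := octahedron_valued h1
  have hb : ∀ i, ∀ᵐ x ∂(volume.restrict cube), |g x i| ≤ 1 := fun i => by
    filter_upwards [hoct] with x hx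
    exact oct_coord hx i
  have i1 := integrableOn_fderiv h1.1.1 hb hφ
  have i2 := integrableOn_fderiv (g := gT) measurable_gT.aestronglyMeasurable
    (fun i => Eventually.of_forall fun x => abs_gT_le x i) hφ
  have e1 := h2 φ hφ
  have e2 := hasTrace_gT φ hφ
  have hz : ∫ x in cube, (fderiv ℝ φ x (gT x) - fderiv ℝ φ x (g x)) = 0 := by
    rw [integral_sub i2 i1, e1, e2, sub_self]
  exact (integral_eq_zero_iff_of_nonneg_ae hnn (i2.sub i1)).1 hz

/-- saturation above level two -/
lemma saturated {g : R3 → R3} (h1 : IsAsymptoticFlow cube g) (h2 : HasTrace cube g bT) :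
    ∀ᵐ x ∂(volume.restrict cube), 2 < ux x → ux (g x) = 1 := by
  have hoct := octahedron_valued h1
  have hw : ∀ t : ℝ, 0 ≤ ((t - 2)⁻¹) ^ 2 * expNegInvGlue (t - 2) := fun t =>
    mul_nonneg (sq_nonneg _) (expNegInvGlue.nonneg _)
  have key := zero_of_test h1 h2 contDiff_phi1 (by
    filter_upwards [hoct, ae_restrict_mem measurableSet_cube] with x hx hc
    rw [fderiv_phi1, fderiv_phi1, ← mul_sub]
    by_cases hu : 2 < ux x
    · rw [ux_gT hc hu]
      exact mul_nonneg (hw _) (sub_nonneg.2 (ux_le_of_oct hx))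
    · rw [expNegInvGlue.zero_of_nonpos (by linarith)]
      simp)
  filter_upwards [key, ae_restrict_mem measurableSet_cube] with x hx hc hu
  rw [fderiv_phi1, fderiv_phi1, ← mul_sub, ux_gT hc hu] at hx
  have hpos : 0 < ((ux x - 2)⁻¹) ^ 2 * expNegInvGlue (ux x - 2) :=
    mul_pos (pow_pos (inv_pos.2 (by linarith)) 2) (expNegInvGlue.pos_of_pos (by linarith))
  rcases mul_eq_zero.1 hx with h | h
  · exact absurd h hpos.ne'
  · linarith

/-- the second term of the derivative of the second test function does not matter -/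
lemma phi2_diff {g : R3 → R3} (h1 : IsAsymptoticFlow cube g) (h2 : HasTrace cube g bT) :
    ∀ᵐ x ∂(volume.restrict cube), fderiv ℝ phi2 x (gT x) - fderiv ℝ phi2 x (g x) =
      rc (ux x) * (((x 0 + 3) * gT x 0 - (x 1 + 2) * gT x 1) -
        ((x 0 + 3) * g x 0 - (x 1 + 2) * g x 1)) := by
  filter_upwards [saturated h1 h2, ae_restrict_mem measurableSet_cube,
    ae_restrict_of_ae (ae_ux 2)] with x hs hc hne
  rw [fderiv_phi2, fderiv_phi2]
  have : cert2 x * (deriv rc (ux x) * ux (gT x)) - cert2 x * (deriv rc (ux x) * ux (g x)) = 0 := by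
    rcases lt_or_gt_of_ne hne with h | h
    · rw [deriv_rc h]; ring
    · rw [ux_gT hc h, hs h]; ring
  linear_combination this

/-- every flow in `AF(R, b)` agrees with the frozen field below the corner -/
theorem rigid_below {g : R3 → R3} (h1 : IsAsymptoticFlow cube g) (h2 : HasTrace cube g bT) :
    ∀ᵐ x ∂(volume.restrict cube), ux x < 5 / 2 → g x = h0 x := by
  have hoct := octahedron_valued h1
  have hd := phi2_diff h1 h2
  have key := zero_of_test h1 h2 contDiff_phi2 (by
    filter_upwards [hoct, hd, ae_restrict_mem measurableSet_cube] with x hx hx2 hc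
    rw [hx2]
    by_cases hu : 5 / 2 ≤ ux x
    · rw [rc_high hu]; simp
    · push Not at hu
      have e : gT x = h0 x := by unfold gT; rw [if_neg (not_le.2 hu)]
      rw [e]
      exact mul_nonneg (rc_pos hu).le (sub_nonneg.2 (cert_le hc hx)))
  filter_upwards [key, hd, hoct, ae_restrict_mem measurableSet_cube,
    ae_restrict_of_ae ae_int] with x hk hx2 hx hc hne hu
  rw [hx2] at hk
  have e : gT x = h0 x := by unfold gT; rw [if_neg (not_le.2 hu)]
  rw [e] at hk
  rcases mul_eq_zero.1 hk with h | h
  · exact absurd h (rc_pos hu).ne'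
  · exact eq_of_cert hc hx hne (by linarith)

/-- entropy comparison -/
lemma ent_le_gT {g : R3 → R3} (h1 : IsAsymptoticFlow cube g) (h2 : HasTrace cube g bT) :
    ∀ᵐ x ∂(volume.restrict cube), ent (g x) ≤ ent (gT x) := by
  filter_upwards [saturated h1 h2, rigid_below h1 h2] with x hs hr
  by_cases hu : 5 / 2 ≤ ux x
  · have e : gT x = sF := by unfold gT; rw [if_pos hu]
    rw [e]
    exact ent_le_sF (hs (by linarith))
  · push Not at hu
    have e : gT x = h0 x := by unfold gT; rw [if_neg (not_le.2 hu)]
    rw [e, hr hu]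

lemma integrable_ent_gT : IntegrableOn (fun x => ent (gT x)) cube := by
  have hfin : IsFiniteMeasure (volume.restrict cube) := ⟨by
    rw [Measure.restrict_apply_univ]; exact volume_cubeR_lt_top 1⟩
  have e : (fun x => ent (gT x)) = fun x => if 5 / 2 ≤ ux x then ent sF else
      if x 1 ≤ x 0 + 1 then ent (EuclideanSpace.single 0 1) else ent (-EuclideanSpace.single 1 1) := by
    ext x
    unfold gT h0
    split_ifs <;> rfl
  have hm : Measurable fun x => ent (gT x) := by
    rw [e]
    refine Measurable.ite measurableSet_up measurable_const (Measurable.ite ?_ measurable_const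
      measurable_const)
    exact measurableSet_le (measurable_coord 1) ((measurable_coord 0).add_const 1)
  refine Integrable.of_bound (C := |ent sF| + |ent (EuclideanSpace.single 0 1)| +
    |ent (-EuclideanSpace.single 1 1)|) hm.aestronglyMeasurable (Eventually.of_forall fun x => ?_)
  have a := abs_nonneg (ent sF)
  have b := abs_nonneg (ent (EuclideanSpace.single 0 1))
  have c := abs_nonneg (ent (-EuclideanSpace.single 1 1))
  have h := congrFun e x
  simp only at h
  rw [h, Real.norm_eq_abs]
  split_ifs <;> linarith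

/-- the new field is Ent-maximizing -/
theorem isEntMaximizing_gT : IsEntMaximizing cube bT gT := by
  refine ⟨⟨isAsymptoticFlow_gT, hasTrace_gT⟩, ?_⟩
  intro g hg
  unfold Ent
  have hv : 0 ≤ (volume.real cube)⁻¹ := inv_nonneg.2 measureReal_nonneg
  refine mul_le_mul_of_nonneg_left ?_ hv
  by_cases hi : IntegrableOn (fun x => ent (g x)) cube
  · exact integral_mono_ae hi integrable_ent_gT (ent_le_gT hg.1 hg.2)
  · rw [integral_undef hi]
    exact integral_nonneg fun x => ent_nonneg _

/-- all flows in `AF(R, b)` have the same face-valued part, for the face with positive signs -/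
theorem same_part {g : R3 → R3} (hg : g ∈ AF cube bT) :
    ∀ᵐ x ∂(volume.restrict cube), (g x ∈ face (fun _ => 1) ↔ gT x ∈ face (fun _ => 1)) := by
  filter_upwards [saturated hg.1 hg.2, rigid_below hg.1 hg.2, octahedron_valued hg.1] with x hs hr ho
  by_cases hu : 5 / 2 ≤ ux x
  · have e : gT x = sF := by unfold gT; rw [if_pos hu]
    have h := hs (by linarith)
    refine iff_of_true ⟨ho, ?_⟩ ?_
    · rw [Fin.sum_univ_three]
      unfold ux at h
      simp only [Units.val_one, Int.cast_one, one_mul]
      exact h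
    · rw [e]
      constructor
      · simp only [sF_apply, Fin.sum_univ_three]
        norm_num
      · simp only [sF_apply, Fin.sum_univ_three]
        norm_num
  · push Not at hu
    have e : gT x = h0 x := by unfold gT; rw [if_neg (not_le.2 hu)]
    rw [e, hr hu]

/-- the open corner -/
def oc : Set R3 := interior cube ∩ {x | 5 / 2 < ux x}

/-- the open sector -/
def os : Set R3 := interior cube ∩ {x | x 0 + 1 < x 1}

lemma volume_oc_pos : 0 < volume oc := by
  have ho : IsOpen oc := isOpen_interior.inter (isOpen_lt continuous_const continuous_ux)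
  refine ho.measure_pos volume ⟨WithLp.toLp 2 fun _ => 9 / 10, ?_, ?_⟩
  · rw [interior_cube]
    intro i
    show |(9 / 10 : ℝ)| < 1
    rw [abs_of_pos] <;> norm_num
  · show 5 / 2 < (9 / 10 : ℝ) + 9 / 10 + 9 / 10
    norm_num

lemma volume_os_pos : 0 < volume os := by
  have ho : IsOpen os := isOpen_interior.inter (isOpen_lt ((continuous_co 0).add continuous_const)
    (continuous_co 1))
  refine ho.measure_pos volume ⟨WithLp.toLp 2 ![-1 / 2, 3 / 4, 0], ?_, ?_⟩
  · rw [interior_cube]
    intro i
    fin_cases i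
    · show |(-1 / 2 : ℝ)| < 1
      rw [abs_of_neg] <;> norm_num
    · show |(3 / 4 : ℝ)| < 1
      rw [abs_of_pos] <;> norm_num
    · show |(0 : ℝ)| < 1
      simp
  · show (-1 / 2 : ℝ) + 1 < 3 / 4
    norm_num

lemma oc_sub {x : R3} (hx : x ∈ oc) : x ∈ cube ∧ gT x = sF := by
  refine ⟨interior_subset hx.1, ?_⟩
  have h : 5 / 2 < ux x := hx.2
  unfold gT
  rw [if_pos h.le]

lemma os_sub {x : R3} (hx : x ∈ os) : x ∈ cube ∧ gT x = -EuclideanSpace.single 1 1 := by
  have hc : x ∈ cube := interior_subset hx.1
  refine ⟨hc, ?_⟩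
  have h : x 0 + 1 < x 1 := hx.2
  have b0 := abs_le.1 (hc 0)
  have b1 := abs_le.1 (hc 1)
  have b2 := abs_le.1 (hc 2)
  have hux : ux x = x 0 + x 1 + x 2 := rfl
  unfold gT h0
  rw [if_neg (by rw [hux]; linarith), if_neg (not_le.2 h)]

/-- the face-valued part has positive measure, even in the relative interior of the face -/
theorem relint_part_pos :
    0 < volume {x | x ∈ cube ∧ gT x ∈ face (fun _ => 1) ∧ ∀ i, gT x i ≠ 0} := by
  refine volume_oc_pos.trans_le (measure_mono fun x hx => ?_)
  obtain ⟨h1, h2⟩ := oc_sub hx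
  refine ⟨h1, ?_, ?_⟩
  · rw [h2]
    constructor
    · simp only [sF_apply, Fin.sum_univ_three]
      norm_num
    · simp only [sF_apply, Fin.sum_univ_three]
      norm_num
  · intro i
    rw [h2, sF_apply]
    norm_num

/-- the complement of the face-valued part has positive measure -/
theorem complement_pos : 0 < volume (cube \ faceValued cube gT (face fun _ => 1)) := by
  refine volume_os_pos.trans_le (measure_mono fun x hx => ?_)
  obtain ⟨h1, h2⟩ := os_sub hx
  refine ⟨h1, fun h => ?_⟩
  have h3 := h.2.2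
  rw [h2, Fin.sum_univ_three] at h3
  simp at h3
  norm_num at h3

end Pool.Agent.Lib_helper52.Dimer
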