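import Pool.Agent.Lib_helper52.DimerLay
import Pool.Agent.Lib_helper52.DimerAF

/-!
# Tilings for the example with values in the relative interior of a face
-/

open MeasureTheory Filter Topology
open scoped ENNReal

namespace Pool.Agent.Lib_helper52.Dimer

/-- third basis vector of the lattice -/
def z2 : Z3 := Pi.single 2 1

@[simp] lemma z2_0 : z2 0 = 0 := rfl
@[simp] lemma z2_1 : z2 1 = 0 := rfl
@[simp] lemma z2_2 : z2 2 = 1 := rfl

/-- direction used on the layer `k` -/
def zdir (k : ℤ) : Z3 := if k % 3 = 0 then z0 else if k % 3 = 1 then z1 else z2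

lemma zdir_cases (k : ℤ) : zdir k = z0 ∨ zdir k = z1 ∨ zdir k = z2 := by
  unfold zdir; split_ifs <;> simp

lemma lev_zdir (k : ℤ) : lev (zdir k) = 1 := by
  rcases zdir_cases k with h | h | h <;> rw [h] <;> simp [lev]

lemma adj_zdir (v : Z3) (k : ℤ) : Adj v (v + zdir k) := by
  rcases zdir_cases k with h | h | h <;> rw [h] <;> simp [Adj, Fin.sum_univ_three]

/-- direction of the dimer at an even vertex -/
noncomputable def nst (n : ℕ) (v : Z3) : Z3 :=
  if 5 * (n : ℤ) / 4 + 1 ≤ lay v then zdir (lay v)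
  else if v 1 ≤ v 0 + n then z0 else -z1

lemma nst_upper {n : ℕ} {v : Z3} (h : 5 * (n : ℤ) / 4 + 1 ≤ lay v) : nst n v = zdir (lay v) := by
  unfold nst; rw [if_pos h]

lemma nst_lower0 {n : ℕ} {v : Z3} (h : lay v < 5 * (n : ℤ) / 4 + 1) (h' : v 1 ≤ v 0 + n) :
    nst n v = z0 := by
  unfold nst; rw [if_neg (not_le.2 h), if_pos h']

lemma nst_lower1 {n : ℕ} {v : Z3} (h : lay v < 5 * (n : ℤ) / 4 + 1) (h' : v 0 + n < v 1) :
    nst n v = -z1 := by
  unfold nst; rw [if_neg (not_le.2 h), if_neg (not_le.2 h')]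

lemma nst_cases (n : ℕ) (v : Z3) :
    (5 * (n : ℤ) / 4 + 1 ≤ lay v ∧ nst n v = zdir (lay v)) ∨
    (lay v < 5 * (n : ℤ) / 4 + 1 ∧ v 1 ≤ v 0 + n ∧ nst n v = z0) ∨
    (lay v < 5 * (n : ℤ) / 4 + 1 ∧ v 0 + n < v 1 ∧ nst n v = -z1) := by
  by_cases h : 5 * (n : ℤ) / 4 + 1 ≤ lay v
  · exact Or.inl ⟨h, nst_upper h⟩
  · push Not at h
    by_cases h' : v 1 ≤ v 0 + n
    · exact Or.inr (Or.inl ⟨h, h', nst_lower0 h h'⟩)
    · push Not at h'
      exact Or.inr (Or.inr ⟨h, h', nst_lower1 h h'⟩)

lemma adj_nst (n : ℕ) (v : Z3) : Adj v (v + nst n v) := by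
  rcases nst_cases n v with ⟨_, h⟩ | ⟨_, _, h⟩ | ⟨_, _, h⟩ <;> rw [h]
  · exact adj_zdir _ _
  · simp [Adj, Fin.sum_univ_three]
  · simp [Adj, Fin.sum_univ_three]

open Classical in
/-- the explicit tilings -/
noncomputable def ntil (n : ℕ) : Finset (Z3 × Z3) :=
  ((bx (n + 1)).filter fun u => IsEven u ∧ (u ∈ bx n ∨ u + nst n u ∈ bx n)).image
    fun u => (u, u + nst n u)

lemma mem_ntil (n : ℕ) (e : Z3 × Z3) :
    e ∈ ntil n ↔ IsEven e.1 ∧ e.2 = e.1 + nst n e.1 ∧ (e.1 ∈ bx n ∨ e.2 ∈ bx n) := by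
  classical
  simp only [ntil, Finset.mem_image, Finset.mem_filter]
  constructor
  · rintro ⟨u, ⟨h1, h2, h3⟩, rfl⟩
    exact ⟨h2, rfl, h3⟩
  · rintro ⟨h1, h2, h3⟩
    refine ⟨e.1, ⟨?_, h1, by rw [← h2]; exact h3⟩, by rw [← h2]⟩
    rcases h3 with h3 | h3
    · exact bx_mono (by omega) h3
    · rw [mem_bx] at *
      intro i
      have h4 := (adj_nst n e.1).coord i
      rw [← h2] at h4
      have := abs_sub_abs_le_abs_sub (e.1 i) (e.2 i)
      have := h3 i
      push_cast
      linarith

lemma lev_neg_z1 : lev (-z1) = -1 := by simp [lev]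
lemma lev_z0 : lev z0 = 1 := by simp [lev]
lemma lev_z1 : lev z1 = 1 := by simp [lev]

/-- two even vertices are never matched to the same odd vertex -/
lemma nst_inj {n : ℕ} {u u' : Z3} (hu : IsEven u) (hu' : IsEven u')
    (h : u + nst n u = u' + nst n u') : u = u' := by
  rw [isEven_lev] at hu hu'
  have hl : lev u + lev (nst n u) = lev u' + lev (nst n u') := by rw [← lev_add, ← lev_add, h]
  have h0 : u 0 + nst n u 0 = u' 0 + nst n u' 0 := congrFun h 0
  have h1 : u 1 + nst n u 1 = u' 1 + nst n u' 1 := congrFun h 1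
  have h2 : u 2 + nst n u 2 = u' 2 + nst n u' 2 := congrFun h 2
  rcases nst_cases n u with ⟨a, b⟩ | ⟨a, a', b⟩ | ⟨a, a', b⟩ <;>
  rcases nst_cases n u' with ⟨c, d⟩ | ⟨c, c', d⟩ | ⟨c, c', d⟩ <;>
  rw [b, d] at h h0 h1 h2 hl <;>
  simp only [lev_zdir, lev_z0, lev_neg_z1] at hl <;>
  unfold lay at a c
  · have : lev u = lev u' := by omega
    have h3 : lay u = lay u' := by unfold lay; rw [this]
    rw [h3] at h
    exact add_right_cancel h
  · exfalso; omega
  · exfalso; omega
  · exfalso; omega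
  · exact add_right_cancel h
  · simp at h0 h1 h2; omega
  · exfalso; omega
  · simp at h0 h1 h2; omega
  · exact add_right_cancel h

lemma isTiling_ntil {n : ℕ} (hn : 1 ≤ n) : IsTiling cube n (ntil n) := by
  have hc : ∀ v, pt n v ∈ cube ↔ v ∈ bx n := fun v => by rw [pt_mem_cube n hn, mem_bx]
  refine ⟨?_, ?_, ?_, ?_, ?_⟩
  · intro e he
    rw [mem_ntil] at he
    exact ⟨he.1, by rw [he.2.1]; exact adj_nst _ _⟩
  · intro e he e' he' h
    rw [mem_ntil] at he he'
    ext1
    · exact h
    · rw [he.2.1, he'.2.1, h]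
  · intro e he e' he' h
    rw [mem_ntil] at he he'
    have h1 : e.1 = e'.1 := nst_inj he.1 he'.1 (by rw [← he.2.1, ← he'.2.1, h])
    ext1
    · exact h1
    · exact h
  · intro v hv
    rw [hc] at hv
    by_cases hev : IsEven v
    · exact ⟨(v, v + nst n v), (mem_ntil _ _).2 ⟨hev, rfl, Or.inl hv⟩, Or.inl rfl⟩
    · -- odd vertex
      suffices h : ∃ u, IsEven u ∧ u + nst n u = v by
        obtain ⟨u, hu1, hu2⟩ := h
        exact ⟨(u, v), (mem_ntil _ _).2 ⟨hu1, hu2.symm, Or.inr hv⟩, Or.inr rfl⟩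
      rw [mem_bx] at hv
      have b0 := abs_le.1 (hv 0)
      have b1 := abs_le.1 (hv 1)
      have b2 := abs_le.1 (hv 2)
      have hlev : lev v = v 0 + v 1 + v 2 := rfl
      rw [isEven_lev] at hev
      by_cases hu : 5 * (n : ℤ) / 4 + 1 ≤ lay v
      · refine ⟨v - zdir (lay v), ?_, ?_⟩
        · rw [isEven_lev, lev_sub, lev_zdir]; omega
        · have h1 : lay (v - zdir (lay v)) = lay v := by
            unfold lay
            rw [lev_sub, lev_zdir]; omega
          rw [nst_upper (by rw [h1]; exact hu), h1]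
          abel
      · unfold lay at hu
        by_cases h' : v 1 ≤ v 0 - 1 + n
        · refine ⟨v - z0, ?_, ?_⟩
          · rw [isEven_lev, lev_sub, lev_z0]; omega
          · rw [nst_lower0]
            · abel
            · unfold lay
              rw [lev_sub, lev_z0]; omega
            · simp; omega
        · refine ⟨v + z1, ?_, ?_⟩
          · rw [isEven_lev, lev_add, lev_z1]; omega
          · rw [nst_lower1]
            · abel
            · unfold lay
              rw [lev_add, lev_z1]; omega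
            · simp; omega
  · intro e he
    rw [mem_ntil] at he
    rw [hc, hc]
    exact he.2.2

lemma mem_image_ntil (n : ℕ) (u : Z3) :
    u ∈ (ntil n).image Prod.fst ↔ IsEven u ∧ (u ∈ bx n ∨ u + nst n u ∈ bx n) := by
  rw [Finset.mem_image]
  constructor
  · rintro ⟨e, he, rfl⟩
    rw [mem_ntil] at he
    refine ⟨he.1, ?_⟩
    rw [← he.2.1]
    exact he.2.2
  · rintro ⟨h1, h2⟩
    exact ⟨(u, u + nst n u), (mem_ntil _ _).2 ⟨h1, rfl, h2⟩, rfl⟩

/-- partner map of the explicit tilings -/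
noncomputable def npar (n : ℕ) (u : Z3) : Z3 := u + nst n u

lemma npar_spec (n : ℕ) : ∀ e ∈ ntil n, npar n e.1 = e.2 := by
  intro e he
  rw [mem_ntil] at he
  rw [npar, he.2.1]

/-- level function on space -/
def ux (x : R3) : ℝ := x 0 + x 1 + x 2

/-- The frozen field: `e₁` on the sector `x₂ < x₁ + 1`, `-e₂` on the sector `x₂ > x₁ + 1`. -/
noncomputable def h0 (x : R3) : R3 :=
  if x 1 ≤ x 0 + 1 then EuclideanSpace.single 0 1 else -EuclideanSpace.single 1 1

/-- `i`-th component of the oscillating field of the upper layers -/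
noncomputable def osc (n : ℕ) (i : Fin 3) (x : R3) : ℝ := ((zdir (lay (ev (fl n x))) i : ℤ) : ℝ)

/-- the approximating field -/
noncomputable def apx (n : ℕ) (i : Fin 3) (x : R3) : ℝ := if 5 / 2 ≤ ux x then osc n i x else h0 x i

lemma nst_eventually {x : R3} (h1 : ux x ≠ 5 / 2) (h2 : x 1 ≠ x 0 + 1) :
    ∀ᶠ n : ℕ in atTop, ∀ i, ((nst n (ev (fl n x)) i : ℤ) : ℝ) = apx n i x := by
  have hlev : ∀ u : Z3, lev u = u 0 + u 1 + u 2 := fun _ => rfl
  rcases lt_or_gt_of_ne h1 with h1 | h1
  · -- below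
    have hlow : ∀ᶠ n : ℕ in atTop, lay (ev (fl n x)) < 5 * (n : ℤ) / 4 + 1 := by
      filter_upwards [eventually_large (sub_pos.2 h1) 20] with n ha
      have c0 := fl_near n x 0
      have c1 := fl_near n x 1
      have c2 := fl_near n x 2
      set u := ev (fl n x) with hu
      have hux : ux x = x 0 + x 1 + x 2 := rfl
      have e1 : (lev u : ℝ) < 5 / 2 * n - 20 := by
        rw [hlev]
        push_cast
        rw [hux] at ha
        nlinarith
      have e2 : (4 * lev u : ℤ) < 10 * n - 80 := by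
        have : (4 * lev u : ℝ) < 10 * n - 80 := by linarith
        exact_mod_cast this
      unfold lay
      omega
    rcases lt_or_gt_of_ne h2 with h2 | h2
    · filter_upwards [hlow, eventually_large (sub_pos.2 h2) 20] with n hl ha
      have c0 := fl_near n x 0
      have c1 := fl_near n x 1
      set u := ev (fl n x) with hu
      have e1 : (u 1 : ℝ) < u 0 + n := by nlinarith
      have e2 : u 1 < u 0 + n := by exact_mod_cast e1
      intro i
      rw [nst_lower0 hl e2.le]
      unfold apx h0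
      rw [if_neg (not_le.2 h1), if_pos h2.le]
      fin_cases i <;> simp
    · filter_upwards [hlow, eventually_large (sub_pos.2 h2) 20] with n hl ha
      have c0 := fl_near n x 0
      have c1 := fl_near n x 1
      set u := ev (fl n x) with hu
      have e1 : (u 0 + n : ℝ) < u 1 := by nlinarith
      have e2 : u 0 + n < u 1 := by exact_mod_cast e1
      intro i
      rw [nst_lower1 hl e2]
      unfold apx h0
      rw [if_neg (not_le.2 h1), if_neg (not_le.2 h2)]
      fin_cases i <;> simp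
  · -- above
    filter_upwards [eventually_large (sub_pos.2 h1) 20] with n ha
    have c0 := fl_near n x 0
    have c1 := fl_near n x 1
    have c2 := fl_near n x 2
    set u := ev (fl n x) with hu
    have hux : ux x = x 0 + x 1 + x 2 := rfl
    have e1 : (5 / 2 * n + 10 : ℝ) < lev u := by
      rw [hlev]
      push_cast
      rw [hux] at ha
      nlinarith
    have e2 : (10 * n + 40 : ℤ) < 4 * lev u := by
      have : (10 * n + 40 : ℝ) < 4 * lev u := by linarith
      exact_mod_cast this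
    have e3 : 5 * (n : ℤ) / 4 + 1 ≤ lay u := by
      unfold lay
      omega
    intro i
    rw [nst_upper e3]
    unfold apx osc
    rw [if_pos h1.le]

end Pool.Agent.Lib_helper52.Dimer
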