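import Pool.Agent.Lib_helper52.DimerNewAF
import Pool.Agent.Lib_helper52.DimerMain

/-!
# The trace of the new field
-/

open MeasureTheory Filter Topology
open scoped ENNReal ContDiff

namespace Pool.Agent.Lib_helper52.Dimer

/-- part of the boundary of the corner in a face of the cube -/
def S1 : Set (Fin 2 → ℝ) := sq2 ∩ {y | 3 / 2 ≤ y 0 + y 1}

/-- half of a face of the cube -/
def Sneg : Set (Fin 2 → ℝ) := sq2 ∩ {y | y 0 < 0}

lemma measurableSet_S1 : MeasurableSet S1 :=
  measurableSet_sq2.inter (measurableSet_le measurable_const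
    ((measurable_pi_apply 0).add (measurable_pi_apply 1)))

lemma measurableSet_Sneg : MeasurableSet Sneg :=
  measurableSet_sq2.inter (measurableSet_lt (measurable_pi_apply 0) measurable_const)

lemma line2 {φ : R3 → ℝ} (hφ : ContDiff ℝ ∞ φ) (i : Fin 3) (y : Fin 2 → ℝ) {a : ℝ}
    (ha : -1 ≤ a) (ha1 : a ≤ 1) (c1 c2 : ℝ) (s : ℝ → ℝ) (h1 : ∀ t, -1 < t → t < a → s t = c1)
    (h2 : ∀ t, a < t → t < 1 → s t = c2) :
    ∫ t in (-1 : ℝ)..1, s t * pd φ i (P i t y) =
      c1 * (φ (P i a y) - φ (P i (-1) y)) + c2 * (φ (P i 1 y) - φ (P i a y)) := by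
  have hc : Continuous fun t => pd φ i (P i t y) :=
    (continuous_pd hφ i).comp ((continuous_P i).comp (Continuous.prodMk_left y))
  have hint : ∀ (c : ℝ) (u v : ℝ), IntervalIntegrable (fun t => c * pd φ i (P i t y)) volume u v :=
    fun c u v => (continuous_const.mul hc).intervalIntegrable _ _
  have e1 : Set.EqOn (fun t => c1 * pd φ i (P i t y)) (fun t => s t * pd φ i (P i t y))
      (Set.uIoo (-1) a) := by
    intro t ht
    rw [Set.uIoo_of_le ha] at ht
    simp only
    rw [h1 t ht.1 ht.2]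
  have e2 : Set.EqOn (fun t => c2 * pd φ i (P i t y)) (fun t => s t * pd φ i (P i t y))
      (Set.uIoo a 1) := by
    intro t ht
    rw [Set.uIoo_of_le ha1] at ht
    simp only
    rw [h2 t ht.1 ht.2]
  have i1 := (hint c1 (-1) a).congr_uIoo e1
  have i2 := (hint c2 a 1).congr_uIoo e2
  rw [← intervalIntegral.integral_add_adjacent_intervals i1 i2,
    ← intervalIntegral.integral_congr_uIoo e1, ← intervalIntegral.integral_congr_uIoo e2,
    intervalIntegral.integral_const_mul, intervalIntegral.integral_const_mul, ftc hφ, ftc hφ]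

lemma ux_P (i : Fin 3) (t : ℝ) (y : Fin 2 → ℝ) : ux (P i t y) = t + y 0 + y 1 := by
  unfold ux
  fin_cases i
  · show t + y 0 + y 1 = _
    rfl
  · show y 0 + t + y 1 = _
    ring
  · show y 0 + y 1 + t = _
    ring

lemma integrableOn_P {φ : R3 → ℝ} (hφ : Continuous φ) (i : Fin 3) {u : (Fin 2 → ℝ) → ℝ}
    (hu : Continuous u) : IntegrableOn (fun y => φ (P i (u y) y)) sq2 :=
  (hφ.comp ((continuous_P i).comp (hu.prodMk continuous_id))).continuousOn.integrableOn_compact
      isCompact_sq2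

lemma S1_subset : S1 ⊆ sq2 := Set.inter_subset_left

lemma continuous_slant : Continuous fun y : Fin 2 → ℝ => 5 / 2 - y 0 - y 1 :=
  (continuous_const.sub (continuous_apply 0)).sub (continuous_apply 1)

/-- integrals of derivatives over the corner -/
lemma corner_pd {φ : R3 → ℝ} (hφ : ContDiff ℝ ∞ φ) (i : Fin 3) :
    ∫ x in TT, pd φ i x =
      (∫ y in S1, φ (P i 1 y)) - ∫ y in S1, φ (P i (5 / 2 - y 0 - y 1) y) := by
  have hcφ : Continuous φ := hφ.continuous
  have h0 : IntegrableOn (pd φ i) cube :=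
    (continuous_pd hφ i).continuousOn.integrableOn_compact (isCompact_cubeR 1)
  set s : R3 → ℝ := fun x => if 5 / 2 ≤ ux x then 1 else 0 with hs
  have hsm : Measurable s := Measurable.ite measurableSet_up measurable_const measurable_const
  have h1 : IntegrableOn (fun x => s x * pd φ i x) cube := by
    refine h0.bdd_mul (c := 1) hsm.aestronglyMeasurable (Eventually.of_forall fun x => ?_)
    simp only [hs]
    split_ifs <;> simp
  have e1 : ∫ x in TT, pd φ i x = ∫ x in cube, s x * pd φ i x := by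
    unfold TT
    rw [← setIntegral_indicator measurableSet_up]
    refine setIntegral_congr_fun measurableSet_cube fun x _ => ?_
    simp only [hs, Set.indicator_apply, Set.mem_ofPred_eq]
    split_ifs <;> simp
  rw [e1, fub i _ h1]
  have e2 : ∀ y ∈ sq2, ∫ t in (-1 : ℝ)..1, s (P i t y) * pd φ i (P i t y) =
      {y : Fin 2 → ℝ | 3 / 2 ≤ y 0 + y 1}.indicator
        (fun y => φ (P i 1 y) - φ (P i (5 / 2 - y 0 - y 1) y)) y := by
    intro y hy
    rw [mem_sq2] at hy
    have b0 := abs_le.1 (hy 0)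
    have b1 := abs_le.1 (hy 1)
    by_cases h : 3 / 2 ≤ y 0 + y 1
    · rw [Set.indicator_of_mem (show y ∈ {y : Fin 2 → ℝ | 3 / 2 ≤ y 0 + y 1} from h),
        line2 hφ i y (a := 5 / 2 - y 0 - y 1) (by linarith) (by linarith) 0 1
          (fun t => s (P i t y))]
      · ring
      · intro t _ ht
        simp only [hs, ux_P]
        rw [if_neg (by linarith)]
      · intro t ht _
        simp only [hs, ux_P]
        rw [if_pos (by linarith)]
    · rw [Set.indicator_of_notMem (show y ∉ {y : Fin 2 → ℝ | 3 / 2 ≤ y 0 + y 1} from h)]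
      push Not at h
      rw [line2 hφ i y (a := 1) (by norm_num) le_rfl 0 0 (fun t => s (P i t y))]
      · ring
      · intro t _ ht
        simp only [hs, ux_P]
        rw [if_neg (by linarith)]
      · intro t ht ht'
        exact absurd ht' (not_lt.2 ht.le)
  have hms : MeasurableSet {y : Fin 2 → ℝ | 3 / 2 ≤ y 0 + y 1} :=
    measurableSet_le measurable_const ((measurable_pi_apply 0).add (measurable_pi_apply 1))
  rw [setIntegral_congr_fun measurableSet_sq2 e2, setIntegral_indicator hms]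
  exact integral_sub ((integrableOn_P hcφ i continuous_const).mono_set S1_subset)
    ((integrableOn_P hcφ i continuous_slant).mono_set S1_subset)

/-! ### Two volume preserving maps of the plane -/

/-- linear part of the first map -/
def A1 : Matrix (Fin 2) (Fin 2) ℝ := !![-1, -1; 0, 1]

/-- linear part of the second map -/
def A2 : Matrix (Fin 2) (Fin 2) ℝ := !![-1, -1; 1, 0]

/-- change of variables from the first to the second coordinate face -/
noncomputable def m1 (y : Fin 2 → ℝ) : Fin 2 → ℝ := ![5 / 2, 0] + Matrix.toLin' A1 y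

/-- change of variables from the first to the third coordinate face -/
noncomputable def m2 (y : Fin 2 → ℝ) : Fin 2 → ℝ := ![5 / 2, 0] + Matrix.toLin' A2 y

lemma m1_0 (y : Fin 2 → ℝ) : m1 y 0 = 5 / 2 - y 0 - y 1 := by
  simp [m1, A1, Matrix.toLin'_apply, dotProduct, Fin.sum_univ_two]; ring

lemma m1_1 (y : Fin 2 → ℝ) : m1 y 1 = y 1 := by
  simp [m1, A1, Matrix.toLin'_apply, dotProduct, Fin.sum_univ_two]

lemma m2_0 (y : Fin 2 → ℝ) : m2 y 0 = 5 / 2 - y 0 - y 1 := by
  simp [m2, A2, Matrix.toLin'_apply, dotProduct, Fin.sum_univ_two]; ring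

lemma m2_1 (y : Fin 2 → ℝ) : m2 y 1 = y 0 := by
  simp [m2, A2, Matrix.toLin'_apply, dotProduct, Fin.sum_univ_two]

lemma det_A1 : A1.det = -1 := by simp [A1, Matrix.det_fin_two]
lemma det_A2 : A2.det = 1 := by simp [A2, Matrix.det_fin_two]

lemma mp_lin (A : Matrix (Fin 2) (Fin 2) ℝ) (hA : |A.det| = 1) :
    MeasurePreserving (Matrix.toLin' A) volume volume := by
  have hne : A.det ≠ 0 := by
    intro h; rw [h] at hA; simp at hA
  refine ⟨(Matrix.toLin' A).continuous_of_finiteDimensional.measurable, ?_⟩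
  rw [Real.map_matrix_volume_pi_eq_smul_volume_pi hne, abs_inv, hA]
  simp

lemma mp_m1 : MeasurePreserving m1 volume volume :=
  (measurePreserving_add_left volume (![5 / 2, 0] : Fin 2 → ℝ)).comp (mp_lin A1 (by rw [det_A1]; simp))

lemma mp_m2 : MeasurePreserving m2 volume volume :=
  (measurePreserving_add_left volume (![5 / 2, 0] : Fin 2 → ℝ)).comp (mp_lin A2 (by rw [det_A2]; simp))

lemma me_m1 : MeasurableEmbedding m1 := by
  refine mp_m1.measurable.measurableEmbedding ?_
  intro y z h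
  have h0 := congrFun h 0
  have h1 := congrFun h 1
  rw [m1_0, m1_0] at h0
  rw [m1_1, m1_1] at h1
  ext j; fin_cases j
  · show y 0 = z 0
    linarith
  · exact h1

lemma me_m2 : MeasurableEmbedding m2 := by
  refine mp_m2.measurable.measurableEmbedding ?_
  intro y z h
  have h0 := congrFun h 0
  have h1 := congrFun h 1
  rw [m2_0, m2_0] at h0
  rw [m2_1, m2_1] at h1
  ext j; fin_cases j
  · exact h1
  · show y 1 = z 1
    linarith

lemma mem_S1 (y : Fin 2 → ℝ) : y ∈ S1 ↔ y 0 ≤ 1 ∧ y 1 ≤ 1 ∧ 3 / 2 ≤ y 0 + y 1 := by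
  unfold S1
  rw [Set.mem_inter_iff, mem_sq2, Fin.forall_fin_two, abs_le, abs_le, Set.mem_ofPred_eq]
  constructor
  · rintro ⟨⟨⟨_, h1⟩, _, h2⟩, h3⟩
    exact ⟨h1, h2, h3⟩
  · rintro ⟨h1, h2, h3⟩
    exact ⟨⟨⟨by linarith, h1⟩, by linarith, h2⟩, h3⟩

lemma m1_preimage : m1 ⁻¹' S1 = S1 := by
  ext y
  rw [Set.mem_preimage, mem_S1, mem_S1, m1_0, m1_1]
  constructor
  · rintro ⟨h1, h2, h3⟩
    exact ⟨by linarith, h2, by linarith⟩
  · rintro ⟨h1, h2, h3⟩
    exact ⟨by linarith, h2, by linarith⟩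

lemma m2_preimage : m2 ⁻¹' S1 = S1 := by
  ext y
  rw [Set.mem_preimage, mem_S1, mem_S1, m2_0, m2_1]
  constructor
  · rintro ⟨h1, h2, h3⟩
    exact ⟨h2, by linarith, by linarith⟩
  · rintro ⟨h1, h2, h3⟩
    exact ⟨by linarith, h1, by linarith⟩

lemma slant1 (φ : R3 → ℝ) : ∫ y in S1, φ (P 1 (5 / 2 - y 0 - y 1) y) =
    ∫ y in S1, φ (P 0 (5 / 2 - y 0 - y 1) y) := by
  have h := mp_m1.setIntegral_preimage_emb me_m1 (fun y => φ (P 1 (5 / 2 - y 0 - y 1) y)) S1
  rw [m1_preimage] at h
  rw [← h]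
  refine integral_congr_ae (Eventually.of_forall fun y => ?_)
  simp only
  congr 1
  ext j
  fin_cases j
  · show m1 y 0 = 5 / 2 - y 0 - y 1
    exact m1_0 y
  · show 5 / 2 - m1 y 0 - m1 y 1 = y 0
    rw [m1_0, m1_1]; ring
  · show m1 y 1 = y 1
    exact m1_1 y

lemma slant2 (φ : R3 → ℝ) : ∫ y in S1, φ (P 2 (5 / 2 - y 0 - y 1) y) =
    ∫ y in S1, φ (P 0 (5 / 2 - y 0 - y 1) y) := by
  have h := mp_m2.setIntegral_preimage_emb me_m2 (fun y => φ (P 2 (5 / 2 - y 0 - y 1) y)) S1
  rw [m2_preimage] at h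
  rw [← h]
  refine integral_congr_ae (Eventually.of_forall fun y => ?_)
  simp only
  congr 1
  ext j
  fin_cases j
  · show m2 y 0 = 5 / 2 - y 0 - y 1
    exact m2_0 y
  · show m2 y 1 = y 0
    exact m2_1 y
  · show 5 / 2 - m2 y 0 - m2 y 1 = y 1
    rw [m2_0, m2_1]; ring

/-! ### The frozen part -/

lemma Sneg_subset : Sneg ⊆ sq2 := Set.inter_subset_left

/-- the complementary half -/
def Spos : Set (Fin 2 → ℝ) := sq2 ∩ {y | y 0 < 0}ᶜ

lemma measurableSet_neg : MeasurableSet {y : Fin 2 → ℝ | y 0 < 0} :=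
  measurableSet_lt (measurable_pi_apply 0) measurable_const

lemma split_sq2 {f : (Fin 2 → ℝ) → ℝ} (hf : IntegrableOn f sq2) :
    ∫ y in sq2, f y = (∫ y in Sneg, f y) + ∫ y in Spos, f y :=
  (integral_inter_add_sdiff measurableSet_neg hf).symm

/-- interface integrals agree -/
lemma interface_eq (φ : R3 → ℝ) : ∫ y in Spos, φ (P 0 (y 0 - 1) y) =
    ∫ y in Sneg, φ (P 1 (y 0 + 1) y) := by
  set c : Fin 2 → ℝ := ![1, 0] with hc
  have hmp : MeasurePreserving (fun y : Fin 2 → ℝ => c + y) volume volume :=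
    measurePreserving_add_left volume c
  have hme : MeasurableEmbedding (fun y : Fin 2 → ℝ => c + y) :=
    (MeasurableEquiv.addLeft c).measurableEmbedding
  have h := hmp.setIntegral_preimage_emb hme (fun y => φ (P 0 (y 0 - 1) y)) Spos
  rw [← h]
  have hpre : (fun y : Fin 2 → ℝ => c + y) ⁻¹' Spos =ᵐ[volume] Sneg := by
    have hne : ∀ᵐ y : Fin 2 → ℝ, y 0 ≠ 0 := by
      exact Measure.ae_eval_ne (μ := fun _ : Fin 2 => (volume : Measure ℝ)) 0 0
    filter_upwards [hne] with y hy
    refine propext ?_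
    show c + y ∈ Spos ↔ y ∈ Sneg
    unfold Spos Sneg
    rw [Set.mem_inter_iff, Set.mem_inter_iff, mem_sq2, mem_sq2, Fin.forall_fin_two,
      Fin.forall_fin_two, Set.mem_compl_iff, Set.mem_ofPred_eq, Set.mem_ofPred_eq]
    have e0 : (c + y) 0 = 1 + y 0 := by simp [hc]
    have e1 : (c + y) 1 = y 1 := by simp [hc]
    rw [e0, e1]
    simp only [abs_le]
    constructor
    · rintro ⟨⟨h1, h2⟩, h3⟩
      push Not at h3
      have : y 0 < 0 := lt_of_le_of_ne (by linarith) hy
      exact ⟨⟨⟨by linarith, by linarith⟩, h2⟩, this⟩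
    · rintro ⟨⟨h1, h2⟩, h3⟩
      refine ⟨⟨⟨by linarith, by linarith⟩, h2⟩, ?_⟩
      push Not
      linarith
  rw [setIntegral_congr_set hpre]
  refine integral_congr_ae (Eventually.of_forall fun y => ?_)
  simp only
  congr 1
  have e0 : (c + y) 0 = 1 + y 0 := by simp [hc]
  have e1 : (c + y) 1 = y 1 := by simp [hc]
  ext j
  fin_cases j
  · show (c + y) 0 - 1 = y 0
    rw [e0]; ring
  · show (c + y) 0 = y 0 + 1
    rw [e0]; ring
  · show (c + y) 1 = y 1
    exact e1

end Pool.Agent.Lib_helper52.Dimer
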