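import Pool.Agent.Lib_helper52.DimerNewTrace

/-!
# The trace of the new field, continued
-/

open MeasureTheory Filter Topology
open scoped ENNReal ContDiff

namespace Pool.Agent.Lib_helper52.Dimer

lemma h0_coord0 (x : R3) : h0 x 0 = if x 1 ≤ x 0 + 1 then 1 else 0 := by
  unfold h0; split_ifs <;> simp

lemma h0_coord1 (x : R3) : h0 x 1 = if x 1 ≤ x 0 + 1 then 0 else -1 := by
  unfold h0; split_ifs <;> simp

lemma h0_coord2 (x : R3) : h0 x 2 = 0 := by
  unfold h0; split_ifs <;> simp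

lemma fderiv_apply_vec (φ : R3 → ℝ) (x v : R3) :
    fderiv ℝ φ x v = v 0 * pd φ 0 x + v 1 * pd φ 1 x + v 2 * pd φ 2 x := by
  have : v = v 0 • EuclideanSpace.single 0 1 + v 1 • EuclideanSpace.single 1 1 +
      v 2 • EuclideanSpace.single 2 1 := by
    ext j
    fin_cases j <;> simp
  conv_lhs => rw [this]
  rw [map_add, map_add, map_smul, map_smul, map_smul]
  simp [pd]

theorem trace_h0 {φ : R3 → ℝ} (hφ : ContDiff ℝ ∞ φ) :
    ∫ x in cube, fderiv ℝ φ x (h0 x) =
      (∫ y in sq2, φ (P 0 1 y)) - (∫ y in Sneg, φ (P 0 (-1) y)) - ∫ y in Sneg, φ (P 1 1 y) := by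
  have hcφ : Continuous φ := hφ.continuous
  have hi : ∀ i, IntegrableOn (fun x => h0 x i * pd φ i x) cube := fun i => by
    have h1 : IntegrableOn (pd φ i) cube :=
      (continuous_pd hφ i).continuousOn.integrableOn_compact (isCompact_cubeR 1)
    exact h1.bdd_mul (c := 1) ((measurable_coord i).comp measurable_h0).aestronglyMeasurable
      (Eventually.of_forall fun x => abs_h0_le x i)
  have e : ∀ x, fderiv ℝ φ x (h0 x) = h0 x 0 * pd φ 0 x + h0 x 1 * pd φ 1 x := by
    intro x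
    rw [fderiv_apply_vec, h0_coord2, zero_mul, add_zero]
  simp only [e]
  rw [integral_add (hi 0) (hi 1), fub 0 _ (hi 0), fub 1 _ (hi 1)]
  have e0 : ∀ y ∈ sq2, ∫ t in (-1 : ℝ)..1, h0 (P 0 t y) 0 * pd φ 0 (P 0 t y) =
      φ (P 0 1 y) - φ (P 0 (max (-1) (y 0 - 1)) y) := by
    intro y hy
    rw [mem_sq2] at hy
    have b0 := abs_le.1 (hy 0)
    rw [line2 hφ 0 y (a := max (-1) (y 0 - 1)) (le_max_left _ _) (max_le (by norm_num) (by linarith))
      0 1 (fun t => h0 (P 0 t y) 0)]
    · ring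
    · intro t ht1 ht2
      have h3 : t < y 0 - 1 := (lt_max_iff.1 ht2).resolve_left (not_lt.2 ht1.le)
      simp only [h0_coord0, P0_coord0, P0_coord1]
      rw [if_neg (by linarith)]
    · intro t ht1 _
      have h3 := (max_lt_iff.1 ht1).2
      simp only [h0_coord0, P0_coord0, P0_coord1]
      rw [if_pos (by linarith)]
  have e1 : ∀ y ∈ sq2, ∫ t in (-1 : ℝ)..1, h0 (P 1 t y) 1 * pd φ 1 (P 1 t y) =
      φ (P 1 (min 1 (y 0 + 1)) y) - φ (P 1 1 y) := by
    intro y hy
    rw [mem_sq2] at hy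
    have b0 := abs_le.1 (hy 0)
    rw [line2 hφ 1 y (a := min 1 (y 0 + 1)) (le_min (by norm_num) (by linarith)) (min_le_left _ _)
      0 (-1) (fun t => h0 (P 1 t y) 1)]
    · ring
    · intro t ht1 ht2
      have h3 := (lt_min_iff.1 ht2).2
      simp only [h0_coord1, P1_coord0, P1_coord1]
      rw [if_pos (by linarith)]
    · intro t ht1 ht2
      have h3 : y 0 + 1 < t := (min_lt_iff.1 ht1).resolve_left (not_lt.2 ht2.le)
      simp only [h0_coord1, P1_coord0, P1_coord1]
      rw [if_neg (by linarith)]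
  have cmax : Continuous fun y : Fin 2 → ℝ => max (-1) (y 0 - 1) :=
    continuous_const.max ((continuous_apply 0).sub continuous_const)
  have cmin : Continuous fun y : Fin 2 → ℝ => min 1 (y 0 + 1) :=
    continuous_const.min ((continuous_apply 0).add continuous_const)
  have k1 := integrableOn_P hcφ 0 (continuous_const (y := (1:ℝ)) (X := Fin 2 → ℝ))
  have k2 := integrableOn_P hcφ 0 cmax
  have k3 := integrableOn_P hcφ 1 (continuous_const (y := (1:ℝ)) (X := Fin 2 → ℝ))
  have k4 := integrableOn_P hcφ 1 cmin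
  rw [setIntegral_congr_fun measurableSet_sq2 e0, setIntegral_congr_fun measurableSet_sq2 e1,
    integral_sub k1 k2, integral_sub k4 k3, split_sq2 k2, split_sq2 k4, split_sq2 k3]
  have mpos : MeasurableSet Spos := measurableSet_sq2.inter measurableSet_neg.compl
  have a1 : ∫ y in Sneg, φ (P 0 (max (-1) (y 0 - 1)) y) = ∫ y in Sneg, φ (P 0 (-1) y) := by
    refine setIntegral_congr_fun measurableSet_Sneg fun y hy => ?_
    have h2 : y 0 < 0 := hy.2
    rw [max_eq_left (by linarith)]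
  have a2 : ∫ y in Spos, φ (P 0 (max (-1) (y 0 - 1)) y) = ∫ y in Spos, φ (P 0 (y 0 - 1) y) := by
    refine setIntegral_congr_fun mpos fun y hy => ?_
    have h2 : ¬ y 0 < 0 := hy.2
    push Not at h2
    rw [max_eq_right (by linarith)]
  have a3 : ∫ y in Sneg, φ (P 1 (min 1 (y 0 + 1)) y) = ∫ y in Sneg, φ (P 1 (y 0 + 1) y) := by
    refine setIntegral_congr_fun measurableSet_Sneg fun y hy => ?_
    have h2 : y 0 < 0 := hy.2
    rw [min_eq_right (by linarith)]
  have a4 : ∫ y in Spos, φ (P 1 (min 1 (y 0 + 1)) y) = ∫ y in Spos, φ (P 1 1 y) := by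
    refine setIntegral_congr_fun mpos fun y hy => ?_
    have h2 : ¬ y 0 < 0 := hy.2
    push Not at h2
    rw [min_eq_left (by linarith)]
  rw [a1, a2, a3, a4, interface_eq]
  ring

lemma gT_eq {φ : R3 → ℝ} {x : R3} (hx : x ∈ cube) : fderiv ℝ φ x (gT x) =
    fderiv ℝ φ x (h0 x) + {x : R3 | 5 / 2 ≤ ux x}.indicator
      (fun x => 3⁻¹ * (pd φ 1 x + pd φ 2 x) - 3⁻¹ * (pd φ 0 x + pd φ 0 x)) x := by
  by_cases hu : 5 / 2 ≤ ux x
  · rw [Set.indicator_of_mem (show x ∈ {x : R3 | 5 / 2 ≤ ux x} from hu)]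
    have b0 := abs_le.1 (hx 0)
    have b1 := abs_le.1 (hx 1)
    have b2 := abs_le.1 (hx 2)
    have hux : ux x = x 0 + x 1 + x 2 := rfl
    rw [hux] at hu
    rw [fderiv_apply_vec, fderiv_apply_vec, h0_coord0, h0_coord1, h0_coord2,
      if_pos (by linarith), if_pos (by linarith)]
    unfold gT
    rw [if_pos (by rw [hux]; exact hu), sF_apply, sF_apply, sF_apply]
    ring
  · rw [Set.indicator_of_notMem (show x ∉ {x : R3 | 5 / 2 ≤ ux x} from hu), add_zero]
    unfold gT
    rw [if_neg hu]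

theorem trace_gT {φ : R3 → ℝ} (hφ : ContDiff ℝ ∞ φ) :
    ∫ x in cube, fderiv ℝ φ x (gT x) =
      ((∫ y in sq2, φ (P 0 1 y)) + 3⁻¹ * ((∫ y in S1, φ (P 1 1 y)) + ∫ y in S1, φ (P 2 1 y))) -
      ((∫ y in Sneg, φ (P 0 (-1) y)) + (∫ y in Sneg, φ (P 1 1 y)) +
        3⁻¹ * ((∫ y in S1, φ (P 0 1 y)) + ∫ y in S1, φ (P 0 1 y))) := by
  have hcφ : Continuous φ := hφ.continuous
  have hpd : ∀ i, IntegrableOn (pd φ i) cube := fun i =>
    (continuous_pd hφ i).continuousOn.integrableOn_compact (isCompact_cubeR 1)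
  have hpT : ∀ i, IntegrableOn (pd φ i) TT := fun i => (hpd i).mono_set Set.inter_subset_left
  have hi : ∀ i, IntegrableOn (fun x => h0 x i * pd φ i x) cube := fun i => by
    exact (hpd i).bdd_mul (c := 1) ((measurable_coord i).comp measurable_h0).aestronglyMeasurable
      (Eventually.of_forall fun x => abs_h0_le x i)
  have hh : IntegrableOn (fun x => fderiv ℝ φ x (h0 x)) cube := by
    have e : (fun x => fderiv ℝ φ x (h0 x)) = fun x => h0 x 0 * pd φ 0 x + h0 x 1 * pd φ 1 x := by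
      ext x
      rw [fderiv_apply_vec, h0_coord2, zero_mul, add_zero]
    rw [e]
    exact (hi 0).add (hi 1)
  have hk : IntegrableOn (fun x => 3⁻¹ * (pd φ 1 x + pd φ 2 x) - 3⁻¹ * (pd φ 0 x + pd φ 0 x)) cube :=
    (((hpd 1).add (hpd 2)).const_mul _).sub (((hpd 0).add (hpd 0)).const_mul _)
  have hk2 : IntegrableOn ({x : R3 | 5 / 2 ≤ ux x}.indicator
      (fun x => 3⁻¹ * (pd φ 1 x + pd φ 2 x) - 3⁻¹ * (pd φ 0 x + pd φ 0 x))) cube :=
    hk.indicator measurableSet_up
  rw [setIntegral_congr_fun measurableSet_cube (fun x hx => gT_eq hx), integral_add hh hk2,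
    trace_h0 hφ, setIntegral_indicator measurableSet_up]
  have e1 : ∫ x in cube ∩ {x : R3 | 5 / 2 ≤ ux x}, (3⁻¹ * (pd φ 1 x + pd φ 2 x) -
      3⁻¹ * (pd φ 0 x + pd φ 0 x)) = 3⁻¹ * ((∫ x in TT, pd φ 1 x) + ∫ x in TT, pd φ 2 x) -
      3⁻¹ * ((∫ x in TT, pd φ 0 x) + ∫ x in TT, pd φ 0 x) := by
    show ∫ x in TT, _ = _
    rw [integral_sub, integral_const_mul, integral_const_mul, integral_add (hpT 1) (hpT 2),
      integral_add (hpT 0) (hpT 0)]
    · exact ((hpT 1).add (hpT 2)).const_mul _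
    · exact ((hpT 0).add (hpT 0)).const_mul _
  rw [e1, corner_pd hφ 0, corner_pd hφ 1, corner_pd hφ 2, slant1, slant2]
  ring

/-- area measure on a part of a face of the cube -/
noncomputable def fM (i : Fin 3) (c : ℝ) (S : Set (Fin 2 → ℝ)) : Measure R3 :=
  (volume.restrict S).map (P i c)

lemma isFiniteMeasure_fM (i : Fin 3) (c : ℝ) {S : Set (Fin 2 → ℝ)} (hS : S ⊆ sq2) :
    IsFiniteMeasure (fM i c S) := by
  have : IsFiniteMeasure (volume.restrict S) := ⟨by
    rw [Measure.restrict_apply_univ]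
    exact (measure_mono hS).trans_lt isCompact_sq2.measure_lt_top⟩
  unfold fM
  infer_instance

lemma fM_carried (i : Fin 3) (c : ℝ) (hc : |c| = 1) {S : Set (Fin 2 → ℝ)} (hS : S ⊆ sq2) :
    fM i c S (frontier cube)ᶜ = 0 := by
  unfold fM
  rw [Measure.map_apply (continuous_Pi i c).measurable isClosed_frontier.measurableSet.compl,
    Measure.restrict_apply ((continuous_Pi i c).measurable isClosed_frontier.measurableSet.compl)]
  convert measure_empty (μ := volume)
  ext y
  simp only [Set.mem_inter_iff, Set.mem_preimage, Set.mem_compl_iff, Set.mem_empty_iff_false, iff_false,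
    not_and]
  intro h hy
  apply h
  rw [mem_frontier_cube]
  have h2 : P i c y ∈ cube := (P_mem_cube i c y).2 ⟨hc.le, hS hy⟩
  exact ⟨h2, i, by rw [P_same, hc]⟩

lemma integral_fM (i : Fin 3) (c : ℝ) (S : Set (Fin 2 → ℝ)) {φ : R3 → ℝ} (hφ : Continuous φ) :
    ∫ x, φ x ∂(fM i c S) = ∫ y in S, φ (P i c y) := by
  unfold fM
  rw [integral_map (continuous_Pi i c).measurable.aemeasurable hφ.aestronglyMeasurable]

lemma integrable_fM (i : Fin 3) (c : ℝ) {S : Set (Fin 2 → ℝ)} (hS : S ⊆ sq2) {φ : R3 → ℝ}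
    (hφ : Continuous φ) : Integrable φ (fM i c S) := by
  unfold fM
  rw [integrable_map_measure hφ.aestronglyMeasurable (continuous_Pi i c).measurable.aemeasurable]
  exact (integrableOn_P hφ i continuous_const).mono_set hS

/-- The boundary data of the new field. -/
noncomputable def bT : BoundaryData cube where
  pos := fM 0 1 sq2 + (3 : ℝ≥0∞)⁻¹ • (fM 1 1 S1 + fM 2 1 S1)
  neg := fM 0 (-1) Sneg + fM 1 1 Sneg + (3 : ℝ≥0∞)⁻¹ • (fM 0 1 S1 + fM 0 1 S1)
  finite_pos := by
    have := isFiniteMeasure_fM 0 1 (subset_refl sq2)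
    have := isFiniteMeasure_fM 1 1 S1_subset
    have := isFiniteMeasure_fM 2 1 S1_subset
    have : IsFiniteMeasure ((3 : ℝ≥0∞)⁻¹ • (fM 1 1 S1 + fM 2 1 S1)) :=
      Measure.smul_finite _ (by simp)
    infer_instance
  finite_neg := by
    have := isFiniteMeasure_fM 0 (-1) Sneg_subset
    have := isFiniteMeasure_fM 1 1 Sneg_subset
    have := isFiniteMeasure_fM 0 1 S1_subset
    have : IsFiniteMeasure ((3 : ℝ≥0∞)⁻¹ • (fM 0 1 S1 + fM 0 1 S1)) :=
      Measure.smul_finite _ (by simp)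
    infer_instance
  pos_carried := by
    simp only [Measure.add_apply, Measure.smul_apply, smul_eq_mul]
    rw [fM_carried 0 1 (by simp) (subset_refl sq2), fM_carried 1 1 (by simp) S1_subset,
      fM_carried 2 1 (by simp) S1_subset]
    simp
  neg_carried := by
    simp only [Measure.add_apply, Measure.smul_apply, smul_eq_mul]
    rw [fM_carried 0 (-1) (by simp) Sneg_subset, fM_carried 1 1 (by simp) Sneg_subset,
      fM_carried 0 1 (by simp) S1_subset]
    simp

theorem hasTrace_gT : HasTrace cube gT bT := by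
  intro φ hφ
  have hc := hφ.continuous
  rw [trace_gT hφ]
  unfold bT
  simp only
  have i1 := integrable_fM 0 1 (subset_refl sq2) hc
  have i2 := integrable_fM 1 1 S1_subset hc
  have i3 := integrable_fM 2 1 S1_subset hc
  have i4 := integrable_fM 0 (-1) Sneg_subset hc
  have i5 := integrable_fM 1 1 Sneg_subset hc
  have i6 := integrable_fM 0 1 S1_subset hc
  rw [integral_add_measure i1 ((i2.add_measure i3).smul_measure (by simp)),
    integral_smul_measure, integral_add_measure i2 i3,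
    integral_add_measure (i4.add_measure i5) ((i6.add_measure i6).smul_measure (by simp)),
    integral_add_measure i4 i5, integral_smul_measure, integral_add_measure i6 i6,
    integral_fM _ _ _ hc, integral_fM _ _ _ hc, integral_fM _ _ _ hc, integral_fM _ _ _ hc,
    integral_fM _ _ _ hc, integral_fM _ _ _ hc]
  simp only [ENNReal.toReal_inv, ENNReal.toReal_ofNat, smul_eq_mul]

end Pool.Agent.Lib_helper52.Dimer
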