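import Pool.Agent.Lib_helper52.DimerBound

open MeasureTheory Filter Topology
open scoped ENNReal ContDiff

namespace Pool.Agent.Lib_helper52.Dimer

lemma tendsto_of_flowDist {g : R3 → R3} {τ : ℕ → Finset (Z3 × Z3)}
    (h : Tendsto (fun n => flowDist cube n (τ n) g) atTop (𝓝 0)) (i : Fin 3) {χ : R3 → ℝ}
    (hχ : χ ∈ BL) :
    Tendsto (fun n => flowIntegral n (τ n) i χ) atTop (𝓝 (∫ x in cube, g x i * χ x)) := by
  rw [tendsto_iff_norm_sub_tendsto_zero]
  have h1 : ∀ n, ENNReal.ofReal ‖flowIntegral n (τ n) i χ - ∫ x in cube, g x i * χ x‖ ≤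
      flowDist cube n (τ n) g := by
    intro n
    unfold flowDist
    refine le_trans ?_ (Finset.single_le_sum (f := fun i => ⨆ χ ∈ BL, ENNReal.ofReal
      |flowIntegral n (τ n) i χ - ∫ x in cube, g x i * χ x|) (fun _ _ => bot_le) (Finset.mem_univ i))
    exact le_iSup₂ (f := fun χ (_ : χ ∈ BL) => ENNReal.ofReal
      |flowIntegral n (τ n) i χ - ∫ x in cube, g x i * χ x|) χ hχ
  have h2 : Tendsto (fun n => ENNReal.ofReal ‖flowIntegral n (τ n) i χ - ∫ x in cube, g x i * χ x‖)
      atTop (𝓝 0) := tendsto_of_tendsto_of_tendsto_of_le_of_le tendsto_const_nhds h (fun _ => bot_le) h1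
  have h3 := (ENNReal.tendsto_toReal ENNReal.zero_ne_top).comp h2
  simpa [Function.comp_def] using h3

lemma exists_dirfun {g : R3 → R3} (h : IsAsymptoticFlow cube g) :
    ∃ (τ : ℕ → Finset (Z3 × Z3)) (p : ℕ → Z3 → Z3), (∀ n ≥ 1, IsTiling cube n (τ n)) ∧
      (∀ n ≥ 1, ∀ e ∈ τ n, p n e.1 = e.2) ∧ ∀ i, ∀ χ ∈ BL,
        Tendsto (fun n => ∫ x, dirfun n (τ n) (p n) i x * χ x) atTop
          (𝓝 (∫ x in cube, g x i * χ x)) := by
  obtain ⟨_, τ, hτ, hlim⟩ := h
  have hp : ∀ n : ℕ, ∃ p : Z3 → Z3, n ≥ 1 → ∀ e ∈ τ n, p e.1 = e.2 := by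
    intro n
    by_cases hn : n ≥ 1
    · obtain ⟨p, hp⟩ := exists_partner (hτ n hn)
      exact ⟨p, fun _ => hp⟩
    · exact ⟨fun _ => 0, fun h => absurd h hn⟩
  choose p hp using hp
  refine ⟨τ, p, hτ, hp, fun i χ hχ => ?_⟩
  have h1 := tendsto_of_flowDist hlim i hχ
  have h2 : Tendsto (fun n : ℕ => (5000 : ℝ) / n) atTop (𝓝 0) := tendsto_const_div_atTop_nhds_zero_nat 5000
  have h3 : Tendsto (fun n => (∫ x, dirfun n (τ n) (p n) i x * χ x) - flowIntegral n (τ n) i χ)
      atTop (𝓝 0) := by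
    rw [tendsto_zero_iff_abs_tendsto_zero]
    refine squeeze_zero' (Eventually.of_forall fun _ => abs_nonneg _) ?_ h2
    filter_upwards [eventually_ge_atTop 1] with n hn
    simp only [Function.comp]
    rw [abs_sub_comm]
    exact flow_approx hn (hτ n hn) (hp n hn) i hχ
  have := h3.add h1
  simpa using this

lemma Adj.sum_abs {u w : Z3} (h : Adj u w) : ∑ i, |(w i : ℝ) - u i| = 1 := by
  have : ∑ i, |u i - w i| = 1 := h
  have h2 : ((∑ i, |u i - w i| : ℤ) : ℝ) = 1 := by rw [this]; norm_num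
  rw [← h2]
  push_cast
  refine Finset.sum_congr rfl fun i _ => ?_
  rw [abs_sub_comm]

lemma dirfun_support {n : ℕ} {τ : Finset (Z3 × Z3)} (hn : 1 ≤ n) (h : IsTiling cube n τ) {x : R3}
    (hx : ev (fl n x) ∈ τ.image Prod.fst) : x ∈ cubeR (1 + 5 / n) := by
  have hn' : (0 : ℝ) < n := by exact_mod_cast hn
  intro i
  rw [Finset.mem_image] at hx
  obtain ⟨e, he, hee⟩ := hx
  have h1 := h.fst_mem hn he
  rw [hee, mem_bx] at h1
  have h2 := h1 i
  have h3 : |(ev (fl n x) i : ℝ)| ≤ n + 1 := by exact_mod_cast h2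
  have h4 := dist_pt_ev n hn x
  have h5 : |x i - pt n (ev (fl n x)) i| ≤ dist x (pt n (ev (fl n x))) := by
    have := PiLp.norm_apply_le (x - pt n (ev (fl n x))) i
    rw [dist_eq_norm]
    simpa using this
  have h6 : |x i| ≤ |pt n (ev (fl n x)) i| + |x i - pt n (ev (fl n x)) i| := by
    have := abs_sub_abs_le_abs_sub (x i) (pt n (ev (fl n x)) i)
    linarith
  have h7 : |pt n (ev (fl n x)) i| ≤ 1 + 1 / n := by
    rw [pt_apply, abs_div, abs_of_pos hn', div_le_iff₀ hn']
    have : (1 + 1 / (n:ℝ)) * n = n + 1 := by field_simp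
    rw [this]
    exact h3
  calc |x i| ≤ (1 + 1 / n) + 4 / n := by linarith
    _ = 1 + 5 / n := by ring

lemma sum_dirfun_le {n : ℕ} {τ : Finset (Z3 × Z3)} {p : Z3 → Z3} (hn : 1 ≤ n) (h : IsTiling cube n τ)
    (hp : ∀ e ∈ τ, p e.1 = e.2) {σ : Fin 3 → ℝ} (hσ : ∀ i, |σ i| ≤ 1) (x : R3) :
    ∑ i, σ i * dirfun n τ p i x ≤ (cubeR (1 + 5 / n)).indicator (fun _ => 1) x := by
  by_cases hx : ev (fl n x) ∈ τ.image Prod.fst
  · rw [Set.indicator_of_mem (dirfun_support hn h hx)]
    simp only [dirfun, hx, if_true]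
    have h1 := (adj_of_mem h hp hx).sum_abs
    rw [← h1]
    refine Finset.sum_le_sum fun i _ => ?_
    calc σ i * ((p (ev (fl n x)) i : ℝ) - ev (fl n x) i)
        ≤ |σ i * ((p (ev (fl n x)) i : ℝ) - ev (fl n x) i)| := le_abs_self _
      _ = |σ i| * |(p (ev (fl n x)) i : ℝ) - ev (fl n x) i| := abs_mul _ _
      _ ≤ 1 * |(p (ev (fl n x)) i : ℝ) - ev (fl n x) i| := by gcongr; exact hσ i
      _ = _ := one_mul _
  · simp only [dirfun, hx, if_false, mul_zero, Finset.sum_const_zero]
    exact Set.indicator_nonneg (fun _ _ => zero_le_one) _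

lemma integral_sign_le {g : R3 → R3} (h : IsAsymptoticFlow cube g) {σ : Fin 3 → ℝ}
    (hσ : ∀ i, |σ i| ≤ 1) {χ : R3 → ℝ} (hχ : χ ∈ BL) (hχ0 : ∀ x, 0 ≤ χ x) :
    ∑ i, σ i * ∫ x in cube, g x i * χ x ≤ ∫ x in cube, χ x := by
  obtain ⟨τ, p, hτ, hp, hlim⟩ := exists_dirfun h
  have h1 : Tendsto (fun n => ∑ i, σ i * ∫ x, dirfun n (τ n) (p n) i x * χ x) atTop
      (𝓝 (∑ i, σ i * ∫ x in cube, g x i * χ x)) :=
    tendsto_finsetSum _ fun i _ => (hlim i χ hχ).const_mul _
  have hmeas : Measurable χ := hχ.2.continuous.measurable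
  have h2 : Tendsto (fun n : ℕ => ∫ x, (cubeR (1 + 5 / n)).indicator (fun _ => (1:ℝ)) x * χ x) atTop
      (𝓝 (∫ x, cube.indicator (fun _ => (1:ℝ)) x * χ x)) := by
    refine tendsto_integral_filter_of_dominated_convergence ((cubeR 6).indicator (fun _ => (1:ℝ))) ?_ ?_ ?_ ?_
    · refine Eventually.of_forall fun n => ?_
      exact ((measurable_const.indicator (isClosed_cubeR _).measurableSet).mul hmeas).aestronglyMeasurable
    · filter_upwards [eventually_ge_atTop 1] with n hn
      refine Eventually.of_forall fun x => ?_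
      have hn' : (1 : ℝ) ≤ n := by exact_mod_cast hn
      by_cases hx : x ∈ cubeR (1 + 5 / n)
      · have hx6 : x ∈ cubeR 6 := fun i => (hx i).trans (by
          have : (5:ℝ) / n ≤ 5 := div_le_self (by norm_num) hn'
          linarith)
        rw [Set.indicator_of_mem hx, Set.indicator_of_mem hx6, one_mul]
        exact hχ.1 x
      · rw [Set.indicator_of_notMem hx, zero_mul, norm_zero]
        exact Set.indicator_nonneg (fun _ _ => zero_le_one) _
    · exact (integrable_indicator_iff (isClosed_cubeR _).measurableSet).2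
        (integrableOn_const (volume_cubeR_lt_top 6).ne)
    · refine Eventually.of_forall fun x => ?_
      refine Tendsto.mul_const _ ?_
      by_cases hx : x ∈ cube
      · rw [Set.indicator_of_mem hx]
        refine tendsto_const_nhds.congr fun n => ?_
        rw [Set.indicator_of_mem]
        intro i
        have : (0:ℝ) ≤ 5 / n := by positivity
        exact (hx i).trans (by linarith)
      · rw [Set.indicator_of_notMem hx]
        have : ∃ i, 1 < |x i| := by
          by_contra hcon
          push Not at hcon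
          exact hx hcon
        obtain ⟨i, hi⟩ := this
        have h5 : Tendsto (fun n : ℕ => 1 + (5 : ℝ) / n) atTop (𝓝 (1 + 0)) :=
          tendsto_const_nhds.add (tendsto_const_div_atTop_nhds_zero_nat 5)
        rw [add_zero] at h5
        have h6 := h5.eventually_lt_const hi
        refine tendsto_const_nhds.congr' ?_
        filter_upwards [h6] with n hn
        rw [Set.indicator_of_notMem]
        intro hcon
        exact absurd (hcon i) (not_le.2 hn)
  have h3 : ∫ x, cube.indicator (fun _ => (1:ℝ)) x * χ x = ∫ x in cube, χ x := by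
    rw [← integral_indicator measurableSet_cube]
    congr 1
    ext x
    by_cases hx : x ∈ cube <;> simp [hx]
  rw [h3] at h2
  refine le_of_tendsto_of_tendsto h1 h2 ?_
  filter_upwards [eventually_ge_atTop 1] with n hn
  have hint : ∀ i, Integrable (fun x => dirfun n (τ n) (p n) i x * χ x) := fun i => by
    refine (integrable_dirfun hn (hτ n hn) (p n) i).mul_bdd (c := 1) hmeas.aestronglyMeasurable ?_
    exact Eventually.of_forall fun x => hχ.1 x
  have h4 : ∑ i, σ i * ∫ x, dirfun n (τ n) (p n) i x * χ x =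
      ∫ x, (∑ i, σ i * dirfun n (τ n) (p n) i x) * χ x := by
    rw [show (fun x => (∑ i, σ i * dirfun n (τ n) (p n) i x) * χ x) =
      fun x => ∑ i, σ i * (dirfun n (τ n) (p n) i x * χ x) from ?_]
    · rw [integral_finsetSum _ (fun i _ => (hint i).const_mul _)]
      refine Finset.sum_congr rfl fun i _ => ?_
      rw [integral_const_mul]
    · ext x
      rw [Finset.sum_mul]
      refine Finset.sum_congr rfl fun i _ => by ring
  rw [h4]
  refine integral_mono ?_ ?_ ?_
  · rw [show (fun x => (∑ i, σ i * dirfun n (τ n) (p n) i x) * χ x) =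
      fun x => ∑ i, σ i * (dirfun n (τ n) (p n) i x * χ x) from ?_]
    · exact integrable_finsetSum _ (fun i _ => (hint i).const_mul _)
    · ext x
      rw [Finset.sum_mul]
      refine Finset.sum_congr rfl fun i _ => by ring
  · refine Integrable.mul_bdd (c := 1) ?_ hmeas.aestronglyMeasurable ?_
    · exact (integrable_indicator_iff (isClosed_cubeR _).measurableSet).2
        (integrableOn_const (volume_cubeR_lt_top _).ne)
    · exact Eventually.of_forall fun x => hχ.1 x
  · intro x
    exact mul_le_mul_of_nonneg_right (sum_dirfun_le hn (hτ n hn) (hp n hn) hσ x) (hχ0 x)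

/-- asymptotic flows on the cube take values in the octahedron -/
theorem octahedron_valued {g : R3 → R3} (h : IsAsymptoticFlow cube g) :
    ∀ᵐ x ∂(volume.restrict cube), ∑ i, |g x i| ≤ 1 := by
  have hgi : ∀ i, IntegrableOn (fun x => g x i) cube := fun i => h.1.eval_piLp i
  have key : ∀ σ : Fin 3 → ℤˣ, ∀ᵐ x ∂(volume.restrict cube), 0 ≤ 1 - ∑ i, ((σ i : ℤ) : ℝ) * g x i := by
    intro σ
    have hσ : ∀ i, |((σ i : ℤ) : ℝ)| ≤ 1 := fun i => by
      rcases Int.units_eq_one_or (σ i) with h | h <;> simp [h]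
    have hfin : IsFiniteMeasure (volume.restrict cube) := ⟨by
      rw [Measure.restrict_apply_univ]; exact volume_cubeR_lt_top 1⟩
    have hint : IntegrableOn (fun x => 1 - ∑ i, ((σ i : ℤ) : ℝ) * g x i) cube :=
      (integrable_const 1).sub (integrable_finsetSum _ fun i _ => (hgi i).const_mul _)
    refine nonneg_of_test hint ?_
    intro χ hχ hχ0
    have hmeas : Measurable χ := hχ.2.continuous.measurable
    have h1 := integral_sign_le h hσ hχ hχ0
    have hi2 : ∀ i, Integrable (fun x => g x i * χ x) (volume.restrict cube) := fun i =>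
      (hgi i).mul_bdd (c := 1) hmeas.aestronglyMeasurable (Eventually.of_forall fun x => hχ.1 x)
    have hi3 : Integrable χ (volume.restrict cube) := by
      have := (integrable_const (1:ℝ) (μ := volume.restrict cube)).mul_bdd (c := 1) hmeas.aestronglyMeasurable
        (Eventually.of_forall fun x => hχ.1 x)
      simpa using this
    have h2 : ∫ x in cube, (1 - ∑ i, ((σ i : ℤ) : ℝ) * g x i) * χ x =
        (∫ x in cube, χ x) - ∑ i, ((σ i : ℤ) : ℝ) * ∫ x in cube, g x i * χ x := by
      rw [show (fun x => (1 - ∑ i, ((σ i : ℤ) : ℝ) * g x i) * χ x) =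
        fun x => χ x - ∑ i, ((σ i : ℤ) : ℝ) * (g x i * χ x) from ?_]
      · rw [integral_sub hi3 (integrable_finsetSum _ fun i _ => (hi2 i).const_mul _),
          integral_finsetSum _ (fun i _ => (hi2 i).const_mul _)]
        congr 1
        refine Finset.sum_congr rfl fun i _ => ?_
        rw [integral_const_mul]
      · ext x
        rw [sub_mul, one_mul, Finset.sum_mul]
        congr 1
        refine Finset.sum_congr rfl fun i _ => by ring
    rw [h2]
    linarith
  have h3 : ∀ᵐ x ∂(volume.restrict cube), ∀ σ : Fin 3 → ℤˣ, 0 ≤ 1 - ∑ i, ((σ i : ℤ) : ℝ) * g x i :=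
    ae_all_iff.2 key
  filter_upwards [h3] with x hx
  have h4 := hx (fun i => if 0 ≤ g x i then 1 else -1)
  have h5 : ∀ i, (((if 0 ≤ g x i then (1 : ℤˣ) else -1 : ℤˣ) : ℤ) : ℝ) * g x i = |g x i| := by
    intro i
    split_ifs with h
    · simp [abs_of_nonneg h]
    · push Not at h
      simp [abs_of_neg h]
  simp only [h5] at h4
  linarith

end Pool.Agent.Lib_helper52.Dimer
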