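import Pool.Agent.Lib_helper52.DimerFlow

open MeasureTheory Filter Topology
open scoped ENNReal ContDiff

namespace Pool.Agent.Lib_helper52.Dimer

/-- lattice box -/
noncomputable def bx (m : ℕ) : Finset Z3 := Fintype.piFinset fun _ => Finset.Icc (-(m : ℤ)) m

lemma mem_bx (m : ℕ) (v : Z3) : v ∈ bx m ↔ ∀ i, |v i| ≤ m := by
  simp [bx, Fintype.mem_piFinset, abs_le]

lemma card_bx (m : ℕ) : (bx m).card = (2 * m + 1) ^ 3 := by
  simp only [bx, Fintype.card_piFinset, Int.card_Icc, Finset.prod_const, Finset.card_univ,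
    Fintype.card_fin]
  congr 1
  omega

lemma bx_mono {m k : ℕ} (h : m ≤ k) : bx m ⊆ bx k := by
  intro v hv
  rw [mem_bx] at *
  intro i
  exact (hv i).trans (by exact_mod_cast h)

open Classical in
/-- all edges with even endpoint in a big box -/
noncomputable def Ebig (n : ℕ) : Finset (Z3 × Z3) :=
  ((bx (n + 2)).filter IsEven ×ˢ dirs).image fun p => (p.1, p.1 + p.2)

lemma mem_Ebig (n : ℕ) (e : Z3 × Z3) :
    e ∈ Ebig n ↔ e.1 ∈ bx (n + 2) ∧ IsEven e.1 ∧ Adj e.1 e.2 := by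
  classical
  rw [adj_iff_dirs]
  simp only [Ebig, Finset.mem_image, Finset.mem_product, Finset.mem_filter, Prod.exists]
  constructor
  · rintro ⟨a, b, ⟨⟨h1, h2⟩, h3⟩, rfl⟩
    refine ⟨h1, h2, ?_⟩
    simpa using h3
  · rintro ⟨h1, h2, h3⟩
    exact ⟨e.1, e.2 - e.1, ⟨⟨h1, h2⟩, h3⟩, by simp⟩

variable {n : ℕ} {τ : Finset (Z3 × Z3)}

lemma IsTiling.fst_mem (hn : 1 ≤ n) (h : IsTiling cube n τ) {e : Z3 × Z3} (he : e ∈ τ) :
    e.1 ∈ bx (n + 1) := by
  rw [mem_bx]
  intro i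
  have hc := (h.dimer e he).2.coord i
  rcases h.meets e he with h1 | h1 <;> rw [pt_mem_cube n hn] at h1 <;> have h2 := h1 i
  · push_cast; linarith
  · push_cast
    have := abs_sub_abs_le_abs_sub (e.1 i) (e.2 i)
    linarith

lemma IsTiling.snd_mem (hn : 1 ≤ n) (h : IsTiling cube n τ) {e : Z3 × Z3} (he : e ∈ τ) :
    e.2 ∈ bx (n + 1) := by
  rw [mem_bx]
  intro i
  have hc := (h.dimer e he).2.coord i
  rw [abs_sub_comm] at hc
  rcases h.meets e he with h1 | h1 <;> rw [pt_mem_cube n hn] at h1 <;> have h2 := h1 i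
  · push_cast
    have := abs_sub_abs_le_abs_sub (e.2 i) (e.1 i)
    linarith
  · push_cast; linarith

lemma edges_subset (hn : 1 ≤ n) (h : IsTiling cube n τ) : edges τ ⊆ (Ebig n : Set (Z3 × Z3)) := by
  rintro e ⟨h1, h2, d, hd, h3⟩
  rw [Finset.mem_coe, mem_Ebig]
  refine ⟨?_, h1, h2⟩
  rcases h3 with h3 | h3
  · rw [← h3]
    exact bx_mono (by omega) (h.fst_mem hn hd)
  · have h4 := h.snd_mem hn hd
    rw [h3] at h4
    rw [mem_bx] at *
    intro i
    have h5 := h4 i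
    have h6 := h2.coord i
    have := abs_sub_abs_le_abs_sub (e.1 i) (e.2 i)
    push_cast at *
    linarith

open Classical in
/-- the edges touching the tiling as a finset -/
noncomputable def Efin (n : ℕ) (τ : Finset (Z3 × Z3)) : Finset (Z3 × Z3) :=
  (Ebig n).filter (· ∈ edges τ)

lemma coe_Efin (hn : 1 ≤ n) (h : IsTiling cube n τ) : (Efin n τ : Set (Z3 × Z3)) = edges τ := by
  classical
  ext e
  simp only [Efin, Finset.coe_filter, Set.mem_ofPred_eq]
  exact ⟨fun h => h.2, fun h2 => ⟨edges_subset hn h h2, h2⟩⟩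

/-- the reference sum -/
noncomputable def G (n : ℕ) (i : Fin 3) (χ : R3 → ℝ) (e : Z3 × Z3) : ℝ :=
  ((e.2 i : ℝ) - e.1 i) * χ (mid n e.1 e.2)

lemma abs_G_le (i : Fin 3) {χ : R3 → ℝ} (hχ : ∀ x, |χ x| ≤ 1) {e : Z3 × Z3} (he : Adj e.1 e.2) :
    |G n i χ e| ≤ 1 := by
  unfold G
  rw [abs_mul]
  have h1 : |(e.2 i : ℝ) - e.1 i| ≤ 1 := by
    rw [abs_sub_comm]; exact_mod_cast he.coord i
  calc _ ≤ (1:ℝ) * 1 := by
        gcongr
        exact hχ _
    _ = 1 := one_mul 1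

lemma sum_Ebig (hn : 1 ≤ n) (i : Fin 3) {χ : R3 → ℝ} (hχ : LipschitzWith 1 χ) :
    |∑ e ∈ Ebig n, G n i χ e| ≤ (2 * n + 5) ^ 3 * (2 / n) := by
  classical
  have hn' : (0 : ℝ) < n := by exact_mod_cast hn
  rw [Ebig, Finset.sum_image, Finset.sum_product]
  · calc |∑ u ∈ (bx (n + 2)).filter IsEven, ∑ s ∈ dirs, G n i χ (u, u + s)|
        ≤ ∑ u ∈ (bx (n + 2)).filter IsEven, |∑ s ∈ dirs, G n i χ (u, u + s)| :=
          Finset.abs_sum_le_sum_abs _ _
      _ ≤ ∑ u ∈ (bx (n + 2)).filter IsEven, (2 / n : ℝ) := by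
          refine Finset.sum_le_sum fun u _ => ?_
          rw [sum_dirs]
          have key : ∀ j : Fin 3, j ≠ i → G n i χ (u, u + Pi.single j 1) +
              G n i χ (u, u + -Pi.single j 1) = 0 := by
            intro j hj
            simp [G, hj.symm]
          rw [Finset.sum_eq_single i (fun j _ hj => key j hj) (fun h => absurd (Finset.mem_univ i) h)]
          have e1 : G n i χ (u, u + Pi.single i 1) = χ (mid n u (u + Pi.single i 1)) := by
            simp [G]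
          have e2 : G n i χ (u, u + -Pi.single i 1) = - χ (mid n u (u + -Pi.single i 1)) := by
            simp [G]
          rw [e1, e2, ← sub_eq_add_neg, ← Real.dist_eq]
          have a1 : Adj u (u + Pi.single i 1) := (adj_iff _ _).2 ⟨i, Or.inl rfl⟩
          have a2 : Adj u (u + -Pi.single i 1) := (adj_iff _ _).2 ⟨i, Or.inr (by abel)⟩
          have h1 := a1.dist_mid n hn
          have h2 := a2.dist_mid n hn
          calc dist (χ (mid n u (u + Pi.single i 1))) (χ (mid n u (u + -Pi.single i 1)))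
              ≤ dist (mid n u (u + Pi.single i 1)) (mid n u (u + -Pi.single i 1)) := by
                simpa using hχ.dist_le_mul (mid n u (u + Pi.single i 1)) (mid n u (u + -Pi.single i 1))
            _ ≤ dist (mid n u (u + Pi.single i 1)) (pt n u) +
                dist (mid n u (u + -Pi.single i 1)) (pt n u) := dist_triangle_right _ _ _
            _ ≤ 1 / n + 1 / n := add_le_add h1 h2
            _ = 2 / n := by ring
      _ = ((bx (n + 2)).filter IsEven).card * (2 / n : ℝ) := by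
          rw [Finset.sum_const, nsmul_eq_mul]
      _ ≤ (2 * n + 5) ^ 3 * (2 / n) := by
          gcongr
          have h1 : ((bx (n + 2)).filter IsEven).card ≤ (bx (n + 2)).card := Finset.card_filter_le _ _
          rw [card_bx] at h1
          have : (2 * (n + 2) + 1) ^ 3 = (2 * n + 5) ^ 3 := by ring
          rw [this] at h1
          exact_mod_cast h1
  · rintro ⟨a, b⟩ _ ⟨c, d⟩ _ h
    simp only [Prod.mk.injEq] at h
    obtain ⟨rfl, h2⟩ := h
    rw [add_right_inj] at h2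
    rw [h2]

lemma sum_diff (hn : 1 ≤ n) (h : IsTiling cube n τ) (i : Fin 3) {χ : R3 → ℝ} (hχ : ∀ x, |χ x| ≤ 1) :
    |∑ e ∈ Ebig n \ Efin n τ, G n i χ e| ≤ 6 * ((2 * n + 5) ^ 3 - (2 * n + 1) ^ 3) := by
  classical
  calc |∑ e ∈ Ebig n \ Efin n τ, G n i χ e| ≤ ∑ e ∈ Ebig n \ Efin n τ, |G n i χ e| :=
        Finset.abs_sum_le_sum_abs _ _
    _ ≤ ∑ e ∈ Ebig n \ Efin n τ, (1 : ℝ) := by
        refine Finset.sum_le_sum fun e he => abs_G_le i hχ ?_
        rw [Finset.mem_sdiff, mem_Ebig] at he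
        exact he.1.2.2
    _ = ((Ebig n \ Efin n τ).card : ℝ) := by simp
    _ ≤ ((((bx (n + 2)) \ bx n) ×ˢ dirs).card : ℝ) := by
        norm_cast
        refine Finset.card_le_card_of_injOn (fun e => (e.1, e.2 - e.1)) ?_ ?_
        · intro e he
          simp only [Finset.coe_sdiff, Set.mem_sdiff, Finset.mem_coe, mem_Ebig] at he
          obtain ⟨⟨h1, h2, h3⟩, h4⟩ := he
          simp only [Finset.coe_product, Finset.coe_sdiff, Set.mem_prod, Set.mem_sdiff,
            Finset.mem_coe]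
          refine ⟨⟨h1, fun h5 => h4 ?_⟩, (adj_iff_dirs _ _).1 h3⟩
          simp only [Efin, Finset.mem_filter, mem_Ebig]
          refine ⟨⟨h1, h2, h3⟩, h2, h3, ?_⟩
          rw [mem_bx] at h5
          obtain ⟨d, hd, h6⟩ := h.covers e.1 ((pt_mem_cube n hn _).2 h5)
          refine ⟨d, hd, Or.inl ?_⟩
          rcases h6 with h6 | h6
          · exact h6
          · exfalso
            have h7 := h.dimer d hd
            rw [← h6, h7.2.parity] at h2
            exact h2 h7.1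
        · rintro ⟨a, b⟩ _ ⟨c, d⟩ _ hh
          simp only [Prod.mk.injEq] at hh
          obtain ⟨rfl, h2⟩ := hh
          rw [sub_left_inj] at h2
          rw [h2]
    _ = 6 * ((2 * n + 5) ^ 3 - (2 * n + 1) ^ 3) := by
        rw [Finset.card_product, card_dirs, Finset.card_sdiff_of_subset (bx_mono (by omega)),
          card_bx, card_bx]
        have : (2 * n + 1) ^ 3 ≤ (2 * (n + 2) + 1) ^ 3 := by gcongr; omega
        push_cast [Nat.cast_sub this]
        ring

/-- the contribution of the reference flow is small -/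
lemma ref_small (hn : 1 ≤ n) (h : IsTiling cube n τ) (i : Fin 3) {χ : R3 → ℝ} (hχ : χ ∈ BL) :
    |2 / (n : ℝ) ^ 3 * ∑ e ∈ Efin n τ, G n i χ e| ≤ (10000 : ℝ) / n := by
  classical
  have hn' : (1 : ℝ) ≤ n := by exact_mod_cast hn
  have h1 := sum_Ebig hn i hχ.2
  have h2 := sum_diff hn h i hχ.1
  have h3 : ∑ e ∈ Ebig n \ Efin n τ, G n i χ e + ∑ e ∈ Efin n τ, G n i χ e = ∑ e ∈ Ebig n, G n i χ e :=
    Finset.sum_sdiff (Finset.filter_subset _ _)
  have h4 : ∑ e ∈ Efin n τ, G n i χ e = ∑ e ∈ Ebig n, G n i χ e - ∑ e ∈ Ebig n \ Efin n τ, G n i χ e := by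
    linarith
  rw [abs_mul, abs_of_pos (by positivity : (0:ℝ) < 2 / (n : ℝ) ^ 3), h4]
  have h5 : |∑ e ∈ Ebig n, G n i χ e - ∑ e ∈ Ebig n \ Efin n τ, G n i χ e| ≤
      (2 * n + 5) ^ 3 * (2 / n) + 6 * ((2 * n + 5) ^ 3 - (2 * n + 1) ^ 3) :=
    (norm_sub_le (∑ e ∈ Ebig n, G n i χ e) (∑ e ∈ Ebig n \ Efin n τ, G n i χ e)).trans (add_le_add h1 h2)
  calc 2 / (n : ℝ) ^ 3 * |∑ e ∈ Ebig n, G n i χ e - ∑ e ∈ Ebig n \ Efin n τ, G n i χ e|
      ≤ 2 / (n : ℝ) ^ 3 * ((2 * n + 5) ^ 3 * (2 / n) + 6 * ((2 * n + 5) ^ 3 - (2 * n + 1) ^ 3)) := by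
        gcongr
    _ ≤ 2 / (n : ℝ) ^ 3 * (5000 * n ^ 2) := by
        gcongr
        have e1 : (2 * (n:ℝ) + 5) ^ 3 * (2 / n) ≤ (7 * n) ^ 3 * (2 / n) := by
          gcongr; linarith
        have e2 : (7 * (n:ℝ)) ^ 3 * (2 / n) = 686 * n ^ 2 := by
          field_simp; ring
        have e3 : 6 * ((2 * (n:ℝ) + 5) ^ 3 - (2 * n + 1) ^ 3) ≤ 6 * (588 * n ^ 2) := by
          gcongr
          nlinarith
        nlinarith
    _ = 10000 / n := by field_simp; ring

end Pool.Agent.Lib_helper52.Dimer
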