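import Pool.Agent.Lib_helper52.DimerTrace

open MeasureTheory Filter Topology
open scoped ENNReal ContDiff

namespace Pool.Agent.Lib_helper52.Dimer

lemma isOpenMap_co (i : Fin 3) : IsOpenMap (fun x : R3 => x i) := by
  have h : Function.Surjective (co i) := fun c => ⟨EuclideanSpace.single i c, by simp [co_apply]⟩
  exact (co i).isOpenMap h

lemma continuous_co (i : Fin 3) : Continuous (fun x : R3 => x i) := PiLp.continuous_apply 2 _ i

lemma interior_cube : interior cube = {x | ∀ i, |x i| < 1} := by
  have h1 : cube = ⋂ i : Fin 3, (fun x : R3 => x i) ⁻¹' Set.Icc (-1) 1 := by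
    ext x; simp only [cube, Set.mem_ofPred_eq, Set.mem_iInter, Set.mem_preimage, Set.mem_Icc, abs_le]
  rw [h1, interior_iInter_of_finite]
  ext x
  simp only [Set.mem_iInter, Set.mem_ofPred_eq]
  refine forall_congr' fun i => ?_
  rw [← (isOpenMap_co i).preimage_interior_eq_interior_preimage (continuous_co i), interior_Icc,
    Set.mem_preimage, Set.mem_Ioo, abs_lt]

lemma mem_frontier_cube (x : R3) : x ∈ frontier cube ↔ (∀ i, |x i| ≤ 1) ∧ ∃ i, |x i| = 1 := by
  rw [isClosed_cube.frontier_eq, interior_cube, Set.mem_sdiff]
  simp only [cube, Set.mem_ofPred_eq, not_forall, not_lt]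
  refine and_congr_right fun h => ?_
  exact exists_congr fun i => ⟨fun h2 => le_antisymm (h i) h2, fun h2 => h2.ge⟩

lemma convex_cube : Convex ℝ cube := by
  intro x hx y hy a b ha hb hab i
  calc |(a • x + b • y) i| = |a * x i + b * y i| := by simp
    _ ≤ |a * x i| + |b * y i| := abs_add_le _ _
    _ = a * |x i| + b * |y i| := by rw [abs_mul, abs_mul, abs_of_nonneg ha, abs_of_nonneg hb]
    _ ≤ a * 1 + b * 1 := by gcongr; exacts [hx i, hy i]
    _ = 1 := by rw [mul_one, mul_one, hab]

lemma interior_nonempty : (interior cube).Nonempty := ⟨0, by rw [interior_cube]; intro i; simp⟩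

/-- linear part of the face parametrisation -/
noncomputable def Lf (i : Fin 3) : EuclideanSpace ℝ (Fin 2) →L[ℝ] R3 :=
  LinearMap.toContinuousLinearMap
    { toFun := fun v => P i 0 (fun j => 2 * v j)
      map_add' := fun v w => by
        ext k
        rcases Fin.eq_self_or_eq_succAbove i k with h | ⟨j, h⟩
        · subst h; simp [P]
        · subst h; simp [P, mul_add]
      map_smul' := fun c v => by
        ext k
        rcases Fin.eq_self_or_eq_succAbove i k with h | ⟨j, h⟩
        · subst h; simp [P]
        · subst h; simp [P]; ring }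

lemma Lf_apply (i : Fin 3) (v : EuclideanSpace ℝ (Fin 2)) : Lf i v = P i 0 (fun j => 2 * v j) := rfl

lemma Lf_injective (i : Fin 3) : Function.Injective (Lf i) := by
  intro v w h
  ext j
  have := congrArg (fun x : R3 => x (i.succAbove j)) h
  simpa [Lf_apply, P] using this

/-- sign -/
noncomputable def sg (b : Bool) : ℝ := if b then 1 else -1

lemma abs_sg (b : Bool) : |sg b| = 1 := by cases b <;> simp [sg]

/-- parametrisation of the faces of the cube -/
noncomputable def psi (q : Fin 3 × Bool) (y : EuclideanSpace ℝ (Fin 2)) : R3 :=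
  P q.1 (sg q.2) (fun _ => -1) + Lf q.1 y

lemma psi_same (q : Fin 3 × Bool) (y : EuclideanSpace ℝ (Fin 2)) : psi q y q.1 = sg q.2 := by
  simp [psi, Lf_apply, P]

lemma psi_succ (q : Fin 3 × Bool) (y : EuclideanSpace ℝ (Fin 2)) (j : Fin 2) :
    psi q y (q.1.succAbove j) = 2 * y j - 1 := by
  simp [psi, Lf_apply, P]; ring

lemma fderiv_psi (q : Fin 3 × Bool) (y : EuclideanSpace ℝ (Fin 2)) :
    fderiv ℝ (psi q) y = Lf q.1 := by
  have : psi q = fun y => P q.1 (sg q.2) (fun _ => -1) + Lf q.1 y := rfl
  rw [this, fderiv_const_add]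
  exact (Lf q.1).fderiv

lemma interior_square_sub {y : EuclideanSpace ℝ (Fin 2)} (hy : y ∈ interior square) (j : Fin 2) :
    0 < y j ∧ y j < 1 := by
  have hsurj : Function.Surjective (EuclideanSpace.proj j : EuclideanSpace ℝ (Fin 2) →L[ℝ] ℝ) :=
    fun c => ⟨EuclideanSpace.single j c, by simp⟩
  have hopen : IsOpenMap (fun y : EuclideanSpace ℝ (Fin 2) => y j) :=
    (EuclideanSpace.proj j : EuclideanSpace ℝ (Fin 2) →L[ℝ] ℝ).isOpenMap hsurj
  have hcont : Continuous (fun y : EuclideanSpace ℝ (Fin 2) => y j) := PiLp.continuous_apply 2 _ j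
  have h1 : square ⊆ (fun y : EuclideanSpace ℝ (Fin 2) => y j) ⁻¹' Set.Icc 0 1 := fun z hz => hz j
  have h2 := interior_mono h1 hy
  rw [← hopen.preimage_interior_eq_interior_preimage hcont, interior_Icc] at h2
  exact h2

lemma piecewiseSmooth_cube : PiecewiseSmooth (frontier cube) := by
  refine ⟨Fin 3 × Bool, inferInstance, psi, ?_, ?_, ?_, ?_, ?_⟩
  · intro q
    exact contDiff_const.add (Lf q.1).contDiff
  · intro q y _ z _ h
    exact Lf_injective q.1 (add_left_cancel h)
  · intro q y _
    rw [fderiv_psi]
    exact Lf_injective q.1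
  · intro q r hqr
    rw [Set.disjoint_left]
    rintro x ⟨y, hy, rfl⟩ ⟨z, hz, h⟩
    by_cases hi : q.1 = r.1
    · have h1 : psi r z q.1 = psi q y q.1 := congrArg (fun x : R3 => x q.1) h
      rw [psi_same] at h1
      rw [hi, psi_same] at h1
      apply hqr
      ext1
      · exact hi
      · cases hq : q.2 <;> cases hr : r.2 <;> simp [sg, hq, hr] at h1 ⊢ <;> norm_num at h1
    · obtain ⟨j, hj⟩ := Fin.exists_succAbove_eq hi
      have h1 : psi r z q.1 = psi q y q.1 := congrArg (fun x : R3 => x q.1) h
      rw [psi_same, ← hj, psi_succ] at h1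
      have h2 := interior_square_sub hz j
      have h3 := abs_sg q.2
      rw [← h1, abs_eq (by norm_num)] at h3
      rcases h3 with h3 | h3 <;> linarith [h2.1, h2.2]
  · ext x
    rw [mem_frontier_cube]
    simp only [Set.mem_iUnion, Set.mem_image, Prod.exists]
    constructor
    · rintro ⟨h1, i, h2⟩
      have : ∃ b, x i = sg b := by
        rcases (abs_eq (by norm_num : (0:ℝ) ≤ 1)).1 h2 with h | h
        · exact ⟨true, by simpa [sg] using h⟩
        · exact ⟨false, by simpa [sg] using h⟩
      obtain ⟨b, hb⟩ := this
      refine ⟨i, b, WithLp.toLp 2 (fun j => (x (i.succAbove j) + 1) / 2), ?_, ?_⟩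
      · intro j
        have := abs_le.1 (h1 (i.succAbove j))
        simp only [Set.mem_Icc]
        constructor <;> linarith [this.1, this.2]
      · ext k
        rcases Fin.eq_self_or_eq_succAbove i k with h | ⟨j, h⟩
        · subst h
          have := psi_same (k, b) (WithLp.toLp 2 (fun j => (x (k.succAbove j) + 1) / 2))
          simp only at this
          rw [this, hb]
        · subst h
          have := psi_succ (i, b) (WithLp.toLp 2 (fun j => (x (i.succAbove j) + 1) / 2)) j
          simp only at this
          rw [this]; ring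
    · rintro ⟨i, b, y, hy, rfl⟩
      constructor
      · intro k
        rcases Fin.eq_self_or_eq_succAbove i k with h | ⟨j, h⟩
        · subst h
          rw [show psi (k, b) y k = sg b from psi_same (k, b) y, abs_sg]
        · subst h
          rw [show psi (i, b) y (i.succAbove j) = 2 * y j - 1 from psi_succ (i, b) y j, abs_le]
          have := hy j
          simp only [Set.mem_Icc] at this
          constructor <;> linarith [this.1, this.2]
      · exact ⟨i, by rw [show psi (i, b) y i = sg b from psi_same (i, b) y, abs_sg]⟩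

theorem isRegion_cube : IsRegion cube := by
  refine ⟨isCompact_cubeR 1, ⟨interior cube, isOpen_interior, ⟨interior_nonempty, ?_⟩, ?_⟩,
    piecewiseSmooth_cube⟩
  · exact convex_cube.interior.isPreconnected
  · rw [convex_cube.closure_interior_eq_closure_of_nonempty_interior interior_nonempty,
      isClosed_cube.closure_eq]

lemma continuous_Pi (i : Fin 3) (c : ℝ) : Continuous fun y : Fin 2 → ℝ => P i c y :=
  (continuous_P i).comp (continuous_const.prodMk continuous_id)

/-- surface measure on a face of the cube -/
noncomputable def faceMeasure (i : Fin 3) (c : ℝ) : Measure R3 :=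
  (volume.restrict sq2).map (P i c)

instance (i : Fin 3) (c : ℝ) : IsFiniteMeasure (faceMeasure i c) := by
  have : IsFiniteMeasure (volume.restrict sq2) := ⟨by
    rw [Measure.restrict_apply_univ]; exact isCompact_sq2.measure_lt_top⟩
  unfold faceMeasure
  infer_instance

lemma faceMeasure_carried (i : Fin 3) (c : ℝ) (hc : |c| = 1) :
    faceMeasure i c (frontier cube)ᶜ = 0 := by
  unfold faceMeasure
  rw [Measure.map_apply (continuous_Pi i c).measurable isClosed_frontier.measurableSet.compl,
    Measure.restrict_apply ((continuous_Pi i c).measurable isClosed_frontier.measurableSet.compl)]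
  convert measure_empty (μ := volume)
  ext y
  simp only [Set.mem_inter_iff, Set.mem_preimage, Set.mem_compl_iff, Set.mem_empty_iff_false, iff_false,
    not_and, not_not]
  intro h hy
  apply h
  rw [mem_frontier_cube]
  have h2 : P i c y ∈ cube := (P_mem_cube i c y).2 ⟨hc.le, hy⟩
  exact ⟨h2, i, by rw [P_same, hc]⟩

/-- The boundary data: unit outflow through the faces `x₁ = ± 1`, unit inflow through the faces
`x₂ = ± 1`, no flow through the faces `x₃ = ± 1`. -/
noncomputable def b0 : BoundaryData cube where
  pos := faceMeasure 0 1 + faceMeasure 0 (-1)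
  neg := faceMeasure 1 1 + faceMeasure 1 (-1)
  finite_pos := inferInstance
  finite_neg := inferInstance
  pos_carried := by
    rw [Measure.add_apply, faceMeasure_carried 0 1 (by simp), faceMeasure_carried 0 (-1) (by simp),
      add_zero]
  neg_carried := by
    rw [Measure.add_apply, faceMeasure_carried 1 1 (by simp), faceMeasure_carried 1 (-1) (by simp),
      add_zero]

lemma integral_faceMeasure (i : Fin 3) (c : ℝ) {φ : R3 → ℝ} (hφ : Continuous φ) :
    ∫ x, φ x ∂(faceMeasure i c) = ∫ y in sq2, φ (P i c y) := by
  unfold faceMeasure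
  rw [integral_map (continuous_Pi i c).measurable.aemeasurable hφ.aestronglyMeasurable]

lemma integrable_faceMeasure (i : Fin 3) (c : ℝ) {φ : R3 → ℝ} (hφ : Continuous φ) :
    Integrable φ (faceMeasure i c) := by
  unfold faceMeasure
  rw [integrable_map_measure hφ.aestronglyMeasurable (continuous_Pi i c).measurable.aemeasurable]
  exact (hφ.comp (continuous_Pi i c)).continuousOn.integrableOn_compact isCompact_sq2

theorem hasTrace_g0 : HasTrace cube g0 b0 := by
  intro φ hφ
  have hc := hφ.continuous
  rw [trace_g0 hφ]
  unfold b0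
  simp only
  have hcc : ∀ (i : Fin 3) (c : ℝ), IntegrableOn (fun y => φ (P i c y)) sq2 := fun i c =>
    (hc.comp (continuous_Pi i c)).continuousOn.integrableOn_compact isCompact_sq2
  rw [integral_add_measure (integrable_faceMeasure 0 1 hc) (integrable_faceMeasure 0 (-1) hc),
    integral_add_measure (integrable_faceMeasure 1 1 hc) (integrable_faceMeasure 1 (-1) hc),
    integral_faceMeasure _ _ hc, integral_faceMeasure _ _ hc, integral_faceMeasure _ _ hc,
    integral_faceMeasure _ _ hc, integral_add (hcc _ _) (hcc _ _), integral_add (hcc _ _) (hcc _ _)]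

end Pool.Agent.Lib_helper52.Dimer
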