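import Pool.Agent.Lib_helper52.DimerGib

/-!
# Rotation of the coordinates
-/

open MeasureTheory Filter Topology ProbabilityTheory
open scoped ENNReal symmDiff

namespace Pool.Agent.Lib_helper52.Dimer

/-- cyclic rotation of the coordinates -/
def rz (v : Z3) : Z3 := fun i => v (i + 1)

/-- inverse rotation -/
def rz' (v : Z3) : Z3 := fun i => v (i + 2)

@[simp] lemma rz_rz' (v : Z3) : rz (rz' v) = v := by
  funext i; fin_cases i <;> rfl

@[simp] lemma rz'_rz (v : Z3) : rz' (rz v) = v := by
  funext i; fin_cases i <;> rfl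

lemma lev_rz (v : Z3) : lev (rz v) = lev v := by
  show v 1 + v 2 + v 0 = v 0 + v 1 + v 2
  ring

lemma lev_rz' (v : Z3) : lev (rz' v) = lev v := by
  rw [← lev_rz (rz' v), rz_rz']

lemma isEven_rz (v : Z3) : IsEven (rz v) ↔ IsEven v := by
  rw [isEven_lev, isEven_lev, lev_rz]

lemma isEven_rz' (v : Z3) : IsEven (rz' v) ↔ IsEven v := by
  rw [isEven_lev, isEven_lev, lev_rz']

lemma adj_rz {u v : Z3} (h : Adj u v) : Adj (rz u) (rz v) := by
  unfold Adj at *
  rw [← h]
  simp only [Fin.sum_univ_three]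
  show |u 1 - v 1| + |u 2 - v 2| + |u 0 - v 0| = _
  ring

lemma adj_rz' {u v : Z3} (h : Adj u v) : Adj (rz' u) (rz' v) := by
  unfold Adj at *
  rw [← h]
  simp only [Fin.sum_univ_three]
  show |u 2 - v 2| + |u 0 - v 0| + |u 1 - v 1| = _
  ring

/-- rotation of a configuration -/
def rot (m : Config) : Config :=
  ⟨fun v => rz (m.1 (rz' v)), fun v => by
    have h := adj_rz (m.2.1 (rz' v))
    rwa [rz_rz'] at h, fun v => by
    show rz (m.1 (rz' (rz (m.1 (rz' v))))) = v
    rw [rz'_rz, m.2.2, rz_rz']⟩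

lemma rot_apply (m : Config) (v : Z3) : (rot m).1 v = rz (m.1 (rz' v)) := rfl

lemma measurable_rz : Measurable rz := measurable_pi_iff.2 fun i => measurable_pi_apply (i + 1)

lemma measurable_rot : Measurable rot := measurable_config fun v =>
  measurable_rz.comp (measurable_eval (rz' v))

lemma FType.rot {m : Config} (h : FType m) : FType (rot m) := by
  intro v hv
  rw [rot_apply, lev_rz, h _ ((isEven_rz' v).2 hv), lev_rz']

lemma rz_add (u v : Z3) : rz (u + v) = rz u + rz v := rfl

lemma rz'_sub (u v : Z3) : rz' (u - v) = rz' u - rz' v := rfl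

lemma shift_rot (a : Z3) (m : Config) : shift a (rot m) = rot (shift (rz' a) m) := by
  apply Subtype.ext
  funext v
  rw [shift_apply, rot_apply, rot_apply, shift_apply, rz_add, rz_rz', rz'_sub]

variable {μ : Measure Config}

open Classical in
theorem IsNice.rot (h : IsNice μ) : IsNice (μ.map rot) where
  prob := by
    have := h.prob
    exact Measure.isProbabilityMeasure_map measurable_rot.aemeasurable
  invariant := fun a ha => by
    rw [Measure.map_map (measurable_shift a) measurable_rot]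
    have h1 : shift a ∘ Dimer.rot = Dimer.rot ∘ shift (rz' a) := by
      funext m; exact shift_rot a m
    rw [h1, ← Measure.map_map measurable_rot (measurable_shift _), h.invariant _ ((isEven_rz' a).2 ha)]
  ftype := by
    rw [ae_map_iff measurable_rot.aemeasurable measurableSet_ftype]
    filter_upwards [h.ftype] with m hm
    exact hm.rot
  gibbs := fun Λ p q hp hq B hB => by
    set Λ' : Finset Z3 := Λ.image rz' with hΛ'
    have hmem : ∀ w, w ∈ Λ' ↔ rz w ∈ Λ := by
      intro w
      rw [hΛ', Finset.mem_image]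
      constructor
      · rintro ⟨v, hv, rfl⟩
        rwa [rz_rz']
      · intro hw
        exact ⟨rz w, hw, rz'_rz w⟩
    have hmatch : ∀ p : Z3 → Z3, MatchingOn Λ p → MatchingOn Λ' (fun w => rz' (p (rz w))) := by
      intro p hp w hw
      rw [hmem] at hw
      obtain ⟨h1, h2, h3⟩ := hp _ hw
      refine ⟨?_, ?_, ?_⟩
      · rw [hmem, rz_rz']
        exact h1
      · have := adj_rz' h2
        rwa [rz'_rz] at this
      · simp only [rz_rz']
        rw [h3, rz'_rz]
    have hout : ∀ v : {v : Z3 // v ∉ Λ}, rz' v.1 ∉ Λ' := fun v hv => by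
      rw [hmem, rz_rz'] at hv
      exact v.2 hv
    set F : ({v : Z3 // v ∉ Λ'} → Z3) → ({v : Z3 // v ∉ Λ} → Z3) :=
      fun f v => rz (f ⟨rz' v.1, hout v⟩) with hF
    have hFm : Measurable F := measurable_pi_iff.2 fun v =>
      measurable_rz.comp (measurable_pi_apply (⟨rz' v.1, hout v⟩ : {v : Z3 // v ∉ Λ'}))
    have e : ∀ p : Z3 → Z3, (μ.map Dimer.rot) {m | (∀ v ∈ Λ, m.1 v = p v) ∧
        (fun v : {v : Z3 // v ∉ Λ} => m.1 v) ∈ B} =
        μ {m | (∀ v ∈ Λ', m.1 v = rz' (p (rz v))) ∧ (fun v : {v : Z3 // v ∉ Λ'} => m.1 v) ∈ F ⁻¹' B} := by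
      intro p
      have hms : MeasurableSet {m : Config | (∀ v ∈ Λ, m.1 v = p v) ∧
        (fun v : {v : Z3 // v ∉ Λ} => m.1 v) ∈ B} :=
        (measurableSet_match Λ p).inter ((measurable_out Λ) hB)
      rw [Measure.map_apply measurable_rot hms]
      congr 1
      ext m
      simp only [Set.mem_preimage, Set.mem_ofPred_eq]
      refine and_congr ?_ ?_
      · constructor
        · intro h v hv
          rw [hmem] at hv
          rw [← h _ hv, rot_apply, rz'_rz, rz'_rz]
        · intro h v hv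
          have h1 := h (rz' v) (by rw [hmem, rz_rz']; exact hv)
          rw [rot_apply, h1, rz_rz', rz_rz']
      · rfl
    rw [e p, e q]
    exact h.gibbs Λ' _ _ (hmatch p hp) (hmatch q hq) _ (hFm hB)

/-- the average of three measures -/
noncomputable def avg3 (μ₁ μ₂ μ₃ : Measure Config) : Measure Config := (3 : ℝ≥0∞)⁻¹ • (μ₁ + μ₂ + μ₃)

lemma three_inv_mul : (3 : ℝ≥0∞)⁻¹ * (1 + 1 + 1) = 1 := by
  have : (1 + 1 + 1 : ℝ≥0∞) = 3 := by norm_num
  rw [this]
  exact ENNReal.inv_mul_cancel (by norm_num) (by norm_num)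

theorem IsNice.avg3 {μ₁ μ₂ μ₃ : Measure Config} (h₁ : IsNice μ₁) (h₂ : IsNice μ₂) (h₃ : IsNice μ₃) :
    IsNice (avg3 μ₁ μ₂ μ₃) where
  prob := by
    have := h₁.prob
    have := h₂.prob
    have := h₃.prob
    constructor
    rw [Dimer.avg3, Measure.smul_apply, Measure.add_apply, Measure.add_apply]
    simp only [measure_univ, smul_eq_mul]
    exact three_inv_mul
  invariant := fun a ha => by
    rw [Dimer.avg3, Measure.map_smul, Measure.map_add _ _ (measurable_shift a),
      Measure.map_add _ _ (measurable_shift a), h₁.invariant a ha, h₂.invariant a ha,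
      h₃.invariant a ha]
  ftype := by
    refine Measure.ae_smul_measure ?_ _
    rw [ae_add_measure_iff, ae_add_measure_iff]
    exact ⟨⟨h₁.ftype, h₂.ftype⟩, h₃.ftype⟩
  gibbs := fun Λ p q hp hq B hB => by
    simp only [Dimer.avg3, Measure.smul_apply, Measure.add_apply]
    rw [h₁.gibbs Λ p q hp hq B hB, h₂.gibbs Λ p q hp hq B hB, h₃.gibbs Λ p q hp hq B hB]

/-! ### Mean currents -/

lemma abs_cur_le (m : Config) (i : Fin 3) : |((m.1 0 i : ℤ) : ℝ)| ≤ 1 := by
  have h := (m.2.1 0).coord i
  simp only [Pi.zero_apply, zero_sub, abs_neg] at h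
  exact_mod_cast h

lemma measurable_cur (i : Fin 3) : Measurable fun m : Config => ((m.1 0 i : ℤ) : ℝ) :=
  (measurable_from_top (f := fun z : ℤ => (z : ℝ))).comp ((measurable_pi_apply i).comp (measurable_eval 0))

lemma integrable_cur [IsFiniteMeasure μ] (i : Fin 3) :
    Integrable (fun m : Config => ((m.1 0 i : ℤ) : ℝ)) μ :=
  Integrable.of_bound (measurable_cur i).aestronglyMeasurable 1
    (Eventually.of_forall fun m => abs_cur_le m i)

lemma meanCurrent_apply [IsFiniteMeasure μ] (i : Fin 3) :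
    meanCurrent μ i = ∫ m, ((m.1 0 i : ℤ) : ℝ) ∂μ := by
  unfold meanCurrent
  exact eval_integral_piLp (f := fun m : Config => (WithLp.toLp 2 (fun i => ((m.1 0 i : ℤ) : ℝ)) : R3))
    (fun i => integrable_cur i) i

end Pool.Agent.Lib_helper52.Dimer
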