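import Pool.Agent.Lib_helper52.DimerOct

open MeasureTheory Filter Topology
open scoped ENNReal ContDiff

namespace Pool.Agent.Lib_helper52.Dimer

/-- second basis vector of the lattice -/
def z1 : Z3 := Pi.single 1 1

@[simp] lemma z1_0 : z1 0 = 0 := rfl
@[simp] lemma z1_1 : z1 1 = 1 := rfl
@[simp] lemma z1_2 : z1 2 = 0 := rfl

/-- direction of the dimer at an even vertex -/
noncomputable def stp (v : Z3) : Z3 :=
  if 0 ≤ v 0 + v 2 % 2 + v 1 ∧ 0 ≤ v 0 + v 2 % 2 - v 1 then z0
  else if 0 ≤ v 0 + v 2 % 2 + v 1 then -z1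
  else if 0 < v 0 + v 2 % 2 - v 1 then z1
  else -z0

/-- partner of an odd vertex -/
noncomputable def prv (w : Z3) : Z3 :=
  if 1 ≤ w 0 + w 2 % 2 + w 1 ∧ 1 ≤ w 0 + w 2 % 2 - w 1 then w - z0
  else if -1 ≤ w 0 + w 2 % 2 + w 1 ∧ w 0 + w 2 % 2 - w 1 ≤ -1 then w + z1
  else if 1 ≤ w 0 + w 2 % 2 - w 1 then w - z1
  else w + z0

lemma stp_cases (v : Z3) : stp v = z0 ∨ stp v = -z1 ∨ stp v = z1 ∨ stp v = -z0 := by
  unfold stp; split_ifs <;> simp

lemma adj_stp (v : Z3) : Adj v (v + stp v) := by
  rcases stp_cases v with h | h | h | h <;> rw [h] <;> simp [Adj, Fin.sum_univ_three]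

lemma isEven_prv {w : Z3} (hw : ¬ IsEven w) : IsEven (prv w) := by
  rw [isEven_iff] at hw
  rw [isEven_iff]
  unfold prv
  split_ifs <;> simp <;> omega

lemma prv_add_stp {w : Z3} (hw : ¬ IsEven w) : prv w + stp (prv w) = w := by
  rw [isEven_iff] at hw
  unfold prv
  split_ifs with h1 h2 h3
  · have c0 : (w - z0) 0 = w 0 - 1 := by simp
    have c1 : (w - z0) 1 = w 1 := by simp
    have c2 : (w - z0) 2 = w 2 := by simp
    have : stp (w - z0) = z0 := by
      unfold stp
      rw [if_pos (by omega)]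
    rw [this]; abel
  · have c0 : (w + z1) 0 = w 0 := by simp
    have c1 : (w + z1) 1 = w 1 + 1 := by simp
    have c2 : (w + z1) 2 = w 2 := by simp
    have : stp (w + z1) = -z1 := by
      unfold stp
      rw [if_neg (by omega), if_pos (by omega)]
    rw [this]; abel
  · have c0 : (w - z1) 0 = w 0 := by simp
    have c1 : (w - z1) 1 = w 1 - 1 := by simp
    have c2 : (w - z1) 2 = w 2 := by simp
    have : stp (w - z1) = z1 := by
      unfold stp
      rw [if_neg (by omega), if_neg (by omega), if_pos (by omega)]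
    rw [this]; abel
  · have c0 : (w + z0) 0 = w 0 + 1 := by simp
    have c1 : (w + z0) 1 = w 1 := by simp
    have c2 : (w + z0) 2 = w 2 := by simp
    have : stp (w + z0) = -z0 := by
      unfold stp
      rw [if_neg (by omega), if_neg (by omega), if_neg (by omega)]
    rw [this]; abel

lemma prv_stp {u : Z3} (hu : IsEven u) : prv (u + stp u) = u := by
  rw [isEven_iff] at hu
  unfold stp
  split_ifs with h1 h2 h3
  · have c0 : (u + z0) 0 = u 0 + 1 := by simp
    have c1 : (u + z0) 1 = u 1 := by simp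
    have c2 : (u + z0) 2 = u 2 := by simp
    unfold prv
    rw [if_pos (by omega)]; abel
  · have c0 : (u + -z1) 0 = u 0 := by simp
    have c1 : (u + -z1) 1 = u 1 - 1 := by simp; ring
    have c2 : (u + -z1) 2 = u 2 := by simp
    unfold prv
    rw [if_neg (by omega), if_pos (by omega)]; abel
  · have c0 : (u + z1) 0 = u 0 := by simp
    have c1 : (u + z1) 1 = u 1 + 1 := by simp
    have c2 : (u + z1) 2 = u 2 := by simp
    unfold prv
    rw [if_neg (by omega), if_neg (by omega), if_pos (by omega)]; abel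
  · have c0 : (u + -z0) 0 = u 0 - 1 := by simp; ring
    have c1 : (u + -z0) 1 = u 1 := by simp
    have c2 : (u + -z0) 2 = u 2 := by simp
    unfold prv
    rw [if_neg (by omega), if_neg (by omega), if_neg (by omega)]; abel

open Classical in
/-- the explicit tilings -/
noncomputable def til (n : ℕ) : Finset (Z3 × Z3) :=
  ((bx (n + 1)).filter fun u => IsEven u ∧ (u ∈ bx n ∨ u + stp u ∈ bx n)).image
    fun u => (u, u + stp u)

lemma mem_til (n : ℕ) (e : Z3 × Z3) :
    e ∈ til n ↔ IsEven e.1 ∧ e.2 = e.1 + stp e.1 ∧ (e.1 ∈ bx n ∨ e.2 ∈ bx n) := by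
  classical
  simp only [til, Finset.mem_image, Finset.mem_filter]
  constructor
  · rintro ⟨u, ⟨h1, h2, h3⟩, rfl⟩
    exact ⟨h2, rfl, h3⟩
  · rintro ⟨h1, h2, h3⟩
    refine ⟨e.1, ⟨?_, h1, by rw [← h2]; exact h3⟩, by rw [← h2]⟩
    rcases h3 with h3 | h3
    · exact bx_mono (by omega) h3
    · rw [mem_bx] at *
      intro i
      have h4 := (adj_stp e.1).coord i
      rw [← h2] at h4
      have := abs_sub_abs_le_abs_sub (e.1 i) (e.2 i)
      have := h3 i
      push_cast
      linarith

lemma isTiling_til {n : ℕ} (hn : 1 ≤ n) : IsTiling cube n (til n) := by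
  have hc : ∀ v, pt n v ∈ cube ↔ v ∈ bx n := fun v => by rw [pt_mem_cube n hn, mem_bx]
  refine ⟨?_, ?_, ?_, ?_, ?_⟩
  · intro e he
    rw [mem_til] at he
    exact ⟨he.1, by rw [he.2.1]; exact adj_stp _⟩
  · intro e he e' he' h
    rw [mem_til] at he he'
    ext1
    · exact h
    · rw [he.2.1, he'.2.1, h]
  · intro e he e' he' h
    rw [mem_til] at he he'
    have h1 : e.1 = e'.1 := by
      rw [← prv_stp he.1, ← prv_stp he'.1, ← he.2.1, ← he'.2.1, h]
    ext1
    · exact h1
    · exact h
  · intro v hv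
    rw [hc] at hv
    by_cases hev : IsEven v
    · exact ⟨(v, v + stp v), (mem_til _ _).2 ⟨hev, rfl, Or.inl hv⟩, Or.inl rfl⟩
    · refine ⟨(prv v, v), (mem_til _ _).2 ⟨isEven_prv hev, (prv_add_stp hev).symm, Or.inr hv⟩, Or.inr rfl⟩
  · intro e he
    rw [mem_til] at he
    rw [hc, hc]
    exact he.2.2

lemma mem_image_til (n : ℕ) (u : Z3) :
    u ∈ (til n).image Prod.fst ↔ IsEven u ∧ (u ∈ bx n ∨ u + stp u ∈ bx n) := by
  rw [Finset.mem_image]
  constructor
  · rintro ⟨e, he, rfl⟩
    rw [mem_til] at he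
    refine ⟨he.1, ?_⟩
    rw [← he.2.1]
    exact he.2.2
  · rintro ⟨h1, h2⟩
    exact ⟨(u, u + stp u), (mem_til _ _).2 ⟨h1, rfl, h2⟩, rfl⟩

/-- The frozen field: `e₁`, `-e₂`, `e₂`, `-e₁` on the sectors `x > |y|`, `y > |x|`, `y < -|x|`,
`x < -|y|`. -/
noncomputable def g0 (x : R3) : R3 :=
  if 0 ≤ x 0 + x 1 ∧ 0 ≤ x 0 - x 1 then EuclideanSpace.single 0 1
  else if 0 ≤ x 0 + x 1 then -EuclideanSpace.single 1 1
  else if 0 < x 0 - x 1 then EuclideanSpace.single 1 1
  else -EuclideanSpace.single 0 1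

lemma measurable_g0 : Measurable g0 := by
  have h0 : Measurable fun x : R3 => x 0 := (PiLp.continuous_apply 2 _ 0).measurable
  have h1 : Measurable fun x : R3 => x 1 := (PiLp.continuous_apply 2 _ 1).measurable
  unfold g0
  refine Measurable.ite ?_ measurable_const (Measurable.ite ?_ measurable_const
    (Measurable.ite ?_ measurable_const measurable_const))
  · exact (measurableSet_le measurable_const (h0.add h1)).inter
      (measurableSet_le measurable_const (h0.sub h1))
  · exact measurableSet_le measurable_const (h0.add h1)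
  · exact measurableSet_lt measurable_const (h0.sub h1)

lemma g0_cases (x : R3) : g0 x = EuclideanSpace.single 0 1 ∨ g0 x = -EuclideanSpace.single 1 1 ∨
    g0 x = EuclideanSpace.single 1 1 ∨ g0 x = -EuclideanSpace.single 0 1 := by
  unfold g0; split_ifs <;> simp

lemma norm_g0 (x : R3) : ‖g0 x‖ = 1 := by
  rcases g0_cases x with h | h | h | h <;> rw [h] <;> simp

lemma abs_g0_le (x : R3) (i : Fin 3) : |g0 x i| ≤ 1 := by
  have := PiLp.norm_apply_le (g0 x) i
  rw [norm_g0] at this
  exact this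

/-- evaluation of a linear functional near a point -/
lemma fl_near (n : ℕ) (x : R3) (i : Fin 3) :
    (n : ℝ) * x i - 2 ≤ (ev (fl n x) i : ℝ) ∧ (ev (fl n x) i : ℝ) ≤ n * x i := by
  have h1 := ev_coord (fl n x) i
  have h2 := Int.floor_le ((n : ℝ) * x i)
  have h3 := Int.lt_floor_add_one ((n : ℝ) * x i)
  have h4 : (fl n x i : ℝ) - 1 ≤ (ev (fl n x) i : ℝ) := by exact_mod_cast h1.1
  have h5 : (ev (fl n x) i : ℝ) ≤ (fl n x i : ℝ) := by exact_mod_cast h1.2
  have h6 : (fl n x i : ℝ) = (⌊(n : ℝ) * x i⌋ : ℝ) := rfl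
  constructor <;> linarith

lemma eventually_large {c : ℝ} (hc : 0 < c) (M : ℝ) : ∀ᶠ n : ℕ in atTop, M < n * c := by
  have : Tendsto (fun n : ℕ => (n : ℝ) * c) atTop atTop :=
    tendsto_natCast_atTop_atTop.atTop_mul_const hc
  exact this.eventually_gt_atTop M

lemma stp_tendsto {x : R3} (h1 : x 0 + x 1 ≠ 0) (h2 : x 0 - x 1 ≠ 0) :
    ∀ᶠ n : ℕ in atTop, ∀ i, ((stp (ev (fl n x)) i : ℤ) : ℝ) = g0 x i := by
  have hm : ∀ u : Z3, 0 ≤ u 2 % 2 ∧ u 2 % 2 ≤ 1 := fun u => by omega
  rcases lt_or_gt_of_ne h1 with h1 | h1 <;> rcases lt_or_gt_of_ne h2 with h2 | h2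
  · filter_upwards [eventually_large (neg_pos.2 h1) 10, eventually_large (neg_pos.2 h2) 10] with n ha hb
    have c0 := fl_near n x 0
    have c1 := fl_near n x 1
    set u := ev (fl n x) with hu
    have e1 : (u 0 + u 1 : ℝ) < -5 := by nlinarith
    have e2 : (u 0 - u 1 : ℝ) < -5 := by nlinarith
    have e1' : u 0 + u 1 < -5 := by exact_mod_cast e1
    have e2' : u 0 - u 1 < -5 := by exact_mod_cast e2
    have hmu := hm u
    have : stp u = -z0 := by
      unfold stp
      rw [if_neg (by omega), if_neg (by omega), if_neg (by omega)]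
    rw [this]
    have hg : g0 x = -EuclideanSpace.single 0 1 := by
      unfold g0
      rw [if_neg (by rintro ⟨h, _⟩; linarith), if_neg (by linarith), if_neg (by linarith)]
    rw [hg]
    intro i; fin_cases i <;> simp
  · filter_upwards [eventually_large (neg_pos.2 h1) 10, eventually_large h2 10] with n ha hb
    have c0 := fl_near n x 0
    have c1 := fl_near n x 1
    set u := ev (fl n x) with hu
    have e1 : (u 0 + u 1 : ℝ) < -5 := by nlinarith
    have e2 : (5 : ℝ) < (u 0 - u 1 : ℝ) := by nlinarith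
    have e1' : u 0 + u 1 < -5 := by exact_mod_cast e1
    have e2' : 5 < u 0 - u 1 := by exact_mod_cast e2
    have hmu := hm u
    have : stp u = z1 := by
      unfold stp
      rw [if_neg (by omega), if_neg (by omega), if_pos (by omega)]
    rw [this]
    have hg : g0 x = EuclideanSpace.single 1 1 := by
      unfold g0
      rw [if_neg (by rintro ⟨h, _⟩; linarith), if_neg (by linarith), if_pos (by linarith)]
    rw [hg]
    intro i; fin_cases i <;> simp
  · filter_upwards [eventually_large h1 10, eventually_large (neg_pos.2 h2) 10] with n ha hb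
    have c0 := fl_near n x 0
    have c1 := fl_near n x 1
    set u := ev (fl n x) with hu
    have e1 : (5 : ℝ) < (u 0 + u 1 : ℝ) := by nlinarith
    have e2 : (u 0 - u 1 : ℝ) < -5 := by nlinarith
    have e1' : 5 < u 0 + u 1 := by exact_mod_cast e1
    have e2' : u 0 - u 1 < -5 := by exact_mod_cast e2
    have hmu := hm u
    have : stp u = -z1 := by
      unfold stp
      rw [if_neg (by omega), if_pos (by omega)]
    rw [this]
    have hg : g0 x = -EuclideanSpace.single 1 1 := by
      unfold g0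
      rw [if_neg (by rintro ⟨_, h⟩; linarith), if_pos (by linarith)]
    rw [hg]
    intro i; fin_cases i <;> simp
  · filter_upwards [eventually_large h1 10, eventually_large h2 10] with n ha hb
    have c0 := fl_near n x 0
    have c1 := fl_near n x 1
    set u := ev (fl n x) with hu
    have e1 : (5 : ℝ) < (u 0 + u 1 : ℝ) := by nlinarith
    have e2 : (5 : ℝ) < (u 0 - u 1 : ℝ) := by nlinarith
    have e1' : 5 < u 0 + u 1 := by exact_mod_cast e1
    have e2' : 5 < u 0 - u 1 := by exact_mod_cast e2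
    have hmu := hm u
    have : stp u = z0 := by
      unfold stp
      rw [if_pos (by omega)]
    rw [this]
    have hg : g0 x = EuclideanSpace.single 0 1 := by
      unfold g0
      rw [if_pos ⟨by linarith, by linarith⟩]
    rw [hg]
    intro i; fin_cases i <;> simp

end Pool.Agent.Lib_helper52.Dimer
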