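import Pool.Agent.Lib_helper52.DimerAF

open MeasureTheory Filter Topology
open scoped ENNReal ContDiff

namespace Pool.Agent.Lib_helper52.Dimer

/-- the square `[-1,1]²` -/
def sq2 : Set (Fin 2 → ℝ) := Set.univ.pi fun _ => Set.Icc (-1 : ℝ) 1

lemma mem_sq2 (y : Fin 2 → ℝ) : y ∈ sq2 ↔ ∀ j, |y j| ≤ 1 := by
  simp only [sq2, Set.mem_pi, Set.mem_univ, true_implies, Set.mem_Icc, abs_le]

lemma isCompact_sq2 : IsCompact sq2 := isCompact_univ_pi fun _ => isCompact_Icc

lemma measurableSet_sq2 : MeasurableSet sq2 := MeasurableSet.univ_pi fun _ => measurableSet_Icc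

/-- point with `i`-th coordinate `t` and remaining coordinates `y` -/
def P (i : Fin 3) (t : ℝ) (y : Fin 2 → ℝ) : R3 := WithLp.toLp 2 (i.insertNth (α := fun _ => ℝ) t y)

lemma P_same (i : Fin 3) (t : ℝ) (y : Fin 2 → ℝ) : P i t y i = t := by
  simp [P]

lemma P_mem_cube (i : Fin 3) (t : ℝ) (y : Fin 2 → ℝ) : P i t y ∈ cube ↔ |t| ≤ 1 ∧ y ∈ sq2 := by
  rw [mem_sq2]
  simp only [cube, Set.mem_ofPred_eq]
  rw [Fin.forall_iff_succAbove i]
  simp [P]

/-- measurable equivalence splitting off the `i`-th coordinate -/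
noncomputable def Pe (i : Fin 3) : ℝ × (Fin 2 → ℝ) ≃ᵐ R3 :=
  (MeasurableEquiv.piFinSuccAbove (fun _ => ℝ) i).symm.trans (MeasurableEquiv.toLp 2 (Fin 3 → ℝ))

lemma Pe_apply (i : Fin 3) (z : ℝ × (Fin 2 → ℝ)) : Pe i z = P i z.1 z.2 := rfl

lemma measurePreserving_Pe (i : Fin 3) : MeasurePreserving (Pe i) volume volume := by
  unfold Pe
  exact ((volume_preserving_piFinSuccAbove (fun _ => ℝ) i).symm _).trans
    (PiLp.volume_preserving_toLp (Fin 3))

lemma continuous_P (i : Fin 3) : Continuous fun z : ℝ × (Fin 2 → ℝ) => P i z.1 z.2 := by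
  unfold P
  refine (PiLp.continuous_toLp 2 _).comp ?_
  exact Continuous.finInsertNth i continuous_fst continuous_snd

lemma fub (i : Fin 3) (f : R3 → ℝ) (hf : IntegrableOn f cube) :
    ∫ x in cube, f x = ∫ y in sq2, ∫ t in (-1 : ℝ)..1, f (P i t y) := by
  have h1 := (measurePreserving_Pe i).setIntegral_preimage_emb (Pe i).measurableEmbedding f cube
  have h2 : Pe i ⁻¹' cube = Set.Icc (-1 : ℝ) 1 ×ˢ sq2 := by
    ext z
    rw [Set.mem_preimage, Pe_apply, P_mem_cube, Set.mem_prod, Set.mem_Icc, abs_le]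
  rw [← h1, h2]
  have h3 : IntegrableOn (fun z => f (Pe i z)) (Set.Icc (-1 : ℝ) 1 ×ˢ sq2) volume := by
    rw [← h2]
    exact ((measurePreserving_Pe i).integrableOn_comp_preimage (Pe i).measurableEmbedding).2 hf
  rw [Measure.volume_eq_prod] at h3 ⊢
  rw [IntegrableOn, ← Measure.prod_restrict] at h3
  rw [← Measure.prod_restrict, integral_prod_symm _ h3]
  refine integral_congr_ae (Eventually.of_forall fun y => ?_)
  simp only [Pe_apply]
  rw [intervalIntegral.integral_of_le (by norm_num), integral_Icc_eq_integral_Ioc]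

lemma P_eq (i : Fin 3) (t : ℝ) (y : Fin 2 → ℝ) : P i t y = P i 0 y + t • EuclideanSpace.single i 1 := by
  ext j
  rcases Fin.eq_self_or_eq_succAbove i j with h | ⟨k, h⟩
  · subst h; simp [P]
  · subst h; simp [P]

/-- partial derivative -/
noncomputable def pd (φ : R3 → ℝ) (i : Fin 3) (x : R3) : ℝ := fderiv ℝ φ x (EuclideanSpace.single i 1)

lemma hasDerivAt_P {φ : R3 → ℝ} (hφ : ContDiff ℝ ∞ φ) (i : Fin 3) (t : ℝ) (y : Fin 2 → ℝ) :
    HasDerivAt (fun t => φ (P i t y)) (pd φ i (P i t y)) t := by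
  have h1 : HasDerivAt (fun t : ℝ => P i t y) (EuclideanSpace.single i 1 : R3) t := by
    have : (fun t : ℝ => P i t y) = fun t => P i 0 y + t • EuclideanSpace.single i 1 := by
      ext1 t; exact P_eq i t y
    rw [this]
    simpa using ((hasDerivAt_id t).smul_const (EuclideanSpace.single i 1 : R3)).const_add (P i 0 y)
  have h2 : HasFDerivAt φ (fderiv ℝ φ (P i t y)) (P i t y) :=
    (hφ.differentiable (by simp)).differentiableAt.hasFDerivAt
  exact h2.comp_hasDerivAt t h1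

lemma continuous_pd {φ : R3 → ℝ} (hφ : ContDiff ℝ ∞ φ) (i : Fin 3) : Continuous (pd φ i) := by
  unfold pd
  exact (hφ.continuous_fderiv (by simp)).clm_apply continuous_const

lemma ftc {φ : R3 → ℝ} (hφ : ContDiff ℝ ∞ φ) (i : Fin 3) (a b : ℝ) (y : Fin 2 → ℝ) :
    ∫ t in a..b, pd φ i (P i t y) = φ (P i b y) - φ (P i a y) := by
  refine intervalIntegral.integral_eq_sub_of_hasDerivAt (fun t _ => hasDerivAt_P hφ i t y) ?_
  refine Continuous.intervalIntegrable ?_ _ _
  exact (continuous_pd hφ i).comp ((continuous_P i).comp (Continuous.prodMk_left y))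

/-- integral along a line of a piecewise constant multiple of a derivative -/
lemma line_integral {φ : R3 → ℝ} (hφ : ContDiff ℝ ∞ φ) (i : Fin 3) (y : Fin 2 → ℝ) {a : ℝ}
    (ha : 0 ≤ a) (c1 c2 c3 : ℝ) (s : ℝ → ℝ) (h1 : ∀ t, t < -a → s t = c1)
    (h2 : ∀ t, -a < t → t < a → s t = c2) (h3 : ∀ t, a < t → s t = c3) (ha1 : a ≤ 1) :
    ∫ t in (-1 : ℝ)..1, s t * pd φ i (P i t y) =
      c1 * (φ (P i (-a) y) - φ (P i (-1) y)) + c2 * (φ (P i a y) - φ (P i (-a) y)) +
        c3 * (φ (P i 1 y) - φ (P i a y)) := by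
  have hc : Continuous fun t => pd φ i (P i t y) :=
    (continuous_pd hφ i).comp ((continuous_P i).comp (Continuous.prodMk_left y))
  have hint : ∀ (c : ℝ) (u v : ℝ), IntervalIntegrable (fun t => c * pd φ i (P i t y)) volume u v :=
    fun c u v => (continuous_const.mul hc).intervalIntegrable _ _
  have e1 : Set.EqOn (fun t => c1 * pd φ i (P i t y)) (fun t => s t * pd φ i (P i t y))
      (Set.uIoo (-1) (-a)) := by
    intro t ht
    rw [Set.uIoo_of_le (by linarith)] at ht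
    simp only
    rw [h1 t ht.2]
  have e2 : Set.EqOn (fun t => c2 * pd φ i (P i t y)) (fun t => s t * pd φ i (P i t y))
      (Set.uIoo (-a) a) := by
    intro t ht
    rw [Set.uIoo_of_le (by linarith)] at ht
    simp only
    rw [h2 t ht.1 ht.2]
  have e3 : Set.EqOn (fun t => c3 * pd φ i (P i t y)) (fun t => s t * pd φ i (P i t y))
      (Set.uIoo a 1) := by
    intro t ht
    rw [Set.uIoo_of_le (by linarith)] at ht
    simp only
    rw [h3 t ht.1]
  have i1 := (hint c1 (-1) (-a)).congr_uIoo e1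
  have i2 := (hint c2 (-a) a).congr_uIoo e2
  have i3 := (hint c3 a 1).congr_uIoo e3
  rw [← intervalIntegral.integral_add_adjacent_intervals (i1.trans i2) i3,
    ← intervalIntegral.integral_add_adjacent_intervals i1 i2,
    ← intervalIntegral.integral_congr_uIoo e1, ← intervalIntegral.integral_congr_uIoo e2,
    ← intervalIntegral.integral_congr_uIoo e3, intervalIntegral.integral_const_mul,
    intervalIntegral.integral_const_mul, intervalIntegral.integral_const_mul, ftc hφ, ftc hφ, ftc hφ]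

lemma g0_coord0 (x : R3) : g0 x 0 = if 0 ≤ x 0 + x 1 ∧ 0 ≤ x 0 - x 1 then 1
    else if x 0 + x 1 < 0 ∧ x 0 - x 1 ≤ 0 then -1 else 0 := by
  unfold g0
  split_ifs with h1 h2 h3 h4 h5 h6 <;> simp_all <;> linarith

lemma g0_coord1 (x : R3) : g0 x 1 = if 0 ≤ x 0 + x 1 ∧ x 0 - x 1 < 0 then -1
    else if x 0 + x 1 < 0 ∧ 0 < x 0 - x 1 then 1 else 0 := by
  unfold g0
  split_ifs with h1 h2 h3 h4 h5 h6 <;> simp_all <;> linarith

lemma g0_coord2 (x : R3) : g0 x 2 = 0 := by
  rcases g0_cases x with h | h | h | h <;> rw [h] <;> simp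

lemma fderiv_apply_g0 (φ : R3 → ℝ) (x : R3) :
    fderiv ℝ φ x (g0 x) = g0 x 0 * pd φ 0 x + g0 x 1 * pd φ 1 x := by
  have : g0 x = g0 x 0 • EuclideanSpace.single 0 1 + g0 x 1 • EuclideanSpace.single 1 1 := by
    ext j
    fin_cases j
    · simp
    · simp
    · simpa using g0_coord2 x
  conv_lhs => rw [this]
  rw [map_add, map_smul, map_smul]
  simp [pd]

lemma P0_coord0 (t : ℝ) (y : Fin 2 → ℝ) : P 0 t y 0 = t := P_same 0 t y
lemma P0_coord1 (t : ℝ) (y : Fin 2 → ℝ) : P 0 t y 1 = y 0 := rfl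
lemma P0_coord2 (t : ℝ) (y : Fin 2 → ℝ) : P 0 t y 2 = y 1 := rfl
lemma P1_coord0 (t : ℝ) (y : Fin 2 → ℝ) : P 1 t y 0 = y 0 := rfl
lemma P1_coord1 (t : ℝ) (y : Fin 2 → ℝ) : P 1 t y 1 = t := P_same 1 t y
lemma P1_coord2 (t : ℝ) (y : Fin 2 → ℝ) : P 1 t y 2 = y 1 := rfl

/-- reflection of the first coordinate -/
def rho (y : Fin 2 → ℝ) : Fin 2 → ℝ := fun j => if j = 0 then -y j else y j

lemma measurePreserving_rho : MeasurePreserving rho volume volume := by
  have : rho = fun (a : Fin 2 → ℝ) (j : Fin 2) => (if j = 0 then (fun t : ℝ => -t) else fun t => t) (a j) := by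
    ext a j
    simp only [rho]
    split_ifs <;> rfl
  rw [this]
  refine volume_preserving_pi fun j => ?_
  split_ifs
  · exact Measure.measurePreserving_neg volume
  · exact MeasurePreserving.id volume

lemma rho_rho (y : Fin 2 → ℝ) : rho (rho y) = y := by
  ext j
  simp only [rho]
  split_ifs <;> simp

lemma measurableEmbedding_rho : MeasurableEmbedding rho := by
  have hm : Measurable rho := measurePreserving_rho.measurable
  exact (MeasurableEquiv.mk (Equiv.mk rho rho rho_rho rho_rho) hm hm).measurableEmbedding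

lemma rho_preimage : rho ⁻¹' sq2 = sq2 := by
  ext y
  rw [Set.mem_preimage, mem_sq2, mem_sq2]
  refine forall_congr' fun j => ?_
  simp only [rho]
  split_ifs <;> simp

lemma diag_eq {φ : R3 → ℝ} (hφ : Continuous φ) :
    ∫ y in sq2, (φ (P 0 |y 0| y) + φ (P 0 (-|y 0|) y)) =
      ∫ y in sq2, (φ (P 1 |y 0| y) + φ (P 1 (-|y 0|) y)) := by
  have hc : ∀ (i : Fin 3) (u : (Fin 2 → ℝ) → ℝ), Continuous u →
      IntegrableOn (fun y => φ (P i (u y) y)) sq2 := fun i u hu =>
    (hφ.comp ((continuous_P i).comp (hu.prodMk continuous_id))).continuousOn.integrableOn_compact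
      isCompact_sq2
  have h0 : ∀ (i : Fin 3) (y : Fin 2 → ℝ), φ (P i |y 0| y) + φ (P i (-|y 0|) y) =
      φ (P i (y 0) y) + φ (P i (-y 0) y) := by
    intro i y
    rcases abs_cases (y 0) with ⟨h, _⟩ | ⟨h, _⟩
    · rw [h]
    · rw [h, neg_neg]; ring
  simp only [h0]
  have c0 : Continuous fun y : Fin 2 → ℝ => y 0 := continuous_apply 0
  have c1 : Continuous fun y : Fin 2 → ℝ => -y 0 := c0.neg
  rw [integral_add (hc 0 _ c0) (hc 0 _ c1), integral_add (hc 1 _ c0) (hc 1 _ c1)]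
  have h1 : ∀ y : Fin 2 → ℝ, P 0 (y 0) y = P 1 (y 0) y := by
    intro y; ext j
    fin_cases j <;> rfl
  simp only [h1]
  congr 1
  have h2 := measurePreserving_rho.setIntegral_preimage_emb measurableEmbedding_rho
    (fun y => φ (P 0 (-y 0) y)) sq2
  rw [rho_preimage] at h2
  rw [← h2]
  refine integral_congr_ae (Eventually.of_forall fun y => ?_)
  simp only
  congr 1
  ext j
  fin_cases j
  · change -(rho y 0) = y 0
    simp [rho]
  · change rho y 0 = -y 0
    simp [rho]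
  · change rho y 1 = y 1
    simp [rho]

theorem trace_g0 {φ : R3 → ℝ} (hφ : ContDiff ℝ ∞ φ) :
    ∫ x in cube, fderiv ℝ φ x (g0 x) =
      (∫ y in sq2, (φ (P 0 1 y) + φ (P 0 (-1) y))) - ∫ y in sq2, (φ (P 1 1 y) + φ (P 1 (-1) y)) := by
  have hcφ : Continuous φ := hφ.continuous
  have hc : ∀ (i : Fin 3) (u : (Fin 2 → ℝ) → ℝ), Continuous u →
      IntegrableOn (fun y => φ (P i (u y) y)) sq2 := fun i u hu =>
    (hcφ.comp ((continuous_P i).comp (hu.prodMk continuous_id))).continuousOn.integrableOn_compact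
      isCompact_sq2
  have hgi : ∀ i, Measurable (fun x => g0 x i) := fun i =>
    (PiLp.continuous_apply 2 _ i).measurable.comp measurable_g0
  have hi : ∀ i, IntegrableOn (fun x => g0 x i * pd φ i x) cube := fun i => by
    have h1 : IntegrableOn (pd φ i) cube :=
      (continuous_pd hφ i).continuousOn.integrableOn_compact (isCompact_cubeR 1)
    exact h1.bdd_mul (c := 1) (hgi i).aestronglyMeasurable
      (Eventually.of_forall fun x => abs_g0_le x i)
  simp only [fderiv_apply_g0]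
  rw [integral_add (hi 0) (hi 1), fub 0 _ (hi 0), fub 1 _ (hi 1)]
  have e0 : ∀ y ∈ sq2, ∫ t in (-1 : ℝ)..1, g0 (P 0 t y) 0 * pd φ 0 (P 0 t y) =
      (φ (P 0 1 y) + φ (P 0 (-1) y)) - (φ (P 0 |y 0| y) + φ (P 0 (-|y 0|) y)) := by
    intro y hy
    rw [mem_sq2] at hy
    rw [line_integral hφ 0 y (abs_nonneg (y 0)) (-1) 0 1 (fun t => g0 (P 0 t y) 0) ?_ ?_ ?_ (hy 0)]
    · ring
    · intro t ht
      have h1 := neg_abs_le (y 0)
      have h2 := le_abs_self (y 0)
      simp only [g0_coord0, P0_coord0, P0_coord1]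
      rw [if_neg (by rintro ⟨h, _⟩; linarith), if_pos ⟨by linarith, by linarith⟩]
    · intro t ht1 ht2
      simp only [g0_coord0, P0_coord0, P0_coord1]
      rcases abs_cases (y 0) with ⟨h, h'⟩ | ⟨h, h'⟩
      · rw [h] at ht1 ht2
        rw [if_neg (by rintro ⟨_, h⟩; linarith), if_neg (by rintro ⟨h, _⟩; linarith)]
      · rw [h] at ht1 ht2
        rw [if_neg (by rintro ⟨h, _⟩; linarith), if_neg (by rintro ⟨_, h⟩; linarith)]
    · intro t ht
      have h1 := neg_abs_le (y 0)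
      have h2 := le_abs_self (y 0)
      simp only [g0_coord0, P0_coord0, P0_coord1]
      rw [if_pos ⟨by linarith, by linarith⟩]
  have e1 : ∀ y ∈ sq2, ∫ t in (-1 : ℝ)..1, g0 (P 1 t y) 1 * pd φ 1 (P 1 t y) =
      (φ (P 1 |y 0| y) + φ (P 1 (-|y 0|) y)) - (φ (P 1 1 y) + φ (P 1 (-1) y)) := by
    intro y hy
    rw [mem_sq2] at hy
    rw [line_integral hφ 1 y (abs_nonneg (y 0)) 1 0 (-1) (fun t => g0 (P 1 t y) 1) ?_ ?_ ?_ (hy 0)]
    · ring
    · intro t ht
      have h1 := neg_abs_le (y 0)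
      have h2 := le_abs_self (y 0)
      simp only [g0_coord1, P1_coord0, P1_coord1]
      rw [if_neg (by rintro ⟨h, _⟩; linarith), if_pos ⟨by linarith, by linarith⟩]
    · intro t ht1 ht2
      simp only [g0_coord1, P1_coord0, P1_coord1]
      rcases abs_cases (y 0) with ⟨h, h'⟩ | ⟨h, h'⟩
      · rw [h] at ht1 ht2
        rw [if_neg (by rintro ⟨_, h⟩; linarith), if_neg (by rintro ⟨h, _⟩; linarith)]
      · rw [h] at ht1 ht2
        rw [if_neg (by rintro ⟨h, _⟩; linarith), if_neg (by rintro ⟨_, h⟩; linarith)]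
    · intro t ht
      have h1 := neg_abs_le (y 0)
      have h2 := le_abs_self (y 0)
      simp only [g0_coord1, P1_coord0, P1_coord1]
      rw [if_pos ⟨by linarith, by linarith⟩]
  have cabs : Continuous fun y : Fin 2 → ℝ => |y 0| := continuous_abs.comp (continuous_apply 0)
  have k1 : IntegrableOn (fun y => φ (P 0 1 y) + φ (P 0 (-1) y)) sq2 :=
    (hc 0 _ continuous_const).add (hc 0 _ continuous_const)
  have k2 : IntegrableOn (fun y => φ (P 1 1 y) + φ (P 1 (-1) y)) sq2 :=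
    (hc 1 _ continuous_const).add (hc 1 _ continuous_const)
  have k3 : IntegrableOn (fun y => φ (P 0 |y 0| y) + φ (P 0 (-|y 0|) y)) sq2 :=
    (hc 0 _ cabs).add (hc 0 _ cabs.neg)
  have k4 : IntegrableOn (fun y => φ (P 1 |y 0| y) + φ (P 1 (-|y 0|) y)) sq2 :=
    (hc 1 _ cabs).add (hc 1 _ cabs.neg)
  rw [setIntegral_congr_fun measurableSet_sq2 e0, setIntegral_congr_fun measurableSet_sq2 e1,
    integral_sub k1 k3, integral_sub k4 k2, diag_eq hcφ]
  ring

end Pool.Agent.Lib_helper52.Dimer
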