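import Pool.Agent.Lib_helper67.LR.Defs

/-!
Block BB of the power saving for XOR functions: the bilinear bound.
-/

set_option autoImplicit false

namespace Pool.Agent.Lib_helper67.LR

open Finset Pool.Agent.Lib_helper78.LR
open scoped BigOperators

theorem bb_split {V : Type} [DecidableEq V] (I J : Finset V) (hIJ : Disjoint I J)
    (f : Finset V → ℝ) :
    ∑ w ∈ (I ∪ J).powerset, f w = ∑ u ∈ I.powerset, ∑ v ∈ J.powerset, f (u ∪ v) := by
  rw [← Finset.sum_product']
  refine Finset.sum_nbij' (fun w => (w ∩ I, w ∩ J)) (fun p => p.1 ∪ p.2) ?_ ?_ ?_ ?_ ?_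
  · intro w hw
    simp only [mem_product, mem_powerset]
    exact ⟨inter_subset_right, inter_subset_right⟩
  · intro p hp
    simp only [mem_product, mem_powerset] at hp ⊢
    exact union_subset_union hp.1 hp.2
  · intro w hw
    simp only [mem_powerset] at hw
    show w ∩ I ∪ w ∩ J = w
    rw [← inter_union_distrib_left]
    exact inter_eq_left.2 hw
  · intro p hp
    simp only [mem_product, mem_powerset] at hp
    have h1 : Disjoint p.2 I := (hIJ.mono_right hp.2).symm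
    have h2 : Disjoint p.1 J := hIJ.mono_left hp.1
    ext1
    · show (p.1 ∪ p.2) ∩ I = p.1
      rw [union_inter_distrib_right, disjoint_iff_inter_eq_empty.1 h1, union_empty]
      exact inter_eq_left.2 hp.1
    · show (p.1 ∪ p.2) ∩ J = p.2
      rw [union_inter_distrib_right, disjoint_iff_inter_eq_empty.1 h2, empty_union]
      exact inter_eq_left.2 hp.2
  · intro w hw
    simp only [mem_powerset] at hw
    show f w = f (w ∩ I ∪ w ∩ J)
    rw [← inter_union_distrib_left, inter_eq_left.2 hw]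

/-- signs given by a set -/
noncomputable def bsg {V : Type} [DecidableEq V] (T : Finset V) (g : V) : ℝ :=
  if g ∈ T then -1 else 1

theorem bsg_step {V : Type} [DecidableEq V] (c : V → ℝ) (φ : ℝ → ℝ) (s : Finset V) (g : V)
    (hg : g ∉ s) (a : ℝ) :
    ∑ T ∈ (insert g s).powerset, φ (a + ∑ h ∈ insert g s, bsg T h * c h) =
      ∑ T ∈ s.powerset, φ (a + c g + ∑ h ∈ s, bsg T h * c h) +
      ∑ T ∈ s.powerset, φ (a - c g + ∑ h ∈ s, bsg T h * c h) := by
  rw [Finset.sum_powerset_insert hg]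
  congr 1
  · refine Finset.sum_congr rfl fun T hT => ?_
    rw [mem_powerset] at hT
    have h1 : g ∉ T := fun h => hg (hT h)
    rw [Finset.sum_insert hg]
    have h2 : bsg T g = 1 := by simp [bsg, h1]
    rw [h2]
    ring_nf
  · refine Finset.sum_congr rfl fun T hT => ?_
    rw [Finset.sum_insert hg]
    have h2 : bsg (insert g T) g = -1 := by simp [bsg]
    have h3 : ∑ h ∈ s, bsg (insert g T) h * c h = ∑ h ∈ s, bsg T h * c h := by
      refine Finset.sum_congr rfl fun h hh => ?_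
      have h4 : h ≠ g := fun h5 => hg (h5 ▸ hh)
      have h6 : bsg (insert g T) h = bsg T h := by
        unfold bsg
        simp [h4]
      rw [h6]
    rw [h2, h3]
    ring_nf

theorem bsg_two {V : Type} [DecidableEq V] (c : V → ℝ) (s : Finset V) (a : ℝ) :
    ∑ T ∈ s.powerset, (a + ∑ h ∈ s, bsg T h * c h) ^ 2 =
      2 ^ s.card * (a ^ 2 + ∑ h ∈ s, c h ^ 2) := by
  classical
  induction s using Finset.induction_on generalizing a with
  | empty => simp
  | insert g s hg ih =>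
    rw [bsg_step c (fun x => x ^ 2) s g hg a, ih, ih, card_insert_of_notMem hg,
      Finset.sum_insert hg, pow_succ]
    ring

theorem bsg_four {V : Type} [DecidableEq V] (c : V → ℝ) (s : Finset V) (a : ℝ) :
    ∑ T ∈ s.powerset, (a + ∑ h ∈ s, bsg T h * c h) ^ 4 ≤
      2 ^ s.card * (a ^ 4 + 6 * a ^ 2 * (∑ h ∈ s, c h ^ 2) + 3 * (∑ h ∈ s, c h ^ 2) ^ 2) := by
  classical
  induction s using Finset.induction_on generalizing a with
  | empty => simp
  | insert g s hg ih =>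
    rw [bsg_step c (fun x => x ^ 4) s g hg a]
    refine (add_le_add (ih _) (ih _)).trans ?_
    have h22 : (2 : ℝ) ^ (s.card + 1) = 2 ^ s.card * 2 := pow_succ _ _
    rw [card_insert_of_notMem hg, Finset.sum_insert hg, h22]
    set σ := ∑ h ∈ s, c h ^ 2
    have h2 : (0 : ℝ) ≤ 2 ^ s.card := by positivity
    have h4 : 0 ≤ c g ^ 4 := by positivity
    nlinarith [mul_nonneg h2 h4]

theorem bb_cube {t A : ℝ} (ht : 0 ≤ t) (hA : 0 < A) :
    (3 * A ^ 2 * t ^ 2 - t ^ 4) / (2 * A ^ 3) ≤ t := by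
  rw [div_le_iff₀ (by positivity)]
  nlinarith [mul_nonneg ht (mul_nonneg (sq_nonneg (t - A)) (by linarith : (0 : ℝ) ≤ t + 2 * A))]

theorem khin {V : Type} [DecidableEq V] (c : V → ℝ) (s : Finset V) :
    2 ^ s.card * (Real.sqrt (∑ h ∈ s, c h ^ 2) / Real.sqrt 3) ≤
      ∑ T ∈ s.powerset, |∑ h ∈ s, bsg T h * c h| := by
  classical
  have hσ0 : 0 ≤ ∑ h ∈ s, c h ^ 2 := Finset.sum_nonneg fun h _ => sq_nonneg _
  rcases hσ0.eq_or_lt with h0 | h0
  · rw [← h0]
    simp only [Real.sqrt_zero, zero_div, mul_zero]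
    exact Finset.sum_nonneg fun T _ => abs_nonneg _
  set σ := Real.sqrt (∑ h ∈ s, c h ^ 2) with hσ
  have hσp : 0 < σ := Real.sqrt_pos.2 h0
  have hσ2 : ∑ h ∈ s, c h ^ 2 = σ ^ 2 := (Real.sq_sqrt hσ0).symm
  have h3 : 0 < Real.sqrt 3 := Real.sqrt_pos.2 (by norm_num)
  have h33 : Real.sqrt 3 ^ 2 = 3 := Real.sq_sqrt (by norm_num)
  set A := Real.sqrt 3 * σ with hA
  have hAp : 0 < A := mul_pos h3 hσp
  have hA2 : A ^ 2 = 3 * σ ^ 2 := by rw [hA, mul_pow, h33]
  have e2 := bsg_two c s 0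
  have e4 := bsg_four c s 0
  simp only [zero_add] at e2 e4
  rw [hσ2] at e2 e4
  have key : ∀ T ∈ s.powerset, (3 * A ^ 2 * (∑ h ∈ s, bsg T h * c h) ^ 2 -
      (∑ h ∈ s, bsg T h * c h) ^ 4) / (2 * A ^ 3) ≤ |∑ h ∈ s, bsg T h * c h| := by
    intro T _
    have := bb_cube (abs_nonneg (∑ h ∈ s, bsg T h * c h)) hAp
    rw [sq_abs] at this
    have h4 : |∑ h ∈ s, bsg T h * c h| ^ 4 = (∑ h ∈ s, bsg T h * c h) ^ 4 := by
      have : (4 : ℕ) = 2 * 2 := rfl
      rw [this, pow_mul, sq_abs, ← pow_mul]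
    rw [h4] at this
    exact this
  refine le_trans ?_ (Finset.sum_le_sum key)
  rw [← Finset.sum_div, le_div_iff₀ (by positivity), Finset.sum_sub_distrib, ← Finset.mul_sum, e2]
  have hA3 : A ^ 3 = 3 * σ ^ 2 * (Real.sqrt 3 * σ) := by
    rw [pow_succ, hA2, hA]
  rw [hA3, hA2]
  have h5 : 2 ^ s.card * (σ / Real.sqrt 3) * (2 * (3 * σ ^ 2 * (Real.sqrt 3 * σ))) =
      2 ^ s.card * (6 * σ ^ 4) := by
    field_simp
    ring
  rw [h5]
  have h6 : (0 : ℝ) ^ 4 = 0 := by norm_num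
  have h7 : (0 : ℝ) ^ 2 = 0 := by norm_num
  rw [h6, h7] at e4
  nlinarith [e4]

/-- binomial weights -/
noncomputable def bwt {V : Type} (q : ℝ) (J T : Finset V) : ℝ :=
  q ^ T.card * (1 - q) ^ (J.card - T.card)

theorem bwt_sub {V : Type} [DecidableEq V] (q : ℝ) (J v : Finset V) (hv : v ⊆ J) :
    ∑ T ∈ J.powerset, bwt q J T * (if v ⊆ T then 1 else 0) = q ^ v.card := by
  have h1 := bb_split v (J \ v) disjoint_sdiff (fun T => bwt q J T * (if v ⊆ T then 1 else 0))
  rw [union_sdiff_of_subset hv] at h1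
  rw [h1, Finset.sum_eq_single v]
  · have h2 : ∀ t ∈ (J \ v).powerset, bwt q J (v ∪ t) * (if v ⊆ v ∪ t then (1 : ℝ) else 0) =
        q ^ v.card * (q ^ t.card * (1 - q) ^ ((J \ v).card - t.card)) := by
      intro t ht
      rw [mem_powerset] at ht
      have hd : Disjoint v t := disjoint_sdiff.mono_right ht
      rw [if_pos subset_union_left, mul_one, bwt, card_union_of_disjoint hd, pow_add,
        card_sdiff_of_subset hv]
      have h3 : J.card - (v.card + t.card) = J.card - v.card - t.card := by omega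
      rw [h3]
      ring
    rw [Finset.sum_congr rfl h2, ← Finset.mul_sum, Finset.sum_pow_mul_eq_add_pow]
    simp
  · intro u hu hne
    rw [mem_powerset] at hu
    refine Finset.sum_eq_zero fun t ht => ?_
    rw [mem_powerset] at ht
    rw [if_neg, mul_zero]
    intro h
    apply hne
    apply Finset.Subset.antisymm hu
    intro x hx
    have hx2 := h hx
    rw [mem_union] at hx2
    rcases hx2 with hx2 | hx2
    · exact hx2
    · exact absurd hx (Finset.mem_sdiff.1 (ht hx2)).2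
  · intro h
    exact absurd (Finset.mem_powerset.2 (Finset.Subset.refl v)) h

theorem bwt_one {V : Type} [DecidableEq V] (q : ℝ) (J : Finset V) :
    ∑ T ∈ J.powerset, bwt q J T = 1 := by
  have := bwt_sub q J ∅ (empty_subset _)
  simpa using this

theorem bwt_nonneg {V : Type} (q : ℝ) (h0 : 0 ≤ q) (h1 : q ≤ 1) (J T : Finset V) :
    0 ≤ bwt q J T := by
  unfold bwt
  have : 0 ≤ 1 - q := by linarith
  positivity

theorem bwt_card {V : Type} [DecidableEq V] (q : ℝ) (J G : Finset V) (hG : G ⊆ J) :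
    ∑ T ∈ J.powerset, bwt q J T * ((T ∩ G).card : ℝ) = q * G.card := by
  have h1 : ∀ T ∈ J.powerset, bwt q J T * ((T ∩ G).card : ℝ) =
      ∑ g ∈ G, bwt q J T * (if {g} ⊆ T then 1 else 0) := by
    intro T _
    rw [← Finset.mul_sum]
    congr 1
    rw [Finset.inter_comm, ← Finset.filter_mem_eq_inter, Finset.card_filter]
    push_cast
    refine Finset.sum_congr rfl fun g _ => ?_
    simp [singleton_subset_iff]
  rw [Finset.sum_congr rfl h1, Finset.sum_comm]
  have h2 : ∀ g ∈ G, ∑ T ∈ J.powerset, bwt q J T * (if {g} ⊆ T then 1 else 0) = q := by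
    intro g hg
    rw [bwt_sub q J {g} (singleton_subset_iff.2 (hG hg))]
    simp
  rw [Finset.sum_congr rfl h2]
  simp [mul_comm]

theorem bwt_card_sq {V : Type} [DecidableEq V] (q : ℝ) (J G : Finset V)
    (hG : G ⊆ J) :
    ∑ T ∈ J.powerset, bwt q J T * ((T ∩ G).card : ℝ) ^ 2 ≤ q * G.card + (q * G.card) ^ 2 := by
  have h1 : ∀ T ∈ J.powerset, bwt q J T * ((T ∩ G).card : ℝ) ^ 2 =
      ∑ g ∈ G, ∑ g' ∈ G, bwt q J T * (if {g, g'} ⊆ T then 1 else 0) := by
    intro T _
    simp_rw [← Finset.mul_sum]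
    congr 1
    have h2 : ((T ∩ G).card : ℝ) = ∑ g ∈ G, (if g ∈ T then (1 : ℝ) else 0) := by
      rw [Finset.inter_comm, ← Finset.filter_mem_eq_inter, Finset.card_filter]
      push_cast
      rfl
    rw [sq, h2, Finset.sum_mul_sum]
    refine Finset.sum_congr rfl fun g _ => Finset.sum_congr rfl fun g' _ => ?_
    by_cases ha : g ∈ T <;> by_cases hb : g' ∈ T <;> simp [ha, hb, insert_subset_iff]
  rw [Finset.sum_congr rfl h1, Finset.sum_comm]
  have h3 : ∀ g ∈ G, ∑ T ∈ J.powerset, ∑ g' ∈ G, bwt q J T * (if {g, g'} ⊆ T then 1 else 0) ≤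
      q + q ^ 2 * G.card := by
    intro g hg
    rw [Finset.sum_comm]
    have h4 : ∀ g' ∈ G, ∑ T ∈ J.powerset, bwt q J T * (if {g, g'} ⊆ T then 1 else 0) ≤
        (if g' = g then q else 0) + q ^ 2 := by
      intro g' hg'
      rw [bwt_sub q J {g, g'} (by
        intro x hx
        simp only [mem_insert, mem_singleton] at hx
        rcases hx with rfl | rfl
        · exact hG hg
        · exact hG hg')]
      by_cases h5 : g' = g
      · subst h5
        simp only [pair_eq_singleton, card_singleton, pow_one, if_true]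
        nlinarith [sq_nonneg q]
      · rw [card_pair (fun h => h5 h.symm), if_neg h5]
        simp
    refine (Finset.sum_le_sum h4).trans ?_
    rw [Finset.sum_add_distrib]
    simp [hg, mul_comm]
  refine (Finset.sum_le_sum h3).trans ?_
  simp only [sum_const, nsmul_eq_mul]
  apply le_of_eq
  ring

/-- the odd-odd part -/
noncomputable def oddpart {V : Type} [DecidableEq V] (I J : Finset V) (r : V → ℝ)
    (d : Finset V → ℝ) : ℝ :=
  ∑ u ∈ I.powerset, ∑ v ∈ J.powerset,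
    (if Odd u.card ∧ Odd v.card then (∏ g ∈ u, r g) * (∏ g ∈ v, r g) * d (u ∪ v) else 0)

theorem oddpart_le {V : Type} [DecidableEq V] (I J : Finset V) (hIJ : Disjoint I J)
    (d : Finset V → ℝ)
    (hrz : ∀ r : V → ℝ, (∀ g, |r g| ≤ 1) →
      |∑ w ∈ (I ∪ J).powerset, (∏ g ∈ w, r g) * d w| ≤ 1)
    (r : V → ℝ) (hr : ∀ g, |r g| ≤ 1) : |oddpart I J r d| ≤ 1 := by
  have key : ∀ ε δ : ℝ, |ε| ≤ 1 → |δ| ≤ 1 →
      |∑ u ∈ I.powerset, ∑ v ∈ J.powerset,
        ε ^ u.card * δ ^ v.card * ((∏ g ∈ u, r g) * (∏ g ∈ v, r g) * d (u ∪ v))| ≤ 1 := by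
    intro ε δ hε hδ
    have h1 := hrz (fun g => (if g ∈ I then ε else δ) * r g) (by
      intro g
      rw [abs_mul]
      have h2 : |(if g ∈ I then ε else δ)| ≤ 1 := by
        split_ifs <;> assumption
      exact mul_le_one₀ h2 (abs_nonneg _) (hr g))
    rw [bb_split I J hIJ] at h1
    refine le_trans (le_of_eq ?_) h1
    congr 1
    refine Finset.sum_congr rfl fun u hu => Finset.sum_congr rfl fun v hv => ?_
    rw [mem_powerset] at hu hv
    have hd : Disjoint u v := (hIJ.mono_left hu).mono_right hv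
    rw [Finset.prod_union hd]
    have h3 : ∏ g ∈ u, ((if g ∈ I then ε else δ) * r g) = ε ^ u.card * ∏ g ∈ u, r g := by
      rw [Finset.prod_mul_distrib]
      congr 1
      rw [Finset.prod_congr rfl (fun g hg => if_pos (hu hg)), Finset.prod_const]
    have h4 : ∏ g ∈ v, ((if g ∈ I then ε else δ) * r g) = δ ^ v.card * ∏ g ∈ v, r g := by
      rw [Finset.prod_mul_distrib]
      congr 1
      rw [Finset.prod_congr rfl (fun g hg => if_neg (fun h => ?_)), Finset.prod_const]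
      exact Finset.disjoint_left.1 hIJ h (hv hg)
    rw [h3, h4]
    ring
  have k1 := key 1 1 (by simp) (by simp)
  have k2 := key (-1) 1 (by simp) (by simp)
  have k3 := key 1 (-1) (by simp) (by simp)
  have k4 := key (-1) (-1) (by simp) (by simp)
  have hid : oddpart I J r d =
      ((∑ u ∈ I.powerset, ∑ v ∈ J.powerset,
        (1 : ℝ) ^ u.card * 1 ^ v.card * ((∏ g ∈ u, r g) * (∏ g ∈ v, r g) * d (u ∪ v))) -
      (∑ u ∈ I.powerset, ∑ v ∈ J.powerset,
        (-1 : ℝ) ^ u.card * 1 ^ v.card * ((∏ g ∈ u, r g) * (∏ g ∈ v, r g) * d (u ∪ v))) -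
      (∑ u ∈ I.powerset, ∑ v ∈ J.powerset,
        (1 : ℝ) ^ u.card * (-1) ^ v.card * ((∏ g ∈ u, r g) * (∏ g ∈ v, r g) * d (u ∪ v))) +
      (∑ u ∈ I.powerset, ∑ v ∈ J.powerset,
        (-1 : ℝ) ^ u.card * (-1) ^ v.card *
          ((∏ g ∈ u, r g) * (∏ g ∈ v, r g) * d (u ∪ v)))) / 4 := by
    unfold oddpart
    rw [← Finset.sum_sub_distrib, ← Finset.sum_sub_distrib, ← Finset.sum_add_distrib,
      Finset.sum_div]
    refine Finset.sum_congr rfl fun u _ => ?_
    rw [← Finset.sum_sub_distrib, ← Finset.sum_sub_distrib, ← Finset.sum_add_distrib,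
      Finset.sum_div]
    refine Finset.sum_congr rfl fun v _ => ?_
    rcases Nat.even_or_odd u.card with hu | hu
    · have hu2 : ¬ Odd u.card := Nat.not_odd_iff_even.2 hu
      rw [if_neg (fun h => hu2 h.1), hu.neg_one_pow, one_pow]
      ring
    · rcases Nat.even_or_odd v.card with hv | hv
      · have hv2 : ¬ Odd v.card := Nat.not_odd_iff_even.2 hv
        rw [if_neg (fun h => hv2 h.2), hv.neg_one_pow, one_pow, one_pow]
        ring
      · rw [if_pos ⟨hu, hv⟩, hu.neg_one_pow, hv.neg_one_pow, one_pow, one_pow]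
        ring
  rw [hid, abs_le]
  rw [abs_le] at k1 k2 k3 k4
  constructor <;> linarith [k1.1, k1.2, k2.1, k2.2, k3.1, k3.2, k4.1, k4.2]

theorem sum_card_one {V : Type} [DecidableEq V] (I : Finset V) (f : Finset V → ℝ) :
    ∑ u ∈ I.powerset, (if u.card = 1 then f u else 0) = ∑ i ∈ I, f {i} := by
  rw [← Finset.sum_filter, ← Finset.powersetCard_eq_filter, Finset.powersetCard_one,
    Finset.sum_map]
  rfl

/-- the error terms -/
noncomputable def errpart {V : Type} [DecidableEq V] (I J T : Finset V) (q : ℝ)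
    (d : Finset V → ℝ) : ℝ :=
  ∑ u ∈ I.powerset, ∑ v ∈ J.powerset,
    (if (Odd u.card ∧ Odd v.card) ∧ ¬ (u.card = 1 ∧ v.card = 1) then
      q ^ u.card * (if v ⊆ T then 1 else 0) * |d (u ∪ v)| else 0)

theorem main_le {V : Type} [DecidableEq V] (I J : Finset V) (hIJ : Disjoint I J)
    (d : Finset V → ℝ)
    (hrz : ∀ r : V → ℝ, (∀ g, |r g| ≤ 1) →
      |∑ w ∈ (I ∪ J).powerset, (∏ g ∈ w, r g) * d w| ≤ 1)
    (q : ℝ) (hq0 : 0 ≤ q) (hq1 : q ≤ 1) (T : Finset V) (hT : T ⊆ J) (y : V → ℝ)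
    (hy : ∀ g, |y g| ≤ 1) :
    q * ∑ i ∈ I, |∑ j ∈ T, y j * d ({i} ∪ {j})| ≤ 1 + errpart I J T q d := by
  set z : V → ℝ := fun i => ∑ j ∈ T, y j * d ({i} ∪ {j}) with hz
  set x : V → ℝ := fun i => if z i < 0 then -1 else 1 with hx
  have hx1 : ∀ i, |x i| ≤ 1 := by
    intro i
    simp only [hx]
    split_ifs <;> simp
  have hxz : ∀ i, x i * z i = |z i| := by
    intro i
    simp only [hx]
    split_ifs with h
    · rw [abs_of_neg h]; ring
    · rw [abs_of_nonneg (not_lt.1 h)]; ring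
  set r : V → ℝ := fun g => if g ∈ I then q * x g else if g ∈ T then y g else 0 with hr
  have hr1 : ∀ g, |r g| ≤ 1 := by
    intro g
    simp only [hr]
    split_ifs
    · rw [abs_mul, abs_of_nonneg hq0]
      exact mul_le_one₀ hq1 (abs_nonneg _) (hx1 g)
    · exact hy g
    · simp
  have h1 := oddpart_le I J hIJ d hrz r hr1
  have hJI : ∀ g ∈ J, g ∉ I := fun g hg h => Finset.disjoint_left.1 hIJ h hg
  -- decomposition
  have h2 : oddpart I J r d = (∑ u ∈ I.powerset, ∑ v ∈ J.powerset,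
      (if u.card = 1 then (if v.card = 1 then
        (∏ g ∈ u, r g) * (∏ g ∈ v, r g) * d (u ∪ v) else 0) else 0)) +
      ∑ u ∈ I.powerset, ∑ v ∈ J.powerset,
        (if (Odd u.card ∧ Odd v.card) ∧ ¬ (u.card = 1 ∧ v.card = 1) then
          (∏ g ∈ u, r g) * (∏ g ∈ v, r g) * d (u ∪ v) else 0) := by
    unfold oddpart
    rw [← Finset.sum_add_distrib]
    refine Finset.sum_congr rfl fun u _ => ?_
    rw [← Finset.sum_add_distrib]
    refine Finset.sum_congr rfl fun v _ => ?_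
    by_cases hu : u.card = 1
    · by_cases hv : v.card = 1
      · have : Odd 1 := odd_one
        simp [hu, hv]
      · simp [hu, hv]
    · simp [hu]
  have h3 : (∑ u ∈ I.powerset, ∑ v ∈ J.powerset,
      (if u.card = 1 then (if v.card = 1 then
        (∏ g ∈ u, r g) * (∏ g ∈ v, r g) * d (u ∪ v) else 0) else 0)) =
      q * ∑ i ∈ I, |z i| := by
    have h4 : ∀ u ∈ I.powerset, ∑ v ∈ J.powerset,
      (if u.card = 1 then (if v.card = 1 then
        (∏ g ∈ u, r g) * (∏ g ∈ v, r g) * d (u ∪ v) else 0) else 0) =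
        if u.card = 1 then ∑ v ∈ J.powerset, (if v.card = 1 then
        (∏ g ∈ u, r g) * (∏ g ∈ v, r g) * d (u ∪ v) else 0) else 0 := by
      intro u _
      split_ifs <;> simp
    rw [Finset.sum_congr rfl h4, sum_card_one, Finset.mul_sum]
    refine Finset.sum_congr rfl fun i hi => ?_
    rw [sum_card_one J (fun v => (∏ g ∈ {i}, r g) * (∏ g ∈ v, r g) * d ({i} ∪ v))]
    have h5 : ∀ j ∈ J, (∏ g ∈ ({i} : Finset V), r g) * (∏ g ∈ ({j} : Finset V), r g) *
        d ({i} ∪ {j}) = if j ∈ T then q * x i * (y j * d ({i} ∪ {j})) else 0 := by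
      intro j hj
      rw [Finset.prod_singleton, Finset.prod_singleton]
      have hri : r i = q * x i := by simp only [hr]; rw [if_pos hi]
      have hrj : r j = if j ∈ T then y j else 0 := by
        simp only [hr]; rw [if_neg (hJI j hj)]
      rw [hri, hrj]
      split_ifs <;> ring
    rw [Finset.sum_congr rfl h5, ← Finset.sum_filter, ← Finset.mul_sum]
    have h6 : J.filter (fun j => j ∈ T) = T := by
      ext j
      simp only [mem_filter]
      exact ⟨fun h => h.2, fun h => ⟨hT h, h⟩⟩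
    rw [h6, mul_assoc]
    show q * (x i * z i) = _
    rw [hxz]
  have h7 : |∑ u ∈ I.powerset, ∑ v ∈ J.powerset,
        (if (Odd u.card ∧ Odd v.card) ∧ ¬ (u.card = 1 ∧ v.card = 1) then
          (∏ g ∈ u, r g) * (∏ g ∈ v, r g) * d (u ∪ v) else 0)| ≤ errpart I J T q d := by
    unfold errpart
    refine (Finset.abs_sum_le_sum_abs _ _).trans (Finset.sum_le_sum fun u hu => ?_)
    refine (Finset.abs_sum_le_sum_abs _ _).trans (Finset.sum_le_sum fun v hv => ?_)
    rw [mem_powerset] at hu hv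
    split_ifs with h8 h9
    · rw [abs_mul, abs_mul, Finset.abs_prod, Finset.abs_prod, mul_one]
      refine mul_le_mul_of_nonneg_right ?_ (abs_nonneg _)
      have h10 : ∏ g ∈ u, |r g| ≤ q ^ u.card := by
        rw [← Finset.prod_const]
        refine Finset.prod_le_prod (fun g _ => abs_nonneg _) fun g hg => ?_
        simp only [hr]
        rw [if_pos (hu hg), abs_mul, abs_of_nonneg hq0]
        exact mul_le_of_le_one_right hq0 (hx1 g)
      have h11 : ∏ g ∈ v, |r g| ≤ 1 :=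
        Finset.prod_le_one (fun g _ => abs_nonneg _) fun g _ => hr1 g
      have h12 : 0 ≤ ∏ g ∈ u, |r g| := Finset.prod_nonneg fun g _ => abs_nonneg _
      have h13 : 0 ≤ ∏ g ∈ v, |r g| := Finset.prod_nonneg fun g _ => abs_nonneg _
      calc (∏ g ∈ u, |r g|) * ∏ g ∈ v, |r g| ≤ (∏ g ∈ u, |r g|) * 1 :=
            mul_le_mul_of_nonneg_left h11 h12
        _ ≤ q ^ u.card := by rw [mul_one]; exact h10
    · have h10 : ∃ g ∈ v, g ∉ T := Finset.not_subset.1 h9
      obtain ⟨g, hg, hgT⟩ := h10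
      have h11 : ∏ g ∈ v, r g = 0 := by
        refine Finset.prod_eq_zero hg ?_
        simp only [hr]
        rw [if_neg (hJI g (hv hg)), if_neg hgT]
      rw [h11]
      simp
    · simp
  rw [h2, h3] at h1
  rw [abs_le] at h1 h7
  linarith [h1.1, h1.2, h7.1, h7.2]

theorem main_avg {V : Type} [DecidableEq V] (I J : Finset V) (hIJ : Disjoint I J)
    (d : Finset V → ℝ)
    (hrz : ∀ r : V → ℝ, (∀ g, |r g| ≤ 1) →
      |∑ w ∈ (I ∪ J).powerset, (∏ g ∈ w, r g) * d w| ≤ 1)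
    (q : ℝ) (hq0 : 0 ≤ q) (hq1 : q ≤ 1) (T : Finset V) (hT : T ⊆ J) :
    q * ∑ i ∈ I, Real.sqrt (∑ j ∈ T, d ({i} ∪ {j}) ^ 2) / Real.sqrt 3 ≤
      1 + errpart I J T q d := by
  have h1 : ∀ W ∈ T.powerset, q * ∑ i ∈ I, |∑ j ∈ T, bsg W j * d ({i} ∪ {j})| ≤
      1 + errpart I J T q d := by
    intro W _
    refine main_le I J hIJ d hrz q hq0 hq1 T hT (bsg W) ?_
    intro g
    unfold bsg
    split_ifs <;> simp
  have h2 := Finset.sum_le_sum h1
  rw [Finset.sum_const, ← Finset.mul_sum, Finset.sum_comm, card_powerset, nsmul_eq_mul] at h2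
  have h3 : ∑ i ∈ I, 2 ^ T.card * (Real.sqrt (∑ j ∈ T, d ({i} ∪ {j}) ^ 2) / Real.sqrt 3) ≤
      ∑ i ∈ I, ∑ W ∈ T.powerset, |∑ j ∈ T, bsg W j * d ({i} ∪ {j})| :=
    Finset.sum_le_sum fun i _ => khin (fun j => d ({i} ∪ {j})) T
  rw [← Finset.mul_sum] at h3
  have h4 : (0 : ℝ) < 2 ^ T.card := by positivity
  have h5 := mul_le_mul_of_nonneg_left h3 hq0
  push_cast at h2
  refine le_of_mul_le_mul_left ?_ h4
  calc _ = q * (2 ^ T.card * ∑ i ∈ I,
        Real.sqrt (∑ j ∈ T, d ({i} ∪ {j}) ^ 2) / Real.sqrt 3) := by ring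
    _ ≤ _ := h5.trans h2


theorem err_avg {V : Type} [DecidableEq V] (I J : Finset V) (hIJ : Disjoint I J)
    (d : Finset V → ℝ) (q : ℝ) (hq0 : 0 ≤ q) (hq1 : q ≤ 1) (L : ℝ)
    (hL : ∑ w ∈ (I ∪ J).powerset, |d w| ≤ L) :
    ∑ T ∈ J.powerset, bwt q J T * errpart I J T q d ≤ q ^ 4 * L := by
  have h1 : ∑ T ∈ J.powerset, bwt q J T * errpart I J T q d =
      ∑ u ∈ I.powerset, ∑ v ∈ J.powerset,
      (if (Odd u.card ∧ Odd v.card) ∧ ¬ (u.card = 1 ∧ v.card = 1) then
        q ^ u.card * q ^ v.card * |d (u ∪ v)| else 0) := by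
    unfold errpart
    simp_rw [Finset.mul_sum]
    rw [Finset.sum_comm]
    refine Finset.sum_congr rfl fun u _ => ?_
    rw [Finset.sum_comm]
    refine Finset.sum_congr rfl fun v hv => ?_
    rw [mem_powerset] at hv
    split_ifs with h
    · rw [← bwt_sub q J v hv, Finset.mul_sum, Finset.sum_mul]
      refine Finset.sum_congr rfl fun T _ => ?_
      ring
    · simp
  rw [h1]
  calc _ ≤ ∑ u ∈ I.powerset, ∑ v ∈ J.powerset, q ^ 4 * |d (u ∪ v)| := by
        refine Finset.sum_le_sum fun u _ => Finset.sum_le_sum fun v _ => ?_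
        split_ifs with h
        · refine mul_le_mul_of_nonneg_right ?_ (abs_nonneg _)
          rw [← pow_add]
          refine pow_le_pow_of_le_one hq0 hq1 ?_
          obtain ⟨⟨⟨a, ha⟩, ⟨b, hb⟩⟩, h3⟩ := h
          rw [ha, hb] at h3
          rw [ha, hb]
          omega
        · positivity
    _ = q ^ 4 * ∑ w ∈ (I ∪ J).powerset, |d w| := by
        rw [bb_split I J hIJ, Finset.mul_sum]
        simp_rw [Finset.mul_sum]
    _ ≤ q ^ 4 * L := mul_le_mul_of_nonneg_left hL (by positivity)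

theorem sqrt_avg {V : Type} [DecidableEq V] (q : ℝ) (hq0 : 0 ≤ q) (hq1 : q ≤ 1)
    (J G : Finset V) (hG : G ⊆ J) (a : ℝ) (ha : 0 < a) (hGa : q * G.card + 1 ≤ a) :
    q * G.card / Real.sqrt a ≤
      ∑ T ∈ J.powerset, bwt q J T * Real.sqrt ((T ∩ G).card : ℝ) := by
  have hs : 0 < Real.sqrt a := Real.sqrt_pos.2 ha
  have hs2 : Real.sqrt a ^ 2 = a := Real.sq_sqrt ha.le
  have h1 : ∀ T ∈ J.powerset, bwt q J T * ((3 * a * ((T ∩ G).card : ℝ) -
      ((T ∩ G).card : ℝ) ^ 2) / (2 * Real.sqrt a ^ 3)) ≤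
      bwt q J T * Real.sqrt ((T ∩ G).card : ℝ) := by
    intro T _
    refine mul_le_mul_of_nonneg_left ?_ (bwt_nonneg q hq0 hq1 J T)
    have h2 := bb_cube (Real.sqrt_nonneg ((T ∩ G).card : ℝ)) hs
    have h3 : Real.sqrt ((T ∩ G).card : ℝ) ^ 2 = (T ∩ G).card :=
      Real.sq_sqrt (Nat.cast_nonneg _)
    have h4 : Real.sqrt ((T ∩ G).card : ℝ) ^ 4 = ((T ∩ G).card : ℝ) ^ 2 := by
      have : (4 : ℕ) = 2 * 2 := rfl
      rw [this, pow_mul, h3]
    rw [h4, h3, hs2] at h2
    exact h2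
  refine le_trans ?_ (Finset.sum_le_sum h1)
  have h5 : ∑ T ∈ J.powerset, bwt q J T * ((3 * a * ((T ∩ G).card : ℝ) -
      ((T ∩ G).card : ℝ) ^ 2) / (2 * Real.sqrt a ^ 3)) =
      (3 * a * (q * G.card) - ∑ T ∈ J.powerset, bwt q J T * ((T ∩ G).card : ℝ) ^ 2) /
        (2 * Real.sqrt a ^ 3) := by
    rw [← bwt_card q J G hG, Finset.mul_sum, ← Finset.sum_sub_distrib, Finset.sum_div]
    refine Finset.sum_congr rfl fun T _ => ?_
    ring
  rw [h5, le_div_iff₀ (by positivity), pow_succ, hs2]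
  have h6 := bwt_card_sq q J G hG
  have h7 : q * G.card / Real.sqrt a * (2 * (a * Real.sqrt a)) = 2 * a * (q * G.card) := by
    field_simp
  rw [h7]
  have h8 : 0 ≤ q * G.card := by positivity
  nlinarith

theorem bilinear_bound {V : Type} [AddCommGroup V] [DecidableEq V] (c : V → ℝ) (α : V)
    (I J : Finset V) (hIJ : Disjoint I J)
    (hrz : ∀ r : V → ℝ, (∀ g, |r g| ≤ 1) →
      |∑ w ∈ (I ∪ J).powerset, (∏ g ∈ w, r g) * c (α + ∑ g ∈ w, g)| ≤ 1)
    (L : ℝ) (hL : ∑ w ∈ (I ∪ J).powerset, |c (α + ∑ g ∈ w, g)| ≤ L)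
    (F : Finset (V × V)) (hF : F ⊆ I ×ˢ J) (b : ℝ) (hb0 : 0 ≤ b)
    (hb : ∀ p ∈ F, b ≤ |c (α + (p.1 + p.2))|)
    (D : ℝ) (hD : ∀ i ∈ I, ((F.filter fun p => p.1 = i).card : ℝ) ≤ D) (k : ℕ) (hk : 0 < k) :
    b * F.card ≤ 2 * (k : ℝ) ^ 2 * Real.sqrt (1 + D / k) * (1 + L / (k : ℝ) ^ 4) := by
  have hL0 : 0 ≤ L := (Finset.sum_nonneg fun w _ => abs_nonneg _).trans hL
  have hk0 : (0 : ℝ) < k := Nat.cast_pos.2 hk
  rcases F.eq_empty_or_nonempty with rfl | ⟨p₀, hp₀⟩
  · simp only [card_empty, Nat.cast_zero, mul_zero]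
    positivity
  have hD0 : 0 ≤ D := (Nat.cast_nonneg _).trans (hD p₀.1 (Finset.mem_product.1 (hF hp₀)).1)
  set a : ℝ := 1 + D / k with ha
  have ha0 : 0 < a := by positivity
  set q : ℝ := 1 / k with hq
  have hq0 : 0 ≤ q := by positivity
  have hq1 : q ≤ 1 := by
    rw [hq, div_le_one hk0]
    exact_mod_cast hk
  set d : Finset V → ℝ := fun w => c (α + ∑ g ∈ w, g) with hd
  set Gi : V → Finset V := fun i => J.filter (fun j => (i, j) ∈ F) with hGi
  have hGJ : ∀ i, Gi i ⊆ J := fun i => Finset.filter_subset _ _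
  have hcard : ∀ i ∈ I, (Gi i).card = (F.filter fun p => p.1 = i).card := by
    intro i hi
    refine Finset.card_bij (fun j _ => (i, j)) ?_ ?_ ?_
    · intro j hj
      simp only [hGi, mem_filter] at hj ⊢
      exact ⟨hj.2, trivial⟩
    · intro j _ j' _ h
      exact (Prod.mk.inj h).2
    · intro p hp
      simp only [mem_filter] at hp
      refine ⟨p.2, ?_, ?_⟩
      · simp only [hGi, mem_filter]
        refine ⟨(Finset.mem_product.1 (hF hp.1)).2, ?_⟩
        rw [← hp.2]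
        exact hp.1
      · rw [← hp.2]
  have hFsum : (F.card : ℝ) = ∑ i ∈ I, ((Gi i).card : ℝ) := by
    have h1 : F.card = ∑ i ∈ I, (F.filter fun p => p.1 = i).card :=
      Finset.card_eq_sum_card_fiberwise fun p hp => (Finset.mem_product.1 (hF hp)).1
    rw [h1]
    push_cast
    refine Finset.sum_congr rfl fun i hi => ?_
    rw [hcard i hi]
  -- the average over the random subset
  have h1 : ∀ T ∈ J.powerset, bwt q J T *
      (q * ∑ i ∈ I, b * Real.sqrt ((T ∩ Gi i).card : ℝ) / Real.sqrt 3) ≤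
      bwt q J T * (1 + errpart I J T q d) := by
    intro T hT
    rw [mem_powerset] at hT
    refine mul_le_mul_of_nonneg_left ?_ (bwt_nonneg q hq0 hq1 J T)
    refine le_trans ?_ (main_avg I J hIJ d hrz q hq0 hq1 T hT)
    refine mul_le_mul_of_nonneg_left (Finset.sum_le_sum fun i hi => ?_) hq0
    refine div_le_div_of_nonneg_right ?_ (Real.sqrt_nonneg _)
    rw [← Real.sqrt_sq hb0, ← Real.sqrt_mul (sq_nonneg b)]
    refine Real.sqrt_le_sqrt ?_
    have h2 : b ^ 2 * ((T ∩ Gi i).card : ℝ) = ∑ j ∈ T ∩ Gi i, b ^ 2 := by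
      rw [Finset.sum_const, nsmul_eq_mul]
      ring
    rw [h2]
    refine le_trans (Finset.sum_le_sum fun j hj => ?_)
      (Finset.sum_le_sum_of_subset_of_nonneg Finset.inter_subset_left
        fun j _ _ => sq_nonneg (d ({i} ∪ {j})))
    rw [mem_inter] at hj
    have hjF : (i, j) ∈ F := (Finset.mem_filter.1 hj.2).2
    have hne : i ≠ j := by
      intro h
      exact Finset.disjoint_left.1 hIJ hi (h ▸ hT hj.1)
    have h3 : d ({i} ∪ {j}) = c (α + (i + j)) := by
      simp only [hd]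
      rw [Finset.sum_union (Finset.disjoint_singleton.2 hne), Finset.sum_singleton,
        Finset.sum_singleton]
    rw [h3, ← sq_abs (c (α + (i + j)))]
    exact pow_le_pow_left₀ hb0 (hb (i, j) hjF) 2
  have h4 := Finset.sum_le_sum h1
  have h5 : ∑ T ∈ J.powerset, bwt q J T * (1 + errpart I J T q d) ≤ 1 + q ^ 4 * L := by
    simp_rw [mul_add, mul_one]
    rw [Finset.sum_add_distrib, bwt_one]
    have := err_avg I J hIJ d q hq0 hq1 L hL
    linarith
  have h6 : ∑ T ∈ J.powerset, bwt q J T *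
      (q * ∑ i ∈ I, b * Real.sqrt ((T ∩ Gi i).card : ℝ) / Real.sqrt 3) =
      q * b / Real.sqrt 3 * ∑ i ∈ I, ∑ T ∈ J.powerset,
        bwt q J T * Real.sqrt ((T ∩ Gi i).card : ℝ) := by
    rw [Finset.sum_comm, Finset.mul_sum]
    refine Finset.sum_congr rfl fun T _ => ?_
    rw [Finset.mul_sum, Finset.mul_sum, Finset.mul_sum]
    refine Finset.sum_congr rfl fun i _ => ?_
    ring
  have h7 : ∑ i ∈ I, q * (Gi i).card / Real.sqrt a ≤ ∑ i ∈ I, ∑ T ∈ J.powerset,
        bwt q J T * Real.sqrt ((T ∩ Gi i).card : ℝ) := by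
    refine Finset.sum_le_sum fun i hi => ?_
    refine sqrt_avg q hq0 hq1 J (Gi i) (hGJ i) a ha0 ?_
    rw [hcard i hi, ha, hq]
    have := hD i hi
    have h8 : 1 / (k : ℝ) * ((F.filter fun p => p.1 = i).card : ℝ) ≤ D / k := by
      rw [one_div, inv_mul_eq_div]
      exact div_le_div_of_nonneg_right this hk0.le
    linarith
  have h8 : ∑ i ∈ I, q * (Gi i).card / Real.sqrt a = q * F.card / Real.sqrt a := by
    rw [hFsum, Finset.mul_sum, Finset.sum_div]
  rw [h8] at h7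
  rw [h6] at h4
  have h3p : 0 < Real.sqrt 3 := Real.sqrt_pos.2 (by norm_num)
  have hap : 0 < Real.sqrt a := Real.sqrt_pos.2 ha0
  have h9 : q * b / Real.sqrt 3 * (q * F.card / Real.sqrt a) ≤ 1 + q ^ 4 * L :=
    (mul_le_mul_of_nonneg_left h7 (by positivity)).trans (h4.trans h5)
  have h10 : q ^ 4 * L = L / (k : ℝ) ^ 4 := by
    rw [hq, one_div, inv_pow, inv_mul_eq_div]
  rw [h10] at h9
  have h11 : q * b / Real.sqrt 3 * (q * F.card / Real.sqrt a) =
      b * F.card / (Real.sqrt 3 * (k : ℝ) ^ 2 * Real.sqrt a) := by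
    rw [hq]
    field_simp
  rw [h11, div_le_iff₀ (by positivity)] at h9
  have h12 : Real.sqrt 3 ≤ 2 := by
    rw [Real.sqrt_le_left (by norm_num)]
    norm_num
  have h13 : 0 ≤ 1 + L / (k : ℝ) ^ 4 := by positivity
  calc b * F.card ≤ (1 + L / (k : ℝ) ^ 4) * (Real.sqrt 3 * (k : ℝ) ^ 2 * Real.sqrt a) := h9
    _ = Real.sqrt 3 * ((k : ℝ) ^ 2 * Real.sqrt a * (1 + L / (k : ℝ) ^ 4)) := by ring
    _ ≤ 2 * ((k : ℝ) ^ 2 * Real.sqrt a * (1 + L / (k : ℝ) ^ 4)) :=
        mul_le_mul_of_nonneg_right h12 (by positivity)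
    _ = _ := by ring

end Pool.Agent.Lib_helper67.LR
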