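import Pool.Agent.Lib_helper67.LR.Defs

/-!
Block FB of the power saving for XOR functions: the known bound through the spectral norm.
-/

set_option autoImplicit false

namespace Pool.Agent.Lib_helper67.LR

open Finset Pool.Agent.Lib_helper78.LR
open scoped BigOperators

section

variable {Ω : Type} [Fintype Ω] [DecidableEq Ω]

theorem fb_inversion (f : G Ω → ℝ) (x : G Ω) : ∑ a, nc f a * chi a x = f x := by
  have h := inversion f x
  have hN : (2 : ℝ) ^ Fintype.card Ω ≠ 0 := by positivity
  unfold nc
  have h1 : ∀ a : G Ω, coef f a / 2 ^ Fintype.card Ω * chi a x =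
      (coef f a * chi a x) / 2 ^ Fintype.card Ω := fun a => by ring
  rw [Finset.sum_congr rfl fun a _ => h1 a, ← Finset.sum_div, h]
  field_simp

omit [DecidableEq Ω] in
theorem fb_chi_pm (a x : G Ω) : chi a x = 1 ∨ chi a x = -1 := by
  unfold chi sg
  split_ifs <;> simp

/-- uncertainty principle -/
theorem fb_unc (g : G Ω → ℝ) (B : Finset (G Ω)) (hB : spec g ⊆ B) (x₁ : G Ω) (h1 : g x₁ ≠ 0) :
    Fintype.card (G Ω) ≤ (univ.filter fun x => g x ≠ 0).card * B.card := by
  obtain ⟨x₀, -, hx₀⟩ := Finset.exists_max_image (univ : Finset (G Ω)) (fun x => |g x|)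
    ⟨x₁, Finset.mem_univ _⟩
  have hg0 : 0 < |g x₀| := lt_of_lt_of_le (abs_pos.2 h1) (hx₀ x₁ (Finset.mem_univ _))
  have hcoef : ∀ a, |coef g a| ≤ (univ.filter fun x => g x ≠ 0).card * |g x₀| := by
    intro a
    unfold coef
    refine (Finset.abs_sum_le_sum_abs _ _).trans ?_
    have h2 : ∀ x ∈ (univ : Finset (G Ω)), |g x * chi a x| ≤ if g x ≠ 0 then |g x₀| else 0 := by
      intro x _
      split_ifs with h
      · rw [abs_mul]
        have : |chi a x| = 1 := by
          rcases fb_chi_pm a x with h3 | h3 <;> rw [h3] <;> simp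
        rw [this, mul_one]
        exact hx₀ x (Finset.mem_univ _)
      · rw [not_not] at h
        rw [h]; simp
    refine (Finset.sum_le_sum h2).trans ?_
    rw [← Finset.sum_filter, Finset.sum_const, nsmul_eq_mul]
  have h3 := inversion g x₀
  have h4 : ∑ a, coef g a * chi a x₀ = ∑ a ∈ B, coef g a * chi a x₀ := by
    symm
    refine Finset.sum_subset (Finset.subset_univ _) fun a _ ha => ?_
    have : a ∉ spec g := fun h => ha (hB h)
    rw [mem_spec, not_not] at this
    rw [this, zero_mul]
  rw [h4] at h3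
  have h5 : (2 : ℝ) ^ Fintype.card Ω * |g x₀| ≤
      B.card * ((univ.filter fun x => g x ≠ 0).card * |g x₀|) := by
    have h6 : (2 : ℝ) ^ Fintype.card Ω * |g x₀| = |(2 : ℝ) ^ Fintype.card Ω * g x₀| := by
      rw [abs_mul, abs_of_pos (by positivity : (0 : ℝ) < 2 ^ Fintype.card Ω)]
    rw [h6, ← h3]
    refine (Finset.abs_sum_le_sum_abs _ _).trans ?_
    rw [← nsmul_eq_mul, ← Finset.sum_const]
    refine Finset.sum_le_sum fun a _ => ?_
    rw [abs_mul]
    have : |chi a x₀| = 1 := by
      rcases fb_chi_pm a x₀ with h3 | h3 <;> rw [h3] <;> simp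
    rw [this, mul_one]
    exact hcoef a
  have h7 : (2 : ℝ) ^ Fintype.card Ω ≤ B.card * (univ.filter fun x => g x ≠ 0).card := by
    rw [← mul_assoc] at h5
    exact le_of_mul_le_mul_right h5 hg0
  have h8 : Fintype.card (G Ω) = 2 ^ Fintype.card Ω := by
    simp [G, ZMod.card]
  rw [h8]
  rw [mul_comm] at h7
  exact_mod_cast h7

/-- the flat through `x₀` -/
noncomputable def flat (T : Finset (G Ω)) (x₀ : G Ω) : Finset (G Ω) :=
  univ.filter fun x => ∀ a ∈ T, chi a x = chi a x₀

theorem mem_flat (T : Finset (G Ω)) (x₀ x : G Ω) :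
    x ∈ flat T x₀ ↔ ∀ a ∈ T, chi a x = chi a x₀ := by simp [flat]

theorem fb_coef_mul (g : G Ω → ℝ) (a b : G Ω) :
    coef (fun x => g x * chi a x) b = coef g (a + b) := by
  unfold coef
  refine Finset.sum_congr rfl fun x _ => ?_
  rw [chi_add_left]
  ring

theorem fb_unc_flat (T : Finset (G Ω)) : ∀ (g : G Ω → ℝ) (B : Finset (G Ω)), spec g ⊆ B →
    ∀ x₀ : G Ω, g x₀ ≠ 0 →
    (flat T x₀).card ≤ ((flat T x₀).filter fun x => g x ≠ 0).card * B.card := by
  induction T using Finset.induction_on with
  | empty =>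
    intro g B hB x₀ h0
    have h1 : flat (∅ : Finset (G Ω)) x₀ = univ := by
      ext x; simp [mem_flat]
    rw [h1, Finset.card_univ]
    exact fb_unc g B hB x₀ h0
  | insert a T ha ih =>
    intro g B hB x₀ h0
    by_cases hc : ∀ x ∈ flat T x₀, chi a x = chi a x₀
    · have h1 : flat (insert a T) x₀ = flat T x₀ := by
        ext x
        simp only [mem_flat, mem_insert, forall_eq_or_imp]
        constructor
        · exact fun h => h.2
        · intro h
          exact ⟨hc x ((mem_flat T x₀ x).2 h), h⟩
      rw [h1]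
      exact ih g B hB x₀ h0
    · push Not at hc
      obtain ⟨x₁, hx₁, hne⟩ := hc
      rw [mem_flat] at hx₁
      -- halves
      have h1 : flat (insert a T) x₀ = (flat T x₀).filter fun x => chi a x = chi a x₀ := by
        ext x
        simp only [mem_flat, mem_insert, forall_eq_or_imp, mem_filter]
        exact ⟨fun h => ⟨h.2, h.1⟩, fun h => ⟨h.2, h.1⟩⟩
      have hshift : chi a (x₀ + x₁) = -1 := by
        rw [chi_add]
        rcases fb_chi_pm a x₀ with h2 | h2 <;> rcases fb_chi_pm a x₁ with h3 | h3
        · exact absurd (h3.trans h2.symm) hne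
        · rw [h2, h3]; norm_num
        · rw [h2, h3]; norm_num
        · exact absurd (h3.trans h2.symm) hne
      have h2 : ((flat T x₀).filter fun x => ¬ chi a x = chi a x₀).card =
          ((flat T x₀).filter fun x => chi a x = chi a x₀).card := by
        refine Finset.card_bij (fun x _ => x + (x₀ + x₁)) ?_ ?_ ?_
        · intro x hx
          simp only [mem_filter, mem_flat] at hx ⊢
          refine ⟨fun b hb => ?_, ?_⟩
          · rw [chi_add, chi_add, hx.1 b hb, hx₁ b hb, chi_mul_self, mul_one]
          · rw [chi_add, hshift]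
            rcases fb_chi_pm a x₀ with h2 | h2 <;> rcases fb_chi_pm a x with h3 | h3 <;>
              rw [h2, h3] at hx <;> rw [h2, h3] <;>
              first | (exact absurd rfl hx.2) | norm_num
        · intro x _ y _ h
          exact add_right_cancel h
        · intro y hy
          simp only [mem_filter, mem_flat] at hy
          refine ⟨y + (x₀ + x₁), ?_, ?_⟩
          · simp only [mem_filter, mem_flat]
            refine ⟨fun b hb => ?_, ?_⟩
            · rw [chi_add, chi_add, hy.1 b hb, hx₁ b hb, chi_mul_self, mul_one]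
            · rw [chi_add, hshift, hy.2]
              rcases fb_chi_pm a x₀ with h2 | h2 <;> rw [h2] <;> norm_num
          · rw [add_assoc, add_self, add_zero]
      have h3 := Finset.card_filter_add_card_filter_not (s := flat T x₀)
        (fun x => chi a x = chi a x₀)
      set g' : G Ω → ℝ := fun x => g x + chi a x₀ * (g x * chi a x) with hg'
      have hval : ∀ x, g' x = if chi a x = chi a x₀ then 2 * g x else 0 := by
        intro x
        simp only [hg']
        split_ifs with h
        · rw [h]
          have := chi_mul_self a x₀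
          linear_combination (g x) * this
        · rcases fb_chi_pm a x₀ with h2 | h2 <;> rcases fb_chi_pm a x with h3 | h3 <;>
            rw [h2, h3] at h <;> rw [h2, h3] <;> first | (exact absurd rfl h) | ring
      have hspec : spec g' ⊆ B ∪ B.image (fun b => a + b) := by
        intro b hb
        rw [mem_spec] at hb
        have h4 : coef g' b = coef g b + chi a x₀ * coef g (a + b) := by
          rw [← fb_coef_mul]
          exact coef_add g (fun x => g x * chi a x) (chi a x₀) b
        rw [mem_union, mem_image]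
        by_cases h5 : coef g b = 0
        · right
          refine ⟨a + b, hB ?_, ?_⟩
          · rw [mem_spec]
            intro h6
            apply hb
            rw [h4, h5, h6]
            ring
          · rw [← add_assoc, add_self, zero_add]
        · left
          exact hB ((mem_spec g b).2 h5)
      have hg'0 : g' x₀ ≠ 0 := by
        rw [hval, if_pos rfl]
        exact mul_ne_zero two_ne_zero h0
      have h4 := ih g' _ hspec x₀ hg'0
      have h5 : ((flat T x₀).filter fun x => g' x ≠ 0) =
          ((flat (insert a T) x₀).filter fun x => g x ≠ 0) := by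
        rw [h1, Finset.filter_filter]
        refine Finset.filter_congr fun x _ => ?_
        rw [hval]
        split_ifs with h6
        · simp [h6]
        · simp [h6]
      rw [h5] at h4
      have h6 : (B ∪ B.image (fun b => a + b)).card ≤ 2 * B.card := by
        refine (Finset.card_union_le _ _).trans ?_
        have := Finset.card_image_le (s := B) (f := fun b => a + b)
        omega
      have h7 : (flat T x₀).card = 2 * (flat (insert a T) x₀).card := by
        rw [h1]; omega
      rw [h7] at h4
      have h8 := h4.trans (Nat.mul_le_mul_left _ h6)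
      nlinarith

theorem fb_log (L : ℝ) (hL : 1 ≤ L) : (L - 1) / (L + 1) ≤ Real.exp (-(2 / L)) := by
  rcases hL.eq_or_lt with h | h
  · rw [← h]; simp only [sub_self, zero_div]; positivity
  · have hL0 : 0 < L := by linarith
    have hy : |1 / L| < 1 := by
      rw [abs_of_pos (by positivity), div_lt_one hL0]
      exact h
    have h1 := Real.hasSum_log_sub_log_of_abs_lt_one hy
    have h2 := h1.summable
    have h3 : 2 / L ≤ Real.log (1 + 1 / L) - Real.log (1 - 1 / L) := by
      have h4 := le_hasSum h1 0 (fun k _ => by positivity)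
      refine le_trans (le_of_eq ?_) h4
      simp
      ring
    have h5 : 0 < 1 + 1 / L := by positivity
    have h6 : 0 < 1 - 1 / L := by
      rw [sub_pos, div_lt_one hL0]; exact h
    rw [← Real.log_div h5.ne' h6.ne'] at h3
    have h7 : (L - 1) / (L + 1) = ((1 + 1 / L) / (1 - 1 / L))⁻¹ := by
      rw [inv_div]
      have : L - 1 ≠ 0 := by linarith
      have : L + 1 ≠ 0 := by linarith
      field_simp
    rw [h7, Real.exp_neg]
    refine inv_anti₀ (Real.exp_pos _) ?_
    rw [← Real.le_log_iff_exp_le (by positivity)]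
    exact h3

theorem fb_L_ge (f : G Ω → ℝ) (hf : IsSign f) : 1 ≤ ∑ a, |nc f a| := by
  have h1 := fb_inversion f 0
  have h2 : |f 0| = 1 := by
    rcases hf 0 with h | h <;> rw [h] <;> simp
  rw [← h2, ← h1]
  refine (Finset.abs_sum_le_sum_abs _ _).trans (Finset.sum_le_sum fun a _ => ?_)
  rw [abs_mul]
  have : |chi a 0| = 1 := by
    rcases fb_chi_pm a 0 with h3 | h3 <;> rw [h3] <;> simp
  rw [this, mul_one]

/-- the half space on which `a` agrees with the sign of the coefficient -/
noncomputable def pos (f : G Ω → ℝ) (a : G Ω) (x : G Ω) : Prop := 0 < nc f a * chi a x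

open Classical in
theorem fb_pointwise (f : G Ω → ℝ) (a x : G Ω) :
    |nc f a| + nc f a * chi a x = 2 * |nc f a| * (if pos f a x then 1 else 0) := by
  unfold pos
  rcases lt_trichotomy (nc f a) 0 with h | h | h
  · rcases fb_chi_pm a x with h2 | h2
    · rw [h2, abs_of_neg h, if_neg (by linarith)]; ring
    · rw [h2, abs_of_neg h, if_pos (by linarith)]; ring
  · rw [h]; simp
  · rcases fb_chi_pm a x with h2 | h2
    · rw [h2, abs_of_pos h, if_pos (by linarith)]; ring
    · rw [h2, abs_of_pos h, if_neg (by linarith)]; ring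

open Classical in
theorem fb_sum_half (f : G Ω → ℝ) (H : Finset (G Ω)) (v : ℝ) (hv : ∀ x ∈ H, f x = v) :
    ∑ a, 2 * |nc f a| * ((H.filter fun x => pos f a x).card : ℝ) =
      H.card * (∑ a, |nc f a| + v) := by
  have h1 : ∀ a : G Ω, 2 * |nc f a| * ((H.filter fun x => pos f a x).card : ℝ) =
      ∑ x ∈ H, (|nc f a| + nc f a * chi a x) := by
    intro a
    rw [Finset.card_filter]
    push_cast
    rw [Finset.mul_sum]
    exact Finset.sum_congr rfl fun x _ => (fb_pointwise f a x).symm
  rw [Finset.sum_congr rfl fun a _ => h1 a, Finset.sum_comm]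
  have h2 : ∀ x ∈ H, ∑ a, (|nc f a| + nc f a * chi a x) = ∑ a, |nc f a| + v := by
    intro x hx
    rw [Finset.sum_add_distrib, fb_inversion, hv x hx]
  rw [Finset.sum_congr rfl h2, Finset.sum_const, nsmul_eq_mul]

open Classical in
theorem fb_step (f : G Ω → ℝ) (hf : IsSign f) (L : ℝ) (hL : L = ∑ a, |nc f a|)
    (T : Finset (G Ω)) (x₀ : G Ω) (hx₀ : f x₀ = 1) :
    ∃ a x₁, f x₁ = 1 ∧ x₁ ∈ flat T x₀ ∧
      (((flat (insert a T) x₁).filter fun x => f x = -1).card : ℝ) *
        ((L + 1) * ((flat T x₀).filter fun x => f x = 1).card) ≤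
      (((flat (insert a T) x₁).filter fun x => f x = 1).card : ℝ) *
        ((L - 1) * ((flat T x₀).filter fun x => f x = -1).card) := by
  set P := (flat T x₀).filter fun x => f x = 1 with hP
  set M := (flat T x₀).filter fun x => f x = -1 with hM
  have hL1 : 1 ≤ L := hL ▸ fb_L_ge f hf
  have hPpos : (0 : ℝ) < P.card := by
    rw [Nat.cast_pos, Finset.card_pos]
    exact ⟨x₀, by rw [hP, mem_filter, mem_flat]; exact ⟨fun _ _ => rfl, hx₀⟩⟩
  have e1 := fb_sum_half f P 1 (fun x hx => (Finset.mem_filter.1 hx).2)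
  have e2 := fb_sum_half f M (-1) (fun x hx => (Finset.mem_filter.1 hx).2)
  rw [← hL] at e1 e2
  -- choice of a
  have hex : ∃ a, 0 < |nc f a| ∧ 0 < ((P.filter fun x => pos f a x).card : ℝ) ∧
      ((M.filter fun x => pos f a x).card : ℝ) * ((L + 1) * P.card) ≤
        ((P.filter fun x => pos f a x).card : ℝ) * ((L - 1) * M.card) := by
    by_contra hcon
    push Not at hcon
    have h1 : ∑ a, 2 * |nc f a| * (((P.filter fun x => pos f a x).card : ℝ) *
        ((L - 1) * M.card) - ((M.filter fun x => pos f a x).card : ℝ) *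
        ((L + 1) * P.card)) = 0 := by
      have h2 : ∀ a, 2 * |nc f a| * (((P.filter fun x => pos f a x).card : ℝ) *
        ((L - 1) * M.card) - ((M.filter fun x => pos f a x).card : ℝ) *
        ((L + 1) * P.card)) =
          (2 * |nc f a| * ((P.filter fun x => pos f a x).card : ℝ)) * ((L - 1) * M.card) -
          (2 * |nc f a| * ((M.filter fun x => pos f a x).card : ℝ)) * ((L + 1) * P.card) :=
        fun a => by ring
      rw [Finset.sum_congr rfl fun a _ => h2 a, Finset.sum_sub_distrib, ← Finset.sum_mul,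
        ← Finset.sum_mul, e1, e2]
      ring
    have h3 : ∃ a, 0 < 2 * |nc f a| * ((P.filter fun x => pos f a x).card : ℝ) := by
      by_contra h4
      push Not at h4
      have h5 : ∑ a, 2 * |nc f a| * ((P.filter fun x => pos f a x).card : ℝ) ≤ 0 :=
        Finset.sum_nonpos fun a _ => h4 a
      rw [e1] at h5
      have : (0 : ℝ) < P.card * (L + 1) := by positivity
      linarith
    obtain ⟨a₀, ha₀⟩ := h3
    have h6 : ∀ a, 2 * |nc f a| * (((P.filter fun x => pos f a x).card : ℝ) *
        ((L - 1) * M.card) - ((M.filter fun x => pos f a x).card : ℝ) *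
        ((L + 1) * P.card)) ≤ 0 := by
      intro a
      rcases (abs_nonneg (nc f a)).eq_or_lt with h7 | h7
      · rw [← h7]; simp
      · rcases (Nat.cast_nonneg (α := ℝ) (P.filter fun x => pos f a x).card).eq_or_lt with h8 | h8
        · rw [← h8]
          have : 0 ≤ ((M.filter fun x => pos f a x).card : ℝ) * ((L + 1) * P.card) := by positivity
          nlinarith
        · have := hcon a h7 h8
          nlinarith
    have h7 : 0 < |nc f a₀| := by
      rcases (abs_nonneg (nc f a₀)).eq_or_lt with h7 | h7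
      · rw [← h7] at ha₀; simp at ha₀
      · exact h7
    have h8 : 0 < ((P.filter fun x => pos f a₀ x).card : ℝ) := by
      rcases (Nat.cast_nonneg (α := ℝ) (P.filter fun x => pos f a₀ x).card).eq_or_lt with h8 | h8
      · rw [← h8] at ha₀; simp at ha₀
      · exact h8
    have h9 := hcon a₀ h7 h8
    have h10 : ∑ a, 2 * |nc f a| * (((P.filter fun x => pos f a x).card : ℝ) *
        ((L - 1) * M.card) - ((M.filter fun x => pos f a x).card : ℝ) *
        ((L + 1) * P.card)) < 0 := by
      refine Finset.sum_neg' (fun a _ => h6 a) ⟨a₀, Finset.mem_univ _, ?_⟩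
      nlinarith
    linarith
  obtain ⟨a, ha, hPa, hle⟩ := hex
  rw [Nat.cast_pos, Finset.card_pos] at hPa
  obtain ⟨x₁, hx₁⟩ := hPa
  rw [mem_filter, hP, mem_filter] at hx₁
  refine ⟨a, x₁, hx₁.1.2, hx₁.1.1, ?_⟩
  have hpos : ∀ x, pos f a x ↔ chi a x = chi a x₁ := by
    intro x
    have h1 : 0 < nc f a * chi a x₁ := hx₁.2
    unfold pos
    rcases fb_chi_pm a x with h2 | h2 <;> rcases fb_chi_pm a x₁ with h3 | h3 <;>
      rw [h3] at h1 <;> rw [h2, h3]
    · simp only [iff_true]; exact h1
    · constructor
      · intro h; linarith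
      · intro h; norm_num at h
    · constructor
      · intro h; linarith
      · intro h; norm_num at h
    · simp only [iff_true]; exact h1
  have hflat : ∀ v : ℝ, (flat (insert a T) x₁).filter (fun x => f x = v) =
      ((flat T x₀).filter fun x => f x = v).filter fun x => pos f a x := by
    intro v
    ext x
    have h1 := (mem_flat T x₀ x₁).1 hx₁.1.1
    simp only [mem_filter, mem_flat, mem_insert, forall_eq_or_imp, hpos]
    constructor
    · rintro ⟨⟨h2, h3⟩, h4⟩
      exact ⟨⟨fun b hb => (h3 b hb).trans (h1 b hb), h4⟩, h2⟩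
    · rintro ⟨⟨h2, h3⟩, h4⟩
      exact ⟨⟨h4, fun b hb => (h2 b hb).trans (h1 b hb).symm⟩, h3⟩
  rw [hflat, hflat]
  exact hle

theorem fb_iter (f : G Ω → ℝ) (hf : IsSign f) (L : ℝ) (hL : L = ∑ a, |nc f a|)
    (hmaj : (univ.filter fun x => f x = -1).card ≤ (univ.filter fun x => f x = 1).card)
    (t : ℕ) : ∃ (T : Finset (G Ω)) (x₀ : G Ω), T.card ≤ t ∧ f x₀ = 1 ∧
      (((flat T x₀).filter fun x => f x = -1).card : ℝ) ≤
        ((L - 1) / (L + 1)) ^ t * ((flat T x₀).filter fun x => f x = 1).card := by
  have hL1 : 1 ≤ L := hL ▸ fb_L_ge f hf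
  induction t with
  | zero =>
    have hne : ∃ x₀, f x₀ = 1 := by
      by_contra hcon
      push Not at hcon
      have h1 : (univ.filter fun x => f x = 1) = ∅ := by
        ext x; simp [hcon x]
      have h2 : (univ.filter fun x => f x = -1) = univ := by
        ext x
        simp only [mem_filter, mem_univ, true_and, iff_true]
        exact (hf x).resolve_left (hcon x)
      rw [h1, h2, card_empty, Nat.le_zero, Finset.card_univ] at hmaj
      exact Fintype.card_ne_zero hmaj
    obtain ⟨x₀, hx₀⟩ := hne
    refine ⟨∅, x₀, by simp, hx₀, ?_⟩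
    have h1 : flat (∅ : Finset (G Ω)) x₀ = univ := by
      ext x; simp [mem_flat]
    rw [h1, pow_zero, one_mul]
    exact_mod_cast hmaj
  | succ t ih =>
    obtain ⟨T, x₀, hT, hx₀, hle⟩ := ih
    obtain ⟨a, x₁, hx₁, hmem, hst⟩ := fb_step f hf L hL T x₀ hx₀
    refine ⟨insert a T, x₁, (Finset.card_insert_le _ _).trans (by omega), hx₁, ?_⟩
    set p : ℝ := (((flat T x₀).filter fun x => f x = 1).card : ℝ) with hp
    set m : ℝ := (((flat T x₀).filter fun x => f x = -1).card : ℝ) with hm
    set p' : ℝ := (((flat (insert a T) x₁).filter fun x => f x = 1).card : ℝ) with hp'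
    set m' : ℝ := (((flat (insert a T) x₁).filter fun x => f x = -1).card : ℝ) with hm'
    have hp0 : 0 < p := by
      rw [hp, Nat.cast_pos, Finset.card_pos]
      exact ⟨x₀, by rw [mem_filter, mem_flat]; exact ⟨fun _ _ => rfl, hx₀⟩⟩
    have hp'0 : 0 ≤ p' := Nat.cast_nonneg _
    have hL2 : 0 < L + 1 := by linarith
    have hL3 : 0 ≤ L - 1 := by linarith
    have h1 : m' * ((L + 1) * p) ≤ p' * ((L - 1) * (((L - 1) / (L + 1)) ^ t * p)) :=
      hst.trans (mul_le_mul_of_nonneg_left (mul_le_mul_of_nonneg_left hle hL3) hp'0)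
    have h2 : m' * (L + 1) ≤ p' * ((L - 1) * ((L - 1) / (L + 1)) ^ t) := by
      refine le_of_mul_le_mul_right ?_ hp0
      linarith
    rw [← le_div_iff₀ hL2] at h2
    refine h2.trans (le_of_eq ?_)
    rw [pow_succ]
    ring

theorem fb_main (f : G Ω → ℝ) (hf : IsSign f)
    (hmaj : (univ.filter fun x => f x = -1).card ≤ (univ.filter fun x => f x = 1).card) :
    Kill f ((∑ a, |nc f a|) / 2 * Real.log ((spec f).card + 1) + 1) := by
  set L := ∑ a, |nc f a| with hL
  have hL1 : 1 ≤ L := fb_L_ge f hf
  set s := (spec f).card with hs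
  set c := L / 2 * Real.log (s + 1) with hc
  have hlog : 0 ≤ Real.log ((s : ℝ) + 1) := Real.log_nonneg (by
    have : (0 : ℝ) ≤ s := Nat.cast_nonneg _
    linarith)
  have hc0 : 0 ≤ c := by positivity
  obtain ⟨T, x₀, hT, hx₀, hle⟩ := fb_iter f hf L hL hmaj (⌊c⌋₊ + 1)
  refine ⟨T, x₀, ?_, ?_⟩
  · have h1 : (T.card : ℝ) ≤ ((⌊c⌋₊ + 1 : ℕ) : ℝ) := by exact_mod_cast hT
    refine h1.trans ?_
    push_cast
    linarith [Nat.floor_le hc0]
  · intro x hx
    rw [hx₀]
    by_contra hne
    have hx1 : f x = -1 := (hf x).resolve_left hne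
    have hfx : flat T x₀ = flat T x := by
      ext y
      rw [mem_flat, mem_flat]
      exact ⟨fun h b hb => (h b hb).trans (hx b hb).symm,
        fun h b hb => (h b hb).trans (hx b hb)⟩
    have hspec : spec (fun y => 1 + (-1) * f y) ⊆ insert 0 (spec f) := by
      intro b hb
      rw [mem_spec, coef_add (fun _ => (1 : ℝ)) f (-1) b] at hb
      rw [mem_insert, mem_spec]
      by_contra hcon
      push Not at hcon
      apply hb
      rw [hcon.2, mul_zero, add_zero]
      unfold coef
      have h1 : ∑ y : G Ω, (1 : ℝ) * chi b y = ∑ y : G Ω, chi y b :=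
        Finset.sum_congr rfl fun y _ => by rw [one_mul, chi_comm]
      rw [h1, sum_chi, if_neg hcon.1]
    have hgx : (fun y => 1 + (-1) * f y) x ≠ 0 := by
      simp only [hx1]; norm_num
    have h1 := fb_unc_flat T (fun y => 1 + (-1) * f y) (insert 0 (spec f)) hspec x hgx
    rw [← hfx] at h1
    have h2 : ((flat T x₀).filter fun y => (1 : ℝ) + (-1) * f y ≠ 0) =
        (flat T x₀).filter fun y => f y = -1 := by
      refine Finset.filter_congr fun y _ => ?_
      rcases hf y with h | h
      · rw [h]; norm_num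
      · rw [h]; norm_num
    rw [h2] at h1
    have h3 : (insert 0 (spec f)).card ≤ s + 1 := Finset.card_insert_le _ _
    have h4 : (flat T x₀).card ≤ ((flat T x₀).filter fun y => f y = -1).card * (s + 1) :=
      h1.trans (Nat.mul_le_mul_left _ h3)
    have h5 : ((flat T x₀).card : ℝ) ≤
        ((flat T x₀).filter fun y => f y = -1).card * ((s : ℝ) + 1) := by exact_mod_cast h4
    have h6 : (((flat T x₀).filter fun y => f y = 1).card : ℝ) ≤ (flat T x₀).card := by
      exact_mod_cast Finset.card_filter_le _ _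
    have hpos : (0 : ℝ) < (flat T x₀).card := by
      rw [Nat.cast_pos, Finset.card_pos]
      exact ⟨x₀, (mem_flat T x₀ x₀).2 fun _ _ => rfl⟩
    have hs1 : (0 : ℝ) < (s : ℝ) + 1 := by positivity
    have hρ0 : 0 ≤ (L - 1) / (L + 1) := div_nonneg (by linarith) (by linarith)
    have h7 : ((flat T x₀).card : ℝ) ≤
        (((L - 1) / (L + 1)) ^ (⌊c⌋₊ + 1) * ((s : ℝ) + 1)) * (flat T x₀).card := by
      calc ((flat T x₀).card : ℝ) ≤
            ((flat T x₀).filter fun y => f y = -1).card * ((s : ℝ) + 1) := h5
        _ ≤ (((L - 1) / (L + 1)) ^ (⌊c⌋₊ + 1) *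
            ((flat T x₀).filter fun y => f y = 1).card) * ((s : ℝ) + 1) :=
            mul_le_mul_of_nonneg_right hle hs1.le
        _ ≤ (((L - 1) / (L + 1)) ^ (⌊c⌋₊ + 1) * (flat T x₀).card) * ((s : ℝ) + 1) :=
            mul_le_mul_of_nonneg_right (mul_le_mul_of_nonneg_left h6 (by positivity)) hs1.le
        _ = _ := by ring
    have h8 : 1 ≤ ((L - 1) / (L + 1)) ^ (⌊c⌋₊ + 1) * ((s : ℝ) + 1) := by
      by_contra h9
      push Not at h9
      nlinarith
    have h9 : ((L - 1) / (L + 1)) ^ (⌊c⌋₊ + 1) < 1 / ((s : ℝ) + 1) := by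
      calc ((L - 1) / (L + 1)) ^ (⌊c⌋₊ + 1) ≤ (Real.exp (-(2 / L))) ^ (⌊c⌋₊ + 1) :=
            pow_le_pow_left₀ hρ0 (fb_log L hL1) _
        _ = Real.exp (-(2 / L * (⌊c⌋₊ + 1 : ℕ))) := by
            rw [← Real.exp_nat_mul]
            congr 1
            ring
        _ < Real.exp (-Real.log ((s : ℝ) + 1)) := by
            rw [Real.exp_lt_exp, neg_lt_neg_iff]
            have h10 : c < ((⌊c⌋₊ + 1 : ℕ) : ℝ) := by
              push_cast
              exact Nat.lt_floor_add_one c
            have hLp : 0 < L := by linarith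
            have h11 : Real.log ((s : ℝ) + 1) = 2 / L * c := by
              rw [hc]; field_simp
            rw [h11]
            exact mul_lt_mul_of_pos_left h10 (by positivity)
        _ = 1 / ((s : ℝ) + 1) := by
            rw [Real.exp_neg, Real.exp_log hs1, one_div]
    have h10 : ((L - 1) / (L + 1)) ^ (⌊c⌋₊ + 1) * ((s : ℝ) + 1) < 1 := by
      rwa [lt_div_iff₀ hs1] at h9
    linarith

end

theorem flat_bound {Ω : Type} [Fintype Ω] [DecidableEq Ω] (f : G Ω → ℝ) (hf : IsSign f) :
    Kill f ((∑ a, |nc f a|) / 2 * Real.log ((spec f).card + 1) + 1) := by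
  rcases le_total (univ.filter fun x => f x = -1).card (univ.filter fun x => f x = 1).card with
    h | h
  · exact fb_main f hf h
  · have hnf : IsSign (fun x => -f x) := by
      intro x
      show -f x = 1 ∨ -f x = -1
      rcases hf x with h1 | h1 <;> rw [h1] <;> simp
    have h1 : ∀ a, coef (fun x => -f x) a = -coef f a := by
      intro a
      unfold coef
      rw [← Finset.sum_neg_distrib]
      exact Finset.sum_congr rfl fun x _ => by ring
    have h2 : spec (fun x => -f x) = spec f := by
      ext a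
      rw [mem_spec, mem_spec, h1]
      simp
    have h3 : ∑ a, |nc (fun x => -f x) a| = ∑ a, |nc f a| := by
      refine Finset.sum_congr rfl fun a _ => ?_
      unfold nc
      rw [h1, neg_div, abs_neg]
    have h4 := fb_main (fun x => -f x) hnf (by
      have e1 : (univ.filter fun x => -f x = -1) = univ.filter fun x => f x = 1 :=
        Finset.filter_congr fun x _ => by rw [neg_inj]
      have e2 : (univ.filter fun x => -f x = 1) = univ.filter fun x => f x = -1 :=
        Finset.filter_congr fun x _ => by rw [neg_eq_iff_eq_neg]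
      rw [e1, e2]
      exact h)
    rw [h2, h3] at h4
    obtain ⟨T, x₀, hT, hk⟩ := h4
    exact ⟨T, x₀, hT, fun x hx => neg_inj.1 (hk x hx)⟩

end Pool.Agent.Lib_helper67.LR
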