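import Pool.Agent.Lib_helper41.Lat.Iface

/-!
# Closed subgroup theorem (von Neumann) for unit groups of finite-dimensional real algebras

Block L of the plan: one-parameter subgroups of a closed subgroup of `GL_m(ℝ)` form a Lie algebra
and the exponential map is a local homeomorphism onto a neighbourhood of the identity.
-/

namespace Pool.Agent.Lat

open Set Topology Filter

namespace ClosedSubgroup

open NormedSpace

variable {A : Type*} [NormedRing A] [NormedAlgebra ℝ A] [NormedAlgebra ℚ A] [CompleteSpace A]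

/-- exponential as a unit -/
noncomputable def eU (X : A) : Aˣ where
  val := exp X
  inv := exp (-X)
  val_inv := by
    rw [← exp_add_of_commute (Commute.neg_right (Commute.refl X)), add_neg_cancel, exp_zero]
  inv_val := by
    rw [← exp_add_of_commute (Commute.neg_left (Commute.refl X)), neg_add_cancel, exp_zero]

omit [NormedAlgebra ℝ A] in
theorem eU_val (X : A) : ((eU X : Aˣ) : A) = exp X := rfl

omit [NormedAlgebra ℝ A] in
theorem eU_add {X Y : A} (h : Commute X Y) : eU (X + Y) = eU X * eU Y :=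
  Units.ext (exp_add_of_commute h)

omit [NormedAlgebra ℝ A] in
theorem eU_zero : eU (0 : A) = 1 := Units.ext (by simp [eU_val])

omit [NormedAlgebra ℝ A] in
theorem eU_neg (X : A) : eU (-X) = (eU X)⁻¹ := by
  refine eq_inv_of_mul_eq_one_left ?_
  rw [← eU_add (Commute.neg_left (Commute.refl X)), neg_add_cancel, eU_zero]

omit [NormedAlgebra ℝ A] in
theorem eU_nsmul (n : ℕ) (X : A) : eU (n • X) = eU X ^ n :=
  Units.ext (by rw [eU_val, exp_nsmul, Units.val_pow_eq_pow_val, eU_val])

omit [NormedAlgebra ℝ A] in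
theorem eU_zsmul (z : ℤ) (X : A) : eU (z • X) = eU X ^ z := by
  obtain ⟨n, rfl | rfl⟩ := z.eq_nat_or_neg
  · rw [zpow_natCast, natCast_zsmul, eU_nsmul]
  · rw [zpow_neg, zpow_natCast, neg_smul, eU_neg, natCast_zsmul, eU_nsmul]

omit [NormedAlgebra ℝ A] in
theorem continuous_eU : Continuous (eU : A → Aˣ) := by
  rw [Units.continuous_iff]
  constructor
  · exact exp_continuous
  · have : (fun x : A => ((eU x)⁻¹ : Aˣ).val) = fun x => exp (-x) := by
      funext x; rw [← eU_neg]; rfl
    rw [this]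
    exact exp_continuous.comp continuous_neg

/-- the Lie algebra of a subgroup as a set -/
def lS (H : Subgroup Aˣ) : Set A := {X | ∀ t : ℝ, eU (t • X) ∈ H}

theorem lS_mem_one {H : Subgroup Aˣ} {X : A} (hX : X ∈ lS H) : eU X ∈ H := by
  have := hX 1
  rwa [one_smul] at this

theorem lS_smul (H : Subgroup Aˣ) {X : A} (hX : X ∈ lS H) (c : ℝ) : c • X ∈ lS H := by
  intro t
  rw [smul_smul]
  exact hX (t * c)

theorem lS_zero (H : Subgroup Aˣ) : (0 : A) ∈ lS H := by
  intro t
  rw [smul_zero, eU_zero]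
  exact H.one_mem

theorem lS_conj (H : Subgroup Aˣ) {X : A} (hX : X ∈ lS H) {g : Aˣ} (hg : g ∈ H) :
    (g : A) * X * (g⁻¹ : Aˣ) ∈ lS H := by
  intro t
  have h : eU (t • ((g : A) * X * (g⁻¹ : Aˣ))) = g * eU (t • X) * g⁻¹ := by
    apply Units.ext
    have : t • ((g : A) * X * (g⁻¹ : Aˣ)) = (g : A) * (t • X) * (g⁻¹ : Aˣ) := by
      rw [mul_smul_comm, smul_mul_assoc]
    rw [eU_val, this, exp_units_conj]
    rfl
  rw [h]
  exact H.mul_mem (H.mul_mem hg (hX t)) (H.inv_mem hg)

theorem lS_closed (H : Subgroup Aˣ) (hH : IsClosed (H : Set Aˣ)) : IsClosed (lS H) := by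
  have : lS H = ⋂ t : ℝ, (fun X : A => eU (t • X)) ⁻¹' (H : Set Aˣ) := by
    ext X
    simp [lS]
  rw [this]
  exact isClosed_iInter fun t => hH.preimage (continuous_eU.comp (continuous_const_smul t))

/-- the key lemma: limits of rescaled logarithms of elements of a closed subgroup -/
theorem key {ι : Type*} {l : Filter ι} [l.NeBot] {H : Subgroup Aˣ}
    (hH : IsClosed (H : Set Aˣ)) (x : ι → A) (s : ι → ℝ) (X : A) (hx : Tendsto x l (𝓝 0))
    (hs : Tendsto (fun i => s i • x i) l (𝓝 X)) (hxH : ∀ᶠ i in l, eU (x i) ∈ H) :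
    X ∈ lS H := by
  intro t
  have h1 : Tendsto (fun i => Int.fract (t * s i) • x i) l (𝓝 0) := by
    refine squeeze_zero_norm (a := fun i => ‖x i‖) (fun i => ?_) ?_
    · rw [norm_smul]
      have : ‖Int.fract (t * s i)‖ ≤ 1 := by
        rw [Real.norm_eq_abs, abs_of_nonneg (Int.fract_nonneg _)]
        exact (Int.fract_lt_one _).le
      calc ‖Int.fract (t * s i)‖ * ‖x i‖ ≤ 1 * ‖x i‖ :=
            mul_le_mul_of_nonneg_right this (norm_nonneg _)
        _ = ‖x i‖ := one_mul _
    · simpa using hx.norm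
  have h2 : Tendsto (fun i => t • (s i • x i) - Int.fract (t * s i) • x i) l (𝓝 (t • X)) := by
    have := (hs.const_smul t).sub h1
    simpa using this
  have h3 : (fun i => t • (s i • x i) - Int.fract (t * s i) • x i) =
      fun i => (⌊t * s i⌋ : ℤ) • x i := by
    funext i
    rw [smul_smul, ← sub_smul, ← Int.cast_smul_eq_zsmul ℝ]
    congr 1
    rw [sub_eq_iff_eq_add]
    exact (Int.floor_add_fract _).symm
  rw [h3] at h2
  have h4 := (continuous_eU.tendsto (t • X)).comp h2
  refine hH.mem_of_tendsto h4 (hxH.mono fun i hi => ?_)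
  show eU ((⌊t * s i⌋ : ℤ) • x i) ∈ H
  rw [eU_zsmul]
  exact H.zpow_mem hi _

omit [NormedAlgebra ℚ A] in
theorem exp_strict : HasStrictFDerivAt (exp : A → A)
    ((ContinuousLinearEquiv.refl ℝ A : A ≃L[ℝ] A) : A →L[ℝ] A) 0 :=
  hasStrictFDerivAt_exp_zero

/-- local logarithm -/
noncomputable def lg : A → A := (exp_strict (A := A)).localInverse _ _ _

omit [NormedAlgebra ℚ A] in
theorem lg_exp : ∀ᶠ x in 𝓝 (0 : A), lg (exp x) = x :=
  (exp_strict (A := A)).eventually_left_inverse

omit [NormedAlgebra ℚ A] in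
theorem exp_lg : ∀ᶠ y in 𝓝 (1 : A), exp (lg y) = y := by
  have := (exp_strict (A := A)).eventually_right_inverse
  rwa [exp_zero] at this

omit [NormedAlgebra ℚ A] in
theorem lg_one : lg (1 : A) = 0 := by
  have := (lg_exp (A := A)).self_of_nhds
  rwa [exp_zero] at this

omit [NormedAlgebra ℚ A] in
theorem lg_deriv : HasFDerivAt (lg : A → A) (ContinuousLinearMap.id ℝ A) 1 := by
  have := (exp_strict (A := A)).to_localInverse.hasFDerivAt
  rw [exp_zero] at this
  exact this

omit [NormedAlgebra ℚ A] in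
theorem exp_line_deriv (X : A) : HasDerivAt (fun t : ℝ => exp (t • X)) X 0 := by
  have h1 : HasFDerivAt (exp : A → A) (1 : A →L[ℝ] A) ((0 : ℝ) • X) := by
    rw [zero_smul]; exact hasStrictFDerivAt_exp_zero.hasFDerivAt
  have h2 : HasDerivAt (fun t : ℝ => t • X) ((1 : ℝ) • X) 0 := (hasDerivAt_id (0 : ℝ)).smul_const X
  have := h1.comp_hasDerivAt (0 : ℝ) h2
  refine HasDerivAt.congr_deriv (f := fun t : ℝ => exp (t • X)) this ?_
  simp

theorem lS_add (H : Subgroup Aˣ) (hH : IsClosed (H : Set Aˣ)) {X Y : A} (hX : X ∈ lS H)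
    (hY : Y ∈ lS H) : X + Y ∈ lS H := by
  set f : ℝ → A := fun t => exp (t • X) * exp (t • Y) with hf
  have hf0 : f 0 = 1 := by simp [hf]
  have hfd : HasDerivAt f (X + Y) 0 := by
    have := (exp_line_deriv X).mul (exp_line_deriv Y)
    refine HasDerivAt.congr_deriv (f := f) this ?_
    simp
  have hgd : HasDerivAt (fun t => lg (f t)) (X + Y) 0 := by
    have h1 : HasFDerivAt (lg : A → A) (ContinuousLinearMap.id ℝ A) (f 0) := by
      rw [hf0]; exact lg_deriv
    have := h1.comp_hasDerivAt (0 : ℝ) hfd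
    refine HasDerivAt.congr_deriv (f := fun t => lg (f t)) this ?_
    simp
  have hs := hgd.tendsto_slope_zero
  simp only [zero_add, hf0, lg_one, sub_zero] at hs
  have hfc : Tendsto f (𝓝[≠] 0) (𝓝 1) := by
    have := hfd.continuousAt.tendsto
    rw [hf0] at this
    exact this.mono_left nhdsWithin_le_nhds
  have hgc : Tendsto (fun t => lg (f t)) (𝓝[≠] 0) (𝓝 0) := by
    have := hgd.continuousAt.tendsto
    simp only [hf0, lg_one] at this
    exact this.mono_left nhdsWithin_le_nhds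
  refine key hH (fun t => lg (f t)) (fun t => t⁻¹) (X + Y) hgc hs ?_
  filter_upwards [hfc.eventually (exp_lg (A := A))] with t ht
  have : eU (lg (f t)) = eU (t • X) * eU (t • Y) := Units.ext ht
  rw [this]
  exact H.mul_mem (hX t) (hY t)

/-- the Lie algebra as a submodule -/
def lSub (H : Subgroup Aˣ) (hH : IsClosed (H : Set Aˣ)) : Submodule ℝ A where
  carrier := lS H
  add_mem' := fun hX hY => lS_add H hH hX hY
  zero_mem' := lS_zero H
  smul_mem' := fun c _ hX => lS_smul H hX c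

theorem mem_lSub {H : Subgroup Aˣ} {hH : IsClosed (H : Set Aˣ)} {X : A} :
    X ∈ lSub H hH ↔ X ∈ lS H := Iff.rfl

theorem lS_bracket (H : Subgroup Aˣ) (hH : IsClosed (H : Set Aˣ)) {X Y : A} (hX : X ∈ lS H)
    (hY : Y ∈ lS H) : X * Y - Y * X ∈ lS H := by
  set f : ℝ → A := fun t => exp (t • X) * Y * exp (t • (-X)) with hf
  have hf0 : f 0 = Y := by simp [hf]
  have hfd : HasDerivAt f (X * Y - Y * X) 0 := by
    have := ((exp_line_deriv X).mul_const Y).mul (exp_line_deriv (-X))
    refine HasDerivAt.congr_deriv (f := f) this ?_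
    simp [sub_eq_add_neg]
  have hs := hfd.tendsto_slope_zero
  simp only [zero_add, hf0] at hs
  refine (lS_closed H hH).mem_of_tendsto hs (Eventually.of_forall fun t => ?_)
  have h1 : f t ∈ lS H := by
    have := lS_conj H hY (hX t)
    rw [← eU_neg, eU_val, eU_val, ← smul_neg] at this
    exact this
  exact (lSub H hH).smul_mem _ ((lSub H hH).sub_mem h1 hY)

section FD

variable [FiniteDimensional ℝ A]

theorem exp_nhds' (H : Subgroup Aˣ) (hH : IsClosed (H : Set Aˣ))
    (U : Set A) (hU : U ∈ 𝓝 (0 : A)) :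
    ∃ W ∈ 𝓝 (1 : Aˣ), ∀ h ∈ H, h ∈ W → ∃ X ∈ lS H, X ∈ U ∧ eU X = h := by
  obtain ⟨V', hV'⟩ := (lSub H hH).exists_isCompl
  obtain ⟨P, hP1, hP2⟩ : ∃ P : A →L[ℝ] A, (∀ Z, P Z ∈ lSub H hH) ∧
      (∀ Z ∈ lSub H hH, P Z = Z) := by
    refine ⟨LinearMap.toContinuousLinearMap ((lSub H hH).projection V' hV'), fun Z => ?_,
      fun Z hZ => ?_⟩
    · exact Submodule.projection_apply_mem hV' Z
    · exact Submodule.projection_apply_left hV' ⟨Z, hZ⟩
  have hPP : ∀ Z, P (Z - P Z) = 0 := fun Z => by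
    rw [map_sub, hP2 _ (hP1 Z), sub_self]
  set Φ : A → A := fun Z => exp (P Z) * exp (Z - P Z) with hΦ
  have hΦ0 : Φ 0 = 1 := by simp [hΦ]
  have hΦd : HasStrictFDerivAt Φ ((ContinuousLinearEquiv.refl ℝ A : A ≃L[ℝ] A) : A →L[ℝ] A) 0 := by
    have e0 : ∀ Z : A, Z = 0 → HasStrictFDerivAt (exp : A → A) (1 : A →L[ℝ] A) Z := by
      rintro Z rfl; exact hasStrictFDerivAt_exp_zero
    have h1 : HasStrictFDerivAt (fun Z => exp (P Z)) P 0 :=
      (e0 (P 0) (map_zero P)).comp (0 : A) P.hasStrictFDerivAt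
    have h2 : HasStrictFDerivAt (fun Z => exp (Z - P Z)) (ContinuousLinearMap.id ℝ A - P) 0 :=
      (e0 (0 - P 0) (by simp)).comp (0 : A) ((hasStrictFDerivAt_id (0 : A)).sub P.hasStrictFDerivAt)
    have h3 := h1.mul' h2
    refine HasStrictFDerivAt.congr_fderiv (f := Φ) h3 ?_
    ext Z
    simp
  set E : A → A := hΦd.localInverse _ _ _ with hE
  have hE1 : E 1 = 0 := by
    have := hΦd.eventually_left_inverse.self_of_nhds
    rwa [hΦ0] at this
  have hEr : ∀ᶠ y in 𝓝 (1 : A), Φ (E y) = y := by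
    have := hΦd.eventually_right_inverse
    rwa [hΦ0] at this
  have hEc : Tendsto E (𝓝 1) (𝓝 0) := by
    have := hΦd.localInverse_continuousAt.tendsto
    rw [hΦ0] at this
    have h2 : Tendsto E (𝓝 1) (𝓝 (E 1)) := this
    rwa [hE1] at h2
  have hval : Tendsto (fun g : Aˣ => (g : A)) (𝓝 1) (𝓝 1) := by
    have := (Units.continuous_val (M := A)).tendsto 1
    simpa using this
  have hEg : Tendsto (fun g : Aˣ => E (g : A)) (𝓝 1) (𝓝 0) := hEc.comp hval
  have hPg : Tendsto (fun g : Aˣ => P (E (g : A))) (𝓝 1) (𝓝 0) := by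
    have := (P.continuous.tendsto 0).comp hEg
    rw [map_zero] at this
    exact this
  have hQg : Tendsto (fun g : Aˣ => E (g : A) - P (E (g : A))) (𝓝 1) (𝓝 0) := by
    have := hEg.sub hPg
    simpa using this
  -- the complementary component vanishes
  have hmain : ∀ᶠ g : Aˣ in 𝓝 1, g ∈ H → E (g : A) - P (E (g : A)) = 0 := by
    by_contra hcon
    rw [Filter.not_eventually] at hcon
    set S : Set Aˣ := {g : Aˣ | ¬ (g ∈ H → E (g : A) - P (E (g : A)) = 0)} with hS
    have hne : (𝓝 (1 : Aˣ) ⊓ 𝓟 S).NeBot := by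
      rw [← Filter.frequently_mem_iff_neBot]
      exact hcon
    set F : Ultrafilter Aˣ := Ultrafilter.of (𝓝 (1 : Aˣ) ⊓ 𝓟 S) with hF
    have hF1 : (F : Filter Aˣ) ≤ 𝓝 1 := (Ultrafilter.of_le _).trans inf_le_left
    have hF2 : ∀ᶠ g in (F : Filter Aˣ), g ∈ S :=
      ((Ultrafilter.of_le (𝓝 (1 : Aˣ) ⊓ 𝓟 S)).trans inf_le_right) (mem_principal_self S)
    set y : Aˣ → A := fun g => E (g : A) - P (E (g : A)) with hy
    set u : Aˣ → A := fun g => ‖y g‖⁻¹ • y g with hu
    have husph : ∀ᶠ g in (F : Filter Aˣ), u g ∈ Metric.sphere (0 : A) 1 := by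
      filter_upwards [hF2] with g hg
      have : y g ≠ 0 := fun h0 => hg fun _ => h0
      rw [mem_sphere_zero_iff_norm, hu]
      simp only [norm_smul, norm_inv, norm_norm]
      exact inv_mul_cancel₀ (norm_ne_zero_iff.mpr this)
    have : ProperSpace A := FiniteDimensional.proper_real A
    obtain ⟨X, hX1, hX2⟩ := (isCompact_sphere (0 : A) 1).ultrafilter_le_nhds (F.map u)
      (by
        rw [Filter.le_principal_iff]
        exact husph)
    have hX2' : Tendsto u (F : Filter Aˣ) (𝓝 X) := hX2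
    have hXl : X ∈ lS H := by
      refine key hH y (fun g => ‖y g‖⁻¹) X (hQg.mono_left hF1) hX2' ?_
      filter_upwards [hF2, hF1 (hval.eventually hEr)] with g hg1 hg2
      have hgH : g ∈ H := by
        by_contra h; exact hg1 fun h' => absurd h' h
      have h1 : eU (P (E (g : A))) ∈ H := lS_mem_one (hP1 (E (g : A)))
      have h2 : eU (y g) = (eU (P (E (g : A))))⁻¹ * g := by
        rw [eq_inv_mul_iff_mul_eq]
        exact Units.ext hg2
      rw [h2]
      exact H.mul_mem (H.inv_mem h1) hgH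
    have hPX : P X = 0 := by
      have h1 : Tendsto (fun g => P (u g)) (F : Filter Aˣ) (𝓝 (P X)) :=
        (P.continuous.tendsto X).comp hX2'
      have h2 : (fun g => P (u g)) = fun _ => 0 := by
        funext g
        rw [hu]
        simp only [map_smul]
        rw [hy]
        simp only [hPP, smul_zero]
      rw [h2] at h1
      exact (tendsto_nhds_unique h1 tendsto_const_nhds)
    rw [hP2 X hXl] at hPX
    rw [hPX, mem_sphere_zero_iff_norm, norm_zero] at hX1
    exact zero_ne_one hX1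
  have hfin : ∀ᶠ g : Aˣ in 𝓝 1, g ∈ H → ∃ X ∈ lS H, X ∈ U ∧ eU X = g := by
    filter_upwards [hmain, hval.eventually hEr, hPg.eventually hU] with g hg1 hg2 hg3 hgH
    refine ⟨P (E (g : A)), hP1 _, hg3, Units.ext ?_⟩
    rw [eU_val]
    have h1 : Φ (E (g : A)) = exp (P (E (g : A))) * exp (E (g : A) - P (E (g : A))) := rfl
    rw [hg1 hgH, exp_zero, mul_one] at h1
    rw [← h1]
    exact hg2
  exact ⟨_, hfin, fun h hh hW => hW hh⟩

theorem closure_exp' (H : Subgroup Aˣ) (hH : IsClosed (H : Set Aˣ))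
    (hc : IsConnected (H : Set Aˣ)) : Subgroup.closure (eU '' lS H) = H := by
  have hle : Subgroup.closure (eU '' lS H) ≤ H := by
    rw [Subgroup.closure_le]
    rintro _ ⟨X, hX, rfl⟩
    exact lS_mem_one hX
  refine le_antisymm hle ?_
  set K : Subgroup Aˣ := Subgroup.closure (eU '' lS H) with hK
  obtain ⟨W, hW, hW2⟩ := exp_nhds' H hH univ univ_mem
  have hopen : IsOpen ((K.subgroupOf H : Subgroup H) : Set H) := by
    refine Subgroup.isOpen_of_mem_nhds _ (g := 1) ?_
    have h1 : (fun h : H => (h : Aˣ)) ⁻¹' W ∈ 𝓝 (1 : H) :=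
      continuous_subtype_val.continuousAt.preimage_mem_nhds hW
    refine mem_of_superset h1 fun h hh => ?_
    obtain ⟨X, hX, -, hX2⟩ := hW2 h h.2 hh
    show h ∈ K.subgroupOf H
    rw [Subgroup.mem_subgroupOf, ← hX2]
    exact Subgroup.subset_closure ⟨X, hX, rfl⟩
  have hclosed : IsClosed ((K.subgroupOf H : Subgroup H) : Set H) :=
    Subgroup.isClosed_of_isOpen _ hopen
  have : ConnectedSpace H := Subtype.connectedSpace hc
  have huniv : ((K.subgroupOf H : Subgroup H) : Set H) = univ :=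
    IsClopen.eq_univ ⟨hclosed, hopen⟩ ⟨1, (K.subgroupOf H).one_mem⟩
  intro h hh
  have : (⟨h, hh⟩ : H) ∈ ((K.subgroupOf H : Subgroup H) : Set H) := by
    rw [huniv]; trivial
  exact this

end FD

end ClosedSubgroup

/-! ## Transfer to matrices -/

section Lie
variable {m : ℕ}

open scoped Matrix.Norms.Operator in
theorem expGL_eq (X : Matrix (Fin m) (Fin m) ℝ) : expGL X = ClosedSubgroup.eU X :=
  Units.ext rfl

open scoped Matrix.Norms.Operator in
theorem lieSet_eq (H : Subgroup (GL (Fin m) ℝ)) : lieSet H = ClosedSubgroup.lS H := rfl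

set_option backward.isDefEq.respectTransparency false in
open scoped Matrix.Norms.Operator in
theorem continuous_expGL :
    Continuous (expGL : Matrix (Fin m) (Fin m) ℝ → GL (Fin m) ℝ) :=
  ClosedSubgroup.continuous_eU

theorem lieSet_smul (H : Subgroup (GL (Fin m) ℝ)) {X : Matrix (Fin m) (Fin m) ℝ}
    (hX : X ∈ lieSet H) (c : ℝ) : c • X ∈ lieSet H := by
  intro t
  rw [smul_smul]
  exact hX (t * c)

set_option backward.isDefEq.respectTransparency false in
open scoped Matrix.Norms.Operator in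
theorem lieSet_conj (H : Subgroup (GL (Fin m) ℝ)) {X : Matrix (Fin m) (Fin m) ℝ}
    (hX : X ∈ lieSet H) {g : GL (Fin m) ℝ} (hg : g ∈ H) :
    (g : Matrix (Fin m) (Fin m) ℝ) * X * (g⁻¹ : GL (Fin m) ℝ) ∈ lieSet H :=
  ClosedSubgroup.lS_conj H hX hg

set_option backward.isDefEq.respectTransparency false in
open scoped Matrix.Norms.Operator in
theorem lieSet_add (H : Subgroup (GL (Fin m) ℝ)) (hH : IsClosed (H : Set (GL (Fin m) ℝ)))
    {X Y : Matrix (Fin m) (Fin m) ℝ} (hX : X ∈ lieSet H) (hY : Y ∈ lieSet H) :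
    X + Y ∈ lieSet H :=
  ClosedSubgroup.lS_add H hH hX hY

set_option backward.isDefEq.respectTransparency false in
open scoped Matrix.Norms.Operator in
theorem lieSet_bracket (H : Subgroup (GL (Fin m) ℝ)) (hH : IsClosed (H : Set (GL (Fin m) ℝ)))
    {X Y : Matrix (Fin m) (Fin m) ℝ} (hX : X ∈ lieSet H) (hY : Y ∈ lieSet H) :
    X * Y - Y * X ∈ lieSet H :=
  ClosedSubgroup.lS_bracket H hH hX hY

set_option backward.isDefEq.respectTransparency false in
open scoped Matrix.Norms.Operator in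
/-- closed subgroup theorem (von Neumann): near the identity, elements of a closed subgroup are
exponentials of small elements of its Lie algebra -/
theorem exp_nhds (H : Subgroup (GL (Fin m) ℝ)) (hH : IsClosed (H : Set (GL (Fin m) ℝ)))
    (U : Set (Matrix (Fin m) (Fin m) ℝ)) (hU : U ∈ 𝓝 (0 : Matrix (Fin m) (Fin m) ℝ)) :
    ∃ W ∈ 𝓝 (1 : GL (Fin m) ℝ), ∀ h ∈ H, h ∈ W → ∃ X ∈ lieSet H, X ∈ U ∧ expGL X = h :=
  ClosedSubgroup.exp_nhds' H hH U hU

set_option backward.isDefEq.respectTransparency false in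
open scoped Matrix.Norms.Operator in
theorem closure_exp_of_connected (H : Subgroup (GL (Fin m) ℝ))
    (hH : IsClosed (H : Set (GL (Fin m) ℝ))) (hc : IsConnected (H : Set (GL (Fin m) ℝ))) :
    Subgroup.closure (expGL '' lieSet H) = H :=
  ClosedSubgroup.closure_exp' H hH hc

/-! ## Extras (closedness, submodule) -/

theorem lieSet_zero (H : Subgroup (GL (Fin m) ℝ)) :
    (0 : Matrix (Fin m) (Fin m) ℝ) ∈ lieSet H := by
  intro t
  have : expGL (t • (0 : Matrix (Fin m) (Fin m) ℝ)) = 1 := by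
    rw [smul_zero]
    exact Units.ext NormedSpace.exp_zero
  rw [this]
  exact H.one_mem

set_option backward.isDefEq.respectTransparency false in
open scoped Matrix.Norms.Operator in
theorem lieSet_isClosed (H : Subgroup (GL (Fin m) ℝ)) (hH : IsClosed (H : Set (GL (Fin m) ℝ))) :
    IsClosed (lieSet H) :=
  ClosedSubgroup.lS_closed H hH

/-- the Lie algebra of a closed subgroup as a linear subspace -/
noncomputable def lieSubmodule (H : Subgroup (GL (Fin m) ℝ))
    (hH : IsClosed (H : Set (GL (Fin m) ℝ))) : Submodule ℝ (Matrix (Fin m) (Fin m) ℝ) where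
  carrier := lieSet H
  add_mem' := fun hX hY => lieSet_add H hH hX hY
  zero_mem' := lieSet_zero H
  smul_mem' := fun c _ hX => lieSet_smul H hX c

theorem mem_lieSubmodule {H : Subgroup (GL (Fin m) ℝ)} {hH : IsClosed (H : Set (GL (Fin m) ℝ))}
    {X : Matrix (Fin m) (Fin m) ℝ} : X ∈ lieSubmodule H hH ↔ X ∈ lieSet H := Iff.rfl

/-- rescaled limits: if `x i → 0`, `s i • x i → X` and `expGL (x i) ∈ H` then `X` is in the Lie
algebra of the closed subgroup `H` -/
theorem lieSet_of_tendsto {ι : Type*} {l : Filter ι} [l.NeBot] {H : Subgroup (GL (Fin m) ℝ)}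
    (hH : IsClosed (H : Set (GL (Fin m) ℝ))) (x : ι → Matrix (Fin m) (Fin m) ℝ) (s : ι → ℝ)
    (X : Matrix (Fin m) (Fin m) ℝ) (hx : Tendsto x l (𝓝 0))
    (hs : Tendsto (fun i => s i • x i) l (𝓝 X)) (hxH : ∀ᶠ i in l, expGL (x i) ∈ H) :
    X ∈ lieSet H := by
  open scoped Matrix.Norms.Operator in
  exact ClosedSubgroup.key hH x s X hx hs hxH

end Lie

end Pool.Agent.Lat
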